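import Pool.Agent.SplLog.Types
import Pool.Agent.SplAll.UCard
import Pool.Agent.SplAll.PrCl

set_option autoImplicit false

namespace Pool.Agent.SplLog

open BinaryTree Pool.Agent.MP_c42954_lc.Scan Pool.Agent.SplAll

/-- A node is touched iff it lies on the search path. -/
theorem onP_iff {v x : ℕ} : ∀ {t : BinaryTree ℕ} {lo hi : ℕ}, IsBST t → Bd lo hi t →
    v ∈ inorder t → x ∈ inorder t → (OnP v x t ↔ lm v t lo < x ∧ x < rh v t hi) := by
  intro t
  induction t with
  | nil =>
    intro lo hi _ _ hv
    simp [inorder] at hv
  | node a l r ihl ihr =>
    intro lo hi hb hB hv hx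
    obtain ⟨h1, h2, h3, h4⟩ := bst_node.1 hb
    obtain ⟨b1, b2, b3, b4⟩ := bd_node hb hB
    rcases mem_node.1 hv with hv | hv | hv
    · have e1 := h3 v hv
      have e2 := ends h1 b3 hv
      rw [lm_lt e1, rh_lt e1]
      have hiff : OnP v x (.node a l r) ↔ x < a ∧ OnP v x l := by
        simp only [OnP]
        constructor
        · rintro (h | h | ⟨_, h⟩)
          · omega
          · exact h
          · have := h4 v (onP_mem h)
            omega
        · intro h
          exact Or.inr (Or.inl h)
      rw [hiff]
      rcases mem_node.1 hx with hx | hx | hx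
      · have e3 := h3 x hx
        rw [ihl h1 b3 hv hx]
        constructor
        · exact fun h => h.2
        · exact fun h => ⟨e3, h⟩
      · constructor
        · intro h
          have := h.1
          omega
        · intro h
          have := h.2
          omega
      · have e3 := h4 x hx
        constructor
        · intro h
          have := h.1
          omega
        · intro h
          have := h.2
          omega
    · subst hv
      rw [lm_self, rh_self]
      have := hB x hx
      constructor
      · exact fun _ => this
      · exact fun _ => Or.inl rfl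
    · have e1 := h4 v hv
      have e2 := ends h2 b4 hv
      rw [lm_gt e1, rh_gt e1]
      have hiff : OnP v x (.node a l r) ↔ a < x ∧ OnP v x r := by
        simp only [OnP]
        constructor
        · rintro (h | ⟨_, h⟩ | h)
          · omega
          · have := h3 v (onP_mem h)
            omega
          · exact h
        · intro h
          exact Or.inr (Or.inr h)
      rw [hiff]
      rcases mem_node.1 hx with hx | hx | hx
      · have e3 := h3 x hx
        constructor
        · intro h
          have := h.1
          omega
        · intro h
          have := h.1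
          omega
      · constructor
        · intro h
          have := h.1
          omega
        · intro h
          have := h.1
          omega
      · have e3 := h4 x hx
        rw [ihr h2 b4 hv hx]
        constructor
        · exact fun h => h.2
        · exact fun h => ⟨e3, h⟩

/-! HINT (TOUCH).  `U = Un X T` is closed in all trees of the run (`closed_Un`, `closed_splay`), so
every touched key lies in `U`; `ucard`. -/
theorem touched_le {T : BinaryTree ℕ} {X : ℕ → ℕ} {m top k : ℕ} (hb : IsBST T)
    (hX : ∀ t, t < m → X t ∈ inorder T) (hB : Bd 0 top T)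
    (h : Exec T ((List.range m).map X) k) : (sysOf T X m top hb hX hB).KE.card ≤ k := by
  have hX' : ∀ x ∈ (List.range m).map X, x ∈ inorder T := by
    intro x hx
    obtain ⟨t, ht, rfl⟩ := List.mem_map.1 hx
    exact hX t (List.mem_range.1 ht)
  refine (Finset.card_le_card ?_).trans (ucard h hb hX')
  have hXU : ∀ t, t < m → X t ∈ Un ((List.range m).map X) T := fun t ht =>
    UCARD_mem.2 ⟨X t, List.mem_map.2 ⟨t, List.mem_range.2 ht, rfl⟩, Or.inl rfl⟩
  have hcl : ∀ t, t ≤ m → Closed (Un ((List.range m).map X) T) (tr T X t) := by
    intro t
    induction t with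
    | zero => intro _; exact closed_Un hb hX'
    | succ t ih =>
      intro ht
      obtain ⟨h1, h2⟩ := tr_inv hb hX t (by omega)
      exact closed_splay h1 (by rw [h2]; exact hX t (by omega)) (hXU t (by omega)) (ih (by omega))
  intro v hv
  classical
  unfold Sys.KE at hv
  rw [Finset.mem_filter] at hv
  obtain ⟨hvK, t, hE⟩ := hv
  have htm : t < m := Sys.E_lt hE
  obtain ⟨h1, h2⟩ := tr_inv hb hX t htm.le
  have h3 : Bd 0 top (tr T X t) := by
    intro w hw
    rw [h2] at hw
    exact hB w hw
  have h4 : v ∈ inorder (tr T X t) := by
    rw [h2]
    exact List.mem_toFinset.1 hvK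
  have h5 : X t ∈ inorder (tr T X t) := by
    rw [h2]
    exact hX t htm
  have h6 : OnP v (X t) (tr T X t) := (onP_iff h1 h3 h4 h5).2 (Sys.E_int hE)
  by_cases h7 : v = X t
  · rw [h7]
    exact hXU t htm
  · exact hcl t htm.le (X t) (hXU t htm) h5 v ((mem_ancs h1 h5).2 ⟨h6, h7⟩)

end Pool.Agent.SplLog
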