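import Pool.Agent.SplLog.Count
import Pool.Agent.SplLog.Touch

set_option autoImplicit false

/-!
# The final theorem
-/

namespace Pool.Agent.SplLog

open BinaryTree Pool.Agent.MP_c42954_lc.Scan

theorem cost_eq : ∀ (X : List ℕ) (T : BinaryTree ℕ), splayCost X T =
    X.length + ∑ t ∈ Finset.range X.length, depth (X.getD t 0) (tr T (fun s => X.getD s 0) t)
  | [], T => by simp [splayCost]
  | x :: X, T => by
      have h : ∀ t, tr T (fun s => (x :: X).getD s 0) (t + 1) =
          tr (splay x T) (fun s => X.getD s 0) t := by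
        intro t
        induction t with
        | zero => rfl
        | succ t ih =>
          show splay _ (tr T (fun s => (x :: X).getD s 0) (t + 1)) = splay _ _
          rw [ih]
          simp
      rw [splayCost, cost_eq X (splay x T), List.length_cons, Finset.sum_range_succ']
      simp only [h, List.getD_cons_succ, List.getD_cons_zero]
      show _ = _ + (_ + depth x T)
      omega

theorem range_map_getD (X : List ℕ) : (List.range X.length).map (fun t => X.getD t 0) = X := by
  apply List.ext_getElem
  · simp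
  · intro i h1 h2
    simp only [List.getElem_map, List.getElem_range]
    rw [List.getD_eq_getElem _ _ h2]

theorem length_le_exec {T : BinaryTree ℕ} {X : List ℕ} {c : ℕ} (h : Exec T X c) :
    X.length ≤ c := by
  induction h with
  | nil T => simp
  | cons h1 h2 ih =>
    simp only [List.length_cons]
    omega

section

variable {n : ℕ} {T : BinaryTree ℕ} {X : List ℕ}

theorem bst_of_range (hT : inorder T = List.range' 1 n) : IsBST T := by
  unfold IsBST
  rw [hT]
  exact List.pairwise_lt_range'

theorem bd_of_range (hT : inorder T = List.range' 1 n) : Bd 0 (n + 1) T := by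
  intro v hv
  rw [hT, List.mem_range'_1] at hv
  omega

theorem getD_mem (hX : ∀ x ∈ X, x ∈ inorder T) : ∀ t, t < X.length → X.getD t 0 ∈ inorder T := by
  intro t ht
  rw [List.getD_eq_getElem _ _ ht]
  exact hX _ (List.getElem_mem ht)

/-- The cost against the number of changes of direction. -/
theorem final_dirs (hT : inorder T = List.range' 1 n) (hX : ∀ x ∈ X, x ∈ inorder T) :
    splayCost X T ≤ 124 * ML n ^ 3 * ((runData n T X).turns + X.length +
        (runData n T X).touchedKeys) := by
  have hn : (inorder T).length = n := by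
    rw [hT]
    simp
  have h1 := run_dirs (X := fun t => X.getD t 0) (bst_of_range hT) (getD_mem hX) (bd_of_range hT)
  rw [cost_eq X T]
  rw [hn] at h1
  exact h1

/-- The number of changes of direction against the cost of an execution. -/
theorem final_exec (hT : inorder T = List.range' 1 n) (hX : ∀ x ∈ X, x ∈ inorder T) {c : ℕ}
    (hE : Exec T X c) :
    (runData n T X).turns ≤ 16 * c + ((runData n T X).hidden +
        ((runData n T X).mirror (n + 1)).hidden) ∧
      X.length ≤ c ∧ (runData n T X).touchedKeys ≤ c := by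
  have hE' : Exec T ((List.range X.length).map (fun t => X.getD t 0)) c := by
    rw [range_map_getD]
    exact hE
  exact ⟨dirs_le (X := fun t => X.getD t 0) (bst_of_range hT) (getD_mem hX) (bd_of_range hT) hE',
    length_le_exec hE,
    touched_le (X := fun t => X.getD t 0) (bst_of_range hT) (getD_mem hX) (bd_of_range hT) hE'⟩

end

/-- The number of levels is `O(log log n)`. -/
theorem ML_le : ∃ C : ℝ, 0 < C ∧ ∀ n : ℕ, 3 ≤ n →
    (ML n : ℝ) ≤ C * Real.log (Real.log n) := by
  have h3 : 1 < Real.log 3 := by
    rw [Real.lt_log_iff_exp_lt (by norm_num)]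
    exact Real.exp_one_lt_d9.trans (by norm_num)
  have h0 : 0 < Real.log (Real.log 3) := Real.log_pos h3
  refine ⟨6 / Real.log (Real.log 3) + 3, by positivity, ?_⟩
  intro n hn
  have hn' : (3 : ℝ) ≤ n := by exact_mod_cast hn
  have hL : Real.log 3 ≤ Real.log n := Real.log_le_log (by norm_num) hn'
  have hL1 : 1 < Real.log n := lt_of_lt_of_le h3 hL
  have hLL : Real.log (Real.log 3) ≤ Real.log (Real.log n) :=
    Real.log_le_log (by linarith) hL
  have hLL0 : 0 < Real.log (Real.log n) := lt_of_lt_of_le h0 hLL
  have hl2 : (0.6931471803 : ℝ) < Real.log 2 := Real.log_two_gt_d9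
  -- `size (n + 1) ≤ log₂ (n + 1) + 1 ≤ log₂ n + 2 ≤ 4 log n`
  have hs1 : (Nat.size (n + 1) : ℝ) ≤ 4 * Real.log n := by
    have e1 : 2 ^ (Nat.size (n + 1) - 1) ≤ n + 1 := by
      rcases Nat.eq_zero_or_pos (Nat.size (n + 1)) with h | h
      · rw [h]
        simp
      · by_contra hcon
        push Not at hcon
        have := Nat.size_le.2 hcon
        omega
    have e2 : 1 ≤ Nat.size (n + 1) := Nat.size_pos.2 (by omega)
    have e3 : ((2 : ℝ) ^ (Nat.size (n + 1) - 1)) ≤ 2 * n := by
      have : ((2 : ℝ) ^ (Nat.size (n + 1) - 1)) ≤ ((n + 1 : ℕ) : ℝ) := by exact_mod_cast e1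
      refine this.trans ?_
      push_cast
      linarith
    have e4 := Real.log_le_log (by positivity) e3
    rw [Real.log_pow, Real.log_mul (by norm_num) (by positivity)] at e4
    have e5 : ((Nat.size (n + 1) - 1 : ℕ) : ℝ) = (Nat.size (n + 1) : ℝ) - 1 := by
      rw [Nat.cast_sub e2]
      simp
    rw [e5] at e4
    have e6 : (Nat.size (n + 1) : ℝ) * Real.log 2 ≤ Real.log n + 2 * Real.log 2 := by
      linarith
    have hl3 : Real.log 2 < 0.6931471808 := Real.log_two_lt_d9
    have e7 : (Nat.size (n + 1) : ℝ) * 0.6931471803 ≤ (Nat.size (n + 1) : ℝ) * Real.log 2 :=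
      mul_le_mul_of_nonneg_left hl2.le (by positivity)
    nlinarith
  have hs0 : 1 ≤ Nat.size (n + 1) := Nat.size_pos.2 (by omega)
  have hs2 : (Nat.log 2 (Nat.size (n + 1)) : ℝ) * Real.log 2 ≤
      2 * Real.log 2 + Real.log (Real.log n) := by
    have e1 : ((2 : ℝ) ^ (Nat.log 2 (Nat.size (n + 1)))) ≤ (Nat.size (n + 1) : ℝ) := by
      exact_mod_cast Nat.pow_log_le_self 2 (by omega)
    have e2 := Real.log_le_log (by positivity) (e1.trans hs1)
    rw [Real.log_pow, Real.log_mul (by norm_num) (by linarith),
      show (4 : ℝ) = 2 ^ 2 by norm_num, Real.log_pow] at e2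
    push_cast at e2
    exact e2
  have hs3 : (Nat.log 2 (Nat.size (n + 1)) : ℝ) ≤ 2 + 1.5 * Real.log (Real.log n) := by
    have e1 : (0 : ℝ) ≤ Nat.log 2 (Nat.size (n + 1)) := by positivity
    by_contra hcon
    push Not at hcon
    nlinarith
  have hs4 : (ML n : ℝ) ≤ 6 + 3 * Real.log (Real.log n) := by
    unfold ML
    push_cast
    linarith
  have hs5 : 6 ≤ 6 / Real.log (Real.log 3) * Real.log (Real.log n) := by
    rw [div_mul_eq_mul_div, le_div_iff₀ h0]
    nlinarith
  linarith

/-- **The final theorem.** -/
theorem final : ∃ C : ℝ, 0 < C ∧ ∀ (n : ℕ) (T : BinaryTree ℕ) (X : List ℕ), 3 ≤ n →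
    inorder T = List.range' 1 n → (∀ x ∈ X, x ∈ inorder T) →
    (splayCost X T : ℝ) ≤ C * Real.log (Real.log n) ^ 3 *
        ((runData n T X).turns + X.length + (runData n T X).touchedKeys) ∧
    ∀ c : ℕ, Exec T X c →
      (runData n T X).turns ≤ 16 * c + ((runData n T X).hidden +
        ((runData n T X).mirror (n + 1)).hidden) ∧
      (splayCost X T : ℝ) ≤ C * Real.log (Real.log n) ^ 3 *
        (c + ((runData n T X).hidden + ((runData n T X).mirror (n + 1)).hidden)) := by
  obtain ⟨C, hC, hML⟩ := ML_le
  refine ⟨2232 * C ^ 3, by positivity, ?_⟩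
  intro n T X hn hT hX
  have h1 := final_dirs hT hX
  have h2 := hML n hn
  have h3 : (ML n : ℝ) ^ 3 ≤ C ^ 3 * Real.log (Real.log n) ^ 3 := by
    rw [← mul_pow]
    exact pow_le_pow_left₀ (by positivity) h2 3
  have h4 : (0 : ℝ) ≤ C ^ 3 * Real.log (Real.log n) ^ 3 := le_trans (by positivity) h3
  have h5 : (splayCost X T : ℝ) ≤ 124 * (ML n : ℝ) ^ 3 * ((runData n T X).turns + X.length +
      (runData n T X).touchedKeys) := by exact_mod_cast h1
  have h6 : (splayCost X T : ℝ) ≤ 124 * (C ^ 3 * Real.log (Real.log n) ^ 3) *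
      ((runData n T X).turns + X.length + (runData n T X).touchedKeys) := by
    refine h5.trans (mul_le_mul_of_nonneg_right ?_ (by positivity))
    linarith
  constructor
  · refine h6.trans ?_
    have : 2232 * C ^ 3 * Real.log (Real.log n) ^ 3 =
        2232 * (C ^ 3 * Real.log (Real.log n) ^ 3) := by ring
    rw [this]
    refine mul_le_mul_of_nonneg_right ?_ (by positivity)
    linarith
  · intro c hE
    obtain ⟨g1, g2, g3⟩ := final_exec hT hX hE
    refine ⟨g1, h6.trans ?_⟩
    have g4 : (runData n T X).turns + X.length + (runData n T X).touchedKeys ≤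
        18 * (c + ((runData n T X).hidden + ((runData n T X).mirror (n + 1)).hidden)) := by
      omega
    have g5 : (((runData n T X).turns + X.length + (runData n T X).touchedKeys : ℕ) : ℝ) ≤
        ((18 * (c + ((runData n T X).hidden +
          ((runData n T X).mirror (n + 1)).hidden)) : ℕ) : ℝ) := by
      exact_mod_cast g4
    push_cast at g5
    calc 124 * (C ^ 3 * Real.log (Real.log n) ^ 3) *
          ((runData n T X).turns + X.length + (runData n T X).touchedKeys)
        ≤ 124 * (C ^ 3 * Real.log (Real.log n) ^ 3) * (18 * (c + ((runData n T X).hidden +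
          ((runData n T X).mirror (n + 1)).hidden))) :=
          mul_le_mul_of_nonneg_left g5 (by positivity)
      _ = 2232 * C ^ 3 * Real.log (Real.log n) ^ 3 * (c + ((runData n T X).hidden +
          ((runData n T X).mirror (n + 1)).hidden)) := by ring

end Pool.Agent.SplLog
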