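import Pool.Agent.SplLog.Basic

set_option autoImplicit false

/-!
# The mirror image
-/

namespace Pool.Agent.SplLog

namespace Sys

theorem lam_lt_top (S : Sys) {t v : ℕ} (ht : t ≤ S.m) (hv : v ∈ S.K) : S.lam t v < S.top := by
  have h1 := S.lam_lt t ht v hv
  have h2 := S.key v hv
  omega

theorem rho_le_top (S : Sys) {t v : ℕ} (ht : t ≤ S.m) (hv : v ∈ S.K) : S.rho t v ≤ S.top := by
  rcases S.rho_mem t ht v hv with h | h
  · omega
  · exact (S.key _ h).2.le

theorem LF_mir {K K' : ℕ → Prop} {N x : ℕ} {l r l' r' : ℕ → ℕ} {v : ℕ}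
    (hK : ∀ w, K w → 0 < w ∧ w < N ∧ K' (N - w)) (hv : K v) (hx : x < N) (hvx : v < x)
    (hl : ∀ w, K w → l w < w) (hr : ∀ w, K w → w < r w ∧ r w ≤ N)
    (h : LF K x l r l' r' v) :
    RF K' (N - x) (fun w => N - r (N - w)) (fun w => N - l (N - w)) (fun w => N - r' (N - w))
      (fun w => N - l' (N - w)) (N - v) := by
  have e : ∀ w, K w → N - (N - w) = w := by
    intro w hw
    have := hK w hw
    omega
  have h1 := hK v hv
  have h2 := hl v hv
  have h3 := hr v hv
  unfold LF at h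
  unfold RF
  simp only
  rw [e v hv]
  rcases h with ⟨c1, c2, c3⟩ | ⟨c1, c2, c3⟩ | ⟨c1, p, c2, c3, c4, c5, c6, c7, c8, c9, c10⟩
  · left
    exact ⟨by omega, by omega, by omega⟩
  · right; left
    refine ⟨by omega, by omega, ?_⟩
    rcases c3 with c3 | ⟨d1, d2, d3, d4, d5⟩
    · left
      rw [c3]
    · right
      rw [e _ d1]
      refine ⟨(hK _ d1).2.2, by omega, by omega, by omega, by omega⟩
  · right; right
    refine ⟨by omega, N - p, (hK _ c2).2.2, ?_, ?_, ?_, ?_, ?_, ?_, ?_, ?_⟩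
    · have := hK p c2
      omega
    · have := hK p c2
      omega
    · omega
    · omega
    · rw [e p c2]
      omega
    · rw [e p c2]
      omega
    · rw [e p c2]
      omega
    · rw [e p c2]
      omega

theorem RF_mir {K K' : ℕ → Prop} {N x : ℕ} {l r l' r' : ℕ → ℕ} {v : ℕ}
    (hK : ∀ w, K w → 0 < w ∧ w < N ∧ K' (N - w)) (hv : K v) (hx : x < N) (hvx : x < v)
    (hl : ∀ w, K w → l w < w) (hr : ∀ w, K w → w < r w ∧ r w ≤ N)
    (h : RF K x l r l' r' v) :
    LF K' (N - x) (fun w => N - r (N - w)) (fun w => N - l (N - w)) (fun w => N - r' (N - w))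
      (fun w => N - l' (N - w)) (N - v) := by
  have e : ∀ w, K w → N - (N - w) = w := by
    intro w hw
    have := hK w hw
    omega
  have h1 := hK v hv
  have h2 := hl v hv
  have h3 := hr v hv
  unfold RF at h
  unfold LF
  simp only
  rw [e v hv]
  rcases h with ⟨c1, c2, c3⟩ | ⟨c1, c2, c3⟩ | ⟨c1, p, c2, c3, c4, c5, c6, c7, c8, c9, c10⟩
  · left
    exact ⟨by omega, by omega, by omega⟩
  · right; left
    refine ⟨by omega, by omega, ?_⟩
    rcases c3 with c3 | ⟨d1, d2, d3, d4, d5⟩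
    · left
      rw [c3]
    · right
      rw [e _ d1]
      refine ⟨(hK _ d1).2.2, by omega, by omega, by omega, by omega⟩
  · right; right
    refine ⟨by omega, N - p, (hK _ c2).2.2, ?_, ?_, ?_, ?_, ?_, ?_, ?_, ?_⟩
    · have := hK p c2
      omega
    · have := hK p c2
      omega
    · omega
    · omega
    · rw [e p c2]
      omega
    · rw [e p c2]
      omega
    · rw [e p c2]
      omega
    · rw [e p c2]
      omega

/-- The mirror image of a system. -/
def mir (S : Sys) : Sys where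
  K := S.K.image (fun v => S.top - v)
  top := S.top
  m := S.m
  lam t v := S.top - S.rho t (S.top - v)
  rho t v := S.top - S.lam t (S.top - v)
  X t := S.top - S.X t
  key := by
    intro v hv
    rw [Finset.mem_image] at hv
    obtain ⟨u, hu, rfl⟩ := hv
    have := S.key u hu
    omega
  req := by
    intro t ht
    exact Finset.mem_image_of_mem _ (S.req t ht)
  lam_lt := by
    intro t ht v hv
    rw [Finset.mem_image] at hv
    obtain ⟨u, hu, rfl⟩ := hv
    have h1 := S.key u hu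
    have h2 := S.lt_rho t ht u hu
    have h3 := S.rho_le_top ht hu
    rw [Nat.sub_sub_self h1.2.le]
    omega
  lt_rho := by
    intro t ht v hv
    rw [Finset.mem_image] at hv
    obtain ⟨u, hu, rfl⟩ := hv
    have h1 := S.key u hu
    have h2 := S.lam_lt t ht u hu
    rw [Nat.sub_sub_self h1.2.le]
    omega
  lam_mem := by
    intro t ht v hv
    rw [Finset.mem_image] at hv
    obtain ⟨u, hu, rfl⟩ := hv
    have h1 := S.key u hu
    rw [Nat.sub_sub_self h1.2.le]
    rcases S.rho_mem t ht u hu with h | h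
    · left
      omega
    · right
      exact Finset.mem_image_of_mem _ h
  rho_mem := by
    intro t ht v hv
    rw [Finset.mem_image] at hv
    obtain ⟨u, hu, rfl⟩ := hv
    have h1 := S.key u hu
    rw [Nat.sub_sub_self h1.2.le]
    rcases S.lam_mem t ht u hu with h | h
    · left
      omega
    · right
      exact Finset.mem_image_of_mem _ h
  lamin := by
    intro t ht u' hu v' hv huv
    rw [Finset.mem_image] at hu hv
    obtain ⟨u, hu, rfl⟩ := hu
    obtain ⟨v, hv, rfl⟩ := hv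
    have h1 := S.key u hu
    have h2 := S.key v hv
    rw [Nat.sub_sub_self h1.2.le, Nat.sub_sub_self h2.2.le]
    have h3 := S.lam_lt t ht u hu
    have h4 := S.lam_lt t ht v hv
    have h5 := S.lt_rho t ht u hu
    have h6 := S.lt_rho t ht v hv
    have h7 := S.rho_le_top ht hu
    have h8 := S.rho_le_top ht hv
    rcases S.lamin t ht v hv u hu (by omega) with h | h | h <;> omega
  lam_anc := by
    intro t ht v hv hl
    rw [Finset.mem_image] at hv
    obtain ⟨u, hu, rfl⟩ := hv
    have h1 := S.key u hu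
    rw [Nat.sub_sub_self h1.2.le] at hl ⊢
    have h3 := S.rho_le_top ht hu
    have h4 : S.rho t u ∈ S.K := by
      rcases S.rho_mem t ht u hu with h | h
      · exfalso
        rw [h, Finset.mem_image] at hl
        obtain ⟨w, hw, hw'⟩ := hl
        have := S.key w hw
        omega
      · exact h
    rw [Nat.sub_sub_self h3]
    have := S.rho_anc t ht u hu h4
    omega
  rho_anc := by
    intro t ht v hv hl
    rw [Finset.mem_image] at hv
    obtain ⟨u, hu, rfl⟩ := hv
    have h1 := S.key u hu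
    rw [Nat.sub_sub_self h1.2.le] at hl ⊢
    have h3 := S.lam_lt_top ht hu
    have h4 : S.lam t u ∈ S.K := by
      rcases S.lam_mem t ht u hu with h | h
      · exfalso
        rw [h, Finset.mem_image] at hl
        obtain ⟨w, hw, hw'⟩ := hl
        have := S.key w hw
        omega
      · exact h
    rw [Nat.sub_sub_self h3.le]
    have h5 := S.lam_anc t ht u hu h4
    have h6 := S.rho_le_top ht h4
    omega
  acc := by
    intro t ht
    have h1 := S.key _ (S.req t ht)
    have h2 := S.acc t ht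
    rw [Nat.sub_sub_self h1.2.le, h2.1, h2.2]
    simp
  right := by
    intro t ht v hv hx
    rw [Finset.mem_image] at hv
    obtain ⟨u, hu, rfl⟩ := hv
    have h0 := S.key _ (S.req t ht)
    have h1 := S.key u hu
    refine LF_mir (K := fun w => w ∈ S.K) ?_ hu h0.2 (by omega) ?_ ?_
      (S.left t ht u hu (by omega))
    · intro w hw
      have h2 := S.key w hw
      exact ⟨h2.1, h2.2, Finset.mem_image_of_mem _ hw⟩
    · intro w hw
      exact S.lam_lt t ht.le w hw
    · intro w hw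
      exact ⟨S.lt_rho t ht.le w hw, S.rho_le_top ht.le hw⟩
  left := by
    intro t ht v hv hx
    rw [Finset.mem_image] at hv
    obtain ⟨u, hu, rfl⟩ := hv
    have h0 := S.key _ (S.req t ht)
    have h1 := S.key u hu
    refine RF_mir (K := fun w => w ∈ S.K) ?_ hu h0.2 (by omega) ?_ ?_
      (S.right t ht u hu (by omega))
    · intro w hw
      have h2 := S.key w hw
      exact ⟨h2.1, h2.2, Finset.mem_image_of_mem _ hw⟩
    · intro w hw
      exact S.lam_lt t ht.le w hw
    · intro w hw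
      exact ⟨S.lt_rho t ht.le w hw, S.rho_le_top ht.le hw⟩

variable {S : Sys} {t s u v w : ℕ}

theorem mir_mem : v ∈ S.mir.K ↔ ∃ u ∈ S.K, v = S.top - u := by
  show v ∈ S.K.image _ ↔ _
  rw [Finset.mem_image]
  constructor
  · rintro ⟨u, hu, rfl⟩
    exact ⟨u, hu, rfl⟩
  · rintro ⟨u, hu, rfl⟩
    exact ⟨u, hu, rfl⟩

theorem mir_lam (hu : u ∈ S.K) : S.mir.lam t (S.top - u) = S.top - S.rho t u := by
  show S.top - S.rho t (S.top - (S.top - u)) = _
  rw [Nat.sub_sub_self (S.key u hu).2.le]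

theorem mir_rho (hu : u ∈ S.K) : S.mir.rho t (S.top - u) = S.top - S.lam t u := by
  show S.top - S.lam t (S.top - (S.top - u)) = _
  rw [Nat.sub_sub_self (S.key u hu).2.le]

theorem mir_R (hu : u ∈ S.K) : S.mir.R t (S.top - u) ↔ S.L t u := by
  unfold R L
  rw [mir_lam hu]
  constructor
  · rintro ⟨h1, h2, h3, h4⟩
    have h5 := S.key u hu
    change t < S.m at h1
    change S.top - S.X t < _ at h3
    change _ < S.top - S.X t at h4
    have h6 := S.rho_le_top h1.le hu
    exact ⟨h1, hu, by omega, by omega⟩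
  · rintro ⟨h1, h2, h3, h4⟩
    have h5 := S.key u hu
    have h6 := S.rho_le_top h1.le hu
    refine ⟨h1, mir_mem.2 ⟨u, hu, rfl⟩, ?_, ?_⟩
    · show S.top - S.X t < _
      omega
    · show _ < S.top - S.X t
      omega

theorem mir_L (hu : u ∈ S.K) : S.mir.L t (S.top - u) ↔ S.R t u := by
  unfold R L
  rw [mir_rho hu]
  constructor
  · rintro ⟨h1, h2, h3, h4⟩
    have h5 := S.key u hu
    change t < S.m at h1
    change _ < S.top - S.X t at h3
    change S.top - S.X t < _ at h4
    exact ⟨h1, hu, by omega, by omega⟩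
  · rintro ⟨h1, h2, h3, h4⟩
    have h5 := S.key u hu
    have h6 := S.lam_lt_top h1.le hu
    refine ⟨h1, mir_mem.2 ⟨u, hu, rfl⟩, ?_, ?_⟩
    · show _ < S.top - S.X t
      omega
    · show S.top - S.X t < _
      omega

theorem mir_Ac (hu : u ∈ S.K) : S.mir.Ac t (S.top - u) ↔ S.Ac t u := by
  unfold Ac
  constructor
  · rintro ⟨h1, h2, h3⟩
    have h5 := S.key u hu
    change t < S.m at h1
    change _ = S.top - S.X t at h3
    have h6 := S.key _ (S.req t h1)
    exact ⟨h1, hu, by omega⟩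
  · rintro ⟨h1, h2, h3⟩
    refine ⟨h1, mir_mem.2 ⟨u, hu, rfl⟩, ?_⟩
    show _ = S.top - S.X t
    omega

theorem mir_E (hu : u ∈ S.K) : S.mir.E t (S.top - u) ↔ S.E t u := by
  unfold E
  rw [mir_R hu, mir_L hu, mir_Ac hu]
  tauto

theorem mir_NE (hu : u ∈ S.K) : S.mir.NE (S.top - u) s t ↔ S.NE u s t := by
  unfold NE
  simp only [mir_E hu]

theorem mir_RS (hu : u ∈ S.K) : S.mir.RS t (S.top - u) ↔ S.LS t u := by
  unfold RS LS
  simp only [mir_NE hu, mir_R hu]

theorem mir_LS (hu : u ∈ S.K) : S.mir.LS t (S.top - u) ↔ S.RS t u := by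
  unfold RS LS
  simp only [mir_NE hu, mir_L hu]

theorem mir_Sw (hu : u ∈ S.K) : S.mir.Sw t (S.top - u) ↔ S.Sw' t u := by
  unfold Sw Sw'
  rw [mir_L hu]
  constructor
  · rintro ⟨h1, v, h2, h3⟩
    obtain ⟨w, hw, rfl⟩ := mir_mem.1 h2.2.1
    rw [mir_R hw] at h2
    rw [mir_lam hw] at h3
    have h4 := S.key u hu
    have h5 := S.rho_le_top h1.1.le hw
    exact ⟨h1, w, h2, by omega⟩
  · rintro ⟨h1, w, h2, h3⟩
    refine ⟨h1, S.top - w, (mir_R h2.2.1).2 h2, ?_⟩
    rw [mir_lam h2.2.1, h3]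

theorem mir_Sw' (hu : u ∈ S.K) : S.mir.Sw' t (S.top - u) ↔ S.Sw t u := by
  unfold Sw Sw'
  rw [mir_R hu]
  constructor
  · rintro ⟨h1, v, h2, h3⟩
    obtain ⟨w, hw, rfl⟩ := mir_mem.1 h2.2.1
    rw [mir_L hw] at h2
    rw [mir_rho hw] at h3
    have h4 := S.key u hu
    have h5 := S.lam_lt_top h1.1.le hw
    exact ⟨h1, w, h2, by omega⟩
  · rintro ⟨h1, w, h2, h3⟩
    refine ⟨h1, S.top - w, (mir_L h2.2.1).2 h2, ?_⟩
    rw [mir_rho h2.2.1, h3]

/-- Counting in the mirror. -/
theorem mir_cnt {P P' : ℕ → ℕ → Prop} (h : ∀ t u, u ∈ S.K → (P' t (S.top - u) ↔ P t u)) :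
    S.mir.cnt P' = S.cnt P := by
  have e : S.mir.set P' = (S.set P).image (fun q => (q.1, S.top - q.2)) := by
    ext q
    rw [mem_set, Finset.mem_image]
    constructor
    · rintro ⟨h1, h2, h3⟩
      obtain ⟨u, hu, he⟩ := mir_mem.1 h2
      rw [he] at h3
      refine ⟨(q.1, u), mem_set.2 ⟨h1, hu, (h _ _ hu).1 h3⟩, ?_⟩
      simp only
      rw [← he]
    · rintro ⟨q', hq, rfl⟩
      rw [mem_set] at hq
      exact ⟨hq.1, mir_mem.2 ⟨_, hq.2.1, rfl⟩, (h _ _ hq.2.1).2 hq.2.2⟩
  unfold cnt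
  rw [e, Finset.card_image_of_injOn]
  intro q hq q' hq' he
  rw [Finset.mem_coe, mem_set] at hq hq'
  have h1 := S.key _ hq.2.1
  have h2 := S.key _ hq'.2.1
  simp only [Prod.mk.injEq] at he
  exact Prod.ext he.1 (by omega)

theorem mir_QR : S.mir.QR = S.QL := mir_cnt (fun _ _ hu => mir_RS hu)

theorem mir_QL : S.mir.QL = S.QR := mir_cnt (fun _ _ hu => mir_LS hu)

theorem mir_CR : S.mir.CR = S.CL := mir_cnt (fun _ _ hu => mir_Sw hu)

theorem mir_CL : S.mir.CL = S.CR := mir_cnt (fun _ _ hu => mir_Sw' hu)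

/-- Kills on the left side. -/
theorem mir_NR : S.mir.NR = S.cnt (fun t g => S.L t g ∧ S.rho (t + 1) g < S.X t) := by
  apply mir_cnt
  intro t u hu
  unfold Kl
  constructor
  · rintro ⟨p, h1, h2, h3⟩
    rw [mir_R hu] at h1
    rw [mir_lam hu] at h3
    change S.top - S.X t < p at h2
    have h4 := S.key _ (S.req t h1.1)
    exact ⟨h1, by omega⟩
  · rintro ⟨h1, h2⟩
    refine ⟨S.top - S.rho (t + 1) u, (mir_R hu).2 h1, ?_, mir_lam hu⟩
    show S.top - S.X t < _
    have h4 := S.key _ (S.req t h1.1)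
    omega

/-- Kept touches on the left side. -/
theorem mir_KR : S.mir.KR = S.cnt (fun t g => S.L t g ∧ S.rho (t + 1) g = S.X t) := by
  apply mir_cnt
  intro t u hu
  unfold Kp
  rw [mir_R hu, mir_lam hu]
  constructor
  · rintro ⟨h1, h2⟩
    change _ = S.top - S.X t at h2
    have h4 := S.key _ (S.req t h1.1)
    have h5 := S.rho_le_top (t := t + 1) h1.1 hu
    exact ⟨h1, by omega⟩
  · rintro ⟨h1, h2⟩
    refine ⟨h1, ?_⟩
    show _ = S.top - S.X t
    omega

end Sys

end Pool.Agent.SplLog
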