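import Pool.Agent.SplLog.Kept
import Pool.Agent.SplLog.Mir

set_option autoImplicit false

/-!
# The system of a run of splays
-/

namespace Pool.Agent.SplLog

open BinaryTree Pool.Agent.MP_c42954_lc.Scan Pool.Agent.SplPat

theorem tr_inv {T : BinaryTree ℕ} {X : ℕ → ℕ} {m : ℕ} (hb : IsBST T)
    (hX : ∀ t, t < m → X t ∈ inorder T) : ∀ t, t ≤ m →
    IsBST (tr T X t) ∧ inorder (tr T X t) = inorder T
  | 0, _ => ⟨hb, rfl⟩
  | t + 1, ht => by
      obtain ⟨h1, h2⟩ := tr_inv hb hX t (by omega)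
      have h3 : X t ∈ inorder (tr T X t) := by
        rw [h2]
        exact hX t (by omega)
      refine ⟨splay_bst h1 h3, ?_⟩
      show inorder (splay (X t) (tr T X t)) = _
      rw [splay_inorder h1 h3, h2]

/-- The system of subtree intervals of a run. -/
def sysOf (T : BinaryTree ℕ) (X : ℕ → ℕ) (m top : ℕ) (hb : IsBST T)
    (hX : ∀ t, t < m → X t ∈ inorder T) (hB : Bd 0 top T) : Sys where
  K := (inorder T).toFinset
  top := top
  m := m
  lam t v := lm v (tr T X t) 0
  rho t v := rh v (tr T X t) top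
  X := X
  key := by
    intro v hv
    exact hB v (List.mem_toFinset.1 hv)
  req := by
    intro t ht
    exact List.mem_toFinset.2 (hX t ht)
  lam_lt := by
    intro t ht v hv
    obtain ⟨h1, h2⟩ := tr_inv hb hX t ht
    have h3 : Bd 0 top (tr T X t) := by
      intro w hw
      rw [h2] at hw
      exact hB w hw
    have h4 : v ∈ inorder (tr T X t) := by
      rw [h2]
      exact List.mem_toFinset.1 hv
    exact (ends h1 h3 h4).2.1
  lt_rho := by
    intro t ht v hv
    obtain ⟨h1, h2⟩ := tr_inv hb hX t ht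
    have h3 : Bd 0 top (tr T X t) := by
      intro w hw
      rw [h2] at hw
      exact hB w hw
    have h4 : v ∈ inorder (tr T X t) := by
      rw [h2]
      exact List.mem_toFinset.1 hv
    exact (ends h1 h3 h4).2.2.1
  lam_mem := by
    intro t ht v hv
    obtain ⟨h1, h2⟩ := tr_inv hb hX t ht
    have h3 : Bd 0 top (tr T X t) := by
      intro w hw
      rw [h2] at hw
      exact hB w hw
    have h4 : v ∈ inorder (tr T X t) := by
      rw [h2]
      exact List.mem_toFinset.1 hv
    rcases (ends h1 h3 h4).2.2.2.2.1 with h | h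
    · exact Or.inl h
    · right
      rw [h2] at h
      exact List.mem_toFinset.2 h
  rho_mem := by
    intro t ht v hv
    obtain ⟨h1, h2⟩ := tr_inv hb hX t ht
    have h3 : Bd 0 top (tr T X t) := by
      intro w hw
      rw [h2] at hw
      exact hB w hw
    have h4 : v ∈ inorder (tr T X t) := by
      rw [h2]
      exact List.mem_toFinset.1 hv
    rcases (ends h1 h3 h4).2.2.2.2.2 with h | h
    · exact Or.inl h
    · right
      rw [h2] at h
      exact List.mem_toFinset.2 h
  lamin := by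
    intro t ht u hu v hv huv
    obtain ⟨h1, h2⟩ := tr_inv hb hX t ht
    have h3 : Bd 0 top (tr T X t) := by
      intro w hw
      rw [h2] at hw
      exact hB w hw
    have h4 : v ∈ inorder (tr T X t) := by
      rw [h2]
      exact List.mem_toFinset.1 hv
    have h5 : u ∈ inorder (tr T X t) := by
      rw [h2]
      exact List.mem_toFinset.1 hu
    exact laminar huv h1 h3 h5 h4
  lam_anc := by
    intro t ht v hv hl
    obtain ⟨h1, h2⟩ := tr_inv hb hX t ht
    have h3 : Bd 0 top (tr T X t) := by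
      intro w hw
      rw [h2] at hw
      exact hB w hw
    have h4 : v ∈ inorder (tr T X t) := by
      rw [h2]
      exact List.mem_toFinset.1 hv
    have h5 := hB _ (List.mem_toFinset.1 hl)
    exact lm_anc h1 h3 h4 (by omega)
  rho_anc := by
    intro t ht v hv hl
    obtain ⟨h1, h2⟩ := tr_inv hb hX t ht
    have h3 : Bd 0 top (tr T X t) := by
      intro w hw
      rw [h2] at hw
      exact hB w hw
    have h4 : v ∈ inorder (tr T X t) := by
      rw [h2]
      exact List.mem_toFinset.1 hv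
    have h5 := hB _ (List.mem_toFinset.1 hl)
    exact rh_anc h1 h3 h4 (by omega)
  acc := by
    intro t ht
    obtain ⟨h1, h2⟩ := tr_inv hb hX t ht.le
    have h4 : X t ∈ inorder (tr T X t) := by
      rw [h2]
      exact hX t ht
    exact splay_X h1 h4 0 top
  right := by
    intro t ht v hv hx
    obtain ⟨h1, h2⟩ := tr_inv hb hX t ht.le
    have h3 : Bd 0 top (tr T X t) := by
      intro w hw
      rw [h2] at hw
      exact hB w hw
    have h4 : X t ∈ inorder (tr T X t) := by
      rw [h2]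
      exact hX t ht
    have h5 : v ∈ inorder (tr T X t) := by
      rw [h2]
      exact List.mem_toFinset.1 hv
    refine (splay_R h1 h4 h3 h5 hx).mono ?_ h5 (fun _ _ => rfl) (fun _ _ => rfl)
      (fun _ _ _ => rfl) (fun _ _ _ => rfl) hx (ends h1 h3 h5).2.2.1
    intro w hw
    rw [h2] at hw
    exact List.mem_toFinset.2 hw
  left := by
    intro t ht v hv hx
    obtain ⟨h1, h2⟩ := tr_inv hb hX t ht.le
    have h3 : Bd 0 top (tr T X t) := by
      intro w hw
      rw [h2] at hw
      exact hB w hw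
    have h4 : X t ∈ inorder (tr T X t) := by
      rw [h2]
      exact hX t ht
    have h5 : v ∈ inorder (tr T X t) := by
      rw [h2]
      exact List.mem_toFinset.1 hv
    refine (splay_L h1 h4 h3 h5 hx).mono ?_ h5 (fun _ _ => rfl) (fun _ _ => rfl)
      (fun _ _ _ => rfl) (fun _ _ _ => rfl) hx (ends h1 h3 h5).2.1
    intro w hw
    rw [h2] at hw
    exact List.mem_toFinset.2 hw

/-- Counting time by time. -/
theorem Sys.cnt_eq_sum (S : Sys) (P : ℕ → ℕ → Prop) (f : ℕ → Finset ℕ)
    (h : ∀ t, t < S.m → ∀ v, v ∈ f t ↔ v ∈ S.K ∧ P t v) :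
    S.cnt P = ∑ t ∈ Finset.range S.m, (f t).card := by
  classical
  have e : S.set P = ((Finset.range S.m).sigma (fun t => f t)).image
      (fun q : (_ : ℕ) × ℕ => (q.1, q.2)) := by
    ext q
    rw [Sys.mem_set, Finset.mem_image]
    constructor
    · rintro ⟨h1, h2, h3⟩
      exact ⟨⟨q.1, q.2⟩, Finset.mem_sigma.2 ⟨Finset.mem_range.2 h1, (h _ h1 _).2 ⟨h2, h3⟩⟩, rfl⟩
    · rintro ⟨⟨a, b⟩, h1, rfl⟩
      rw [Finset.mem_sigma, Finset.mem_range] at h1
      have := (h _ h1.1 _).1 h1.2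
      exact ⟨h1.1, this.1, this.2⟩
  unfold Sys.cnt
  rw [e, Finset.card_image_of_injective, Finset.card_sigma]
  rintro ⟨a, b⟩ ⟨c, d⟩ hh
  simp only [Prod.mk.injEq] at hh
  obtain ⟨rfl, rfl⟩ := hh
  rfl

section

variable {T : BinaryTree ℕ} {X : ℕ → ℕ} {m top : ℕ} (hb : IsBST T)
  (hX : ∀ t, t < m → X t ∈ inorder T) (hB : Bd 0 top T)

/-- **The cost of the run.** -/
theorem run_cost : ∑ t ∈ Finset.range m, depth (X t) (tr T X t) ≤
    2 * (sysOf T X m top hb hX hB).NR + 2 * (sysOf T X m top hb hX hB).mir.NR +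
      2 * (sysOf T X m top hb hX hB).CR + 2 * (sysOf T X m top hb hX hB).CL + m := by
  set S := sysOf T X m top hb hX hB with hS
  have hR : S.NR = ∑ t ∈ Finset.range m, (RK (inorder (tr T X t)) (X t)
      (fun w => lm w (tr T X t) 0) (fun w => lm w (splay (X t) (tr T X t)) 0)).card := by
    apply S.cnt_eq_sum
    intro t ht v
    obtain ⟨h1, h2⟩ := tr_inv hb hX t (show t ≤ m from le_of_lt ht)
    simp only [RK, Finset.mem_filter, List.mem_toFinset]
    rw [h2]
    constructor
    · rintro ⟨c1, c2, c3, c4⟩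
      exact ⟨List.mem_toFinset.2 c1, _, ⟨ht, List.mem_toFinset.2 c1, c2, c3⟩, c4, rfl⟩
    · rintro ⟨c1, p, ⟨c2, c3, c4, c5⟩, c6, c7⟩
      refine ⟨List.mem_toFinset.1 c1, c4, c5, ?_⟩
      change lm v (splay (X t) (tr T X t)) 0 = p at c7
      rw [c7]
      exact c6
  have hL : S.mir.NR = ∑ t ∈ Finset.range m, (LK (inorder (tr T X t)) (X t)
      (fun w => rh w (tr T X t) top) (fun w => rh w (splay (X t) (tr T X t)) top)).card := by
    rw [Sys.mir_NR]
    apply S.cnt_eq_sum
    intro t ht v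
    obtain ⟨h1, h2⟩ := tr_inv hb hX t (show t ≤ m from le_of_lt ht)
    simp only [LK, Finset.mem_filter, List.mem_toFinset]
    rw [h2]
    constructor
    · rintro ⟨c1, c2, c3, c4⟩
      exact ⟨List.mem_toFinset.2 c1, ⟨ht, List.mem_toFinset.2 c1, c2, c3⟩, c4⟩
    · rintro ⟨c1, ⟨c2, c3, c4, c5⟩, c6⟩
      exact ⟨List.mem_toFinset.1 c1, c4, c5, c6⟩
  have hC : S.CR = ∑ t ∈ Finset.range m, (SR (inorder (tr T X t)) (X t)
      (fun w => lm w (tr T X t) 0) (fun w => rh w (tr T X t) top)).card := by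
    apply S.cnt_eq_sum
    intro t ht w
    obtain ⟨h1, h2⟩ := tr_inv hb hX t (show t ≤ m from le_of_lt ht)
    simp only [SR, Finset.mem_filter, List.mem_toFinset]
    rw [h2]
    constructor
    · rintro ⟨c1, c2, c3, v, c4, c5, c6⟩
      refine ⟨List.mem_toFinset.2 c1, ⟨ht, List.mem_toFinset.2 c1, c2, c3⟩, v,
        ⟨ht, List.mem_toFinset.2 c4, c5, ?_⟩, c6⟩
      show lm v (tr T X t) 0 < X t
      rw [c6]
      exact c2
    · rintro ⟨c1, ⟨c2, c3, c4, c5⟩, v, ⟨c6, c7, c8, c9⟩, c10⟩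
      exact ⟨List.mem_toFinset.1 c1, c4, c5, v, List.mem_toFinset.1 c7, c8, c10⟩
  have hD : S.CL = ∑ t ∈ Finset.range m, (SL (inorder (tr T X t)) (X t)
      (fun w => lm w (tr T X t) 0) (fun w => rh w (tr T X t) top)).card := by
    apply S.cnt_eq_sum
    intro t ht w
    obtain ⟨h1, h2⟩ := tr_inv hb hX t (show t ≤ m from le_of_lt ht)
    simp only [SL, Finset.mem_filter, List.mem_toFinset]
    rw [h2]
    constructor
    · rintro ⟨c1, c2, c3, v, c4, c5, c6⟩
      refine ⟨List.mem_toFinset.2 c1, ⟨ht, List.mem_toFinset.2 c1, c2, c3⟩, v,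
        ⟨ht, List.mem_toFinset.2 c4, c5, ?_⟩, c6⟩
      show X t < rh v (tr T X t) top
      rw [c6]
      exact c2
    · rintro ⟨c1, ⟨c2, c3, c4, c5⟩, v, ⟨c6, c7, c8, c9⟩, c10⟩
      exact ⟨List.mem_toFinset.1 c1, c4, c5, v, List.mem_toFinset.1 c7, c8, c10⟩
  rw [hR, hL, hC, hD, Finset.mul_sum, Finset.mul_sum, Finset.mul_sum, Finset.mul_sum,
    ← Finset.sum_add_distrib, ← Finset.sum_add_distrib, ← Finset.sum_add_distrib]
  calc ∑ t ∈ Finset.range m, depth (X t) (tr T X t)
      ≤ ∑ t ∈ Finset.range m, (2 * (RK (inorder (tr T X t)) (X t)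
          (fun w => lm w (tr T X t) 0) (fun w => lm w (splay (X t) (tr T X t)) 0)).card +
        2 * (LK (inorder (tr T X t)) (X t)
          (fun w => rh w (tr T X t) top) (fun w => rh w (splay (X t) (tr T X t)) top)).card +
        2 * (SR (inorder (tr T X t)) (X t)
          (fun w => lm w (tr T X t) 0) (fun w => rh w (tr T X t) top)).card +
        2 * (SL (inorder (tr T X t)) (X t)
          (fun w => lm w (tr T X t) 0) (fun w => rh w (tr T X t) top)).card + 1) := by
        apply Finset.sum_le_sum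
        intro t ht
        rw [Finset.mem_range] at ht
        obtain ⟨h1, h2⟩ := tr_inv hb hX t (le_of_lt ht)
        have h3 : Bd 0 top (tr T X t) := by
          intro w hw
          rw [h2] at hw
          exact hB w hw
        have h4 : X t ∈ inorder (tr T X t) := by
          rw [h2]
          exact hX t ht
        exact depth_le h1 h4 h3
    _ = _ := by
        rw [Finset.sum_add_distrib]
        simp

/-- **Kept touches of the run.** -/
theorem run_kept : (sysOf T X m top hb hX hB).KR ≤ (sysOf T X m top hb hX hB).NR +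
      (sysOf T X m top hb hX hB).CR + (sysOf T X m top hb hX hB).CL + m ∧
    (sysOf T X m top hb hX hB).mir.KR ≤ (sysOf T X m top hb hX hB).mir.NR +
      (sysOf T X m top hb hX hB).CR + (sysOf T X m top hb hX hB).CL + m := by
  set S := sysOf T X m top hb hX hB with hS
  have hR : S.NR = ∑ t ∈ Finset.range m, (RK (inorder (tr T X t)) (X t)
      (fun w => lm w (tr T X t) 0) (fun w => lm w (splay (X t) (tr T X t)) 0)).card := by
    apply S.cnt_eq_sum
    intro t ht v
    obtain ⟨h1, h2⟩ := tr_inv hb hX t (show t ≤ m from le_of_lt ht)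
    simp only [RK, Finset.mem_filter, List.mem_toFinset]
    rw [h2]
    constructor
    · rintro ⟨c1, c2, c3, c4⟩
      exact ⟨List.mem_toFinset.2 c1, _, ⟨ht, List.mem_toFinset.2 c1, c2, c3⟩, c4, rfl⟩
    · rintro ⟨c1, p, ⟨c2, c3, c4, c5⟩, c6, c7⟩
      refine ⟨List.mem_toFinset.1 c1, c4, c5, ?_⟩
      change lm v (splay (X t) (tr T X t)) 0 = p at c7
      rw [c7]
      exact c6
  have hL : S.mir.NR = ∑ t ∈ Finset.range m, (LK (inorder (tr T X t)) (X t)
      (fun w => rh w (tr T X t) top) (fun w => rh w (splay (X t) (tr T X t)) top)).card := by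
    rw [Sys.mir_NR]
    apply S.cnt_eq_sum
    intro t ht v
    obtain ⟨h1, h2⟩ := tr_inv hb hX t (show t ≤ m from le_of_lt ht)
    simp only [LK, Finset.mem_filter, List.mem_toFinset]
    rw [h2]
    constructor
    · rintro ⟨c1, c2, c3, c4⟩
      exact ⟨List.mem_toFinset.2 c1, ⟨ht, List.mem_toFinset.2 c1, c2, c3⟩, c4⟩
    · rintro ⟨c1, ⟨c2, c3, c4, c5⟩, c6⟩
      exact ⟨List.mem_toFinset.1 c1, c4, c5, c6⟩
  have hC : S.CR = ∑ t ∈ Finset.range m, (SR (inorder (tr T X t)) (X t)
      (fun w => lm w (tr T X t) 0) (fun w => rh w (tr T X t) top)).card := by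
    apply S.cnt_eq_sum
    intro t ht w
    obtain ⟨h1, h2⟩ := tr_inv hb hX t (show t ≤ m from le_of_lt ht)
    simp only [SR, Finset.mem_filter, List.mem_toFinset]
    rw [h2]
    constructor
    · rintro ⟨c1, c2, c3, v, c4, c5, c6⟩
      refine ⟨List.mem_toFinset.2 c1, ⟨ht, List.mem_toFinset.2 c1, c2, c3⟩, v,
        ⟨ht, List.mem_toFinset.2 c4, c5, ?_⟩, c6⟩
      show lm v (tr T X t) 0 < X t
      rw [c6]
      exact c2
    · rintro ⟨c1, ⟨c2, c3, c4, c5⟩, v, ⟨c6, c7, c8, c9⟩, c10⟩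
      exact ⟨List.mem_toFinset.1 c1, c4, c5, v, List.mem_toFinset.1 c7, c8, c10⟩
  have hD : S.CL = ∑ t ∈ Finset.range m, (SL (inorder (tr T X t)) (X t)
      (fun w => lm w (tr T X t) 0) (fun w => rh w (tr T X t) top)).card := by
    apply S.cnt_eq_sum
    intro t ht w
    obtain ⟨h1, h2⟩ := tr_inv hb hX t (show t ≤ m from le_of_lt ht)
    simp only [SL, Finset.mem_filter, List.mem_toFinset]
    rw [h2]
    constructor
    · rintro ⟨c1, c2, c3, v, c4, c5, c6⟩
      refine ⟨List.mem_toFinset.2 c1, ⟨ht, List.mem_toFinset.2 c1, c2, c3⟩, v,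
        ⟨ht, List.mem_toFinset.2 c4, c5, ?_⟩, c6⟩
      show X t < rh v (tr T X t) top
      rw [c6]
      exact c2
    · rintro ⟨c1, ⟨c2, c3, c4, c5⟩, v, ⟨c6, c7, c8, c9⟩, c10⟩
      exact ⟨List.mem_toFinset.1 c1, c4, c5, v, List.mem_toFinset.1 c7, c8, c10⟩
  have hKR : S.KR = ∑ t ∈ Finset.range m, (TR (inorder (tr T X t)) (X t)
      (fun w => lm w (tr T X t) 0) (fun w => lm w (splay (X t) (tr T X t)) 0)).card := by
    apply S.cnt_eq_sum
    intro t ht v
    obtain ⟨h1, h2⟩ := tr_inv hb hX t (show t ≤ m from le_of_lt ht)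
    rw [mem_TR, h2]
    constructor
    · rintro ⟨c1, c2, c3, c4⟩
      exact ⟨List.mem_toFinset.2 c1, ⟨ht, List.mem_toFinset.2 c1, c2, c3⟩, c4⟩
    · rintro ⟨c1, ⟨c2, c3, c4, c5⟩, c6⟩
      exact ⟨List.mem_toFinset.1 c1, c4, c5, c6⟩
  have hKL : S.mir.KR = ∑ t ∈ Finset.range m, (TL (inorder (tr T X t)) (X t)
      (fun w => rh w (tr T X t) top) (fun w => rh w (splay (X t) (tr T X t)) top)).card := by
    rw [Sys.mir_KR]
    apply S.cnt_eq_sum
    intro t ht v
    obtain ⟨h1, h2⟩ := tr_inv hb hX t (show t ≤ m from le_of_lt ht)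
    rw [mem_TL, h2]
    constructor
    · rintro ⟨c1, c2, c3, c4⟩
      exact ⟨List.mem_toFinset.2 c1, ⟨ht, List.mem_toFinset.2 c1, c2, c3⟩, c4⟩
    · rintro ⟨c1, ⟨c2, c3, c4, c5⟩, c6⟩
      exact ⟨List.mem_toFinset.1 c1, c4, c5, c6⟩
  have key : ∀ t ∈ Finset.range m, _ ∧ _ := fun t ht => by
    rw [Finset.mem_range] at ht
    obtain ⟨h1, h2⟩ := tr_inv hb hX t (le_of_lt ht)
    have h3 : Bd 0 top (tr T X t) := by
      intro w hw
      rw [h2] at hw
      exact hB w hw
    have h4 : X t ∈ inorder (tr T X t) := by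
      rw [h2]
      exact hX t ht
    exact kept_le h1 h4 h3
  have e1 := Finset.sum_le_sum (fun t ht => (key t ht).1)
  have e2 := Finset.sum_le_sum (fun t ht => (key t ht).2)
  simp only [Finset.sum_add_distrib, Finset.sum_const, Finset.card_range, smul_eq_mul,
    mul_one] at e1 e2
  rw [hR, hL, hC, hD, hKR, hKL]
  exact ⟨e1, e2⟩

end

end Pool.Agent.SplLog
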