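import Pool.Agent.SplLog.Basic

set_option autoImplicit false

namespace Pool.Agent.SplLog

namespace Sys

/-! HINT (ALT).  Section 3 of the levels text.  For a pair `(t, w)` with `Sw t w` let `z` be the
largest `v ∈ K` with `R t v` and `lam t v = w`; then `rho t z = rho t w =: u`.
* `u = top`: at most one such `w` per time `t` (charge `m`).
* `LS t w`: charge it (`QL`);  `RS t z`: charge it (`QR`, `w = lam t z`).
* otherwise: `w` has a previous event `sw`, a left touch, `z` a previous event `sz`, a right touch,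
  `sz < sw`, `u` is touched on the right at `sz`, and at `sw` it is requested or touched on the left.
  Charge the first right touch of `u` after `sw` (the beginning of a right phase of `u`: `QR`). -/

/-- `z` is the right child of `w`, `w` on the left side and `z` on the right side of the search
path. -/
private structure ALT_A (S : Sys) (t w z : ℕ) : Prop where
  hw : S.L t w
  hz : S.R t z
  lz : S.lam t z = w
  rz : S.rho t z = S.rho t w

/-- The data of the third charge. -/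
private structure ALT_C (S : Sys) (t w z sz sw : ℕ) : Prop where
  alt : ALT_A S t w z
  zt : sz < sw
  wt : sw < t
  nz : S.NE z (sz + 1) t
  nw : S.NE w (sw + 1) t
  lw : S.L sw w
  ru : S.R sz (S.rho t w)
  nu : ¬ S.R sw (S.rho t w)
  eu : S.E sw (S.rho t w)

/-- The upper neighbour of a node touched on the right is touched on the right. -/
private theorem ALT_up {S : Sys} {t v : ℕ} (h : S.R t v) (hu : S.rho t v ∈ S.K) :
    S.R t (S.rho t v) := by
  obtain ⟨ht, hv, h3, h1⟩ := h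
  have a1 := S.lt_rho t ht.le v hv
  have a2 := S.rho_anc t ht.le v hv hu
  rcases S.lamin t ht.le v hv _ hu a1 with h4 | h4 | h4
  · omega
  · exact ⟨ht, hu, by omega, by omega⟩
  · have := S.lam_lt t ht.le _ hu
    omega

private theorem ALT_exists {S : Sys} {t w : ℕ} (h : S.Sw t w) : ∃ z, ALT_A S t w z := by
  classical
  obtain ⟨hw, v, hv, hv'⟩ := h
  obtain ⟨ht, hwK, hw3, hw2⟩ := hw
  have hA : (S.K.filter fun v => S.R t v ∧ S.lam t v = w).Nonempty :=
    ⟨v, Finset.mem_filter.mpr ⟨hv.2.1, hv, hv'⟩⟩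
  have hm := Finset.max'_mem _ hA
  have hmax : ∀ v, S.R t v → S.lam t v = w → v ≤ Finset.max' _ hA := fun v h1 h2 =>
    Finset.le_max' _ v (Finset.mem_filter.mpr ⟨h1.2.1, h1, h2⟩)
  generalize Finset.max' _ hA = z at hm hmax
  obtain ⟨hzK, hz, hlz⟩ := Finset.mem_filter.mp hm
  refine ⟨z, ⟨ht, hwK, hw3, hw2⟩, hz, hlz, ?_⟩
  have hz3 := hz.2.2.1
  have b1 := S.lam_anc t ht.le z hzK (by rw [hlz]; exact hwK)
  rw [hlz] at b1
  have b2 := S.lt_rho t ht.le z hzK
  rcases S.lamin t ht.le w hwK z hzK (by omega) with h4 | h4 | h4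
  · by_contra hne
    have hlt : S.rho t z < S.rho t w := by omega
    have huK : S.rho t z ∈ S.K := by
      rcases S.rho_mem t ht.le z hzK with h | h
      · rcases S.rho_mem t ht.le w hwK with h' | h'
        · omega
        · have := (S.key _ h').2
          omega
      · exact h
    have hR := ALT_up hz huK
    have c1 := S.rho_anc t ht.le z hzK huK
    have c2 := S.lam_lt t ht.le _ huK
    have hle : S.lam t (S.rho t z) = w := by
      rcases S.lamin t ht.le w hwK _ huK (by omega) with h5 | h5 | h5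
      · rcases S.lamin t ht.le z hzK _ huK b2 with h6 | h6 | h6 <;> omega
      · omega
      · omega
    have := hmax _ hR hle
    omega
  · omega
  · omega

/-- At one time, `w` is determined by its upper end. -/
private theorem ALT_eq {S : Sys} {t w z w' z' : ℕ} (h : ALT_A S t w z) (h' : ALT_A S t w' z')
    (hr : S.rho t w = S.rho t w') : w = w' := by
  by_contra hne
  wlog hlt : w < w' generalizing w z w' z'
  · exact this h' h hr.symm (Ne.symm hne) (by omega)
  obtain ⟨⟨ht, hwK, hw3, hw2⟩, ⟨_, hzK, hz3, hz1⟩, lz, rz⟩ := h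
  obtain ⟨⟨_, hwK', hw3', hw2'⟩, ⟨_, hzK', hz3', hz1'⟩, lz', rz'⟩ := h'
  have b := S.lt_rho t ht.le z hzK
  have b' := S.lt_rho t ht.le w' hwK'
  rcases S.lamin t ht.le w' hwK' z hzK (by omega) with h4 | h4 | h4 <;> omega

private theorem ALT_chg {S : Sys} {t w z : ℕ} (h : ALT_A S t w z) (hu : S.rho t w ∈ S.K)
    (h1 : ¬ S.RS t z) (h2 : ¬ S.LS t w) : ∃ sz sw, ALT_C S t w z sz sw := by
  obtain ⟨hw, hz, lz, rz⟩ := h
  have h1' : ∃ s, s < t ∧ S.R s z ∧ S.NE z (s + 1) t := by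
    by_contra hc
    exact h1 ⟨hz, hc⟩
  have h2' : ∃ s, s < t ∧ S.L s w ∧ S.NE w (s + 1) t := by
    by_contra hc
    exact h2 ⟨hw, hc⟩
  obtain ⟨sz, hsz, Rz, nz⟩ := h1'
  obtain ⟨sw, hsw, Lw, nw⟩ := h2'
  have htm : t < S.m := hw.1
  have hzK : z ∈ S.K := hz.2.1
  have hwK : w ∈ S.K := hw.2.1
  obtain ⟨ez1, ez2⟩ := NE_const hzK (show sz + 1 ≤ t from hsz) htm.le nz
  obtain ⟨ew1, ew2⟩ := NE_const hwK (show sw + 1 ≤ t from hsw) htm.le nw
  have hszm : sz < S.m := by omega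
  have hswm : sw < S.m := by omega
  have key : S.E sz w ∧ S.R sz (S.rho t w) := by
    have hu' : S.rho (sz + 1) z = S.rho t w := by rw [← rz, ez2]
    have hl' : S.lam (sz + 1) z = w := by rw [← lz, ez1]
    have g1 := S.lam_lt sz hszm.le w hwK
    have g2 := S.lt_rho sz hszm.le w hwK
    rcases S.right sz hszm z hzK Rz.2.2.1 with h4 | ⟨_, h4, h5⟩ | ⟨_, p, c1, c2, c3, c4, c5, c6,
      c7, c8, c9⟩
    · have := Rz.2.2.2
      omega
    · refine ⟨(E_iff hszm hwK).2 ⟨by omega, by omega⟩, ?_⟩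
      rcases h5 with h5 | ⟨d1, d2, d3, d4, d5⟩
      · have h6 : S.rho sz z = S.rho t w := by omega
        have := ALT_up Rz (by rw [h6]; exact hu)
        rwa [h6] at this
      · have h7 := ALT_up Rz d1
        have h6 : S.rho sz (S.rho sz z) = S.rho t w := by omega
        have := ALT_up h7 (by rw [h6]; exact hu)
        rwa [h6] at this
    · have hp : p = w := by omega
      subst hp
      refine ⟨(E_iff hszm hwK).2 ⟨by omega, by omega⟩, ?_⟩
      have h6 : S.rho sz z = S.rho t p := by omega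
      have := ALT_up Rz (by rw [h6]; exact hu)
      rwa [h6] at this
  obtain ⟨Ew, Ru⟩ := key
  have Nu : ¬ S.R sw (S.rho t w) ∧ S.E sw (S.rho t w) := by
    have g1 := S.lam_lt sw hswm.le _ hu
    have g2 := S.lt_rho sw hswm.le _ hu
    have a1 := Lw.2.2.2
    rcases S.left sw hswm w hwK Lw.2.2.1 with h4 | ⟨_, h4, _⟩ | ⟨_, p, c1, c2, c3, c4, c5, c6,
      c7, c8, c9⟩
    · omega
    · refine ⟨fun h => ?_, (E_iff hswm hu).2 ⟨by omega, by omega⟩⟩
      have := h.2.2.1
      omega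
    · have hp : p = S.rho t w := by omega
      subst hp
      refine ⟨fun h => ?_, (E_iff hswm hu).2 ⟨by omega, by omega⟩⟩
      have := h.2.2.1
      omega
  have hne : sz ≠ sw := by
    rintro rfl
    exact Nu.1 Ru
  have hle : sz ≤ sw := by
    by_contra hc
    exact nw sz (by omega) hsz Ew
  exact ⟨sz, sw, ⟨hw, hz, lz, rz⟩, by omega, hsw, nz, nw, Lw, Ru, Nu.1, Nu.2⟩

private theorem ALT_not_lt {S : Sys} {t w z sz sw t' w' z' sz' sw' r u : ℕ}
    (h : ALT_C S t w z sz sw) (h' : ALT_C S t' w' z' sz' sw') (hu : S.rho t w = u)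
    (hu' : S.rho t' w' = u) (hr : r ≤ t) (hsr' : sw' < r)
    (hnR' : ∀ q, sw' < q → q < r → ¬ S.R q u) (hsr : sw < r) (hlt : t < t') : False := by
  obtain ⟨⟨hw, hz, lz, rz⟩, zt, wt, nz, nw, lw, ru, nu, eu⟩ := h
  obtain ⟨⟨hw', hz', lz', rz'⟩, zt', wt', nz', nw', lw', ru', nu', eu'⟩ := h'
  rw [hu] at ru nu eu rz
  rw [hu'] at ru' nu' eu' rz'
  have hm : t < S.m := hw.1
  have hm' : t' < S.m := hw'.1
  have hwK' : w' ∈ S.K := hw'.2.1
  have hzK : z ∈ S.K := hz.2.1
  have h1 : sz < sw' := by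
    by_contra hc
    rcases Nat.lt_or_ge sw' sz with h2 | h2
    · exact hnR' sz h2 (by omega) ru
    · have : sz = sw' := by omega
      subst this
      exact nu' ru
  obtain ⟨e1, e2⟩ := NE_const hwK' (show sw' + 1 ≤ t' from wt') hm'.le nw'
  obtain ⟨e3, e4⟩ := NE_const hwK' (show sw' + 1 ≤ t by omega) hm.le (nw'.mono le_rfl hlt.le)
  have nt : ¬ S.E t w' := nw' t (by omega) hlt
  have hrw' : S.rho t w' = u := by omega
  obtain ⟨g1, g2⟩ := NE_const hzK (show sw' ≤ t by omega) hm.le (nz.mono (by omega) le_rfl)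
  have nz' : ¬ S.E sw' z := nz sw' h1 (by omega)
  have hne : w' ≠ z := by
    rintro rfl
    exact nt (R_E hz)
  have a1 := hz.2.2.2
  have a2 := (E_int (R_E hz)).2
  have a3 := S.lam_lt t hm.le w' hwK'
  have a4 := S.lam_lt t hm.le z hzK
  have a5 := S.lt_rho t hm.le z hzK
  have a6 := S.lt_rho t hm.le w' hwK'
  rcases Nat.lt_or_gt_of_ne hne with hc | hc
  · rcases S.lamin t hm.le w' hwK' z hzK hc with h4 | h4 | h4
    · exact nt ((E_iff hm hwK').2 ⟨by omega, by omega⟩)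
    · omega
    · omega
  · rcases S.lamin t hm.le z hzK w' hwK' hc with h4 | h4 | h4
    · have b1 := E_int (L_E lw')
      have hm3 : sw' < S.m := lw'.1
      have b3 := S.lam_lt sw' hm3.le w' hwK'
      have b4 := S.lt_rho sw' hm3.le w' hwK'
      rcases S.lamin sw' hm3.le z hzK w' hwK' hc with h5 | h5 | h5
      · exact nz' ((E_iff hm3 hzK).2 ⟨by omega, by omega⟩)
      · omega
      · omega
    · omega
    · omega

private theorem ALT_start {S : Sys} {t w z sz sw : ℕ} (h : ALT_C S t w z sz sw)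
    (hu : S.rho t w ∈ S.K) : ∃ r, sw < r ∧ r ≤ t ∧ S.RS r (S.rho t w) ∧
      ∀ q, sw < q → q < r → ¬ S.R q (S.rho t w) := by
  classical
  have hz := h.alt.hz
  have hRt : S.R t (S.rho t w) := by
    have := ALT_up hz (by rw [h.alt.rz]; exact hu)
    rwa [h.alt.rz] at this
  have hex : ∃ r, sw < r ∧ S.R r (S.rho t w) := ⟨t, h.wt, hRt⟩
  refine ⟨Nat.find hex, (Nat.find_spec hex).1, Nat.find_min' hex ⟨h.wt, hRt⟩,
    ⟨(Nat.find_spec hex).2, ?_⟩, fun q h1 h2 h3 => Nat.find_min hex h2 ⟨h1, h3⟩⟩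
  rintro ⟨s, hs, hRs, hn⟩
  rcases Nat.lt_or_ge sw s with h1 | h1
  · exact Nat.find_min hex hs ⟨h1, hRs⟩
  · rcases Nat.lt_or_ge s sw with h2 | h2
    · exact hn sw (by omega) (Nat.find_spec hex).1 h.eu
    · have : s = sw := by omega
      subst this
      exact h.nu hRs

/-- **Side changes** (section 3). -/
theorem alt (S : Sys) : S.CR ≤ S.m + 2 * S.QR + S.QL := by
  classical
  let A0 := (S.set S.Sw).filter fun p => S.rho p.1 p.2 = S.top
  let A1 := (S.set S.Sw).filter fun p => ∃ z, ALT_A S p.1 p.2 z ∧ S.RS p.1 z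
  let A2 := (S.set S.Sw).filter fun p => S.LS p.1 p.2
  let A3 := (S.set S.Sw).filter fun p =>
    S.rho p.1 p.2 ∈ S.K ∧ ∃ z sz sw, ALT_C S p.1 p.2 z sz sw
  have hcov : S.set S.Sw ⊆ A0 ∪ (A1 ∪ (A2 ∪ A3)) := by
    intro p hp
    obtain ⟨z, hz⟩ := ALT_exists (mem_set.1 hp).2.2
    rcases S.rho_mem p.1 hz.hw.1.le p.2 hz.hw.2.1 with h0 | h0
    · exact Finset.mem_union_left _ (Finset.mem_filter.mpr ⟨hp, h0⟩)
    refine Finset.mem_union_right _ ?_
    by_cases h1 : S.RS p.1 z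
    · exact Finset.mem_union_left _ (Finset.mem_filter.mpr ⟨hp, z, hz, h1⟩)
    refine Finset.mem_union_right _ ?_
    by_cases h2 : S.LS p.1 p.2
    · exact Finset.mem_union_left _ (Finset.mem_filter.mpr ⟨hp, h2⟩)
    refine Finset.mem_union_right _ ?_
    obtain ⟨sz, sw, h3⟩ := ALT_chg hz h0 h1 h2
    exact Finset.mem_filter.mpr ⟨hp, h0, z, sz, sw, h3⟩
  have h0 : A0.card ≤ S.m := by
    have : A0.card ≤ (Finset.range S.m).card := by
      refine Finset.card_le_card_of_injOn Prod.fst ?_ ?_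
      · intro p hp
        exact Finset.mem_range.mpr (mem_set.1 (Finset.mem_filter.mp hp).1).1
      · rintro ⟨t, w⟩ hp ⟨t', w'⟩ hp' (heq : t = t')
        subst heq
        obtain ⟨h1, h2⟩ := Finset.mem_filter.mp hp
        obtain ⟨h1', h2'⟩ := Finset.mem_filter.mp hp'
        obtain ⟨z, hz⟩ := ALT_exists (mem_set.1 h1).2.2
        obtain ⟨z', hz'⟩ := ALT_exists (mem_set.1 h1').2.2
        dsimp only at hz hz' h2 h2'
        rw [ALT_eq hz hz' (h2.trans h2'.symm)]
    rwa [Finset.card_range] at this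
  have h1 : A1.card ≤ S.QR := by
    refine Finset.card_le_card_of_forall_subsingleton
      (fun p q => q.1 = p.1 ∧ ALT_A S p.1 p.2 q.2) ?_ ?_
    · intro p hp
      obtain ⟨h1, z, h2, h3⟩ := Finset.mem_filter.mp hp
      exact ⟨(p.1, z), mem_set.2 ⟨h2.hz.1, h2.hz.2.1, h3⟩, rfl, h2⟩
    · rintro ⟨r, z⟩ _ ⟨t, w⟩ ⟨_, h1, h2⟩ ⟨t', w'⟩ ⟨_, h1', h2'⟩
      dsimp only at h1 h2 h1' h2'
      subst h1 h1'
      rw [← h2.lz, ← h2'.lz]
  have h2 : A2.card ≤ S.QL := by
    refine Finset.card_le_card fun p hp => ?_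
    obtain ⟨h1, h2⟩ := Finset.mem_filter.mp hp
    exact mem_set.2 ⟨h2.1.1, h2.1.2.1, h2⟩
  have h3 : A3.card ≤ S.QR := by
    refine Finset.card_le_card_of_forall_subsingleton
      (fun p q => q.2 = S.rho p.1 p.2 ∧ ∃ z sz sw, ALT_C S p.1 p.2 z sz sw ∧ sw < q.1 ∧
        q.1 ≤ p.1 ∧ ∀ r, sw < r → r < q.1 → ¬ S.R r q.2) ?_ ?_
    · intro p hp
      obtain ⟨h1, h2, z, sz, sw, h3⟩ := Finset.mem_filter.mp hp
      obtain ⟨r, h4, h5, h6, h7⟩ := ALT_start h3 h2
      exact ⟨(r, S.rho p.1 p.2), mem_set.2 ⟨h6.1.1, h6.1.2.1, h6⟩, rfl, z, sz, sw, h3, h4, h5,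
        h7⟩
    · rintro ⟨r, u⟩ _ ⟨t, w⟩ ⟨_, h1, z, sz, sw, h2, h3, h4, h5⟩
        ⟨t', w'⟩ ⟨_, h1', z', sz', sw', h2', h3', h4', h5'⟩
      dsimp only at h1 h2 h3 h4 h5 h1' h2' h3' h4' h5'
      have htt : t = t' := by
        rcases Nat.lt_trichotomy t t' with h | h | h
        · exact (ALT_not_lt h2 h2' h1.symm h1'.symm h4 h3' h5' h3 h).elim
        · exact h
        · exact (ALT_not_lt h2' h2 h1'.symm h1.symm h4' h3 h5 h3' h).elim
      subst htt
      rw [ALT_eq h2.alt h2'.alt (h1.symm.trans h1')]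
  have c1 := Finset.card_le_card hcov
  have c2 := Finset.card_union_le A0 (A1 ∪ (A2 ∪ A3))
  have c3 := Finset.card_union_le A1 (A2 ∪ A3)
  have c4 := Finset.card_union_le A2 A3
  have c5 : S.CR = (S.set S.Sw).card := rfl
  omega

end Sys

end Pool.Agent.SplLog
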