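import Pool.Agent.SplLog.Defs

set_option autoImplicit false

/-!
# Basic facts on the system of subtree intervals
-/

namespace Pool.Agent.SplLog

namespace Sys

variable {S : Sys} {t s u v w g p a b : ℕ}

theorem R_E (h : S.R t v) : S.E t v := Or.inl h

theorem L_E (h : S.L t v) : S.E t v := Or.inr (Or.inl h)

theorem Ac_E (h : S.Ac t v) : S.E t v := Or.inr (Or.inr h)

theorem E_lt (h : S.E t v) : t < S.m := by
  rcases h with h | h | h <;> exact h.1

theorem E_mem (h : S.E t v) : v ∈ S.K := by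
  rcases h with h | h | h <;> exact h.2.1

theorem not_R_L (h : S.R t v) (h' : S.L t v) : False := by
  have h1 := h.2.2.1
  have h2 := h'.2.2.1
  omega

theorem not_R_Ac (h : S.R t v) (h' : S.Ac t v) : False := by
  have h1 := h.2.2.1
  have h2 := h'.2.2
  omega

theorem not_L_Ac (h : S.L t v) (h' : S.Ac t v) : False := by
  have h1 := h.2.2.1
  have h2 := h'.2.2
  omega

/-- `v` is touched iff the request lies in its subtree interval. -/
theorem E_iff (ht : t < S.m) (hv : v ∈ S.K) :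
    S.E t v ↔ S.lam t v < S.X t ∧ S.X t < S.rho t v := by
  have h1 := S.lam_lt t ht.le v hv
  have h2 := S.lt_rho t ht.le v hv
  unfold E R L Ac
  constructor
  · rintro (⟨_, _, h3, h4⟩ | ⟨_, _, h3, h4⟩ | ⟨_, _, h3⟩) <;> constructor <;> omega
  · rintro ⟨h3, h4⟩
    rcases lt_trichotomy v (S.X t) with h | h | h
    · exact Or.inr (Or.inl ⟨ht, hv, h, h4⟩)
    · exact Or.inr (Or.inr ⟨ht, hv, h⟩)
    · exact Or.inl ⟨ht, hv, h, h3⟩

theorem E_int (h : S.E t v) : S.lam t v < S.X t ∧ S.X t < S.rho t v :=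
  (E_iff (E_lt h) (E_mem h)).1 h

/-- Untouched nodes keep their subtree intervals. -/
theorem untouched (ht : t < S.m) (hv : v ∈ S.K) (h : ¬ S.E t v) :
    S.lam (t + 1) v = S.lam t v ∧ S.rho (t + 1) v = S.rho t v := by
  rw [E_iff ht hv] at h
  have h1 := S.lam_lt t ht.le v hv
  have h2 := S.lt_rho t ht.le v hv
  rcases lt_trichotomy v (S.X t) with h3 | h3 | h3
  · rcases S.left t ht v hv h3 with h4 | ⟨h4, _⟩ | ⟨h4, _⟩
    · exact ⟨h4.2.1, h4.2.2⟩
    · exact absurd ⟨by omega, h4⟩ h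
    · exact absurd ⟨by omega, h4⟩ h
  · exact absurd ⟨by omega, by omega⟩ h
  · rcases S.right t ht v hv h3 with h4 | ⟨h4, _⟩ | ⟨h4, _⟩
    · exact ⟨h4.2.1, h4.2.2⟩
    · exact absurd ⟨h4, by omega⟩ h
    · exact absurd ⟨h4, by omega⟩ h

theorem NE.mono {s' t' : ℕ} (h : S.NE v s t) (h1 : s ≤ s') (h2 : t' ≤ t) : S.NE v s' t' :=
  fun a ha hb => h a (by omega) (by omega)

/-- Without events the subtree interval does not change. -/
theorem NE_const (hv : v ∈ S.K) (hst : s ≤ t) (ht : t ≤ S.m) (h : S.NE v s t) :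
    S.lam t v = S.lam s v ∧ S.rho t v = S.rho s v := by
  induction t, hst using Nat.le_induction with
  | base => exact ⟨rfl, rfl⟩
  | succ t hst ih =>
    have h1 := ih (by omega) (h.mono le_rfl (by omega))
    have h2 := untouched (S := S) (t := t) (by omega) hv (h t hst (by omega))
    rw [h2.1, h2.2]
    exact h1

/-- A node inside the subtree interval of `v` has a smaller subtree interval. -/
theorem sub (ht : t ≤ S.m) (hu : u ∈ S.K) (hv : v ∈ S.K) (h1 : S.lam t v < u)
    (h2 : u < S.rho t v) : S.lam t v ≤ S.lam t u ∧ S.rho t u ≤ S.rho t v := by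
  have a1 := S.lam_lt t ht u hu
  have a2 := S.lt_rho t ht u hu
  have b1 := S.lam_lt t ht v hv
  have b2 := S.lt_rho t ht v hv
  rcases lt_trichotomy u v with h | h | h
  · rcases S.lamin t ht u hu v hv h with ⟨c1, c2, c3⟩ | ⟨c1, c2, c3⟩ | c1
    · omega
    · exact ⟨by omega, by omega⟩
    · omega
  · subst h
    exact ⟨le_rfl, le_rfl⟩
  · rcases S.lamin t ht v hv u hu h with ⟨c1, c2, c3⟩ | ⟨c1, c2, c3⟩ | c1
    · exact ⟨by omega, by omega⟩
    · omega
    · omega

/-- An ancestor of a touched node is touched. -/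
theorem E_up (hu : S.E t u) (hv : v ∈ S.K) (h1 : S.lam t v < u) (h2 : u < S.rho t v) :
    S.E t v := by
  have a := sub (E_lt hu).le (E_mem hu) hv h1 h2
  have b := E_int hu
  exact (E_iff (E_lt hu) hv).2 ⟨by omega, by omega⟩

/-- **Stamps.**  If `u` lies in the subtree interval of `v` at time `t` and `v` has no event in
`[s, t)` then `u` has no event in `[s, t)`. -/
theorem stamp (ht : t ≤ S.m) (hu : u ∈ S.K) (hv : v ∈ S.K) (h1 : S.lam t v < u)
    (h2 : u < S.rho t v) (h : S.NE v s t) : S.NE u s t := by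
  intro a ha hb he
  have h3 := NE_const hv hb.le ht (h.mono ha le_rfl)
  rw [h3.1] at h1
  rw [h3.2] at h2
  exact h a ha hb (E_up he hv h1 h2)

/-- A node touched on the right side is killed or kept. -/
theorem kp_or_kl (h : S.R t v) : S.Kp t v ∨ ∃ p, S.Kl t v p := by
  obtain ⟨ht, hv, hx, hl⟩ := h
  rcases S.right t ht v hv hx with h4 | ⟨_, h4, _⟩ | ⟨_, p, _, h5, _, h6, _⟩
  · omega
  · exact Or.inl ⟨⟨ht, hv, hx, hl⟩, h4⟩
  · exact Or.inr ⟨p, ⟨ht, hv, hx, hl⟩, h5, h6⟩

theorem not_kp_kl (h : S.Kp t v) (h' : S.Kl t v p) : False := by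
  have h1 := h.2
  have h2 := h'.2.1
  have h3 := h'.2.2
  omega

/-- All about a kill. -/
theorem kl_facts (h : S.Kl t g p) : S.Kp t p ∧ p < g ∧ S.lam t p = S.lam t g ∧
    S.rho t p = g ∧ S.rho (t + 1) p = S.rho t g ∧ S.rho (t + 1) g = S.rho t g := by
  obtain ⟨⟨ht, hv, hx, hl⟩, h2, h3⟩ := h
  rcases S.right t ht g hv hx with h4 | ⟨_, h4, _⟩ | ⟨_, q, c1, c2, c3, c4, c5, c6, c7, c8, c9⟩
  · omega
  · omega
  · have : q = p := by omega
    subst this
    exact ⟨⟨⟨ht, c1, c2, by omega⟩, c8⟩, c3, c6, c7, c9, c5⟩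

/-- The killer has at most one victim. -/
theorem kl_inj {g' : ℕ} (h : S.Kl t g p) (h' : S.Kl t g' p) : g = g' := by
  have h1 := (kl_facts h).2.2.2.1
  have h2 := (kl_facts h').2.2.2.1
  omega

/-- A touch on the right side moves both ends to the right. -/
theorem R_mono (h : S.R t v) : S.lam t v < S.lam (t + 1) v ∧ S.X t ≤ S.lam (t + 1) v ∧
    S.rho t v ≤ S.rho (t + 1) v := by
  obtain ⟨ht, hv, hx, hl⟩ := h
  rcases S.right t ht v hv hx with h4 | ⟨_, h4, h5⟩ | ⟨_, p, _, h5, _, h6, h7, _⟩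
  · omega
  · refine ⟨by omega, by omega, ?_⟩
    rcases h5 with h5 | ⟨c1, c2, c3, c4, c5⟩
    · omega
    · have := S.lt_rho t ht.le _ c1
      omega
  · exact ⟨by omega, by omega, by omega⟩

/-- A touch on the left side moves both ends to the left. -/
theorem L_mono (h : S.L t v) : S.rho (t + 1) v < S.rho t v ∧ S.rho (t + 1) v ≤ S.X t ∧
    S.lam (t + 1) v ≤ S.lam t v := by
  obtain ⟨ht, hv, hx, hl⟩ := h
  rcases S.left t ht v hv hx with h4 | ⟨_, h4, h5⟩ | ⟨_, p, _, h5, _, h6, h7, _⟩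
  · omega
  · refine ⟨by omega, by omega, ?_⟩
    rcases h5 with h5 | ⟨c1, c2, c3, c4, c5⟩
    · omega
    · have := S.lam_lt t ht.le _ c1
      omega
  · exact ⟨by omega, by omega, by omega⟩

/-- Two nodes touched on the right side: the larger one is the ancestor. -/
theorem R_above (ha : S.R t a) (hb : S.R t b) (hab : a < b) :
    S.rho t a ≤ b ∧ S.lam t b ≤ S.lam t a := by
  have h1 := ha.2.2.1
  have h2 := ha.2.2.2
  have h3 := hb.2.2.2
  have h4 := S.lt_rho t ha.1.le a ha.2.1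
  rcases S.lamin t ha.1.le a ha.2.1 b hb.2.1 hab with ⟨c1, c2, c3⟩ | ⟨c1, c2, c3⟩ | c1
  · omega
  · exact ⟨c2, c3⟩
  · omega

/-- Two nodes touched on the left side: the smaller one is the ancestor. -/
theorem L_above (ha : S.L t a) (hb : S.L t b) (hab : a < b) :
    a ≤ S.lam t b ∧ S.rho t b ≤ S.rho t a := by
  have h1 := hb.2.2.1
  have h2 := hb.2.2.2
  have h3 := ha.2.2.2
  have h4 := S.lam_lt t ha.1.le b hb.2.1
  rcases S.lamin t ha.1.le a ha.2.1 b hb.2.1 hab with ⟨c1, c2, c3⟩ | ⟨c1, c2, c3⟩ | c1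
  · exact ⟨c2, c3⟩
  · omega
  · omega

/-- Two touched nodes `w < z` on different sides: one is the ancestor of the other. -/
theorem E_comparable (ha : S.E t a) (hb : S.E t b) (hab : a < b) :
    (b < S.rho t a ∧ a ≤ S.lam t b ∧ S.rho t b ≤ S.rho t a) ∨
      (S.lam t b < a ∧ S.rho t a ≤ b ∧ S.lam t b ≤ S.lam t a) := by
  have h1 := E_int ha
  have h2 := E_int hb
  rcases S.lamin t (E_lt ha).le a (E_mem ha) b (E_mem hb) hab with h | h | h
  · exact Or.inl h
  · exact Or.inr h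
  · omega

theorem AR.mono {s' t' : ℕ} (h : S.AR v s t) (h1 : s ≤ s') (h2 : t' ≤ t) : S.AR v s' t' :=
  fun a ha hb he => h a (by omega) (by omega) he

theorem AL.mono {s' t' : ℕ} (h : S.AL v s t) (h1 : s ≤ s') (h2 : t' ≤ t) : S.AL v s' t' :=
  fun a ha hb he => h a (by omega) (by omega) he

/-- The last event before `t`. -/
theorem exists_prev {P : ℕ → Prop} (h : ∃ s, s < t ∧ P s) :
    ∃ s, s < t ∧ P s ∧ ∀ a, s < a → a < t → ¬ P a := by
  classical
  obtain ⟨s, h1, h2⟩ := h
  have hne : ((Finset.range t).filter P).Nonempty := ⟨s, by simp [h1, h2]⟩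
  refine ⟨((Finset.range t).filter P).max' hne, ?_⟩
  have h3 := Finset.max'_mem _ hne
  simp only [Finset.mem_filter, Finset.mem_range] at h3
  refine ⟨h3.1, h3.2, ?_⟩
  intro a ha hb hc
  have := Finset.le_max' ((Finset.range t).filter P) a (by simp [hb, hc])
  omega

/-- Every right touch lies in a right phase. -/
theorem exists_RP (h : S.R t v) : ∃ s, S.RP s t v := by
  induction t using Nat.strong_induction_on with
  | _ t ih =>
    by_cases h1 : S.RS t v
    · refine ⟨t, le_rfl, h1, h, ?_⟩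
      intro u hu1 hu2 _
      have : u = t := by omega
      rw [this]
      exact h
    · have h2 : ∃ s, s < t ∧ S.R s v ∧ S.NE v (s + 1) t := by
        by_contra h3
        exact h1 ⟨h, h3⟩
      obtain ⟨s, h3, h4, h5⟩ := h2
      obtain ⟨r, h6, h7, h8, h9⟩ := ih s h3 h4
      refine ⟨r, by omega, h7, h, ?_⟩
      intro u hu1 hu2 hu
      rcases lt_trichotomy u s with h10 | h10 | h10
      · exact h9 u hu1 h10.le hu
      · rw [h10]
        exact h4
      · rcases lt_or_eq_of_le hu2 with h11 | h11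
        · exact absurd hu (h5 u (by omega) h11)
        · rw [h11]
          exact h

/-- Every left touch lies in a left phase. -/
theorem exists_LP (h : S.L t v) : ∃ s, S.LP s t v := by
  induction t using Nat.strong_induction_on with
  | _ t ih =>
    by_cases h1 : S.LS t v
    · refine ⟨t, le_rfl, h1, h, ?_⟩
      intro u hu1 hu2 _
      have : u = t := by omega
      rw [this]
      exact h
    · have h2 : ∃ s, s < t ∧ S.L s v ∧ S.NE v (s + 1) t := by
        by_contra h3
        exact h1 ⟨h, h3⟩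
      obtain ⟨s, h3, h4, h5⟩ := h2
      obtain ⟨r, h6, h7, h8, h9⟩ := ih s h3 h4
      refine ⟨r, by omega, h7, h, ?_⟩
      intro u hu1 hu2 hu
      rcases lt_trichotomy u s with h10 | h10 | h10
      · exact h9 u hu1 h10.le hu
      · rw [h10]
        exact h4
      · rcases lt_or_eq_of_le hu2 with h11 | h11
        · exact absurd hu (h5 u (by omega) h11)
        · rw [h11]
          exact h

/-- The beginning of a right phase is unique. -/
theorem RP_unique {s' : ℕ} (h : S.RP s t v) (h' : S.RP s' t v) : s = s' := by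
  have key : ∀ {s s' : ℕ}, S.RP s t v → S.RP s' t v → ¬ s < s' := by
    intro s s' h h' hlt
    obtain ⟨h1, h2, h3, h4⟩ := h
    obtain ⟨h1', h2', h3', h4'⟩ := h'
    obtain ⟨r, hr1, hr2, hr3⟩ := exists_prev (P := fun a => S.E a v) ⟨s, hlt, R_E h2.1⟩
    apply h2'.2
    by_cases hrs : s ≤ r
    · exact ⟨r, hr1, h4 r hrs (by omega) hr2, fun a ha hb => hr3 a (by omega) hb⟩
    · exact absurd (R_E h2.1) (hr3 s (by omega) hlt)
  have := key h h'
  have := key h' h
  omega

/-- The beginning of a left phase is unique. -/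
theorem LP_unique {s' : ℕ} (h : S.LP s t v) (h' : S.LP s' t v) : s = s' := by
  have key : ∀ {s s' : ℕ}, S.LP s t v → S.LP s' t v → ¬ s < s' := by
    intro s s' h h' hlt
    obtain ⟨h1, h2, h3, h4⟩ := h
    obtain ⟨h1', h2', h3', h4'⟩ := h'
    obtain ⟨r, hr1, hr2, hr3⟩ := exists_prev (P := fun a => S.E a v) ⟨s, hlt, L_E h2.1⟩
    apply h2'.2
    by_cases hrs : s ≤ r
    · exact ⟨r, hr1, h4 r hrs (by omega) hr2, fun a ha hb => hr3 a (by omega) hb⟩
    · exact absurd (L_E h2.1) (hr3 s (by omega) hlt)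
  have := key h h'
  have := key h' h
  omega

theorem mem_set {P : ℕ → ℕ → Prop} {q : ℕ × ℕ} :
    q ∈ S.set P ↔ q.1 < S.m ∧ q.2 ∈ S.K ∧ P q.1 q.2 := by
  simp [set, and_assoc]

/-- Counting by an injection. -/
theorem cnt_le_of_inj {P : ℕ → ℕ → Prop} {α : Type*} (T : Finset α) (f : ℕ → ℕ → α)
    (h1 : ∀ t v, t < S.m → v ∈ S.K → P t v → f t v ∈ T)
    (h2 : ∀ t v t' v', t < S.m → v ∈ S.K → P t v → t' < S.m → v' ∈ S.K → P t' v' →
      f t v = f t' v' → t = t' ∧ v = v') : S.cnt P ≤ T.card := by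
  refine Finset.card_le_card_of_injOn (fun q => f q.1 q.2) ?_ ?_
  · intro q hq
    rw [Finset.mem_coe, mem_set] at hq
    exact h1 _ _ hq.1 hq.2.1 hq.2.2
  · intro q hq q' hq' hf
    rw [Finset.mem_coe, mem_set] at hq hq'
    obtain ⟨a, b⟩ := h2 _ _ _ _ hq.1 hq.2.1 hq.2.2 hq'.1 hq'.2.1 hq'.2.2 hf
    exact Prod.ext a b

end Sys

end Pool.Agent.SplLog
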