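import Pool.Agent.SplLog.Irr

set_option autoImplicit false

namespace Pool.Agent.SplLog

namespace Sys

variable {S : Sys}

private theorem CLASS_lam {a t v : ℕ} (hv : v ∈ S.K) (hat : a ≤ t) (ht : t ≤ S.m)
    (h : ∀ b, a ≤ b → b < t → S.E b v → S.R b v) : S.lam a v ≤ S.lam t v := by
  induction t, hat using Nat.le_induction with
  | base => exact le_rfl
  | succ t hat ih =>
    have h1 := ih (by omega) (fun b hb1 hb2 => h b hb1 (by omega))
    by_cases h2 : S.E t v
    · have h3 := (R_mono (h t hat (by omega) h2)).1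
      omega
    · have h3 := (untouched (S := S) (t := t) (by omega) hv h2).1
      omega

private theorem CLASS_nev {v s s' t J : ℕ} (h : S.nev v s t < J) (hs : s ≤ s') :
    S.nev v s' t < J := by
  classical
  refine lt_of_le_of_lt (Finset.card_le_card ?_) h
  intro a ha
  rw [Finset.mem_filter, Finset.mem_Ico] at ha ⊢
  exact ⟨⟨by omega, ha.1.2⟩, ha.2⟩

/-! HINT (CLASS).  Go back from `t` along the events `s_j = t, ..., s_0` of `g` in `(l, t]` as long as
`p` is touched on the right, kept (before `t`) and in the same list as `g`.  At an event `s_i`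
(`i ≥ 1`) with `lam p = lam g` one has `lam (s_i) g = X (s_(i-1))`; `stamp`: `p` has no event in
`(s_(i-1), s_i)`; if `p` is touched at `s_(i-1)` it is kept on the right side (its new `lam` is
`X (s_(i-1))`).  At `s_0`: `lam p = lam g = w` and `p` has no event in `(l, s_0)`. -/
theorem classify {J l t g w p : ℕ} (h1 : S.PK l t g w) (h2 : S.Kl t g p)
    (h3 : S.nev g (l + 1) t < J) (h4 : ¬ ∃ l', S.Inn l' l t g w p) :
    (∃ s, S.CA J s t g p) ∨ (∃ s, S.CB J s t g p) ∨ ∃ s σ, S.CF J s σ l t g w p := by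
  classical
  obtain ⟨hlt, hkl, hR, hkp⟩ := h1
  have htm : t < S.m := hR.1
  have hgK : g ∈ S.K := hR.2.1
  have hf := kl_facts h2
  have hpK : p ∈ S.K := hf.1.1.2.1
  have hpg : p < g := hf.2.1
  have hlam : ∀ a, l < a → a ≤ t → S.lam a g < p := by
    intro a ha hat
    have e1 := CLASS_lam (S := S) hgK hat htm.le (fun b hb1 hb2 hb =>
      (hkp b (by omega) hb2 hb).1)
    have e2 := S.lam_lt t htm.le p hpK
    have e3 := hf.2.2.1
    omega
  have hrho : ∀ a, a ≤ t → p < S.rho a g := by
    intro a ha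
    have := S.lt_rho a (by omega) g hgK
    omega
  have hup : ∀ a, l < a → a ≤ t → S.E a p → S.E a g := fun a ha hat he =>
    E_up he hgK (hlam a ha hat) (hrho a hat)
  have htail : S.Tail t t g p := ⟨le_rfl, h2, hf.2.2.1, fun a ha hb => absurd hb (by omega)⟩
  have hex : ∃ a, l < a ∧ S.Tail a t g p := ⟨t, hlt, htail⟩
  obtain ⟨a0, ⟨ha0, hT⟩, hmin⟩ : ∃ a0, (l < a0 ∧ S.Tail a0 t g p) ∧
      ∀ b, l < b → S.Tail b t g p → a0 ≤ b :=
    ⟨Nat.find hex, Nat.find_spec hex, fun b hb1 hb2 => Nat.find_min' hex ⟨hb1, hb2⟩⟩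
  by_cases hc : a0 = l + 1
  · -- type F
    subst hc
    right; right
    obtain ⟨hT1, _, hT2, hT3⟩ := hT
    have hexs : ∃ s, l < s ∧ S.E s g := ⟨t, hlt, R_E hR⟩
    obtain ⟨s, ⟨hls, hEs⟩, hsmin⟩ : ∃ s, (l < s ∧ S.E s g) ∧ ∀ b, l < b → S.E b g → s ≤ b :=
      ⟨Nat.find hexs, Nat.find_spec hexs, fun b hb1 hb2 => Nat.find_min' hexs ⟨hb1, hb2⟩⟩
    have hst : s ≤ t := hsmin t hlt (R_E hR)
    have hNE : S.NE g (l + 1) s := by
      intro a ha1 ha2 ha3
      have := hsmin a (by omega) ha3
      omega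
    have hRs : S.R s g := by
      rcases lt_or_eq_of_le hst with h5 | h5
      · exact (hkp s hls h5 hEs).1
      · rw [h5]
        exact hR
    have hNEp : S.NE p (l + 1) s :=
      stamp (by omega) hpK hgK (hlam s hls hst) (hrho s hst) hNE
    have hTs : S.Tail s t g p := by
      refine ⟨hst, h2, ?_, fun a ha1 ha2 ha3 => hT3 a (by omega) ha2 ha3⟩
      rw [(NE_const hpK (by omega) (by omega) hNEp).1, (NE_const hgK (by omega) (by omega) hNE).1]
      exact hT2
    obtain ⟨σ, hσ⟩ := exists_RP (S := S) (t := l) (v := w) (kl_facts hkl).1.1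
    refine ⟨s, σ, hls, hst, ⟨hlt, hkl, hR, hkp⟩, hRs, hNE, hσ, hTs, ?_,
      CLASS_nev h3 (by omega)⟩
    rintro ⟨l', hl'⟩
    refine h4 ⟨l', hl', fun a ha1 ha2 => ?_⟩
    have e1 : S.E a g → S.Kp a p := fun he => (hT3 a (by omega) ha2 he).2
    exact ⟨fun he => e1 (hup a ha1 ha2.le he), fun he => hup a ha1 ha2.le he,
      fun he => R_E (e1 he).1⟩
  · -- types A and B
    obtain ⟨b, rfl⟩ : ∃ b, a0 = b + 1 := ⟨a0 - 1, by omega⟩
    have hb : l < b := by omega
    have hbt : b < t := by
      have := hT.1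
      omega
    have hnT : ¬ S.Tail b t g p := fun h => by
      have := hmin b hb h
      omega
    by_cases hEg : S.E b g
    · have hKg := hkp b hb hbt hEg
      have e1 : S.lam (b + 1) p = S.X b := by
        rw [hT.2.2.1]
        exact hKg.2
      by_cases hEp : S.E b p
      · left
        have hRp : S.R b p := by
          rcases hEp with h | h | h
          · exact h
          · have e2 := (L_mono h).2.2
            have e3 := (E_int (L_E h)).1
            omega
          · have e2 := S.lam_lt (b + 1) (by omega) p hpK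
            have e3 := h.2.2
            omega
        refine ⟨b, hbt, hKg, ⟨hRp, e1⟩, ?_, hT, CLASS_nev h3 (by omega)⟩
        intro e2
        refine hnT ⟨hbt.le, h2, e2, fun a ha1 ha2 ha3 => ?_⟩
        rcases lt_or_eq_of_le ha1 with h | h
        · exact hT.2.2.2 a (by omega) ha2 ha3
        · rw [← h]
          exact ⟨hKg, hRp, e1⟩
      · right; left
        refine ⟨b, hbt, hKg, hEp, ?_, hT, CLASS_nev h3 (by omega)⟩
        rw [← (untouched (S := S) (t := b) (by omega) hpK hEp).1]
        exact e1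
    · exfalso
      have hEp : ¬ S.E b p := fun h => hEg (hup b hb hbt.le h)
      refine hnT ⟨hbt.le, h2, ?_, fun a ha1 ha2 ha3 => ?_⟩
      · rw [← (untouched (S := S) (t := b) (by omega) hpK hEp).1,
          ← (untouched (S := S) (t := b) (by omega) hgK hEg).1]
        exact hT.2.2.1
      · rcases lt_or_eq_of_le ha1 with h | h
        · exact hT.2.2.2 a (by omega) ha2 ha3
        · rw [← h] at ha3
          exact absurd ha3 hEg

end Sys

end Pool.Agent.SplLog
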