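import Pool.Agent.SplLog.Types

set_option autoImplicit false

namespace Pool.Agent.SplLog

namespace Sys

variable {S : Sys}

private theorem SPLIT_max (f : ℕ → ℕ) {a t : ℕ} {P : ℕ → Prop} (h : ∃ s, a < s ∧ s < t ∧ P (f s)) :
    ∃ τ, a < τ ∧ τ < t ∧ P (f τ) ∧ (∀ s, a < s → s < t → P (f s) → f s ≤ f τ) ∧
      ∀ s, τ < s → s < t → f s ≠ f τ := by
  classical
  obtain ⟨s, h1, h2, h3⟩ := h
  have hne : ((Finset.Ioo a t).filter (fun s => P (f s))).Nonempty := ⟨s, by simp [h1, h2, h3]⟩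
  obtain ⟨r, hr, hr'⟩ := Finset.exists_max_image _ f hne
  simp only [Finset.mem_filter, Finset.mem_Ioo] at hr hr'
  obtain ⟨τ, k1, ⟨k2, k3⟩, k4⟩ := exists_prev (P := fun s => a < s ∧ f s = f r) ⟨r, hr.1.2, hr.1.1, rfl⟩
  refine ⟨τ, k2, k1, by rw [k3]; exact hr.2, ?_, ?_⟩
  · intro s hs1 hs2 hs3
    rw [k3]
    exact hr' s ⟨⟨hs1, hs2⟩, hs3⟩
  · intro s hs1 hs2 hs3
    exact k4 s hs1 hs2 ⟨by omega, by rw [hs3, k3]⟩

private theorem SPLIT_min (f : ℕ → ℕ) {a t : ℕ} {P : ℕ → Prop} (h : ∃ s, a < s ∧ s < t ∧ P (f s)) :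
    ∃ τ, a < τ ∧ τ < t ∧ P (f τ) ∧ (∀ s, a < s → s < t → P (f s) → f τ ≤ f s) ∧
      ∀ s, τ < s → s < t → f s ≠ f τ := by
  classical
  obtain ⟨s, h1, h2, h3⟩ := h
  have hne : ((Finset.Ioo a t).filter (fun s => P (f s))).Nonempty := ⟨s, by simp [h1, h2, h3]⟩
  obtain ⟨r, hr, hr'⟩ := Finset.exists_min_image _ f hne
  simp only [Finset.mem_filter, Finset.mem_Ioo] at hr hr'
  obtain ⟨τ, k1, ⟨k2, k3⟩, k4⟩ := exists_prev (P := fun s => a < s ∧ f s = f r) ⟨r, hr.1.2, hr.1.1, rfl⟩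
  refine ⟨τ, k2, k1, by rw [k3]; exact hr.2, ?_, ?_⟩
  · intro s hs1 hs2 hs3
    rw [k3]
    exact hr' s ⟨⟨hs1, hs2⟩, hs3⟩
  · intro s hs1 hs2 hs3
    exact k4 s hs1 hs2 ⟨by omega, by rw [hs3, k3]⟩

private theorem SPLIT_or {P Q R : ℕ → ℕ → Prop} (h : ∀ t v, P t v → Q t v ∨ R t v) :
    S.cnt P ≤ S.cnt Q + S.cnt R := by
  classical
  unfold cnt
  refine (Finset.card_le_card ?_).trans (Finset.card_union_le _ _)
  intro q hq
  rw [mem_set] at hq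
  rw [Finset.mem_union, mem_set, mem_set]
  rcases h _ _ hq.2.2 with h1 | h1
  · exact Or.inl ⟨hq.1, hq.2.1, h1⟩
  · exact Or.inr ⟨hq.1, hq.2.1, h1⟩

private theorem SPLIT_inj {P Q : ℕ → ℕ → Prop} {r : ℕ → ℕ → ℕ → Prop}
    (h1 : ∀ t v, t < S.m → v ∈ S.K → P t v → ∃ w, w ∈ S.K ∧ Q t w ∧ r t v w)
    (h2 : ∀ t v v' w, P t v → P t v' → r t v w → r t v' w → v = v') :
    S.cnt P ≤ S.cnt Q := by
  have hex : ∀ t v, ∃ w, t < S.m → v ∈ S.K → P t v → w ∈ S.K ∧ Q t w ∧ r t v w := by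
    intro t v
    by_cases h : t < S.m ∧ v ∈ S.K ∧ P t v
    · obtain ⟨w, hw⟩ := h1 t v h.1 h.2.1 h.2.2
      exact ⟨w, fun _ _ _ => hw⟩
    · exact ⟨0, fun a b c => absurd ⟨a, b, c⟩ h⟩
  choose f hf using hex
  refine cnt_le_of_inj (S.set Q) (fun t v => (t, f t v)) ?_ ?_
  · intro t v ht hv h
    rw [mem_set]
    exact ⟨ht, (hf t v ht hv h).1, (hf t v ht hv h).2.1⟩
  · intro t v t' v' ht hv h ht' hv' h' e
    simp only [Prod.mk.injEq] at e
    obtain ⟨rfl, e2⟩ := e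
    refine ⟨rfl, ?_⟩
    have k1 := (hf t v ht hv h).2.2
    have k2 := (hf t v' ht' hv' h').2.2
    rw [← e2] at k2
    exact h2 t v v' _ h h' k1 k2

/-- Every opposite-side single has a record. -/
theorem exists_rec {a t v p : ℕ} (h : S.OS a t v p) :
    ∃ τ, S.Rec a τ t v ∧ (S.One τ t v ∨ ∃ σ, S.Two τ σ t v) := by
  obtain ⟨hL, hat, hk, hn, hp⟩ := h
  obtain ⟨k1, k2, k3, k4, k5, k6⟩ := kl_facts hk
  have ham := hk.1.1
  -- the first event of `p` after `a`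
  have hs : ∃ s, a < s ∧ s < t ∧ S.X s < v := by
    classical
    have hp' : ∃ u, a + 1 ≤ u ∧ u < t ∧ S.E u p := by
      by_contra hcon
      apply hp
      intro u hu1 hu2 hu3
      exact hcon ⟨u, hu1, hu2, hu3⟩
    obtain ⟨u1, u2, u3⟩ := Nat.find_spec hp'
    have hmin : S.NE p (a + 1) (Nat.find hp') := by
      intro w hw1 hw2 hw3
      exact Nat.find_min hp' hw2 ⟨hw1, by omega, hw3⟩
    refine ⟨Nat.find hp', by omega, u2, ?_⟩
    generalize Nat.find hp' = u at u1 u2 u3 hmin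
    by_contra hcon
    have hum := E_lt u3
    have e1 := NE_const k1.1.2.1 u1 hum.le hmin
    have e2 := NE_const hL.2.1 u1 hum.le (hn.mono le_rfl u2.le)
    have e3 := E_int u3
    have e4 : ¬ S.E u v := hn u u1 u2
    apply e4
    rw [E_iff hum hL.2.1, e2.1, e2.2]
    have e5 := hk.2.2
    have e6 : S.rho u p = S.rho (a + 1) v := by rw [e1.2, k5, k6]
    exact ⟨by omega, by omega⟩
  obtain ⟨τ, t1, t2, t3, t4, t5⟩ := SPLIT_max S.X (P := fun x => x < v) hs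
  refine ⟨τ, ⟨t1, t2, t3, t4, t5⟩, ?_⟩
  by_cases hc : ∃ s, τ < s ∧ s < t ∧ v < S.X s
  · right
    obtain ⟨σ, s1, s2, s3, s4, s5⟩ := SPLIT_min S.X (P := fun x => v < x) hc
    exact ⟨σ, s1, s2, s3, s4, s5⟩
  · left
    intro s hs1 hs2
    have hne : S.X s ≠ v := by
      intro he
      apply hn s (by omega) hs2
      exact Ac_E ⟨by have := hL.1; omega, hL.2.1, he.symm⟩
    by_contra hcon
    exact hc ⟨s, hs1, hs2, by omega⟩

/-! HINT (SPLIT).  A turned node `v` (last event `s`, a right touch) is kept at `s` (`TK`), or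
killed by `p` and `p` is untouched since: then `p` is a turned chain node of the same path, and `v`
is determined by `(t, p)` (`kl_inj`); or it is an opposite-side single. -/
theorem dl_le (S : Sys) : S.DL ≤ 2 * S.cnt S.TK + S.cnt (fun t v => ∃ a p, S.OS a t v p) := by
  have h1 : S.DL ≤ S.cnt S.TK + S.cnt (fun t v => (∃ s p, s < t ∧ S.L t v ∧ S.Kl s v p ∧
      S.NE v (s + 1) t ∧ S.NE p (s + 1) t) ∨ ∃ a p, S.OS a t v p) := by
    refine SPLIT_or ?_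
    rintro t v ⟨hL, s, hs, hR, hn⟩
    rcases kp_or_kl hR with h | ⟨p, h⟩
    · exact Or.inl ⟨hL, s, hs, h, hn⟩
    · right
      by_cases hp : S.NE p (s + 1) t
      · exact Or.inl ⟨s, p, hs, hL, h, hn, hp⟩
      · exact Or.inr ⟨s, p, hL, hs, h, hn, hp⟩
  have h2 := SPLIT_or (S := S) (P := fun t v => (∃ s p, s < t ∧ S.L t v ∧ S.Kl s v p ∧
      S.NE v (s + 1) t ∧ S.NE p (s + 1) t) ∨ ∃ a p, S.OS a t v p) (fun t v h => h)
  have h3 : S.cnt (fun t v => ∃ s p, s < t ∧ S.L t v ∧ S.Kl s v p ∧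
      S.NE v (s + 1) t ∧ S.NE p (s + 1) t) ≤ S.cnt S.TK := by
    refine SPLIT_inj (r := fun t v w => ∃ s, s < t ∧ S.Kl s v w ∧ S.NE w (s + 1) t) ?_ ?_
    · rintro t v ht hv ⟨s, p, hs, hL, hk, hn, hp⟩
      obtain ⟨k1, k2, k3, k4, k5, k6⟩ := kl_facts hk
      refine ⟨p, k1.1.2.1, ⟨⟨ht, k1.1.2.1, ?_, ?_⟩, s, hs, k1, hp⟩, s, hs, hk, hp⟩
      · have := hL.2.2.1
        omega
      · have e1 := NE_const k1.1.2.1 hs ht.le hp
        have e2 := NE_const hv hs ht.le hn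
        have := hL.2.2.2
        rw [e2.2, k6] at this
        rw [e1.2, k5]
        exact this
    · rintro t v v' w _ _ ⟨s, hs, hk, hn⟩ ⟨s', hs', hk', hn'⟩
      have e : s = s' := by
        rcases lt_trichotomy s s' with h | h | h
        · exact absurd (R_E (kl_facts hk').1.1) (hn s' (by omega) hs')
        · exact h
        · exact absurd (R_E (kl_facts hk).1.1) (hn' s (by omega) hs)
      subst e
      exact kl_inj hk hk'
  omega

/-! HINT.  An opposite-side single of type I with record `y` is hidden or the smallest `v` with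
`O1 t v y`: injection `(t, v) ↦ (t, y)`; the same for type II. -/
theorem os_le (S : Sys) :
    S.cnt (fun t v => ∃ a p, S.OS a t v p) ≤ S.cnt S.V1 + S.cnt S.V2 + S.HL := by
  have h1 : S.cnt (fun t v => ∃ a p, S.OS a t v p) ≤
      S.cnt (fun t v => (∃ y, S.O1 t v y) ∧ ¬ S.Hd t v ∨ (∃ z, S.O2 t v z) ∧ ¬ S.Hd t v) +
        S.HL := by
    refine SPLIT_or ?_
    rintro t v ⟨a, p, h⟩
    by_cases hd : S.Hd t v
    · exact Or.inr hd
    · left
      obtain ⟨τ, h1, h2 | ⟨σ, h2⟩⟩ := exists_rec h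
      · exact Or.inl ⟨⟨S.X τ, a, p, τ, h, h1, h2, rfl⟩, hd⟩
      · exact Or.inr ⟨⟨S.X σ, a, p, τ, σ, h, h1, h2, rfl⟩, hd⟩
  have h2 := SPLIT_or (S := S) (P := fun t v => (∃ y, S.O1 t v y) ∧ ¬ S.Hd t v ∨
    (∃ z, S.O2 t v z) ∧ ¬ S.Hd t v) (fun t v h => h)
  have h3 : S.cnt (fun t v => (∃ y, S.O1 t v y) ∧ ¬ S.Hd t v) ≤ S.cnt S.V1 := by
    refine SPLIT_inj (r := fun t v w => S.O1 t v w) ?_ ?_
    · rintro t v ht hv ⟨⟨y, hy⟩, _⟩
      refine ⟨y, ?_, ⟨v, hy⟩, hy⟩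
      obtain ⟨a, p, τ, _, h5, _, h7⟩ := hy
      rw [h7]
      exact S.req τ (by have := h5.2.1; omega)
    · rintro t v v' w ⟨_, h4⟩ ⟨_, h5⟩ h6 h7
      rcases lt_trichotomy v v' with h | h | h
      · exact absurd (Or.inl ⟨w, v, h, h7, h6⟩) h5
      · exact h
      · exact absurd (Or.inl ⟨w, v', h, h6, h7⟩) h4
  have h4 : S.cnt (fun t v => (∃ z, S.O2 t v z) ∧ ¬ S.Hd t v) ≤ S.cnt S.V2 := by
    refine SPLIT_inj (r := fun t v w => S.O2 t v w) ?_ ?_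
    · rintro t v ht hv ⟨⟨y, hy⟩, _⟩
      refine ⟨y, ?_, ⟨v, hy⟩, hy⟩
      obtain ⟨a, p, τ, σ, _, h5, h6, h7⟩ := hy
      rw [h7]
      exact S.req σ (by have := h6.2.1; omega)
    · rintro t v v' w ⟨_, h4⟩ ⟨_, h5⟩ h6 h7
      rcases lt_trichotomy v v' with h | h | h
      · exact absurd (Or.inr ⟨w, v, h, h7, h6⟩) h5
      · exact h
      · exact absurd (Or.inr ⟨w, v', h, h6, h7⟩) h4
  omega

end Sys

end Pool.Agent.SplLog
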