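import Pool.Agent.SplLog.Types

set_option autoImplicit false

namespace Pool.Agent.SplLog

namespace Sys

variable {S : Sys}

private theorem TURN_no {t1 t2 v1 v2 s1 s2 : ℕ} (L1 : S.L t1 v1) (k1 : S.Kp s1 v1)
    (n1 : S.NE v1 (s1 + 1) t1) (h1 : s1 < t1) (L2 : S.L t2 v2) (k2 : S.Kp s2 v2)
    (n2 : S.NE v2 (s2 + 1) t2) (h2 : s2 < t2) (ht : t1 ≤ t2) (hne : t1 ≠ t2 ∨ v1 ≠ v2)
    (c1 : S.X s1 < v2) (c2 : v2 ≤ S.X t1) (c3 : S.X s2 < v1) (c4 : v1 ≤ S.X t2) (c6 : s2 ≤ t1) :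
    False := by
  have hm1 := L1.1
  have e1 : S.lam t1 v1 = S.X s1 := by
    rw [(NE_const L1.2.1 h1 hm1.le n1).1]
    exact k1.2
  rcases Nat.lt_or_eq_of_le ht with hlt | heq
  · have hs2 : s2 < t1 := by
      rcases Nat.lt_or_eq_of_le c6 with h | h
      · exact h
      · exfalso
        have h3 := k2.1.2.2.1
        rw [h] at h3
        omega
    have e2 : S.lam t1 v2 = S.X s2 := by
      rw [(NE_const L2.2.1 hs2 hm1.le (n2.mono le_rfl hlt.le)).1]
      exact k2.2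
    have hun : ¬ S.E t1 v2 := n2 t1 hs2 hlt
    have e3 : S.rho t2 v2 = S.rho t1 v2 :=
      (NE_const L2.2.1 hlt.le L2.1.le (n2.mono hs2 le_rfl)).2
    have a1 := S.lt_rho t1 hm1.le v1 L1.2.1
    have a2 := S.lt_rho t1 hm1.le v2 L2.2.1
    have a3 := L2.2.2.2
    rcases lt_trichotomy v1 v2 with h | h | h
    · exact hun (E_up (L_E L1) L2.2.1 (by omega) (by omega))
    · rw [← h] at hun
      exact hun (L_E L1)
    · rcases S.lamin t1 hm1.le v2 L2.2.1 v1 L1.2.1 h with h3 | h3 | h3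
      · omega
      · omega
      · omega
  · subst heq
    have e2 : S.lam t1 v2 = S.X s2 := by
      rw [(NE_const L2.2.1 h2 hm1.le n2).1]
      exact k2.2
    rcases lt_trichotomy v1 v2 with h | h | h
    · have := (L_above L1 L2 h).1
      omega
    · rcases hne with h3 | h3
      · exact h3 rfl
      · exact h3 h
    · have := (L_above L2 L1 h).1
      omega

/-! HINT (TURN).  The item of `(t, v)` is `(X s, s, X t, t, v - 1)`.  Conflict of two, `t1 < t2`: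
`s2 < t1` (`s2 = t1` would be `X s2 = X t1`), and just before `t1` the subtree intervals of `v1` and
`v2` are `(X s1, rho t1 v1)` and `(X s2, rho t2 v2)` (`NE_const`); each contains the other node, so
`v1 = v2` (`lamin`), which is touched at `t1`: contradiction.  `t1 = t2`: `L_above`. -/
theorem turn_items (S : Sys) : ∃ F : Finset Item, CFree S.X S.m F ∧ S.cnt S.TK ≤ F.card := by
  classical
  let f : ℕ × ℕ → Item := fun q => if h : S.TK q.1 q.2 then
    ⟨S.X h.2.choose, h.2.choose, S.X q.1, q.1, q.2 - 1⟩ else ⟨0, 0, 0, 0, 0⟩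
  have hf : ∀ t v, S.TK t v → S.L t v ∧ ∃ s, s < t ∧ S.Kp s v ∧ S.NE v (s + 1) t ∧
      f (t, v) = ⟨S.X s, s, S.X t, t, v - 1⟩ := by
    intro t v h
    refine ⟨h.1, h.2.choose, h.2.choose_spec.1, h.2.choose_spec.2.1, h.2.choose_spec.2.2, ?_⟩
    show (if h : S.TK t v then (⟨S.X h.2.choose, h.2.choose, S.X t, t, v - 1⟩ : Item)
      else ⟨0, 0, 0, 0, 0⟩) = _
    rw [dif_pos h]
  refine ⟨(S.set S.TK).image f, ⟨?_, ?_⟩, ?_⟩
  · intro i hi
    rw [Finset.mem_image] at hi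
    obtain ⟨⟨t, v⟩, hq, rfl⟩ := hi
    rw [mem_set] at hq
    obtain ⟨hL, s, hst, hk, hn, he⟩ := hf t v hq.2.2
    rw [he]
    have a1 := hk.1.2.2.1
    have a2 := hL.2.2.1
    exact ⟨hst, hL.1, rfl, rfl, by show S.X s ≤ v - 1; omega, by show v - 1 < S.X t; omega⟩
  · intro i hi j hj hij hc
    rw [Finset.mem_image] at hi hj
    obtain ⟨⟨t1, v1⟩, hq1, rfl⟩ := hi
    obtain ⟨⟨t2, v2⟩, hq2, rfl⟩ := hj
    rw [mem_set] at hq1 hq2
    obtain ⟨hL1, s1, hst1, hk1, hn1, he1⟩ := hf t1 v1 hq1.2.2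
    obtain ⟨hL2, s2, hst2, hk2, hn2, he2⟩ := hf t2 v2 hq2.2.2
    rw [he1, he2] at hc
    obtain ⟨c1, c2, c3, c4, c5, c6⟩ := hc
    have c1' : S.X s1 ≤ v2 - 1 := c1
    have c2' : v2 - 1 < S.X t1 := c2
    have c3' : S.X s2 ≤ v1 - 1 := c3
    have c4' : v1 - 1 < S.X t2 := c4
    have c5' : s1 ≤ t2 := c5
    have c6' : s2 ≤ t1 := c6
    have k1 := (S.key v1 hL1.2.1).1
    have k2 := (S.key v2 hL2.2.1).1
    have hne : t1 ≠ t2 ∨ v1 ≠ v2 := by
      by_contra h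
      push Not at h
      obtain ⟨h3, h4⟩ := h
      subst h3
      subst h4
      exact hij rfl
    rcases le_total t1 t2 with h | h
    · exact TURN_no hL1 hk1 hn1 hst1 hL2 hk2 hn2 hst2 h hne (by omega) (by omega) (by omega)
        (by omega) c6'
    · exact TURN_no hL2 hk2 hn2 hst2 hL1 hk1 hn1 hst1 h (hne.imp Ne.symm Ne.symm) (by omega)
        (by omega) (by omega) (by omega) c5'
  · rw [Finset.card_image_of_injOn]
    · exact le_rfl
    · rintro ⟨t1, v1⟩ hq1 ⟨t2, v2⟩ hq2 he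
      rw [Finset.mem_coe, mem_set] at hq1 hq2
      obtain ⟨hL1, s1, _, _, _, he1⟩ := hf t1 v1 hq1.2.2
      obtain ⟨hL2, s2, _, _, _, he2⟩ := hf t2 v2 hq2.2.2
      rw [he1, he2] at he
      have h3 : t1 = t2 := congrArg Item.t he
      have h4 : v1 - 1 = v2 - 1 := congrArg Item.c he
      have k1 := (S.key v1 hL1.2.1).1
      have k2 := (S.key v2 hL2.2.1).1
      have h5 : v1 = v2 := by omega
      rw [h3, h5]

end Sys

end Pool.Agent.SplLog
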