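import Pool.Agent.SplLog.Types

set_option autoImplicit false

namespace Pool.Agent.SplLog

namespace Sys

variable {S : Sys}

private theorem T1_no {t1 t2 v2 a2 τ2 y : ℕ} (r2 : S.Rec a2 τ2 t2 v2) (o2 : S.One τ2 t2 v2)
    (e2 : y = S.X τ2) (h1 : y < S.X t1) (h3 : τ2 ≤ t1) (hlt : t1 < t2) : False := by
  have h4 : τ2 < t1 := by
    rcases Nat.lt_or_eq_of_le h3 with h | h
    · exact h
    · rw [h] at e2
      omega
  have h5 := o2 t1 h4 hlt
  have h6 := r2.2.2.2.1 t1 (by have := r2.1; omega) hlt h5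
  omega

/-! HINT (T1).  The item of `(t, y)` in `V1` is `(y, τ, X t, t, y)`; `τ` is the last request of `y`
before `t`, and all requests in `(τ, t)` are `≤ y`.  Two items in conflict have `y1 = y2 = y`; for
`t1 < t2`: `τ2 ≤ t1`, so `X t1 ≤ y`, but `y < X t1`. -/
theorem one_items (S : Sys) : ∃ F : Finset Item, CFree S.X S.m F ∧ S.cnt S.V1 ≤ F.card := by
  classical
  have hex : ∀ q : ℕ × ℕ, ∃ i : Item, i.t = q.1 ∧ i.y = q.2 ∧ (S.V1 q.1 q.2 → i.b = S.X q.1 ∧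
      i.c = q.2 ∧ q.2 < S.X q.1 ∧ q.1 < S.m ∧ i.τ < q.1 ∧ q.2 = S.X i.τ ∧
      ∃ a v, S.Rec a i.τ q.1 v ∧ S.One i.τ q.1 v) := by
    intro q
    by_cases h : S.V1 q.1 q.2
    · obtain ⟨v, a, p, τ, h1, h2, h3, h4⟩ := h
      refine ⟨⟨q.2, τ, S.X q.1, q.1, q.2⟩, rfl, rfl, fun _ => ⟨rfl, rfl, ?_, h1.1.1, h2.2.1, h4, a,
        v, h2, h3⟩⟩
      have h5 := h2.2.2.1
      have h6 := h1.1.2.2.1
      omega
    · exact ⟨⟨q.2, 0, 0, q.1, 0⟩, rfl, rfl, fun h' => absurd h' h⟩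
  choose f ft fy hf using hex
  refine ⟨(S.set S.V1).image f, ⟨?_, ?_⟩, ?_⟩
  · intro i hi
    rw [Finset.mem_image] at hi
    obtain ⟨q, hq, rfl⟩ := hi
    rw [mem_set] at hq
    obtain ⟨h1, h2, h3, h4, h5, h6, _⟩ := hf q hq.2.2
    have h7 := ft q
    have h8 := fy q
    refine ⟨by omega, by omega, by rw [h8, h6], by rw [h7, h1], by omega, by omega⟩
  · intro i hi j hj hij hc
    rw [Finset.mem_image] at hi hj
    obtain ⟨q1, hq1, rfl⟩ := hi
    obtain ⟨q2, hq2, rfl⟩ := hj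
    rw [mem_set] at hq1 hq2
    obtain ⟨a1, a2, a3, a4, a5, a6, a, v, ar, ao⟩ := hf q1 hq1.2.2
    obtain ⟨b1, b2, b3, b4, b5, b6, b, w, br, bo⟩ := hf q2 hq2.2.2
    obtain ⟨c1, _, c3, _, c5, c6⟩ := hc
    rw [fy, b2] at c1
    rw [fy, a2] at c3
    rw [ft] at c5 c6
    have hy : q1.2 = q2.2 := by omega
    rcases lt_trichotomy q1.1 q2.1 with h | h | h
    · exact T1_no br bo b6 (by omega) c6 h
    · exact hij (by rw [Prod.ext h hy])
    · exact T1_no ar ao a6 (by omega) c5 h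
  · rw [Finset.card_image_of_injOn]
    · exact le_rfl
    · intro q1 _ q2 _ he
      have h1 := ft q1
      have h2 := fy q1
      rw [he, ft] at h1
      rw [he, fy] at h2
      exact Prod.ext h1.symm h2.symm

end Sys

end Pool.Agent.SplLog
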