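import Pool.Agent.SplLog.Types

set_option autoImplicit false

namespace Pool.Agent.SplLog

namespace Sys

variable {S : Sys}

private structure T2_D (S : Sys) (t v a τ σ : ℕ) : Prop where
  htm : t < S.m
  aτ : a < τ
  τσ : τ < σ
  σt : σ < t
  yv : S.X τ < v
  vx : v < S.X t
  xr : S.X t < S.rho t v
  xz : S.X t < S.X σ
  e1 : ∀ s, a < s → s < t → S.X s ≤ S.X τ ∨ S.rho t v ≤ S.X s
  e2 : ∀ s, τ < s → s < t → S.X s < S.X τ ∨ S.X σ ≤ S.X s

private theorem T2_mk {a t v p τ σ : ℕ} (h : S.OS a t v p) (hr : S.Rec a τ t v)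
    (h2 : S.Two τ σ t v) : T2_D S t v a τ σ := by
  obtain ⟨⟨htm, hv, hx, hxr⟩, hat, hkl, hne, _⟩ := h
  obtain ⟨r1, r2, r3, r4, r5⟩ := hr
  obtain ⟨t1, t2, t3, t4, t5⟩ := h2
  have key : ∀ s, a < s → s < t → ¬ (S.lam t v < S.X s ∧ S.X s < S.rho t v) := by
    intro s hs hst hc
    obtain ⟨c1, c2⟩ := NE_const hv hst.le htm.le (hne.mono (show a + 1 ≤ s from hs) le_rfl)
    exact hne s hs hst ((E_iff (by omega) hv).2 ⟨by omega, by omega⟩)
  have hl := S.lam_lt t htm.le v hv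
  have e1 : ∀ s, a < s → s < t → S.X s ≤ S.X τ ∨ S.rho t v ≤ S.X s := by
    intro s hs hst
    have k := key s hs hst
    rcases Nat.lt_or_ge (S.X s) v with h | h
    · exact Or.inl (r4 s hs hst h)
    · right
      by_contra hc
      exact k ⟨by omega, by omega⟩
  refine ⟨htm, r1, t1, t2, r3, hx, hxr, ?_, e1, ?_⟩
  · rcases e1 σ (by omega) t2 with h | h <;> omega
  · intro s hs hst
    have k1 := r5 s hs hst
    rcases e1 s (by omega) hst with h | h
    · omega
    · exact Or.inr (t4 s hs hst (by omega))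

private theorem T2_key {t v a τ σ t' v' a' τ' σ' : ℕ} (h : T2_D S t v a τ σ)
    (h' : T2_D S t' v' a' τ' σ') (c1 : S.X τ ≤ S.X t') (c2 : S.X t' < S.X σ)
    (c3 : S.X τ' ≤ S.X t) (c4 : S.X t < S.X σ') (c5 : τ ≤ σ') (c6 : τ' ≤ σ) :
    t = t' ∧ S.X σ = S.X σ' := by
  have hv1 := h.yv
  have hv2 := h.vx
  have hv3 := h.xz
  have hv4 := h.xr
  have hv5 := h.σt
  have hv6 := h.τσ
  have hv7 := h.aτ
  have hw1 := h'.yv
  have hw2 := h'.vx
  have hw3 := h'.xz
  have hw4 := h'.xr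
  have hw5 := h'.σt
  have hw6 := h'.τσ
  have hw7 := h'.aτ
  rcases Nat.lt_trichotomy t t' with ht | ht | ht
  · rcases Nat.lt_or_ge τ' t with h1 | h1
    · rcases h'.e2 t h1 ht with h2 | h2 <;> omega
    · omega
  · subst ht
    refine ⟨rfl, ?_⟩
    rcases Nat.lt_trichotomy (S.X τ) (S.X τ') with hy | hy | hy
    · have h1 : τ' ≤ a := by
        by_contra hc
        rcases h.e1 τ' (by omega) (by omega) with h2 | h2 <;> omega
      rcases h'.e2 σ (by omega) (by omega) with h2 | h2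
      · omega
      · rcases Nat.lt_or_ge τ σ' with h3 | h3
        · rcases h.e2 σ' h3 (by omega) with h4 | h4 <;> omega
        · have : τ = σ' := by omega
          subst this
          omega
    · have e : τ = τ' := by
        rcases Nat.lt_trichotomy τ τ' with h1 | h1 | h1
        · rcases h.e2 τ' h1 (by omega) with h2 | h2 <;> omega
        · exact h1
        · rcases h'.e2 τ h1 (by omega) with h2 | h2 <;> omega
      subst e
      rcases h'.e2 σ (by omega) (by omega) with h2 | h2 <;>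
        rcases h.e2 σ' (by omega) (by omega) with h3 | h3 <;> omega
    · have h1 : τ ≤ a' := by
        by_contra hc
        rcases h'.e1 τ (by omega) (by omega) with h2 | h2 <;> omega
      rcases h.e2 σ' (by omega) (by omega) with h2 | h2
      · omega
      · rcases Nat.lt_or_ge τ' σ with h3 | h3
        · rcases h'.e2 σ h3 (by omega) with h4 | h4 <;> omega
        · have : τ' = σ := by omega
          subst this
          omega
  · rcases Nat.lt_or_ge τ t' with h1 | h1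
    · rcases h.e2 t' h1 ht with h2 | h2 <;> omega
    · omega

/-! HINT (T2).  The item of `(t, z)` in `V2` is `(X τ, τ, X σ, σ, X t)` (choose `v, a, p, τ, σ`).
Facts: `v` has no event in `(a, t)`, so no request in `(a, t)` lies in the subtree interval of `v`,
which contains `v` and `X t`; so `X τ < v < X t < X σ`, and a request in `(τ, t)` is `< X τ` or
`≥ X σ`.  Conflict, `t1 < t2`: `X τ2 ≤ X t1 < X σ2`, so `t1` is not in `(τ2, t2)`, `t1 ≤ τ2`, and
`σ1 < t1 ≤ τ2`: contradiction.  `t1 = t2 = t`, `z1 ≠ z2`: then `y1 ≠ y2` (if `y1 = y2` then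
`τ1 = τ2` and the requests `> v1` and `> v2` in `(τ, t)` are the same), say `y1 < y2`; `y2` is not
requested in `(a1, t)`, so `τ2 ≤ a1 < τ1`; `z1` is requested in `(τ2, t)`, so `z2 < z1`; `z2` is not
requested in `(τ1, t)`, so `σ2 < τ1`: contradiction. -/
theorem two_items (S : Sys) : ∃ F : Finset Item, CFree S.X S.m F ∧ S.cnt S.V2 ≤ F.card := by
  classical
  have hex : ∀ q : ℕ × ℕ, ∃ i : Item, q ∈ S.set S.V2 → ∃ v a τ σ, T2_D S q.1 v a τ σ ∧
      q.2 = S.X σ ∧ i = ⟨S.X τ, τ, S.X σ, σ, S.X q.1⟩ := by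
    intro q
    by_cases hq : q ∈ S.set S.V2
    · obtain ⟨_, _, v, a, p, τ, σ, h1, h2, h3, h4⟩ := mem_set.1 hq
      exact ⟨_, fun _ => ⟨v, a, τ, σ, T2_mk h1 h2 h3, h4, rfl⟩⟩
    · exact ⟨⟨0, 0, 0, 0, 0⟩, fun h => absurd h hq⟩
  choose f hf using hex
  have key : ∀ q ∈ S.set S.V2, ∀ q' ∈ S.set S.V2, Confl (f q) (f q') → q = q' := by
    intro q hq q' hq' hc
    obtain ⟨v, a, τ, σ, h1, h2, h3⟩ := hf q hq
    obtain ⟨v', a', τ', σ', h1', h2', h3'⟩ := hf q' hq'
    rw [h3, h3'] at hc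
    obtain ⟨c1, c2, c3, c4, c5, c6⟩ := hc
    obtain ⟨e1, e2⟩ := T2_key h1 h1' c1 c2 c3 c4 c5 c6
    exact Prod.ext e1 (by rw [h2, h2', e2])
  have hok : ∀ q ∈ S.set S.V2, (f q).Ok S.X S.m ∧ Confl (f q) (f q) := by
    intro q hq
    obtain ⟨v, a, τ, σ, h1, h2, h3⟩ := hf q hq
    have k1 := h1.yv
    have k2 := h1.vx
    have k3 := h1.xz
    have k4 := h1.σt
    have k5 := h1.htm
    have k6 := h1.τσ
    rw [h3]
    refine ⟨⟨k6, ?_, rfl, rfl, ?_, k3⟩, ?_, k3, ?_, k3, ?_, ?_⟩ <;> dsimp only <;> omega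
  refine ⟨(S.set S.V2).image f, ⟨?_, ?_⟩, ?_⟩
  · intro i hi
    obtain ⟨q, hq, rfl⟩ := Finset.mem_image.1 hi
    exact (hok q hq).1
  · intro i hi j hj hij hc
    obtain ⟨q, hq, rfl⟩ := Finset.mem_image.1 hi
    obtain ⟨q', hq', rfl⟩ := Finset.mem_image.1 hj
    exact hij (by rw [key q hq q' hq' hc])
  · rw [Finset.card_image_of_injOn]
    · exact le_rfl
    · intro q hq q' hq' heq
      refine key q hq q' hq' ?_
      have h1 := (hok q hq).2
      rw [← heq]
      exact h1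

end Sys

end Pool.Agent.SplLog
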