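import Pool.Agent.SplLog.Line
import Pool.Agent.SplLog.Turn
import Pool.Agent.SplLog.Type1
import Pool.Agent.SplLog.Type2
import Pool.Agent.SplLog.Split

set_option autoImplicit false

/-!
# The number of changes of direction against the cost of an arbitrary execution
-/

namespace Pool.Agent.SplLog

open BinaryTree Pool.Agent.MP_c42954_lc.Scan

/-- A conflict-free family has at most twice the cost many items. -/
theorem cfree_le {T : BinaryTree ℕ} {X : ℕ → ℕ} {m k : ℕ} (hb : IsBST T)
    (hX : ∀ t, t < m → X t ∈ inorder T) (h : Exec T ((List.range m).map X) k) {F : Finset Item}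
    (hF : CFree X m F) : F.card ≤ 2 * k := by
  refine line_fun h hb hX F (fun i => i.τ) (fun i => i.t) (fun i => i.c) ?_ ?_ ?_ ?_
  · intro i hi
    obtain ⟨h1, h2, h3, h4, h5, h6⟩ := hF.1 i hi
    omega
  · intro i hi
    exact (hF.1 i hi).2.1
  · intro i hi
    obtain ⟨h1, h2, h3, h4, h5, h6⟩ := hF.1 i hi
    omega
  · intro i hi j hj hij a1 a2 a3 a4
    obtain ⟨h1, h2, h3, h4, h5, h6⟩ := hF.1 i hi
    obtain ⟨g1, g2, g3, g4, g5, g6⟩ := hF.1 j hj
    try simp only at a1 a2 a3 a4 ⊢
    by_contra hcon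
    apply hF.2 i hi j hj hij
    unfold Confl
    omega

/-- The same for the reflected requests. -/
theorem cfree_mir_le {T : BinaryTree ℕ} {X : ℕ → ℕ} {m k N : ℕ} (hb : IsBST T)
    (hX : ∀ t, t < m → X t ∈ inorder T) (hN : ∀ t, t < m → X t < N)
    (h : Exec T ((List.range m).map X) k) {F : Finset Item}
    (hF : CFree (fun t => N - X t) m F) : F.card ≤ 2 * k := by
  refine line_fun h hb hX F (fun i => i.t) (fun i => i.τ) (fun i => N - i.c - 1) ?_ ?_ ?_ ?_
  · intro i hi
    exact (hF.1 i hi).2.1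
  · intro i hi
    obtain ⟨h1, h2, h3, h4, h5, h6⟩ := hF.1 i hi
    omega
  · intro i hi
    obtain ⟨h1, h2, h3, h4, h5, h6⟩ := hF.1 i hi
    have e1 := hN i.t h2
    have e2 := hN i.τ (by omega)
    simp only at h3 h4 ⊢
    omega
  · intro i hi j hj hij a1 a2 a3 a4
    obtain ⟨h1, h2, h3, h4, h5, h6⟩ := hF.1 i hi
    obtain ⟨g1, g2, g3, g4, g5, g6⟩ := hF.1 j hj
    have e1 := hN i.t h2
    have e2 := hN i.τ (by omega)
    have e3 := hN j.t g2
    have e4 := hN j.τ (by omega)
    simp only at a1 a2 a3 a4 h3 h4 g3 g4 ⊢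
    by_contra hcon
    apply hF.2 i hi j hj hij
    unfold Confl
    omega

namespace Sys

theorem mir_DL (S : Sys) : S.mir.DL = S.DR := by
  apply mir_cnt
  intro t u hu
  unfold TuL TuR
  simp only [mir_L hu, mir_R hu, mir_NE hu]

/-- The changes of direction from the right to the left. -/
theorem dl_bound (S : Sys) {B : ℕ} (h : ∀ F, CFree S.X S.m F → F.card ≤ B) :
    S.DL ≤ 4 * B + S.HL := by
  obtain ⟨F1, h1, h2⟩ := S.turn_items
  obtain ⟨F2, h3, h4⟩ := S.one_items
  obtain ⟨F3, h5, h6⟩ := S.two_items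
  have a1 := h F1 h1
  have a2 := h F2 h3
  have a3 := h F3 h5
  have a4 := S.dl_le
  have a5 := S.os_le
  omega

end Sys

section

variable {T : BinaryTree ℕ} {X : ℕ → ℕ} {m top k : ℕ} (hb : IsBST T)
  (hX : ∀ t, t < m → X t ∈ inorder T) (hB : Bd 0 top T)

/-- **The number of changes of direction** is at most `16` times the cost of an arbitrary execution
plus the number of hidden changes of direction. -/
theorem dirs_le (h : Exec T ((List.range m).map X) k) :
    (sysOf T X m top hb hX hB).DL + (sysOf T X m top hb hX hB).DR ≤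
      16 * k + ((sysOf T X m top hb hX hB).HL + (sysOf T X m top hb hX hB).mir.HL) := by
  have h1 := (sysOf T X m top hb hX hB).dl_bound (B := 2 * k)
    (fun F hF => cfree_le hb hX h hF)
  have h2 := (sysOf T X m top hb hX hB).mir.dl_bound (B := 2 * k)
    (fun F hF => cfree_mir_le (N := top) hb hX (fun t ht => (hB _ (hX t ht)).2) h hF)
  rw [Sys.mir_DL] at h2
  omega

end

end Pool.Agent.SplLog
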