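import Pool.Agent.SplLog.Inj

set_option autoImplicit false

namespace Pool.Agent.SplLog

namespace Sys

variable {S : Sys}

private theorem CAB_nev (v s t : ℕ) : ∀ (_ : DecidablePred fun a => S.E a v),
    S.nev v s t = ((Finset.Ico s t).filter (fun a => S.E a v)).card := by
  intro inst
  unfold nev
  congr 1
  exact Finset.filter_congr_decidable ..

private theorem CAB_lt {g a0 a t : ℕ} (h1 : a0 ≤ a) (h2 : a < t) (h : S.E a g) :
    S.nev g a0 a < S.nev g a0 t := by
  classical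
  rw [CAB_nev g a0 a inferInstance, CAB_nev g a0 t inferInstance]
  apply Finset.card_lt_card
  rw [Finset.ssubset_iff_of_subset]
  · refine ⟨a, ?_, ?_⟩
    · rw [Finset.mem_filter, Finset.mem_Ico]
      exact ⟨⟨h1, h2⟩, h⟩
    · rw [Finset.mem_filter, Finset.mem_Ico]
      rintro ⟨⟨_, h3⟩, _⟩
      exact lt_irrefl _ h3
  · intro c hc
    rw [Finset.mem_filter, Finset.mem_Ico] at hc ⊢
    exact ⟨⟨hc.1.1, by omega⟩, hc.2⟩

/-- The same node and the same number of events: the same time. -/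
private theorem CAB_time {a0 t1 t2 g p1 p2 : ℕ} (h1 : S.Tail a0 t1 g p1) (h2 : S.Tail a0 t2 g p2)
    (he : S.nev g a0 t1 = S.nev g a0 t2) : t1 = t2 := by
  rcases lt_trichotomy t1 t2 with h | h | h
  · have := CAB_lt h1.1 h (R_E h1.2.1.1)
    omega
  · exact h
  · have := CAB_lt h2.1 h (R_E h2.2.1.1)
    omega

private theorem CAB_tail {a0 t1 t2 g1 g2 p1 p2 : ℕ} (h1 : S.Tail a0 t1 g1 p1)
    (h2 : S.Tail a0 t2 g2 p2) (hp : p1 < g2) (hg1 : g2 < g1) (hl : S.lam a0 g2 = S.lam a0 g1)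
    (he : S.nev g1 a0 t1 = S.nev g2 a0 t2) : False := by
  refine tail_inj h1 h2.2.1.1.2.1 hp hg1 hl h2.1 ⟨p2, h2.2.1⟩ ?_ he
  rintro a ha1 ha2 ⟨p, hp⟩
  exact not_kp_kl (h2.2.2.2 a ha1 ha2 (R_E hp.1)).1 hp

private theorem CAB_rel {P : ℕ → ℕ → Prop} {α : Type} [Inhabited α] (T : Finset α)
    (r : ℕ → ℕ → α → Prop) (h1 : ∀ t v, P t v → ∃ x ∈ T, r t v x)
    (h2 : ∀ t v t' v' x, v ≤ v' → r t v x → r t' v' x → t = t' ∧ v = v') :
    S.cnt P ≤ T.card := by
  classical
  refine cnt_le_of_inj T (fun t v => if h : ∃ x ∈ T, r t v x then h.choose else default) ?_ ?_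
  · intro t v _ _ hP
    have h := h1 t v hP
    simp only [dif_pos h]
    exact h.choose_spec.1
  · intro t v t' v' _ _ hP _ _ hP' he
    have h := h1 t v hP
    have h' := h1 t' v' hP'
    simp only [dif_pos h, dif_pos h'] at he
    have a := h.choose_spec.2
    have b := h'.choose_spec.2
    rw [he] at a
    rcases le_total v v' with c | c
    · exact h2 _ _ _ _ _ c a b
    · have := h2 _ _ _ _ _ c b a
      exact ⟨this.1.symm, this.2.symm⟩

/-! HINT (CAB).  `(t, g) ↦ (s, lam s g, nev g (s + 1) t)` resp. `(s, nev g (s + 1) t)`.  Injectivity: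
`tail_inj` (WLOG `g2 < g1`; show `p1 < g2`), and if `g1 = g2` the time `t` is determined by the
number of events.  In case A `lam s g` is `0` or `Sw s (lam s g)`. -/
theorem ca_count (J : ℕ) :
    S.cnt (fun t g => ∃ s p, S.CA J s t g p) ≤ J * (S.m + S.CR) := by
  classical
  have hT : ((Finset.range S.m).image (fun s => (s, 0)) ∪ S.set S.Sw).card ≤ S.m + S.CR := by
    refine (Finset.card_union_le _ _).trans ?_
    have h3 : ((Finset.range S.m).image (fun s => (s, 0))).card ≤ S.m :=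
      Finset.card_image_le.trans (by rw [Finset.card_range])
    have h4 : (S.set S.Sw).card = S.CR := rfl
    omega
  refine le_trans (CAB_rel (((Finset.range S.m).image (fun s => (s, 0)) ∪ S.set S.Sw) ×ˢ
    Finset.range J) (fun t g x => ∃ p, S.CA J x.1.1 t g p ∧ x.1.2 = S.lam x.1.1 g ∧
      x.2 = S.nev g (x.1.1 + 1) t) ?_ ?_) ?_
  · rintro t g ⟨s, p, h⟩
    refine ⟨((s, S.lam s g), S.nev g (s + 1) t), ?_, p, h, rfl, rfl⟩
    obtain ⟨_, ⟨hR, _⟩, _, _, _, hJ⟩ := h
    rw [Finset.mem_product]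
    refine ⟨?_, Finset.mem_range.2 hJ⟩
    rw [Finset.mem_union]
    rcases S.lam_mem s hR.1.le g hR.2.1 with h0 | hK
    · left
      rw [Finset.mem_image]
      refine ⟨s, Finset.mem_range.2 hR.1, ?_⟩
      show (s, 0) = (s, S.lam s g)
      rw [h0]
    · right
      rw [mem_set]
      refine ⟨hR.1, hK, ⟨hR.1, hK, hR.2.2.2, ?_⟩, g, hR, rfl⟩
      have h5 := S.lam_anc s hR.1.le g hR.2.1 hK
      exact lt_trans hR.2.2.1 h5
  · rintro t2 g2 t1 g1 ⟨⟨s, w⟩, n⟩ hle ⟨p2, h2, e2, f2⟩ ⟨p1, h1, e1, f1⟩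
    simp only at h1 h2 e1 e2 f1 f2
    obtain ⟨_, k2, kp2, ne2, tl2, _⟩ := h2
    obtain ⟨_, k1, kp1, ne1, tl1, _⟩ := h1
    rcases Nat.lt_or_eq_of_le hle with hlt | heq
    · exfalso
      have hp1 : p1 < g1 := (kl_facts tl1.2.1).2.1
      have hp : p1 < g2 := by
        by_contra hcon
        rcases Nat.lt_or_eq_of_le (Nat.le_of_not_lt hcon) with h3 | h3
        · have a1 := (R_above k2.1 kp1.1 h3).2
          have a2 := (R_above kp1.1 k1.1 hp1).2
          apply ne1
          omega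
        · apply ne1
          rw [← h3]
          omega
      exact CAB_tail tl1 tl2 hp hlt (by rw [k2.2, k1.2]) (by omega)
    · subst heq
      exact ⟨CAB_time tl2 tl1 (by omega), rfl⟩
  · rw [Finset.card_product, Finset.card_range, Nat.mul_comm]
    exact Nat.mul_le_mul_left J hT

theorem cb_count (J : ℕ) : S.cnt (fun t g => ∃ s p, S.CB J s t g p) ≤ J * S.m := by
  classical
  refine le_trans (CAB_rel (Finset.range S.m ×ˢ Finset.range J) (fun t g x => ∃ p,
    S.CB J x.1 t g p ∧ x.2 = S.nev g (x.1 + 1) t) ?_ ?_) ?_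
  · rintro t g ⟨s, p, h⟩
    refine ⟨(s, S.nev g (s + 1) t), ?_, p, h, rfl⟩
    obtain ⟨_, ⟨hR, _⟩, _, _, _, hJ⟩ := h
    rw [Finset.mem_product]
    exact ⟨Finset.mem_range.2 hR.1, Finset.mem_range.2 hJ⟩
  · rintro t2 g2 t1 g1 ⟨s, n⟩ hle ⟨p2, h2, f2⟩ ⟨p1, h1, f1⟩
    simp only at h1 h2 f1 f2
    obtain ⟨_, k2, kp2, ne2, tl2, _⟩ := h2
    obtain ⟨_, k1, kp1, ne1, tl1, _⟩ := h1
    rcases Nat.lt_or_eq_of_le hle with hlt | heq
    · exfalso
      have hp1K : p1 ∈ S.K := (kl_facts tl1.2.1).1.1.2.1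
      have hp : p1 < g2 := by
        by_contra hcon
        rcases Nat.lt_or_eq_of_le (Nat.le_of_not_lt hcon) with h3 | h3
        · apply kp1
          have a1 := k2.1.2.2.1
          have a2 := S.lt_rho s k2.1.1.le p1 hp1K
          exact E_up (R_E k2.1) hp1K (by omega) (by omega)
        · apply kp1
          rw [← h3]
          exact R_E k2.1
      exact CAB_tail tl1 tl2 hp hlt (by rw [k2.2, k1.2]) (by omega)
    · subst heq
      exact ⟨CAB_time tl2 tl1 (by omega), rfl⟩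
  · rw [Finset.card_product, Finset.card_range, Finset.card_range, Nat.mul_comm]

end Sys

end Pool.Agent.SplLog
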