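import Pool.Agent.SplLog.Inj

set_option autoImplicit false

namespace Pool.Agent.SplLog

namespace Sys

variable {S : Sys}

private theorem CF_nev (v s t : ℕ) : ∀ (_ : DecidablePred fun a => S.E a v),
    S.nev v s t = ((Finset.Ico s t).filter (fun a => S.E a v)).card := by
  intro inst
  unfold nev
  congr 1
  exact Finset.filter_congr_decidable ..

private theorem CF_lt {g a0 a t : ℕ} (h1 : a0 ≤ a) (h2 : a < t) (h : S.E a g) :
    S.nev g a0 a < S.nev g a0 t := by
  classical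
  rw [CF_nev g a0 a inferInstance, CF_nev g a0 t inferInstance]
  apply Finset.card_lt_card
  rw [Finset.ssubset_iff_of_subset]
  · refine ⟨a, ?_, ?_⟩
    · rw [Finset.mem_filter, Finset.mem_Ico]
      exact ⟨⟨h1, h2⟩, h⟩
    · rw [Finset.mem_filter, Finset.mem_Ico]
      rintro ⟨⟨_, h3⟩, _⟩
      exact lt_irrefl _ h3
  · intro c hc
    rw [Finset.mem_filter, Finset.mem_Ico] at hc ⊢
    exact ⟨⟨hc.1.1, by omega⟩, hc.2⟩

/-- The same node and the same number of events: the same time. -/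
private theorem CF_time {a0 t1 t2 g p1 p2 : ℕ} (h1 : S.Tail a0 t1 g p1) (h2 : S.Tail a0 t2 g p2)
    (he : S.nev g a0 t1 = S.nev g a0 t2) : t1 = t2 := by
  rcases lt_trichotomy t1 t2 with h | h | h
  · have := CF_lt h1.1 h (R_E h1.2.1.1)
    omega
  · exact h
  · have := CF_lt h2.1 h (R_E h2.2.1.1)
    omega

private theorem CF_tail {a0 t1 t2 g1 g2 p1 p2 : ℕ} (h1 : S.Tail a0 t1 g1 p1)
    (h2 : S.Tail a0 t2 g2 p2) (hp : p1 < g2) (hg1 : g2 < g1) (hl : S.lam a0 g2 = S.lam a0 g1)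
    (he : S.nev g1 a0 t1 = S.nev g2 a0 t2) : False := by
  refine tail_inj h1 h2.2.1.1.2.1 hp hg1 hl h2.1 ⟨p2, h2.2.1⟩ ?_ he
  rintro a ha1 ha2 ⟨p, hp⟩
  exact not_kp_kl (h2.2.2.2 a ha1 ha2 (R_E hp.1)).1 hp

private theorem CF_rel {P : ℕ → ℕ → Prop} {α : Type} [Inhabited α] (T : Finset α)
    (r : ℕ → ℕ → α → Prop) (h1 : ∀ t v, P t v → ∃ x ∈ T, r t v x)
    (h2 : ∀ t v t' v' x, v ≤ v' → r t v x → r t' v' x → t = t' ∧ v = v') :
    S.cnt P ≤ T.card := by
  classical
  refine cnt_le_of_inj T (fun t v => if h : ∃ x ∈ T, r t v x then h.choose else default) ?_ ?_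
  · intro t v _ _ hP
    have h := h1 t v hP
    simp only [dif_pos h]
    exact h.choose_spec.1
  · intro t v t' v' _ _ hP _ _ hP' he
    have h := h1 t v hP
    have h' := h1 t' v' hP'
    simp only [dif_pos h, dif_pos h'] at he
    have a := h.choose_spec.2
    have b := h'.choose_spec.2
    rw [he] at a
    rcases le_total v v' with c | c
    · exact h2 _ _ _ _ _ c a b
    · have := h2 _ _ _ _ _ c b a
      exact ⟨this.1.symm, this.2.symm⟩

private theorem CF_lam {l s g w : ℕ} (hk : S.Kl l g w) (hls : l < s) (hs : s ≤ S.m)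
    (hn : S.NE g (l + 1) s) : S.lam s g = w := by
  rw [(NE_const hk.1.2.1 hls hs hn).1]
  exact hk.2.2

private theorem CF_kl {l' s w p σ l1 : ℕ} (hE : S.E l' p) (hl : S.lam (l' + 1) p = w)
    (hw : w ∈ S.K) (hAR : S.AR w σ l1) (h1 : σ ≤ l') (h2 : l' ≤ l1) (_ : l' < s) :
    S.Kl l' p w := by
  have hm := E_lt hE
  have hpK := E_mem hE
  have hw0 := (S.key w hw).1
  rcases hE with hR | hL | hA
  · rcases kp_or_kl hR with h | ⟨q, h⟩
    · exfalso
      have h3 : w = S.X l' := by rw [← hl, h.2]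
      exact not_R_Ac (hAR l' h1 h2 (Ac_E ⟨hm, hw, h3⟩)) ⟨hm, hw, h3⟩
    · have h3 := h.2.2
      rw [hl] at h3
      rw [h3]
      exact h
  · exfalso
    have hpx := hL.2.2.1
    have key : S.E l' w → w < p → False := by
      intro h3 h4
      have h5 := (hAR l' h1 h2 h3).2.2.1
      omega
    have hwp : w < p := by
      rw [← hl]
      exact S.lam_lt (l' + 1) (by omega) p hpK
    apply key _ hwp
    have up : S.lam l' p = w → S.E l' w := by
      intro h3
      have hK : S.lam l' p ∈ S.K := by rw [h3]; exact hw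
      have h4 := S.lam_anc l' hm.le p hpK hK
      rw [h3] at h4
      have h5 := S.lam_lt l' hm.le w hw
      exact E_up (L_E hL) hw (by omega) h4
    rcases S.left l' hm p hpK hpx with h3 | ⟨_, _, h3 | ⟨c1, c2, c3, c4, c5⟩⟩ | ⟨_, q, _, _, _, _, h3, _⟩
    · exact up (by rw [← h3.2.1, hl])
    · exact up (by rw [← h3, hl])
    · have hq := S.lam_anc l' hm.le p hpK c1
      have hq1 := S.lam_lt l' hm.le _ c1
      have hq2 := S.lam_lt l' hm.le p hpK
      have hEq : S.E l' (S.lam l' p) := E_up (L_E hL) c1 (by omega) hq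
      have h6 : S.lam l' (S.lam l' p) = w := by rw [← c5, hl]
      have hK : S.lam l' (S.lam l' p) ∈ S.K := by rw [h6]; exact hw
      have h7 := S.lam_anc l' hm.le _ c1 hK
      rw [h6] at h7
      have h8 := S.lam_lt l' hm.le w hw
      exact E_up hEq hw (by omega) h7
    · exact up (by rw [← h3, hl])
  · exfalso
    have h3 := (S.acc l' hm).1
    rw [← hA.2.2, hl] at h3
    omega

private theorem CF_pg {s σ w l1 l2 t1 g1 g2 p1 : ℕ} (ls1 : l1 < s) (k1 : S.Kl l1 g1 w)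
    (r1 : S.R s g1) (ne1 : S.NE g1 (l1 + 1) s) (rp1 : S.RP σ l1 w) (tl1 : S.Tail s t1 g1 p1)
    (fr1 : ¬ ∃ l', S.Frag l' l1 p1 w) (ls2 : l2 < s) (k2 : S.Kl l2 g2 w) (r2 : S.R s g2)
    (ne2 : S.NE g2 (l2 + 1) s) (rp2 : S.RP σ l2 w) : p1 < g2 := by
  by_contra hcon
  have hsm := r1.1
  have e1 := CF_lam k1 ls1 hsm.le ne1
  have e2 := CF_lam k2 ls2 hsm.le ne2
  have f1 := kl_facts tl1.2.1
  have hp1K : p1 ∈ S.K := f1.1.1.2.1
  have hwK : w ∈ S.K := (kl_facts k1).1.1.2.1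
  have hp1g : p1 < g1 := f1.2.1
  have e3 : S.lam s p1 = w := by rw [tl1.2.2.1, e1]
  have hg1r := S.lt_rho s hsm.le g1 r1.2.1
  have hp1r := S.lt_rho s hsm.le p1 hp1K
  have hp1l := S.lam_lt s hsm.le p1 hp1K
  have hg2l := S.lam_lt s hsm.le g2 r2.2.1
  have nep : S.NE p1 (l1 + 1) s := stamp hsm.le hp1K r1.2.1 (by omega) (by omega) ne1
  -- the last event of p1 before s
  have hex : ∃ l', l' < s ∧ S.E l' p1 := by
    by_contra h
    have h3 : S.NE p1 l2 s := fun a _ ha2 hE => h ⟨a, ha2, hE⟩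
    have h4 : S.NE g2 l2 s := by
      rcases Nat.lt_or_eq_of_le (Nat.le_of_not_lt hcon) with h5 | h5
      · exact stamp hsm.le r2.2.1 hp1K (by omega) (by omega) h3
      · rw [h5]
        exact h3
    exact h4 l2 le_rfl ls2 (R_E k2.1)
  obtain ⟨l', hl's, hE, hlast⟩ := exists_prev (P := fun a => S.E a p1) hex
  have nel' : S.NE p1 (l' + 1) s := fun a ha1 ha2 => hlast a (by omega) ha2
  have hl'1 : l' ≤ l1 := by
    by_contra h
    exact nep l' (by omega) hl's hE
  have hl'2 : l2 ≤ l' := by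
    by_contra h
    have h3 : S.NE p1 l2 s := fun a ha1 ha2 => hlast a (by omega) ha2
    have h4 : S.NE g2 l2 s := by
      rcases Nat.lt_or_eq_of_le (Nat.le_of_not_lt hcon) with h5 | h5
      · exact stamp hsm.le r2.2.1 hp1K (by omega) (by omega) h3
      · rw [h5]
        exact h3
    exact h4 l2 le_rfl ls2 (R_E k2.1)
  have hlam : S.lam (l' + 1) p1 = w := by
    rw [← (NE_const hp1K hl's hsm.le nel').1, e3]
  have hσ := rp2.1
  have hkl : S.Kl l' p1 w := CF_kl hE hlam hwK rp1.2.2.2 (by omega) hl'1 hl's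
  have hne : l' ≠ l1 := by
    intro h
    rw [h] at hkl
    have := kl_inj hkl k1
    omega
  exact fr1 ⟨l', by omega, hkl, rp1.2.2.2.mono (by omega) le_rfl, nel'.mono le_rfl (by omega)⟩

/-! HINT (CF).  `(t, g) ↦ ((s, w, σ), nev g s t)`.  Injectivity: `tail_inj` with `a0 = s`.  WLOG
`g2 < g1`; if `g2 < p1` then `g1`, `p1`, `g2` lie in the list of `w` in this order, so by `stamp` the
last event `l'` of `p1` before `s` lies between the last events `l2`, `l1` of `g2`, `g1`, both in the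
right phase of `w`; `w` is touched at `l'` (its new list contains `p1`), so `p1` was killed by `w` at
`l'` and `Frag l' l1 p1 w`: contradiction. -/
theorem cf_count (J : ℕ) :
    S.cnt (fun t g => ∃ s σ l w p, S.CF J s σ l t g w p) ≤ J * S.frs.card := by
  classical
  refine le_trans (CF_rel (S.frs ×ˢ Finset.range J) (fun t g x => ∃ l p,
    S.CF J x.1.1 x.1.2.2 l t g x.1.2.1 p ∧ x.2 = S.nev g x.1.1 t) ?_ ?_) ?_
  · rintro t g ⟨s, σ, l, w, p, h⟩
    refine ⟨((s, w, σ), S.nev g s t), ?_, l, p, h, rfl⟩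
    obtain ⟨hls, hst, hPK, hR, hNE, hRP, _, _, hJ⟩ := h
    rw [Finset.mem_product]
    refine ⟨?_, Finset.mem_range.2 hJ⟩
    have hwK : w ∈ S.K := (kl_facts hPK.2.1).1.1.2.1
    have hsm := hR.1
    have hσ := hRP.1
    unfold frs
    rw [Finset.mem_filter, Finset.mem_product, Finset.mem_product]
    refine ⟨⟨Finset.mem_range.2 hR.1, hwK, Finset.mem_range.2 (by
      show σ < S.m
      omega)⟩, g, l, hls, hPK.2.1, hNE, hR, hRP⟩
  · rintro t2 g2 t1 g1 ⟨⟨s, w, σ⟩, n⟩ hle ⟨l2, p2, h2, f2⟩ ⟨l1, p1, h1, f1⟩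
    simp only at h1 h2 f1 f2
    obtain ⟨ls2, st2, pk2, r2, ne2, rp2, tl2, fr2, _⟩ := h2
    obtain ⟨ls1, st1, pk1, r1, ne1, rp1, tl1, fr1, _⟩ := h1
    rcases Nat.lt_or_eq_of_le hle with hlt | heq
    · exfalso
      have e1 := CF_lam pk1.2.1 ls1 r1.1.le ne1
      have e2 := CF_lam pk2.2.1 ls2 r2.1.le ne2
      exact CF_tail tl1 tl2 (CF_pg ls1 pk1.2.1 r1 ne1 rp1 tl1 fr1 ls2 pk2.2.1 r2 ne2 rp2) hlt
        (by rw [e1, e2]) (by omega)
    · subst heq
      exact ⟨CF_time tl2 tl1 (by omega), rfl⟩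
  · rw [Finset.card_product, Finset.card_range, Nat.mul_comm]

private theorem FRS_mem {s w σ : ℕ} : (s, w, σ) ∈ S.frs ↔ S.FR s w σ := by
  classical
  unfold frs
  rw [Finset.mem_filter, Finset.mem_product, Finset.mem_product]
  constructor
  · exact fun h => h.2
  · intro h
    refine ⟨?_, h⟩
    obtain ⟨g, l, hls, hk, hn, hR, hRP⟩ := h
    have hσ := hRP.1
    have hm := hR.1
    have hwK : w ∈ S.K := (kl_facts hk).1.1.2.1
    refine ⟨Finset.mem_range.2 hm, hwK, Finset.mem_range.2 ?_⟩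
    show σ < S.m
    omega

private theorem FRS_sw {s w σ : ℕ} (h : S.FR s w σ) : s < S.m ∧ w ∈ S.K ∧ S.Sw s w := by
  obtain ⟨g, l, hls, hk, hn, hR, hRP⟩ := h
  have hwK : w ∈ S.K := (kl_facts hk).1.1.2.1
  have e := CF_lam hk hls hR.1.le hn
  have hK : S.lam s g ∈ S.K := by rw [e]; exact hwK
  have h1 := S.lam_anc s hR.1.le g hR.2.1 hK
  rw [e] at h1
  have h2 := hR.2.2.2
  rw [e] at h2
  have h3 := hR.2.2.1
  exact ⟨hR.1, hwK, ⟨hR.1, hwK, h2, by omega⟩, g, hR, e⟩

private theorem FRS_no {s s' w σ τ : ℕ} (h : S.FR s w σ) (hτ : S.FR s w τ) (hτσ : τ < σ)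
    (h' : S.FR s' w σ) (hss : s < s') : False := by
  have hL : S.L s w := (FRS_sw h).2.2.1
  obtain ⟨g, l, hls, hk, hn, hR, hRP⟩ := h
  obtain ⟨g', l', hls', hk', hn', hR', hRP'⟩ := h'
  obtain ⟨e, lam0, hls0, hk0, hn0, hR0, hRP0⟩ := hτ
  have hsm := hR.1
  -- the event `lam0` is before `σ`
  have hlt : lam0 < σ := by
    by_contra hcon
    have h1 : S.RP σ lam0 w := ⟨by omega, hRP.2.1, hRP0.2.2.1, hRP0.2.2.2.mono (by omega) le_rfl⟩
    have := RP_unique h1 hRP0
    omega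
  have hl's : l' < s := by
    by_contra hcon
    have hσ := hRP.1
    exact not_R_L (hRP'.2.2.2 s (by omega) (by omega) (L_E hL)) hL
  have hσ' := hRP'.1
  have hun : ¬ S.E s g' := hn' s (by omega) hss
  have e' : S.lam s g' = w := CF_lam hk' hl's hsm.le (hn'.mono le_rfl hss.le)
  have e0 : S.lam s e = w := CF_lam hk0 hls0 hsm.le hn0
  have b1 := S.lt_rho s hsm.le g' hk'.1.2.1
  have b2 := S.lt_rho s hsm.le e hR0.2.1
  have b3 := S.lam_lt s hsm.le g' hk'.1.2.1
  have b4 := S.lam_lt s hsm.le e hR0.2.1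
  rcases lt_trichotomy g' e with h1 | h1 | h1
  · have h2 := stamp hsm.le hk'.1.2.1 hR0.2.1 (by omega) (by omega) hn0
    exact h2 l' (by omega) hl's (R_E hk'.1)
  · rw [h1] at hun
    exact hun (R_E hR0)
  · exact hun (E_up (R_E hR0) hk'.1.2.1 (by omega) (by omega))

/-! HINT (FRS).  A fragment `(s, w, σ)` is of the first kind if all fragments `(s, w, σ')` have
`σ ≤ σ'` (the lowest one): charge `(s, w)`, `Sw s w`.  Otherwise the list of `w` contains a node `h`
touched at `s` whose last event is before `σ`: charge `(σ, w)`.  For two such fragments `(s, w, σ)`,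
`(s', w, σ)`, `s < s'`: the node `g'` of the second is not touched at `s`, lies in the list of `w` at
`s` below `h`, and its last event is later than that of `h`: contradiction to `stamp`. -/
theorem frs_count : S.frs.card ≤ S.CR + S.QR := by
  classical
  have h1 : (S.frs.filter (fun q => ∀ σ', S.FR q.1 q.2.1 σ' → q.2.2 ≤ σ')).card ≤ S.CR := by
    refine Finset.card_le_card_of_injOn (fun q => (q.1, q.2.1)) ?_ ?_
    · rintro ⟨s, w, σ⟩ hq
      rw [Finset.mem_coe, Finset.mem_filter, FRS_mem] at hq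
      rw [Finset.mem_coe, mem_set]
      exact FRS_sw hq.1
    · rintro ⟨s, w, σ⟩ hq ⟨s', w', σ'⟩ hq' he
      rw [Finset.mem_coe, Finset.mem_filter, FRS_mem] at hq hq'
      simp only [Prod.mk.injEq] at he
      obtain ⟨rfl, rfl⟩ := he
      have a := hq.2 _ hq'.1
      have b := hq'.2 _ hq.1
      simp only at a b
      have : σ = σ' := by omega
      rw [this]
  have h2 : (S.frs.filter (fun q => ¬ ∀ σ', S.FR q.1 q.2.1 σ' → q.2.2 ≤ σ')).card ≤ S.QR := by
    refine Finset.card_le_card_of_injOn (fun q => (q.2.2, q.2.1)) ?_ ?_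
    · rintro ⟨s, w, σ⟩ hq
      rw [Finset.mem_coe, Finset.mem_filter, FRS_mem] at hq
      rw [Finset.mem_coe, mem_set]
      obtain ⟨g, l, _, _, _, _, hRP⟩ := hq.1
      exact ⟨hRP.2.1.1.1, hRP.2.1.1.2.1, hRP.2.1⟩
    · rintro ⟨s, w, σ⟩ hq ⟨s', w', σ'⟩ hq' he
      rw [Finset.mem_coe, Finset.mem_filter, FRS_mem] at hq hq'
      simp only [Prod.mk.injEq] at he
      obtain ⟨rfl, rfl⟩ := he
      obtain ⟨hq1, hq2⟩ := hq
      obtain ⟨hq1', hq2'⟩ := hq'
      simp only [not_forall, not_le] at hq1 hq2 hq1' hq2'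
      obtain ⟨τ, hτ, hτσ⟩ := hq2
      obtain ⟨τ', hτ', hτσ'⟩ := hq2'
      rcases lt_trichotomy s s' with h | h | h
      · exact absurd (FRS_no hq1 hτ hτσ hq1' h) id
      · rw [h]
      · exact absurd (FRS_no hq1' hτ' hτσ' hq1 h) id
  have h3 := Finset.card_filter_add_card_filter_not (s := S.frs)
    (fun q => ∀ σ', S.FR q.1 q.2.1 σ' → q.2.2 ≤ σ')
  omega

end Sys

end Pool.Agent.SplLog
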