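import Mathlib

set_option autoImplicit false

/-!
# How the ends of the subtree intervals change when a key is splayed
-/

namespace Pool.Agent.SplLog

/-- The possible changes of the subtree interval `(l v, r v)` of a node `v > x` when `x` is
splayed. -/
def RF (K : ℕ → Prop) (x : ℕ) (l r l' r' : ℕ → ℕ) (v : ℕ) : Prop :=
  (x ≤ l v ∧ l' v = l v ∧ r' v = r v) ∨
  (l v < x ∧ l' v = x ∧ (r' v = r v ∨
    (K (r v) ∧ l (r v) = l v ∧ l' (r v) = v ∧ r' (r v) = r (r v) ∧ r' v = r (r v)))) ∨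
  (l v < x ∧ ∃ p, K p ∧ x < p ∧ p < v ∧ l' v = p ∧ r' v = r v ∧ l p = l v ∧ r p = v ∧ l' p = x ∧
    r' p = r v)

/-- The possible changes of the subtree interval `(l v, r v)` of a node `v < x` when `x` is
splayed. -/
def LF (K : ℕ → Prop) (x : ℕ) (l r l' r' : ℕ → ℕ) (v : ℕ) : Prop :=
  (r v ≤ x ∧ l' v = l v ∧ r' v = r v) ∨
  (x < r v ∧ r' v = x ∧ (l' v = l v ∨
    (K (l v) ∧ r (l v) = r v ∧ r' (l v) = v ∧ l' (l v) = l (l v) ∧ l' v = l (l v)))) ∨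
  (x < r v ∧ ∃ p, K p ∧ p < x ∧ v < p ∧ r' v = p ∧ l' v = l v ∧ r p = r v ∧ l p = v ∧ r' p = x ∧
    l' p = l v)

theorem RF.mono {K K' : ℕ → Prop} {x : ℕ} {l r l' r' L R L' R' : ℕ → ℕ} {v : ℕ}
    (h : RF K x l r l' r' v) (hK : ∀ w, K w → K' w) (hv : K v)
    (e1 : ∀ w, K w → L w = l w) (e2 : ∀ w, K w → R w = r w)
    (e3 : ∀ w, K w → x < w → L' w = l' w) (e4 : ∀ w, K w → x < w → R' w = r' w) (hx : x < v)
    (hr : v < r v) :
    RF K' x L R L' R' v := by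
  unfold RF at h ⊢
  rw [e1 v hv, e2 v hv, e3 v hv hx, e4 v hv hx]
  rcases h with h | ⟨h1, h2, h3⟩ | ⟨h1, p, h2, h3, h4, h5, h6, h7, h8, h9, h10⟩
  · exact Or.inl h
  · right; left
    refine ⟨h1, h2, ?_⟩
    rcases h3 with h3 | ⟨a1, a2, a3, a4, a5⟩
    · exact Or.inl h3
    · right
      refine ⟨hK _ a1, ?_, ?_, ?_, ?_⟩
      · rw [e1 _ a1, a2]
      · rw [e3 _ a1 (by omega), a3]
      · rw [e4 _ a1 (by omega), e2 _ a1, a4]
      · rw [e2 _ a1, a5]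
  · right; right
    refine ⟨h1, p, hK _ h2, h3, h4, h5, h6, ?_, ?_, ?_, ?_⟩
    · rw [e1 _ h2, h7]
    · rw [e2 _ h2, h8]
    · rw [e3 _ h2 h3, h9]
    · rw [e4 _ h2 h3, h10]

theorem LF.mono {K K' : ℕ → Prop} {x : ℕ} {l r l' r' L R L' R' : ℕ → ℕ} {v : ℕ}
    (h : LF K x l r l' r' v) (hK : ∀ w, K w → K' w) (hv : K v)
    (e1 : ∀ w, K w → L w = l w) (e2 : ∀ w, K w → R w = r w)
    (e3 : ∀ w, K w → w < x → L' w = l' w) (e4 : ∀ w, K w → w < x → R' w = r' w) (hx : v < x)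
    (hr : l v < v) :
    LF K' x L R L' R' v := by
  unfold LF at h ⊢
  rw [e1 v hv, e2 v hv, e3 v hv hx, e4 v hv hx]
  rcases h with h | ⟨h1, h2, h3⟩ | ⟨h1, p, h2, h3, h4, h5, h6, h7, h8, h9, h10⟩
  · exact Or.inl h
  · right; left
    refine ⟨h1, h2, ?_⟩
    rcases h3 with h3 | ⟨a1, a2, a3, a4, a5⟩
    · exact Or.inl h3
    · right
      refine ⟨hK _ a1, ?_, ?_, ?_, ?_⟩
      · rw [e2 _ a1, a2]
      · rw [e4 _ a1 (by omega), a3]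
      · rw [e3 _ a1 (by omega), e1 _ a1, a4]
      · rw [e1 _ a1, a5]
  · right; right
    refine ⟨h1, p, hK _ h2, h3, h4, h5, h6, ?_, ?_, ?_, ?_⟩
    · rw [e2 _ h2, h7]
    · rw [e1 _ h2, h8]
    · rw [e4 _ h2 h3, h9]
    · rw [e3 _ h2 h3, h10]

end Pool.Agent.SplLog
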