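import Pool.Agent.SplLog.Heights
import Pool.Agent.SplLog.Fct

set_option autoImplicit false

/-!
# Splaying as a dynamical system on subtree intervals

`S : Sys` records, for a sequence of splays, the requests `X t` and the subtree intervals
`(lam t v, rho t v)` of all keys `v` in the tree before the request `t`; the sentinels are `0` and
`top`.  Everything else is expressed through these functions:

* `S.R t v`, `S.L t v`: `v` lies on the search path of the request `t` and is larger / smaller
  than the request (`v` is touched from the left / from the right);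
* `S.E t v`: `v` is touched (an event of `v`), the access of `v` included;
* `S.Kl t g p`: `g` is killed by `p` (zig-zig pair on the right side);
* `S.Kp t v`: `v` is touched on the right side and not killed.
-/

namespace Pool.Agent.SplLog

/-- The subtree intervals of the keys during a sequence of splays. -/
structure Sys where
  /-- the keys -/
  K : Finset ℕ
  /-- the right sentinel -/
  top : ℕ
  /-- the number of requests -/
  m : ℕ
  /-- the largest smaller ancestor -/
  lam : ℕ → ℕ → ℕ
  /-- the smallest larger ancestor -/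
  rho : ℕ → ℕ → ℕ
  /-- the requests -/
  X : ℕ → ℕ
  key : ∀ v ∈ K, 0 < v ∧ v < top
  req : ∀ t, t < m → X t ∈ K
  lam_lt : ∀ t, t ≤ m → ∀ v ∈ K, lam t v < v
  lt_rho : ∀ t, t ≤ m → ∀ v ∈ K, v < rho t v
  lam_mem : ∀ t, t ≤ m → ∀ v ∈ K, lam t v = 0 ∨ lam t v ∈ K
  rho_mem : ∀ t, t ≤ m → ∀ v ∈ K, rho t v = top ∨ rho t v ∈ K
  lamin : ∀ t, t ≤ m → ∀ u ∈ K, ∀ v ∈ K, u < v →
    (v < rho t u ∧ u ≤ lam t v ∧ rho t v ≤ rho t u) ∨
      (lam t v < u ∧ rho t u ≤ v ∧ lam t v ≤ lam t u) ∨ rho t u ≤ lam t v
  lam_anc : ∀ t, t ≤ m → ∀ v ∈ K, lam t v ∈ K → v < rho t (lam t v)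
  rho_anc : ∀ t, t ≤ m → ∀ v ∈ K, rho t v ∈ K → lam t (rho t v) < v
  acc : ∀ t, t < m → lam (t + 1) (X t) = 0 ∧ rho (t + 1) (X t) = top
  right : ∀ t, t < m → ∀ v ∈ K, X t < v →
    RF (fun w => w ∈ K) (X t) (lam t) (rho t) (lam (t + 1)) (rho (t + 1)) v
  left : ∀ t, t < m → ∀ v ∈ K, v < X t →
    LF (fun w => w ∈ K) (X t) (lam t) (rho t) (lam (t + 1)) (rho (t + 1)) v

namespace Sys

variable (S : Sys)

/-- `v` is touched at time `t` and larger than the request. -/
def R (t v : ℕ) : Prop := t < S.m ∧ v ∈ S.K ∧ S.X t < v ∧ S.lam t v < S.X t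

/-- `v` is touched at time `t` and smaller than the request. -/
def L (t v : ℕ) : Prop := t < S.m ∧ v ∈ S.K ∧ v < S.X t ∧ S.X t < S.rho t v

/-- `v` is requested at time `t`. -/
def Ac (t v : ℕ) : Prop := t < S.m ∧ v ∈ S.K ∧ v = S.X t

/-- `v` is touched at time `t` (an event of `v`). -/
def E (t v : ℕ) : Prop := S.R t v ∨ S.L t v ∨ S.Ac t v

/-- `v` is touched on the right side at time `t` and not killed. -/
def Kp (t v : ℕ) : Prop := S.R t v ∧ S.lam (t + 1) v = S.X t

/-- `g` is killed by `p` at time `t` (zig-zig pair on the right side). -/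
def Kl (t g p : ℕ) : Prop := S.R t g ∧ S.X t < p ∧ S.lam (t + 1) g = p

/-- `v` has no event in `[s, t)`. -/
def NE (v s t : ℕ) : Prop := ∀ u, s ≤ u → u < t → ¬ S.E u v

/-- All events of `v` in `[s, t]` are touches on the right side. -/
def AR (v s t : ℕ) : Prop := ∀ u, s ≤ u → u ≤ t → S.E u v → S.R u v

/-- All events of `v` in `[s, t]` are touches on the left side. -/
def AL (v s t : ℕ) : Prop := ∀ u, s ≤ u → u ≤ t → S.E u v → S.L u v

/-- `t` is the first event of a right phase of `v` (maximal run of right touches). -/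
def RS (t v : ℕ) : Prop := S.R t v ∧ ¬ ∃ s, s < t ∧ S.R s v ∧ S.NE v (s + 1) t

/-- `t` is the first event of a left phase of `v` (maximal run of left touches). -/
def LS (t v : ℕ) : Prop := S.L t v ∧ ¬ ∃ s, s < t ∧ S.L s v ∧ S.NE v (s + 1) t

/-- `s` is the beginning of the right phase of `v` which contains the right touch `t`. -/
def RP (s t v : ℕ) : Prop := s ≤ t ∧ S.RS s v ∧ S.R t v ∧ S.AR v s t

/-- `s` is the beginning of the left phase of `v` which contains the left touch `t`. -/
def LP (s t v : ℕ) : Prop := s ≤ t ∧ S.LS s v ∧ S.L t v ∧ S.AL v s t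

open scoped Classical in
/-- The pairs (time, key) with the property `P`. -/
noncomputable def set (P : ℕ → ℕ → Prop) : Finset (ℕ × ℕ) :=
  (Finset.range S.m ×ˢ S.K).filter (fun q => P q.1 q.2)

/-- The number of pairs (time, key) with the property `P`. -/
noncomputable def cnt (P : ℕ → ℕ → Prop) : ℕ := (S.set P).card

/-- the number of right phases -/
noncomputable def QR : ℕ := S.cnt S.RS

/-- the number of left phases -/
noncomputable def QL : ℕ := S.cnt S.LS

/-- the number of kills on the right side -/
noncomputable def NR : ℕ := S.cnt (fun t g => ∃ p, S.Kl t g p)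

/-- the number of touches on the right side which are no kills -/
noncomputable def KR : ℕ := S.cnt S.Kp

/-- `w` is followed by a node on the other side of the search path. -/
def Sw (t w : ℕ) : Prop := S.L t w ∧ ∃ v, S.R t v ∧ S.lam t v = w

/-- `w` is followed by a node on the other side of the search path. -/
def Sw' (t w : ℕ) : Prop := S.R t w ∧ ∃ v, S.L t v ∧ S.rho t v = w

/-- the number of changes from the left to the right on the search paths -/
noncomputable def CR : ℕ := S.cnt S.Sw

/-- the number of changes from the right to the left on the search paths -/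
noncomputable def CL : ℕ := S.cnt S.Sw'

end Sys

end Pool.Agent.SplLog
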