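import Pool.Agent.SplLog.OneSide
import Pool.Agent.SplLog.Alt
import Pool.Agent.SplLog.Run

set_option autoImplicit false

/-!
# The cost of splaying is bounded by the number of changes of direction
-/

namespace Pool.Agent.SplLog

open BinaryTree Pool.Agent.MP_c42954_lc.Scan Pool.Agent.SplPat

namespace Sys

variable {S : Sys}

/-- `v` is touched on the left side at time `t`, and the last event of `v` before `t` is a touch
on the right side. -/
def TuL (S : Sys) (t v : ℕ) : Prop := S.L t v ∧ ∃ s, s < t ∧ S.R s v ∧ S.NE v (s + 1) t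

/-- `v` is touched on the right side at time `t`, and the last event of `v` before `t` is a touch
on the left side. -/
def TuR (S : Sys) (t v : ℕ) : Prop := S.R t v ∧ ∃ s, s < t ∧ S.L s v ∧ S.NE v (s + 1) t

/-- the number of changes from the right to the left -/
noncomputable def DL (S : Sys) : ℕ := S.cnt S.TuL

/-- the number of changes from the left to the right -/
noncomputable def DR (S : Sys) : ℕ := S.cnt S.TuR

open scoped Classical in
/-- the keys which are touched at least once -/
noncomputable def KE (S : Sys) : Finset ℕ := S.K.filter (fun v => ∃ t, S.E t v)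

/-- the first event of `v` -/
def Fst (S : Sys) (t v : ℕ) : Prop := S.E t v ∧ S.NE v 0 t

/-- the last event of `v` before the event `t` is a request of `v` -/
def Aft (S : Sys) (t v : ℕ) : Prop := S.E t v ∧ ∃ s, s < t ∧ S.Ac s v ∧ S.NE v (s + 1) t

theorem fst_count (S : Sys) : S.cnt S.Fst ≤ S.KE.card := by
  refine cnt_le_of_inj S.KE (fun _ v => v) ?_ ?_
  · intro t v ht hv h
    classical
    simp only [KE, Finset.mem_filter]
    exact ⟨hv, t, h.1⟩
  · intro t v t' v' ht hv h ht' hv' h' e
    subst e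
    refine ⟨?_, rfl⟩
    rcases lt_trichotomy t t' with h1 | h1 | h1
    · exact absurd h.1 (h'.2 t (by omega) h1)
    · exact h1
    · exact absurd h'.1 (h.2 t' (by omega) h1)

theorem aft_count (S : Sys) : S.cnt S.Aft ≤ S.m := by
  classical
  have hex : ∀ t v, ∃ s, S.Aft t v → s < t ∧ S.Ac s v ∧ S.NE v (s + 1) t := by
    intro t v
    by_cases h : S.Aft t v
    · obtain ⟨s, hs⟩ := h.2
      exact ⟨s, fun _ => hs⟩
    · exact ⟨0, fun h' => absurd h' h⟩
  choose f hf using hex
  have := cnt_le_of_inj (S := S) (P := S.Aft) (Finset.range S.m) f ?_ ?_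
  · simpa using this
  · intro t v ht hv h
    have := hf t v h
    rw [Finset.mem_range]
    omega
  · intro t v t' v' ht hv h ht' hv' h' e
    have h1 := hf t v h
    have h2 := hf t' v' h'
    rw [← e] at h2
    have hv : v = v' := by
      rw [h1.2.1.2.2, h2.2.1.2.2]
    subst hv
    refine ⟨?_, rfl⟩
    rcases lt_trichotomy t t' with h3 | h3 | h3
    · exact absurd h.1 (h2.2.2 t (by omega) h3)
    · exact h3
    · exact absurd h'.1 (h1.2.2 t' (by omega) h3)

/-- **The number of phases.** -/
theorem phases_le (S : Sys) : S.QR + S.QL ≤ S.DL + S.DR + S.m + S.KE.card := by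
  classical
  have h1 : S.set S.RS ∪ S.set S.LS ⊆ S.set S.TuL ∪ S.set S.TuR ∪ S.set S.Aft ∪ S.set S.Fst := by
    intro q hq
    have hE : S.E q.1 q.2 := by
      rw [Finset.mem_union, mem_set, mem_set] at hq
      rcases hq with hq | hq
      · exact R_E hq.2.2.1
      · exact L_E hq.2.2.1
    simp only [Finset.mem_union, mem_set]
    by_cases hex : ∃ s, s < q.1 ∧ S.E s q.2
    · obtain ⟨s, hs1, hs2, hs3⟩ := exists_prev hex
      have hn : S.NE q.2 (s + 1) q.1 := fun a ha hb => hs3 a (by omega) hb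
      rw [Finset.mem_union, mem_set, mem_set] at hq
      rcases hs2 with hs2 | hs2 | hs2
      · rcases hq with hq | hq
        · exact absurd ⟨s, hs1, hs2, hn⟩ hq.2.2.2
        · left; left; left
          exact ⟨hq.1, hq.2.1, hq.2.2.1, s, hs1, hs2, hn⟩
      · rcases hq with hq | hq
        · left; left; right
          exact ⟨hq.1, hq.2.1, hq.2.2.1, s, hs1, hs2, hn⟩
        · exact absurd ⟨s, hs1, hs2, hn⟩ hq.2.2.2
      · left; right
        exact ⟨E_lt hE, E_mem hE, hE, s, hs1, hs2, hn⟩
    · right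
      refine ⟨E_lt hE, E_mem hE, hE, ?_⟩
      intro a _ hb he
      exact hex ⟨a, hb, he⟩
  have h2 : Disjoint (S.set S.RS) (S.set S.LS) := by
    rw [Finset.disjoint_left]
    intro q hq hq'
    rw [mem_set] at hq hq'
    exact not_R_L hq.2.2.1 hq'.2.2.1
  have h3 := Finset.card_le_card h1
  rw [Finset.card_union_of_disjoint h2] at h3
  have h4 := Finset.card_union_le (S.set S.TuL ∪ S.set S.TuR ∪ S.set S.Aft) (S.set S.Fst)
  have h5 := Finset.card_union_le (S.set S.TuL ∪ S.set S.TuR) (S.set S.Aft)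
  have h6 := Finset.card_union_le (S.set S.TuL) (S.set S.TuR)
  have h7 := S.fst_count
  have h8 := S.aft_count
  unfold cnt at h7 h8
  unfold QR QL DL DR cnt
  omega

/-- **Both sides together.** -/
theorem two_sides {e e' : ℕ → ℕ} {H : ℕ} (he : Emb S e H) (he' : Emb S.mir e' H)
    (h1 : S.KR ≤ S.NR + S.CR + S.CL + S.m) (h2 : S.mir.KR ≤ S.mir.NR + S.CR + S.CL + S.m) :
    S.m + (2 * S.NR + 2 * S.mir.NR + 2 * S.CR + 2 * S.CL + S.m) ≤
      62 * MM H ^ 3 * (S.QR + S.QL + S.m) := by
  have a1 := one_side he h1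
  have h2' : S.mir.KR ≤ S.mir.NR + S.mir.CR + S.mir.CL + S.mir.m := by
    rw [mir_CR, mir_CL]
    change _ ≤ _ + _ + _ + S.m
    omega
  have a2 := one_side he' h2'
  have a3 := S.alt
  have a4 := S.mir.alt
  rw [mir_CR, mir_QR, mir_QL] at a4
  rw [mir_CR, mir_CL, mir_QR] at a2
  change _ ≤ S.m + _ + _ at a4
  change S.mir.NR ≤ _ + 6 * MM H ^ 2 * (2 * S.m + _ + _) + 2 * (_ + _ + S.m) at a2
  have hM : 2 ≤ MM H := by
    unfold MM
    omega
  generalize MM H = M at hM a1 a2 ⊢
  generalize S.NR = N1 at *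
  generalize S.mir.NR = N2 at *
  generalize S.CR = C1 at *
  generalize S.CL = C2 at *
  generalize S.QR = Q1 at *
  generalize S.QL = Q2 at *
  generalize S.m = m at *
  have e3 : M ^ 3 = M ^ 2 * M := by ring
  have e2 : 2 * M ^ 2 ≤ M ^ 3 := by
    rw [e3]
    nlinarith [sq_nonneg M]
  have e1 : 8 ≤ M ^ 3 := by
    have : 4 ≤ M ^ 2 := by nlinarith
    omega
  have c1 : C1 + C2 ≤ 2 * m + 3 * (Q1 + Q2) := by omega
  have f1 : N1 + N2 ≤ 8 * M ^ 3 * (Q1 + Q2) + 6 * M ^ 2 * (8 * m + 7 * (Q1 + Q2)) +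
      4 * (3 * m + 3 * (Q1 + Q2)) := by
    have g1 : 6 * M ^ 2 * (2 * m + 2 * C1 + Q1) + 6 * M ^ 2 * (2 * m + 2 * C2 + Q2) ≤
        6 * M ^ 2 * (8 * m + 7 * (Q1 + Q2)) := by
      rw [← Nat.mul_add]
      exact Nat.mul_le_mul_left _ (by omega)
    have g2 : 8 * M ^ 3 * Q1 + 8 * M ^ 3 * Q2 = 8 * M ^ 3 * (Q1 + Q2) := by ring
    omega
  have f2 : 6 * M ^ 2 * (8 * m + 7 * (Q1 + Q2)) ≤ 3 * M ^ 3 * (8 * m + 7 * (Q1 + Q2)) := by
    apply Nat.mul_le_mul_right
    omega
  have f3 : 8 * (m + (Q1 + Q2)) ≤ M ^ 3 * (m + (Q1 + Q2)) := Nat.mul_le_mul_right _ e1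
  have f4 : 3 * M ^ 3 * (8 * m + 7 * (Q1 + Q2)) = 24 * (M ^ 3 * m) + 21 * (M ^ 3 * (Q1 + Q2)) := by
    ring
  have f5 : 8 * M ^ 3 * (Q1 + Q2) = 8 * (M ^ 3 * (Q1 + Q2)) := by ring
  have f6 : 62 * M ^ 3 * (Q1 + Q2 + m) = 62 * (M ^ 3 * (Q1 + Q2)) + 62 * (M ^ 3 * m) := by ring
  have f7 : M ^ 3 * (m + (Q1 + Q2)) = M ^ 3 * m + M ^ 3 * (Q1 + Q2) := by ring
  rw [f5] at f1
  rw [f4] at f2
  rw [f7] at f3
  rw [f6]
  omega

/-- The rank embedding. -/
theorem exists_emb (S : Sys) {H : ℕ} (hH : S.K.card + 1 < 2 ^ H) : ∃ e, Emb S e H := by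
  classical
  refine ⟨fun v => (S.K.filter (fun u => u ≤ v)).card + (if v = S.top then 1 else 0), ?_, ?_⟩
  · intro u v hu hv huv
    simp only
    have hu' : u ≠ S.top := by
      rintro rfl
      rcases hv with hv | hv
      · omega
      · have := S.key v hv
        omega
    rw [if_neg hu']
    rcases hv with hv | hv
    · rw [if_pos hv]
      have : (S.K.filter (fun w => w ≤ u)).card ≤ (S.K.filter (fun w => w ≤ v)).card := by
        apply Finset.card_le_card
        intro w hw
        simp only [Finset.mem_filter] at hw ⊢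
        exact ⟨hw.1, by omega⟩
      omega
    · have : (S.K.filter (fun w => w ≤ u)).card < (S.K.filter (fun w => w ≤ v)).card := by
        apply Finset.card_lt_card
        rw [Finset.ssubset_iff_of_subset]
        · refine ⟨v, by simp [hv], ?_⟩
          simp only [Finset.mem_filter, not_and]
          omega
        · intro w hw
          simp only [Finset.mem_filter] at hw ⊢
          exact ⟨hw.1, by omega⟩
      omega
  · intro v hv
    simp only
    have : (S.K.filter (fun w => w ≤ v)).card ≤ S.K.card :=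
      Finset.card_le_card (Finset.filter_subset _ _)
    split_ifs <;> omega

end Sys

theorem mir_card (S : Sys) : S.mir.K.card = S.K.card := by
  show (S.K.image (fun v => S.top - v)).card = _
  apply Finset.card_image_of_injOn
  intro a ha b hb h
  have h1 := S.key a ha
  have h2 := S.key b hb
  simp only at h
  omega

/-- The number of levels for `n` keys. -/
def ML (n : ℕ) : ℕ := 2 * Nat.log 2 (Nat.size (n + 1)) + 2

/-- **The cost of a run is bounded by the number of phases.** -/
theorem run_phases {T : BinaryTree ℕ} {X : ℕ → ℕ} {m top : ℕ} (hb : IsBST T)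
    (hX : ∀ t, t < m → X t ∈ inorder T) (hB : Bd 0 top T) :
    m + ∑ t ∈ Finset.range m, depth (X t) (tr T X t) ≤
      62 * ML (inorder T).length ^ 3 * ((sysOf T X m top hb hX hB).QR +
        (sysOf T X m top hb hX hB).QL + m) := by
  have hc : (sysOf T X m top hb hX hB).K.card = (inorder T).length := by
    show (inorder T).toFinset.card = _
    rw [List.toFinset_card_of_nodup]
    exact hb.imp (fun h => Nat.ne_of_lt h)
  have hH : (inorder T).length + 1 < 2 ^ Nat.size ((inorder T).length + 1) := Nat.lt_size_self _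
  obtain ⟨e, he⟩ := (sysOf T X m top hb hX hB).exists_emb (H := Nat.size ((inorder T).length + 1))
    (by rw [hc]; exact hH)
  obtain ⟨e', he'⟩ := (sysOf T X m top hb hX hB).mir.exists_emb
    (H := Nat.size ((inorder T).length + 1)) (by rw [mir_card, hc]; exact hH)
  have h1 := run_cost hb hX hB
  have h2 := run_kept hb hX hB
  have h3 := Sys.two_sides he he' h2.1 h2.2
  change m + (_ + m) ≤ 62 * ML _ ^ 3 * (_ + _ + m) at h3
  exact (Nat.add_le_add_left h1 m).trans h3

/-- **The cost of a run is bounded by the number of changes of direction.** -/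
theorem run_dirs {T : BinaryTree ℕ} {X : ℕ → ℕ} {m top : ℕ} (hb : IsBST T)
    (hX : ∀ t, t < m → X t ∈ inorder T) (hB : Bd 0 top T) :
    m + ∑ t ∈ Finset.range m, depth (X t) (tr T X t) ≤
      124 * ML (inorder T).length ^ 3 * ((sysOf T X m top hb hX hB).DL +
        (sysOf T X m top hb hX hB).DR + m + (sysOf T X m top hb hX hB).KE.card) := by
  refine (run_phases hb hX hB).trans ?_
  have h := (sysOf T X m top hb hX hB).phases_le
  change _ ≤ _ + _ + m + _ at h
  generalize (sysOf T X m top hb hX hB).QR = a at *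
  generalize (sysOf T X m top hb hX hB).QL = b at *
  generalize (sysOf T X m top hb hX hB).DL + (sysOf T X m top hb hX hB).DR = c at *
  generalize (sysOf T X m top hb hX hB).KE.card = d at *
  have h1 : a + b + m ≤ 2 * (c + m + d) := by omega
  calc 62 * ML (inorder T).length ^ 3 * (a + b + m)
      ≤ 62 * ML (inorder T).length ^ 3 * (2 * (c + m + d)) := Nat.mul_le_mul_left _ h1
    _ = 124 * ML (inorder T).length ^ 3 * (c + m + d) := by ring

end Pool.Agent.SplLog
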