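import Mathlib

set_option autoImplicit false

/-!
# Heights in the dyadic reference tree, gaps and levels

`ht u v` is the height of the lowest common ancestor of `u` and `v` in the dyadic tree, that is the
bit length of `u xor v`.
-/

namespace Pool.Agent.SplLog

/-- The height of the lowest common ancestor of `u` and `v` in the dyadic tree. -/
def ht (u v : ℕ) : ℕ := Nat.size (u ^^^ v)

theorem ht_le_iff {u v k : ℕ} : ht u v ≤ k ↔ u / 2 ^ k = v / 2 ^ k := by
  unfold ht
  rw [Nat.size_le]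
  constructor
  · intro h
    have h1 : (u ^^^ v) >>> k = 0 := by
      rw [Nat.shiftRight_eq_div_pow]
      exact Nat.div_eq_of_lt h
    rw [Nat.shiftRight_xor_distrib, Nat.shiftRight_eq_div_pow, Nat.shiftRight_eq_div_pow] at h1
    exact Nat.xor_eq_zero_iff.mp h1
  · intro h
    have h1 : (u ^^^ v) >>> k = 0 := by
      rw [Nat.shiftRight_xor_distrib, Nat.shiftRight_eq_div_pow, Nat.shiftRight_eq_div_pow, h,
        Nat.xor_self]
    rw [Nat.shiftRight_eq_div_pow] at h1
    exact (Nat.div_eq_zero_iff_lt (by positivity)).mp h1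

theorem lt_ht_iff {u v k : ℕ} : k < ht u v ↔ u / 2 ^ k ≠ v / 2 ^ k := by
  rw [← not_le, ht_le_iff]

theorem ht_comm (u v : ℕ) : ht u v = ht v u := by
  unfold ht
  rw [Nat.xor_comm]

theorem ht_pos {u v : ℕ} (h : u < v) : 0 < ht u v := by
  rw [lt_ht_iff]
  simp
  omega

theorem ht_le {u v H : ℕ} (hu : u < 2 ^ H) (hv : v < 2 ^ H) : ht u v ≤ H := by
  rw [ht_le_iff, Nat.div_eq_of_lt hu, Nat.div_eq_of_lt hv]

/-- The height is monotone in the interval. -/
theorem ht_mono {u u' v v' : ℕ} (h1 : u ≤ u') (h2 : u' ≤ v') (h3 : v' ≤ v) :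
    ht u' v' ≤ ht u v := by
  rw [ht_le_iff]
  have h : u / 2 ^ ht u v = v / 2 ^ ht u v := ht_le_iff.mp le_rfl
  have a1 := Nat.div_le_div_right (c := 2 ^ ht u v) h1
  have a2 := Nat.div_le_div_right (c := 2 ^ ht u v) h2
  have a3 := Nat.div_le_div_right (c := 2 ^ ht u v) h3
  omega

theorem ht_max {u v z : ℕ} (h1 : u ≤ v) (h2 : v ≤ z) : ht u z = max (ht u v) (ht v z) := by
  apply le_antisymm
  · rw [ht_le_iff]
    have a1 : u / 2 ^ (max (ht u v) (ht v z)) = v / 2 ^ (max (ht u v) (ht v z)) :=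
      ht_le_iff.mp (le_max_left _ _)
    have a2 : v / 2 ^ (max (ht u v) (ht v z)) = z / 2 ^ (max (ht u v) (ht v z)) :=
      ht_le_iff.mp (le_max_right _ _)
    rw [a1, a2]
  · exact max_le (ht_mono le_rfl h1 h2) (ht_mono h1 h2 le_rfl)

theorem ht_ne {u v z : ℕ} (h1 : u < v) (h2 : v < z) : ht u v ≠ ht v z := by
  intro h
  obtain ⟨k, hk⟩ : ∃ k, ht u v = k + 1 := ⟨ht u v - 1, by have := ht_pos h1; omega⟩
  have hk' : ht v z = k + 1 := by omega
  have b1 : u / 2 ^ (k + 1) = v / 2 ^ (k + 1) := ht_le_iff.mp hk.le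
  have b2 : v / 2 ^ (k + 1) = z / 2 ^ (k + 1) := ht_le_iff.mp hk'.le
  have c1 : u / 2 ^ k ≠ v / 2 ^ k := lt_ht_iff.mp (by omega)
  have c2 : v / 2 ^ k ≠ z / 2 ^ k := lt_ht_iff.mp (by omega)
  have a1 := Nat.div_le_div_right (c := 2 ^ k) h1.le
  have a2 := Nat.div_le_div_right (c := 2 ^ k) h2.le
  rw [pow_succ, ← Nat.div_div_eq_div_mul, ← Nat.div_div_eq_div_mul] at b1 b2
  omega

/-- The gap of `v` between `u < v < z`. -/
def gap (u v z : ℕ) : ℤ := (ht u v : ℤ) - ht v z

theorem gap_ne {u v z : ℕ} (h1 : u < v) (h2 : v < z) : gap u v z ≠ 0 := by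
  have := ht_ne h1 h2
  unfold gap
  omega

/-- The signed logarithm of a gap. -/
def kap (g : ℤ) : ℤ :=
  if 0 < g then (Nat.log 2 g.natAbs : ℤ) else -1 - (Nat.log 2 g.natAbs : ℤ)

theorem kap_pos {g : ℤ} (h : 0 < g) : kap g = (Nat.log 2 g.natAbs : ℤ) := by
  simp [kap, h]

theorem kap_neg {g : ℤ} (h : g < 0) : kap g = -1 - (Nat.log 2 g.natAbs : ℤ) := by
  simp [kap, not_lt.mpr h.le]

theorem kap_mono {g g' : ℤ} (h : g ≤ g') (h0 : g ≠ 0) (h0' : g' ≠ 0) : kap g ≤ kap g' := by
  rcases lt_or_gt_of_ne h0 with h1 | h1 <;> rcases lt_or_gt_of_ne h0' with h2 | h2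
  · rw [kap_neg h1, kap_neg h2]
    have : Nat.log 2 g'.natAbs ≤ Nat.log 2 g.natAbs := Nat.log_mono_right (by omega)
    omega
  · rw [kap_neg h1, kap_pos h2]
    omega
  · omega
  · rw [kap_pos h1, kap_pos h2]
    have : Nat.log 2 g.natAbs ≤ Nat.log 2 g'.natAbs := Nat.log_mono_right (by omega)
    omega

theorem kap_range {g : ℤ} {H : ℕ} (h0 : g ≠ 0) (h1 : -(H : ℤ) ≤ g) (h2 : g ≤ H) :
    -1 - (Nat.log 2 H : ℤ) ≤ kap g ∧ kap g ≤ (Nat.log 2 H : ℤ) := by
  have : Nat.log 2 g.natAbs ≤ Nat.log 2 H := Nat.log_mono_right (by omega)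
  rcases lt_or_gt_of_ne h0 with h | h
  · rw [kap_neg h]
    omega
  · rw [kap_pos h]
    omega

/-- Two positive integers with the same dyadic logarithm: the difference has a smaller one. -/
theorem log_sub_lt {a b : ℕ} (ha : 0 < b) (hab : b < a) (hl : Nat.log 2 a ≤ Nat.log 2 b) :
    Nat.log 2 (a - b) < Nat.log 2 b := by
  have h1 : 2 ^ Nat.log 2 b ≤ b := Nat.pow_log_le_self 2 ha.ne'
  have h2 : a < 2 ^ (Nat.log 2 a + 1) := Nat.lt_pow_succ_log_self (by norm_num) a
  have h3 : 2 ^ (Nat.log 2 a + 1) ≤ 2 ^ (Nat.log 2 b + 1) :=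
    Nat.pow_le_pow_right (by norm_num) (by omega)
  have h4 : 2 ^ (Nat.log 2 b + 1) = 2 * 2 ^ Nat.log 2 b := by ring
  exact Nat.log_lt_of_lt_pow (by omega) (by omega)

/-- The sum of two positive integers has a logarithm larger than the smaller one. -/
theorem log_add_lt {a b c : ℕ} (ha : 0 < a) (hb : 0 < b) (hl : Nat.log 2 a ≤ Nat.log 2 b)
    (hc : a + b ≤ c) : Nat.log 2 a < Nat.log 2 c := by
  have h1 : 2 ^ Nat.log 2 a ≤ a := Nat.pow_log_le_self 2 ha.ne'
  have h2 : 2 ^ Nat.log 2 b ≤ b := Nat.pow_log_le_self 2 hb.ne'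
  have h3 : 2 ^ Nat.log 2 a ≤ 2 ^ Nat.log 2 b := Nat.pow_le_pow_right (by norm_num) hl
  have h4 : 2 ^ (Nat.log 2 a + 1) = 2 * 2 ^ Nat.log 2 a := by ring
  exact Nat.le_log_of_pow_le (by norm_num) (by omega)

/-- **The link lemma** (arithmetic form). -/
theorem link_arith {A E F b : ℤ} (hAE : A ≠ E) (hEF : E ≠ F)
    (hm : max A E ≠ F) (hbA : b ≤ A) :
    kap (b - max E F) < kap (A - E) ∨ kap (E - F) < kap (max A E - F) ∨
      kap (A - E) < kap (max A E - F) := by
  rcases lt_or_gt_of_ne hAE with h1 | h1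
  · -- `A < E`
    rw [max_eq_right h1.le] at hm ⊢
    rcases lt_or_gt_of_ne hEF with h2 | h2
    · -- `A < E < F`
      rw [max_eq_right h2.le]
      by_cases hk : kap (A - E) < kap (E - F)
      · exact Or.inr (Or.inr hk)
      left
      rw [kap_neg (show E - F < 0 by omega), kap_neg (show A - E < 0 by omega)] at hk
      rw [kap_neg (show b - F < 0 by omega), kap_neg (show A - E < 0 by omega)]
      have h3 := log_add_lt (a := (A - E).natAbs) (b := (E - F).natAbs) (c := (b - F).natAbs)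
        (by omega) (by omega) (by omega) (by omega)
      omega
    · -- `A < E`, `F < E`
      right; right
      rw [kap_neg (show A - E < 0 by omega), kap_pos (show 0 < E - F by omega)]
      omega
  · -- `E < A`
    rw [max_eq_left h1.le] at hm ⊢
    rcases lt_or_gt_of_ne hm with h3 | h3
    · -- `A < F`
      left
      rw [max_eq_right (show E ≤ F by omega)]
      rw [kap_neg (show b - F < 0 by omega), kap_pos (show 0 < A - E by omega)]
      omega
    · rcases lt_or_gt_of_ne hEF with h2 | h2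
      · -- `E < F < A`
        right; left
        rw [kap_neg (show E - F < 0 by omega), kap_pos (show 0 < A - F by omega)]
        omega
      · -- `F < E < A`
        by_cases hk : kap (A - E) < kap (A - F)
        · exact Or.inr (Or.inr hk)
        right; left
        rw [kap_pos (show 0 < A - F by omega), kap_pos (show 0 < A - E by omega)] at hk
        rw [kap_pos (show 0 < E - F by omega), kap_pos (show 0 < A - F by omega)]
        have h4 := log_sub_lt (a := (A - F).natAbs) (b := (A - E).natAbs)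
          (by omega) (by omega) (by omega)
        have h5 : (A - F).natAbs - (A - E).natAbs = (E - F).natAbs := by omega
        have h6 : Nat.log 2 (A - E).natAbs ≤ Nat.log 2 (A - F).natAbs :=
          Nat.log_mono_right (by omega)
        rw [h5] at h4
        omega

/-- **The link lemma.**  If `g` is killed by `p` (keys `w < x < p < g < r`; `w` is the nearest
smaller ancestor of `p` and `g`, and `r` the nearest larger ancestor of `g`), then the level of `p`
drops, or the level of `g` drops, or the level of `p` is smaller than the level of `g`. -/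
theorem link_lemma {w x p g r : ℕ} (h1 : w < x) (h2 : x < p) (h3 : p < g) (h4 : g < r) :
    kap (gap x p r) < kap (gap w p g) ∨ kap (gap p g r) < kap (gap w g r) ∨
      kap (gap w p g) < kap (gap w g r) := by
  have e1 : ht p r = max (ht p g) (ht g r) := ht_max h3.le h4.le
  have e2 : ht w g = max (ht w p) (ht p g) := ht_max (by omega) h3.le
  have n1 : ht w p ≠ ht p g := ht_ne (by omega) h3
  have n2 : ht p g ≠ ht g r := ht_ne h3 h4
  have n3 : ht w g ≠ ht g r := ht_ne (by omega) h4
  have n6 : ht x p ≤ ht w p := ht_mono h1.le h2.le le_rfl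
  rw [e2] at n3
  unfold gap
  rw [e1, e2]
  push_cast
  apply link_arith
  · exact_mod_cast n1
  · exact_mod_cast n2
  · exact_mod_cast n3
  · exact_mod_cast n6

/-- **Monotonicity** of the gap when the left bound moves up and the right bound does not move
down. -/
theorem gap_mono {w x v r r' : ℕ} (h1 : w ≤ x) (h2 : x < v) (h3 : v < r) (h4 : r ≤ r') :
    gap x v r' ≤ gap w v r := by
  have a1 : ht x v ≤ ht w v := ht_mono h1 h2.le le_rfl
  have a2 : ht v r ≤ ht v r' := ht_mono le_rfl h3.le h4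
  unfold gap
  omega

theorem kap_gap_mono {w x v r r' : ℕ} (h1 : w ≤ x) (h2 : x < v) (h3 : v < r) (h4 : r ≤ r') :
    kap (gap x v r') ≤ kap (gap w v r) :=
  kap_mono (gap_mono h1 h2 h3 h4) (gap_ne h2 (by omega)) (gap_ne (by omega) h3)

/-- The levels of all gaps of keys `< 2 ^ H` lie between `-1 - log H` and `log H`. -/
theorem kap_gap_range {u v z H : ℕ} (h1 : u < v) (h2 : v < z) (hz : z < 2 ^ H) :
    -1 - (Nat.log 2 H : ℤ) ≤ kap (gap u v z) ∧ kap (gap u v z) ≤ (Nat.log 2 H : ℤ) := by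
  have a1 : ht u v ≤ H := ht_le (by omega) (by omega)
  have a2 : ht v z ≤ H := ht_le (by omega) (by omega)
  apply kap_range (gap_ne h1 h2)
  · unfold gap
    omega
  · unfold gap
    omega

end Pool.Agent.SplLog
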