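import Pool.Agent.SplLog.Irr

set_option autoImplicit false

namespace Pool.Agent.SplLog

namespace Sys

variable {S : Sys}

private theorem INJ_nev (v s t : ℕ) : ∀ (_ : DecidablePred fun a => S.E a v),
    S.nev v s t = ((Finset.Ico s t).filter (fun a => S.E a v)).card := by
  intro inst
  unfold nev
  congr 1
  exact Finset.filter_congr_decidable ..

private theorem INJ_congr {g1 g2 a0 a : ℕ}
    (h : ∀ c, a0 ≤ c → c < a → (S.E c g2 ↔ S.E c g1)) : S.nev g2 a0 a = S.nev g1 a0 a := by
  classical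
  rw [INJ_nev g2 a0 a inferInstance, INJ_nev g1 a0 a inferInstance]
  congr 1
  apply Finset.filter_congr
  intro c hc
  rw [Finset.mem_Ico] at hc
  exact h c hc.1 hc.2

private theorem INJ_lt {g a0 a t : ℕ} (h1 : a0 ≤ a) (h2 : a < t) (h : S.E a g) :
    S.nev g a0 a < S.nev g a0 t := by
  classical
  rw [INJ_nev g a0 a inferInstance, INJ_nev g a0 t inferInstance]
  apply Finset.card_lt_card
  rw [Finset.ssubset_iff_of_subset]
  · refine ⟨a, ?_, ?_⟩
    · rw [Finset.mem_filter, Finset.mem_Ico]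
      exact ⟨⟨h1, h2⟩, h⟩
    · rw [Finset.mem_filter, Finset.mem_Ico]
      rintro ⟨⟨_, h3⟩, _⟩
      exact lt_irrefl _ h3
  · intro c hc
    rw [Finset.mem_filter, Finset.mem_Ico] at hc ⊢
    exact ⟨⟨hc.1.1, by omega⟩, hc.2⟩

/-! HINT (INJ).  By induction on `a` from `a0` to `t1`: `lam a g2 = lam a g1 = lam a p1`, the nodes
`g1` and `g2` have the same events in `[a0, a)` and `g2` is kept at all of them.  Step: if `g1` is
untouched at `a`, so are `g2`, `p1` (`E_up`).  If `g1` is touched at `a < t1`, then `X a < p1`, so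
`g2` is touched on the right; if it is killed at `a` then `t2 = a` and `nev g2 a0 t2 < nev g1 a0 t1`.
At `a = t1`: `rho t1 p1 = g1` but `p1 < g2 < g1` and `lam t1 g2 = lam t1 p1`: contradiction
(`lamin`). -/
theorem tail_inj {a0 t1 t2 g1 g2 p1 : ℕ} (h1 : S.Tail a0 t1 g1 p1) (hg : g2 ∈ S.K)
    (hp : p1 < g2) (hg1 : g2 < g1) (hl : S.lam a0 g2 = S.lam a0 g1) (h2 : a0 ≤ t2)
    (hk : ∃ p, S.Kl t2 g2 p) (hn : ∀ a, a0 ≤ a → a < t2 → ¬ ∃ p, S.Kl a g2 p)
    (he : S.nev g1 a0 t1 = S.nev g2 a0 t2) : False := by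
  obtain ⟨ha0, hkl, hlp, hkept⟩ := h1
  obtain ⟨hkp, hpg, hlt, hrt, _, _⟩ := kl_facts hkl
  have hg1K : g1 ∈ S.K := hkl.1.2.1
  have hp1K : p1 ∈ S.K := hkp.1.2.1
  have ht1m : t1 < S.m := hkl.1.1
  obtain ⟨q2, hq2⟩ := hk
  have main : ∀ a, a0 ≤ a → a ≤ t1 → (S.lam a g2 = S.lam a g1 ∧ S.lam a p1 = S.lam a g1 ∧
      (∀ c, a0 ≤ c → c < a → (S.E c g2 ↔ S.E c g1)) ∧
      (∀ c, a0 ≤ c → c < a → S.E c g2 → S.Kp c g2)) := by
    intro a ha
    induction a, ha using Nat.le_induction with
    | base =>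
      intro _
      exact ⟨hl, hlp, fun c h3 h4 => by omega, fun c h3 h4 => by omega⟩
    | succ a ha ih =>
      intro hat
      obtain ⟨i1, i2, i3, i4⟩ := ih (by omega)
      have ham : a < S.m := by omega
      have hat2 : a ≤ t2 := by
        by_contra hcon
        have h3 := i4 t2 h2 (by omega) (R_E hq2.1)
        exact not_kp_kl h3 hq2
      have hg1r := S.lt_rho a ham.le g1 hg1K
      have hg2l := S.lam_lt a ham.le g2 hg
      have hp1l := S.lam_lt a ham.le p1 hp1K
      by_cases hE : S.E a g1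
      · obtain ⟨k1, k2⟩ := hkept a ha (by omega) hE
        have hx : S.X a < p1 := k2.1.2.2.1
        have hR2 : S.R a g2 := ⟨ham, hg, by omega, by
          rw [i1]
          exact k1.1.2.2.2⟩
        rcases kp_or_kl hR2 with h3 | h3
        · refine ⟨by rw [h3.2, k1.2], by rw [k2.2, k1.2], ?_, ?_⟩
          · intro c hc1 hc2
            rcases Nat.lt_or_eq_of_le (Nat.lt_succ_iff.1 hc2) with h4 | h4
            · exact i3 c hc1 h4
            · rw [h4]
              exact ⟨fun _ => hE, fun _ => R_E hR2⟩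
          · intro c hc1 hc2 hc3
            rcases Nat.lt_or_eq_of_le (Nat.lt_succ_iff.1 hc2) with h4 | h4
            · exact i4 c hc1 h4 hc3
            · rw [h4]
              exact h3
        · exfalso
          have h4 : t2 = a := by
            by_contra hne
            exact hn a ha (by omega) h3
          subst h4
          have h5 := INJ_lt ha (show t2 < t1 by omega) hE
          have h6 := INJ_congr i3
          omega
      · have hE2 : ¬ S.E a g2 := fun h => hE (E_up h hg1K (by omega) (by omega))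
        have hEp : ¬ S.E a p1 := fun h => hE (E_up h hg1K (by omega) (by omega))
        refine ⟨?_, ?_, ?_, ?_⟩
        · rw [(untouched ham hg hE2).1, (untouched ham hg1K hE).1, i1]
        · rw [(untouched ham hp1K hEp).1, (untouched ham hg1K hE).1, i2]
        · intro c hc1 hc2
          rcases Nat.lt_or_eq_of_le (Nat.lt_succ_iff.1 hc2) with h4 | h4
          · exact i3 c hc1 h4
          · rw [h4]
            exact ⟨fun h => absurd h hE2, fun h => absurd h hE⟩
        · intro c hc1 hc2 hc3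
          rcases Nat.lt_or_eq_of_le (Nat.lt_succ_iff.1 hc2) with h4 | h4
          · exact i4 c hc1 h4 hc3
          · rw [h4] at hc3
            exact absurd hc3 hE2
  obtain ⟨i1, i2, _, _⟩ := main t1 ha0 le_rfl
  have hg2l := S.lam_lt t1 ht1m.le g2 hg
  have hp1l := S.lam_lt t1 ht1m.le p1 hp1K
  rcases S.lamin t1 ht1m.le p1 hp1K g2 hg hp with h3 | h3 | h3
  · omega
  · omega
  · omega

end Sys

end Pool.Agent.SplLog
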