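import Pool.Agent.SplLog.Irr

set_option autoImplicit false

namespace Pool.Agent.SplLog

namespace Sys

variable {S : Sys} {e : ℕ → ℕ} {H : ℕ}

/-- An inner kill is regular or its killer is bad. -/
theorem inner_drop (he : Emb S e H) {l' l t g w p : ℕ} (h1 : S.PK l t g w) (h2 : S.Kl t g p)
    (h3 : S.Inn l' l t g w p) :
    S.Reg e t g ∨ (∃ d, l' ≤ d ∧ d < t ∧ S.Dr e d p) ∨ S.Dr e l' w := by
  obtain ⟨⟨hl'l, hkw, hAR, hNE⟩, hin⟩ := h3
  have hlt : l < t := h1.1
  have htm : t < S.m := h1.2.2.1.1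
  have hpK : p ∈ S.K := (kl_facts h2).1.1.2.1
  have hwK : w ∈ S.K := (kl_facts hkw).1.1.2.1
  rcases lev_link he hkw with h | h | h
  · exact Or.inr (Or.inr h)
  · exact Or.inr (Or.inl ⟨l', le_rfl, by omega, h⟩)
  · by_cases hd : ∃ d, l' ≤ d ∧ d < t ∧ S.Dr e d p
    · exact Or.inr (Or.inl hd)
    · left
      have e1 : S.lev e t p = S.lev e l' p := by
        refine lev_const he hpK (by omega) htm.le (fun a ha1 ha2 hE => ?_)
          (fun a ha1 ha2 hD => hd ⟨a, ha1, ha2, hD⟩)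
        rcases lt_or_eq_of_le ha1 with h4 | h4
        · by_cases h5 : a ≤ l
          · exact absurd hE (hNE a (by omega) (by omega))
          · exact (((hin a (by omega) ha2).1) hE).1
        · rw [← h4]
          exact hkw.1
      have e2 : S.lev e l w ≤ S.lev e l' w := by
        refine lev_mono he hwK hl'l.le (by omega) (fun a ha1 ha2 hE => ?_)
        exact hAR a ha1 ha2.le hE
      exact ⟨l, w, p, h1, h2, by omega⟩

open scoped Classical in
private theorem INNER_nev {v s t : ℕ} :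
    S.nev v s t = ((Finset.Ico s t).filter (fun a => S.E a v)).card := by
  unfold nev
  exact congrArg Finset.card (Finset.filter_congr_decidable _ _ _)

private theorem INNER_lt {v s t t' : ℕ} (hs : s ≤ t) (ht : t < t') (h : S.E t v) :
    S.nev v s t < S.nev v s t' := by
  classical
  rw [INNER_nev, INNER_nev]
  refine Finset.card_lt_card ⟨?_, ?_⟩
  · intro a ha
    rw [Finset.mem_filter, Finset.mem_Ico] at ha ⊢
    exact ⟨⟨ha.1.1, by omega⟩, ha.2⟩
  · intro h1
    have h2 : t ∈ (Finset.Ico s t).filter (fun a => S.E a v) :=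
      h1 (Finset.mem_filter.2 ⟨Finset.mem_Ico.2 ⟨hs, ht⟩, h⟩)
    rw [Finset.mem_filter, Finset.mem_Ico] at h2
    omega

private theorem INNER_eq {v v' s s' t : ℕ}
    (h : ∀ a, a < t → ((s ≤ a ∧ S.E a v) ↔ (s' ≤ a ∧ S.E a v'))) :
    S.nev v s t = S.nev v' s' t := by
  classical
  rw [INNER_nev, INNER_nev]
  refine congrArg Finset.card (Finset.ext fun a => ?_)
  rw [Finset.mem_filter, Finset.mem_filter, Finset.mem_Ico, Finset.mem_Ico]
  constructor
  · rintro ⟨⟨h1, h2⟩, h3⟩
    have := (h a h2).1 ⟨h1, h3⟩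
    exact ⟨⟨this.1, h2⟩, this.2⟩
  · rintro ⟨⟨h1, h2⟩, h3⟩
    have := (h a h2).2 ⟨h1, h3⟩
    exact ⟨⟨this.1, h2⟩, this.2⟩

private theorem INNER_cnt {P : ℕ → ℕ → Prop} {α : Type} (T : Finset α)
    (Rel : ℕ → ℕ → α → Prop) (h1 : ∀ t v, P t v → ∃ x ∈ T, Rel t v x)
    (h2 : ∀ t v t' v' x, Rel t v x → Rel t' v' x → t = t' ∧ v = v') : S.cnt P ≤ T.card := by
  classical
  have h3 : ∀ t v, ∃ x : Option α, P t v → ∃ y ∈ T, Rel t v y ∧ x = some y := by
    intro t v
    by_cases h : P t v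
    · obtain ⟨y, hy1, hy2⟩ := h1 t v h
      exact ⟨some y, fun _ => ⟨y, hy1, hy2, rfl⟩⟩
    · exact ⟨none, fun h' => absurd h' h⟩
  choose f hf using h3
  have h4 : S.cnt P ≤ (T.map Function.Embedding.some).card := by
    refine cnt_le_of_inj (T.map Function.Embedding.some) f ?_ ?_
    · intro t v _ _ hP
      obtain ⟨y, hy1, _, hy3⟩ := hf t v hP
      rw [hy3]
      exact Finset.mem_map.2 ⟨y, hy1, rfl⟩
    · intro t v t' v' _ _ hP _ _ hP' he
      obtain ⟨y, _, hy2, hy3⟩ := hf t v hP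
      obtain ⟨y', _, hy2', hy3'⟩ := hf t' v' hP'
      rw [hy3, hy3'] at he
      have h5 : y = y' := Option.some.inj he
      rw [h5] at hy2
      exact h2 _ _ _ _ _ hy2 hy2'
  rwa [Finset.card_map] at h4

/-- The data of an inner kill (INNER). -/
private def INNER_rel (S : Sys) (t g : ℕ) (x : Bool × (ℕ × ℕ) × ℕ) : Prop :=
  ∃ l' w p, S.Kl l' p w ∧ l' < t ∧ S.Kl t g p ∧ (∀ a, l' < a → a < t → S.E a p → S.Kp a p) ∧
    x.2.2 = S.nev p (l' + 1) t ∧
    ((x.1 = true ∧ l' ≤ x.2.1.1 ∧ x.2.1.1 < t ∧ x.2.1.2 = p) ∨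
      (x.1 = false ∧ x.2.1.1 = l' ∧ x.2.1.2 = w))

private theorem INNER_inj {t g t' g' : ℕ} {x : Bool × (ℕ × ℕ) × ℕ} (h : INNER_rel S t g x)
    (h' : INNER_rel S t' g' x) : t = t' ∧ g = g' := by
  obtain ⟨l, w, p, h1, h2, h3, h4, h5, h6⟩ := h
  obtain ⟨l', w', p', h1', h2', h3', h4', h5', h6'⟩ := h'
  have hlp : l = l' ∧ p = p' := by
    rcases h6 with ⟨a1, a2, a3, a4⟩ | ⟨a1, a2, a3⟩
    · rcases h6' with ⟨b1, b2, b3, b4⟩ | ⟨b1, b2, b3⟩
      · have hp : p = p' := a4.symm.trans b4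
        subst hp
        refine ⟨?_, rfl⟩
        rcases lt_trichotomy l l' with hl | hl | hl
        · exact absurd h1' (fun h => not_kp_kl (h4 l' hl (by omega) (R_E h.1)) h)
        · exact hl
        · exact absurd h1 (fun h => not_kp_kl (h4' l hl (by omega) (R_E h.1)) h)
      · rw [a1] at b1
        exact absurd b1 (by simp)
    · rcases h6' with ⟨b1, b2, b3, b4⟩ | ⟨b1, b2, b3⟩
      · rw [a1] at b1
        exact absurd b1 (by simp)
      · have hl : l = l' := a2.symm.trans b2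
        have hw : w = w' := a3.symm.trans b3
        subst hl
        subst hw
        have e1 := (kl_facts h1).2.2.2.1
        have e2 := (kl_facts h1').2.2.2.1
        exact ⟨rfl, by omega⟩
  obtain ⟨rfl, rfl⟩ := hlp
  have hE : S.E t p := R_E (kl_facts h3).1.1
  have hE' : S.E t' p := R_E (kl_facts h3').1.1
  have ht : t = t' := by
    rcases lt_trichotomy t t' with h | h | h
    · have := INNER_lt (S := S) (s := l + 1) (by omega) h hE
      omega
    · exact h
    · have := INNER_lt (S := S) (s := l + 1) (by omega) h hE'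
      omega
  subst ht
  exact ⟨rfl, kl_inj h3 h3'⟩

/-! HINT (INNER).  Injection `(t, g) ↦ (type, drop, number of events of p in (l', t))`.  Type 1: the
drop `(d, p)`, `l' ≤ d < t`: `l'` is the last kill of `p` at or before `d` (`p` is kept in
`(l', t)`), `t` is the event of `p` with the given number, `g = rho t p`.  Type 2: the drop
`(l', w)`: `p = rho l' w` is the node killed by `w` at `l'`.  The number of events of `p` in
`(l', t)` is `nev g (l + 1) t < J`. -/
theorem inner_count (he : Emb S e H) (J : ℕ) :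
    S.cnt (fun t g => ¬ S.Reg e t g ∧ ∃ l' l w p, S.PK l t g w ∧ S.Kl t g p ∧
      S.Inn l' l t g w p ∧ S.nev g (l + 1) t < J) ≤ 2 * J * S.cnt (S.Dr e) := by
  classical
  have hc : S.cnt (fun t g => ¬ S.Reg e t g ∧ ∃ l' l w p, S.PK l t g w ∧ S.Kl t g p ∧
      S.Inn l' l t g w p ∧ S.nev g (l + 1) t < J) ≤
      ((Finset.univ : Finset Bool) ×ˢ (S.set (S.Dr e)) ×ˢ (Finset.range J)).card := by
    refine INNER_cnt _ (INNER_rel S) ?_ (fun t v t' v' x h h' => INNER_inj h h')
    rintro t g ⟨hreg, l', l, w, p, hPK, hKl, hInn, hJ⟩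
    have hdrop := inner_drop he hPK hKl hInn
    obtain ⟨⟨hl'l, hkw, hAR, hNE⟩, hin⟩ := hInn
    have hlt : l < t := hPK.1
    have htm : t < S.m := hPK.2.2.1.1
    have hpK : p ∈ S.K := (kl_facts hKl).1.1.2.1
    have hwK : w ∈ S.K := (kl_facts hkw).1.1.2.1
    have hkp : ∀ a, l' < a → a < t → S.E a p → S.Kp a p := by
      intro a ha1 ha2 hE
      by_cases h5 : a ≤ l
      · exact absurd hE (hNE a (by omega) (by omega))
      · exact ((hin a (by omega) ha2).1) hE
    have hnev : S.nev g (l + 1) t = S.nev p (l' + 1) t := by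
      refine INNER_eq fun a ha => ⟨?_, ?_⟩
      · rintro ⟨h5, h6⟩
        exact ⟨by omega, ((hin a (by omega) ha).2).2 h6⟩
      · rintro ⟨h5, h6⟩
        by_cases h7 : a ≤ l
        · exact absurd h6 (hNE a (by omega) (by omega))
        · exact ⟨by omega, ((hin a (by omega) ha).2).1 h6⟩
    rcases hdrop with h | ⟨d, hd1, hd2, hd3⟩ | h
    · exact absurd h hreg
    · refine ⟨(true, (d, p), S.nev p (l' + 1) t), ?_, l', w, p, hkw, by omega, hKl, hkp, rfl,
        Or.inl ⟨rfl, hd1, hd2, rfl⟩⟩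
      rw [Finset.mem_product, Finset.mem_product, mem_set, Finset.mem_range]
      exact ⟨Finset.mem_univ _, ⟨by show d < S.m; omega, hpK, hd3⟩, by
        show S.nev p (l' + 1) t < J; omega⟩
    · refine ⟨(false, (l', w), S.nev p (l' + 1) t), ?_, l', w, p, hkw, by omega, hKl, hkp, rfl,
        Or.inr ⟨rfl, rfl, rfl⟩⟩
      rw [Finset.mem_product, Finset.mem_product, mem_set, Finset.mem_range]
      exact ⟨Finset.mem_univ _, ⟨by show l' < S.m; omega, hwK, h⟩, by
        show S.nev p (l' + 1) t < J; omega⟩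
  rw [Finset.card_product, Finset.card_product, Finset.card_range, Finset.card_univ,
    Fintype.card_bool] at hc
  have h1 : (S.set (S.Dr e)).card = S.cnt (S.Dr e) := rfl
  rw [h1] at hc
  calc _ ≤ _ := hc
    _ = _ := by ring

end Sys

end Pool.Agent.SplLog
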