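import Pool.Agent.SplLog.Lev

set_option autoImplicit false

/-!
# Regular and irregular kills: definitions
-/

namespace Pool.Agent.SplLog

namespace Sys

variable (S : Sys) (e : ℕ → ℕ)

/-- The number of events of `v` in `[s, t)`. -/
noncomputable def nev (v s t : ℕ) : ℕ :=
  letI := Classical.decPred (fun a => S.E a v)
  ((Finset.Ico s t).filter (fun a => S.E a v)).card

/-- The last kill of `g` before the right touch `t`, in the same right phase of `g`, happened at
time `l`, and `w` was the killer. -/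
def PK (l t g w : ℕ) : Prop :=
  l < t ∧ S.Kl l g w ∧ S.R t g ∧ ∀ a, l < a → a < t → S.E a g → S.Kp a g

/-- A regular kill: the level of the killer is larger than that of the previous killer. -/
def Reg (t g : ℕ) : Prop :=
  ∃ l w p, S.PK l t g w ∧ S.Kl t g p ∧ S.lev e l w < S.lev e t p

/-- An irregular kill. -/
def Irr (t g : ℕ) : Prop := (∃ p, S.Kl t g p) ∧ ¬ S.Reg e t g

/-- A first kill: no previous kill in the same right phase of `g`. -/
def FK (t g : ℕ) : Prop := (∃ p, S.Kl t g p) ∧ ¬ ∃ l w, S.PK l t g w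

/-- A kill of chain length at least `J`. -/
def Big (J t g : ℕ) : Prop := ∃ l w p, S.PK l t g w ∧ S.Kl t g p ∧ J ≤ S.nev g (l + 1) t

/-- `p` was killed by `w` at time `l'`, before `g`, in the same right phase of `w`. -/
def Frag (l' l p w : ℕ) : Prop := l' < l ∧ S.Kl l' p w ∧ S.AR w l' l ∧ S.NE p (l' + 1) (l + 1)

/-- An inner kill: `p` and `g` were killed by `w` in the same right phase of `w`, exposed at the
same time and touched together since. -/
def Inn (l' l t g w p : ℕ) : Prop :=
  S.Frag l' l p w ∧ ∀ a, l < a → a < t → (S.E a p → S.Kp a p) ∧ (S.E a p ↔ S.E a g)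

/-- `g` (killed by `p` at time `t`) and `p` are touched together and kept from `a0` on, in the same
list. -/
def Tail (a0 t g p : ℕ) : Prop :=
  a0 ≤ t ∧ S.Kl t g p ∧ S.lam a0 p = S.lam a0 g ∧
    ∀ a, a0 ≤ a → a < t → S.E a g → S.Kp a g ∧ S.Kp a p

/-- A cross kill of type A (separated by a change of side at time `s`). -/
def CA (J s t g p : ℕ) : Prop :=
  s < t ∧ S.Kp s g ∧ S.Kp s p ∧ S.lam s p ≠ S.lam s g ∧ S.Tail (s + 1) t g p ∧
    S.nev g (s + 1) t < J

/-- A cross kill of type B (`p` was not touched at time `s`). -/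
def CB (J s t g p : ℕ) : Prop :=
  s < t ∧ S.Kp s g ∧ ¬ S.E s p ∧ S.lam s p = S.X s ∧ S.Tail (s + 1) t g p ∧
    S.nev g (s + 1) t < J

/-- A cross kill of type F (different fragments); `σ` is the beginning of the right phase of `w`
containing `l`. -/
def CF (J s σ l t g w p : ℕ) : Prop :=
  l < s ∧ s ≤ t ∧ S.PK l t g w ∧ S.R s g ∧ S.NE g (l + 1) s ∧ S.RP σ l w ∧ S.Tail s t g p ∧
    (¬ ∃ l', S.Frag l' l p w) ∧ S.nev g s t < J

/-- A fragment: at time `s` the node `w` is passed and exposes a node `g` which was killed by `w`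
in the right phase of `w` beginning at `σ`. -/
def FR (s w σ : ℕ) : Prop :=
  ∃ g l, l < s ∧ S.Kl l g w ∧ S.NE g (l + 1) s ∧ S.R s g ∧ S.RP σ l w

open scoped Classical in
/-- The set of fragments. -/
noncomputable def frs : Finset (ℕ × ℕ × ℕ) :=
  (Finset.range S.m ×ˢ S.K ×ˢ Finset.range S.m).filter (fun q => S.FR q.1 q.2.1 q.2.2)

end Sys

end Pool.Agent.SplLog
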