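import Mathlib

set_option autoImplicit false

/-!
# Items (rectangles with a line)
-/

namespace Pool.Agent.SplLog

/-- An item: `y` is requested at time `τ`, `b` is requested at time `t`, and `c` is a cut (between
`c` and `c + 1`) between `y` and `b`. -/
structure Item where
  y : ℕ
  τ : ℕ
  b : ℕ
  t : ℕ
  c : ℕ
  deriving DecidableEq

/-- An item for the first `m` requests of `X`. -/
def Item.Ok (X : ℕ → ℕ) (m : ℕ) (i : Item) : Prop :=
  i.τ < i.t ∧ i.t < m ∧ X i.τ = i.y ∧ X i.t = i.b ∧ i.y ≤ i.c ∧ i.c < i.b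

/-- Two items are in conflict. -/
def Confl (i j : Item) : Prop :=
  i.y ≤ j.c ∧ j.c < i.b ∧ j.y ≤ i.c ∧ i.c < j.b ∧ i.τ ≤ j.t ∧ j.τ ≤ i.t

/-- A conflict-free family of items. -/
def CFree (X : ℕ → ℕ) (m : ℕ) (F : Finset Item) : Prop :=
  (∀ i ∈ F, i.Ok X m) ∧ ∀ i ∈ F, ∀ j ∈ F, i ≠ j → ¬ Confl i j

end Pool.Agent.SplLog
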