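import Pool.Agent.SplLog.Path

set_option autoImplicit false

/-!
# The number of nodes which are touched but not killed
-/

namespace Pool.Agent.SplLog

open BinaryTree Pool.Agent.MP_c42954_lc.Scan Pool.Agent.SplPat

open scoped Classical in
/-- The nodes touched on the right side and kept. -/
noncomputable def TR (K : List ℕ) (x : ℕ) (l l' : ℕ → ℕ) : Finset ℕ :=
  K.toFinset.filter (fun v => x < v ∧ l v < x ∧ l' v = x)

open scoped Classical in
/-- The nodes touched on the left side and kept. -/
noncomputable def TL (K : List ℕ) (x : ℕ) (r r' : ℕ → ℕ) : Finset ℕ :=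
  K.toFinset.filter (fun v => v < x ∧ x < r v ∧ r' v = x)

theorem card_sub_insert {S T : Finset ℕ} {g : ℕ} (h : T ⊆ insert g S) : T.card ≤ S.card + 1 :=
  (Finset.card_le_card h).trans (Finset.card_insert_le _ _)

theorem mem_TR {K : List ℕ} {x : ℕ} {l l' : ℕ → ℕ} {v : ℕ} :
    v ∈ TR K x l l' ↔ v ∈ K ∧ x < v ∧ l v < x ∧ l' v = x := by
  simp [TR]

theorem mem_TL {K : List ℕ} {x : ℕ} {l l' : ℕ → ℕ} {v : ℕ} :
    v ∈ TL K x l l' ↔ v ∈ K ∧ v < x ∧ x < l v ∧ l' v = x := by
  simp [TL]

/-- The statement for the right side of a double step. -/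
def BR (x : ℕ) (t B : BinaryTree ℕ) (lo hi : ℕ) : Prop :=
  (TR (inorder t) x (fun w => lm w t lo) (fun w => lm w B x)).card ≤
    (RK (inorder t) x (fun w => lm w t lo) (fun w => lm w B x)).card +
    (SR (inorder t) x (fun w => lm w t lo) (fun w => rh w t hi)).card +
    (SL (inorder t) x (fun w => lm w t lo) (fun w => rh w t hi)).card

/-- The statement for the left side of a double step. -/
def BL (x : ℕ) (t A : BinaryTree ℕ) (lo hi : ℕ) : Prop :=
  (TL (inorder t) x (fun w => rh w t hi) (fun w => rh w A x)).card ≤
    (LK (inorder t) x (fun w => rh w t hi) (fun w => rh w A x)).card +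
    (SR (inorder t) x (fun w => lm w t lo) (fun w => rh w t hi)).card +
    (SL (inorder t) x (fun w => lm w t lo) (fun w => rh w t hi)).card

theorem ev_kept {x : ℕ} {t A B : BinaryTree ℕ} (h : Ev x t A B) : IsBST t → ∀ lo hi,
    Bd lo hi t → BR x t B lo hi ∧ BL x t A lo hi := by
  induction h with
  | base A B =>
    intro hb lo hi hB
    obtain ⟨h1, h2, h3, h4⟩ := bst_node.1 hb
    obtain ⟨b1, b2, b3, b4⟩ := bd_node hb hB
    constructor
    · have : TR (inorder (.node x A B)) x (fun w => lm w (.node x A B) lo)
          (fun w => lm w B x) = ∅ := by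
        ext v
        rw [mem_TR]
        simp only [Finset.notMem_empty, iff_false]
        rintro ⟨c1, c2, c3, c4⟩
        rw [lm_gt c2] at c3
        rcases mem_node.1 c1 with c | c | c
        · have := h3 v c
          omega
        · omega
        · have := (ends h2 b4 c).1
          omega
      unfold BR
      rw [this]
      simp
    · have : TL (inorder (.node x A B)) x (fun w => rh w (.node x A B) hi)
          (fun w => rh w A x) = ∅ := by
        ext v
        rw [mem_TL]
        simp only [Finset.notMem_empty, iff_false]
        rintro ⟨c1, c2, c3, c4⟩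
        rw [rh_lt c2] at c3
        rcases mem_node.1 c1 with c | c | c
        · have := (ends h1 b3 c).2.2.2.1
          omega
        · omega
        · have := h4 v c
          omega
      unfold BL
      rw [this]
      simp
  | @ll p g L C D A B h1 h2 h3 ih =>
    intro hb lo hi hB
    obtain ⟨a1, a2, a3, a4⟩ := bst_node.1 hb
    obtain ⟨b1, b2, b3, b4⟩ := bd_node hb hB
    obtain ⟨c1, c2, c3, c4⟩ := bst_node.1 a1
    obtain ⟨d1, d2, d3, d4⟩ := bd_node a1 b3
    have hpg : p < g := a3 p (by simp [inorder])
    have hK : ∀ w ∈ inorder L, w ∈ inorder (.node g (.node p L C) D) := by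
      intro w hw
      simp [inorder, hw]
    have e1 : ∀ w ∈ inorder L, lm w (.node g (.node p L C) D) lo = lm w L lo := by
      intro w hw
      have := c3 w hw
      rw [lm_lt (by omega), lm_lt (by omega)]
    have e2 : ∀ w ∈ inorder L, rh w (.node g (.node p L C) D) hi = rh w L p := by
      intro w hw
      have := c3 w hw
      rw [rh_lt (by omega), rh_lt (by omega)]
    have e3 : ∀ w ∈ inorder L, x < w →
        lm w (.node p B (.node g C D)) x = lm w B x := by
      intro w hw _
      have := c3 w hw
      rw [lm_lt (by omega)]
    obtain ⟨i0, j0⟩ := ih c1 lo p d3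
    unfold BR at i0 ⊢
    unfold BL at j0 ⊢
    have i1 := card_insert_sub (g := g) (RK_sub (x := x) hK e1 e3)
      (by
        simp only [RK, Finset.mem_filter, List.mem_toFinset]
        have := d3 x (ev_mem h3)
        refine ⟨by simp [inorder], h2, ?_, ?_⟩
        · rw [lm_self]
          omega
        · rw [lm_gt hpg, lm_self]
          omega)
      (fun hg => by
        have := c3 g (RK_mem hg)
        omega)
    have i2 := Finset.card_le_card (LK_sub (x := x) (r' := fun w => rh w A x) hK e2
      (fun _ _ _ => rfl))
    have i3 := Finset.card_le_card (SR_sub (x := x) hK e1 e2)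
    have i4 := Finset.card_le_card (SL_sub (x := x) hK e1 e2)
    have i5 : (TR (inorder (.node g (.node p L C) D)) x
        (fun w => lm w (.node g (.node p L C) D) lo)
        (fun w => lm w (.node p B (.node g C D)) x)).card ≤
        (TR (inorder L) x (fun w => lm w L lo) (fun w => lm w B x)).card + 1 := by
      apply card_sub_insert (g := p)
      intro v hv
      rw [mem_TR] at hv
      obtain ⟨f1, f2, f3, f4⟩ := hv
      rw [Finset.mem_insert, mem_TR]
      rcases mem_node.1 f1 with f1 | f1 | f1
      · rcases mem_node.1 f1 with f1 | f1 | f1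
        · right
          exact ⟨f1, f2, by rw [← e1 v f1]; exact f3, by rw [← e3 v f1 f2]; exact f4⟩
        · exact Or.inl f1
        · exfalso
          have g1 := (ends c2 d4 f1).1
          have g2 := c4 v f1
          have g3 := b3 v (by simp [inorder, f1])
          rw [lm_lt (show v < g by omega), lm_gt g2] at f3
          omega
      · exfalso
        subst f1
        rw [lm_gt hpg, lm_self] at f4
        omega
      · exfalso
        have g1 := (ends a2 b4 f1).1
        have g2 := a4 v f1
        rw [lm_gt g2] at f3
        omega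
    have i6 : (TL (inorder (.node g (.node p L C) D)) x
        (fun w => rh w (.node g (.node p L C) D) hi) (fun w => rh w A x)).card ≤
        (TL (inorder L) x (fun w => rh w L p) (fun w => rh w A x)).card := by
      apply Finset.card_le_card
      intro v hv
      rw [mem_TL] at hv ⊢
      obtain ⟨f1, f2, f3, f4⟩ := hv
      rcases mem_node.1 f1 with f1 | f1 | f1
      · rcases mem_node.1 f1 with f1 | f1 | f1
        · exact ⟨f1, f2, by rw [← e2 v f1]; exact f3, f4⟩
        · omega
        · have := c4 v f1
          omega
      · omega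
      · have := a4 v f1
        omega
    constructor <;> omega
  | @lr p g R C D A B h1 h2 h3 ih =>
    intro hb lo hi hB
    obtain ⟨a1, a2, a3, a4⟩ := bst_node.1 hb
    obtain ⟨b1, b2, b3, b4⟩ := bd_node hb hB
    obtain ⟨c1, c2, c3, c4⟩ := bst_node.1 a1
    obtain ⟨d1, d2, d3, d4⟩ := bd_node a1 b3
    have hpg : p < g := a3 p (by simp [inorder])
    have hK : ∀ w ∈ inorder R, w ∈ inorder (.node g (.node p C R) D) := by
      intro w hw
      simp [inorder, hw]
    have e1 : ∀ w ∈ inorder R, lm w (.node g (.node p C R) D) lo = lm w R p := by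
      intro w hw
      have := d4 w hw
      rw [lm_lt (by omega), lm_gt (by omega)]
    have e2 : ∀ w ∈ inorder R, rh w (.node g (.node p C R) D) hi = rh w R g := by
      intro w hw
      have := d4 w hw
      rw [rh_lt (by omega), rh_gt (by omega)]
    have e3 : ∀ w ∈ inorder R, x < w → lm w (.node g B D) x = lm w B x := by
      intro w hw _
      have := d4 w hw
      rw [lm_lt (by omega)]
    have e4 : ∀ w ∈ inorder R, w < x → rh w (.node p C A) x = rh w A x := by
      intro w hw _
      have := d4 w hw
      rw [rh_gt (by omega)]
    obtain ⟨i0, j0⟩ := ih c2 p g d4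
    unfold BR at i0 ⊢
    unfold BL at j0 ⊢
    have i1 := Finset.card_le_card (RK_sub (x := x) hK e1 e3)
    have i2 := Finset.card_le_card (LK_sub (x := x) hK e2 e4)
    have i3 := Finset.card_le_card (SR_sub (x := x) hK e1 e2)
    have i4 := card_insert_sub (g := g) (SL_sub (x := x) hK e1 e2)
      (by
        simp only [SL, Finset.mem_filter, List.mem_toFinset]
        have := d4 x (ev_mem h3)
        refine ⟨by simp [inorder], h2, ?_, p, by simp [inorder], h1, ?_⟩
        · rw [lm_self]
          omega
        · rw [rh_lt hpg, rh_self])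
      (fun hg => by
        have := d4 g (SL_mem hg)
        omega)
    have i5 : (TR (inorder (.node g (.node p C R) D)) x
        (fun w => lm w (.node g (.node p C R) D) lo) (fun w => lm w (.node g B D) x)).card ≤
        (TR (inorder R) x (fun w => lm w R p) (fun w => lm w B x)).card + 1 := by
      apply card_sub_insert (g := g)
      intro v hv
      rw [mem_TR] at hv
      obtain ⟨f1, f2, f3, f4⟩ := hv
      rw [Finset.mem_insert, mem_TR]
      rcases mem_node.1 f1 with f1 | f1 | f1
      · rcases mem_node.1 f1 with f1 | f1 | f1
        · have := c3 v f1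
          omega
        · omega
        · right
          exact ⟨f1, f2, by rw [← e1 v f1]; exact f3, by rw [← e3 v f1 f2]; exact f4⟩
      · exact Or.inl f1
      · exfalso
        have g1 := (ends a2 b4 f1).1
        have g2 := a4 v f1
        rw [lm_gt g2] at f3
        omega
    have i6 : (TL (inorder (.node g (.node p C R) D)) x
        (fun w => rh w (.node g (.node p C R) D) hi) (fun w => rh w (.node p C A) x)).card ≤
        (TL (inorder R) x (fun w => rh w R g) (fun w => rh w A x)).card + 1 := by
      apply card_sub_insert (g := p)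
      intro v hv
      rw [mem_TL] at hv
      obtain ⟨f1, f2, f3, f4⟩ := hv
      rw [Finset.mem_insert, mem_TL]
      rcases mem_node.1 f1 with f1 | f1 | f1
      · rcases mem_node.1 f1 with f1 | f1 | f1
        · exfalso
          have g1 := (ends c1 d3 f1).2.2.2.1
          have g2 := c3 v f1
          rw [rh_lt (show v < g by omega), rh_lt g2] at f3
          omega
        · exact Or.inl f1
        · right
          exact ⟨f1, f2, by rw [← e2 v f1]; exact f3, by rw [← e4 v f1 f2]; exact f4⟩
      · omega
      · have := a4 v f1
        omega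
    constructor <;> omega
  | @rr p g R C D A B h1 h2 h3 ih =>
    intro hb lo hi hB
    obtain ⟨a1, a2, a3, a4⟩ := bst_node.1 hb
    obtain ⟨b1, b2, b3, b4⟩ := bd_node hb hB
    obtain ⟨c1, c2, c3, c4⟩ := bst_node.1 a2
    obtain ⟨d1, d2, d3, d4⟩ := bd_node a2 b4
    have hpg : g < p := a4 p (by simp [inorder])
    have hK : ∀ w ∈ inorder R, w ∈ inorder (.node g D (.node p C R)) := by
      intro w hw
      simp [inorder, hw]
    have e1 : ∀ w ∈ inorder R, lm w (.node g D (.node p C R)) lo = lm w R p := by
      intro w hw
      have := d4 w hw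
      rw [lm_gt (by omega), lm_gt (by omega)]
    have e2 : ∀ w ∈ inorder R, rh w (.node g D (.node p C R)) hi = rh w R hi := by
      intro w hw
      have := d4 w hw
      rw [rh_gt (by omega), rh_gt (by omega)]
    have e4 : ∀ w ∈ inorder R, w < x →
        rh w (.node p (.node g D C) A) x = rh w A x := by
      intro w hw _
      have := d4 w hw
      rw [rh_gt (by omega)]
    obtain ⟨i0, j0⟩ := ih c2 p hi d4
    unfold BR at i0 ⊢
    unfold BL at j0 ⊢
    have i1 := Finset.card_le_card (RK_sub (x := x) (l' := fun w => lm w B x) hK e1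
      (fun _ _ _ => rfl))
    have i2 := card_insert_sub (g := g) (LK_sub (x := x) hK e2 e4)
      (by
        simp only [LK, Finset.mem_filter, List.mem_toFinset]
        have := d4 x (ev_mem h3)
        refine ⟨by simp [inorder], h2, ?_, ?_⟩
        · rw [rh_self]
          omega
        · rw [rh_lt hpg, rh_self]
          omega)
      (fun hg => by
        have := d4 g (LK_mem hg)
        omega)
    have i3 := Finset.card_le_card (SR_sub (x := x) hK e1 e2)
    have i4 := Finset.card_le_card (SL_sub (x := x) hK e1 e2)
    have i5 : (TL (inorder (.node g D (.node p C R))) x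
        (fun w => rh w (.node g D (.node p C R)) hi)
        (fun w => rh w (.node p (.node g D C) A) x)).card ≤
        (TL (inorder R) x (fun w => rh w R hi) (fun w => rh w A x)).card + 1 := by
      apply card_sub_insert (g := p)
      intro v hv
      rw [mem_TL] at hv
      obtain ⟨f1, f2, f3, f4⟩ := hv
      rw [Finset.mem_insert, mem_TL]
      rcases mem_node.1 f1 with f1 | f1 | f1
      · exfalso
        have g1 := (ends a1 b3 f1).2.2.2.1
        have g2 := a3 v f1
        rw [rh_lt g2] at f3
        omega
      · exfalso
        subst f1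
        rw [rh_lt hpg, rh_self] at f4
        omega
      · rcases mem_node.1 f1 with f1 | f1 | f1
        · exfalso
          have g1 := (ends c1 d3 f1).2.2.2.1
          have g2 := c3 v f1
          have g3 := b4 v (by simp [inorder, f1])
          rw [rh_gt (show g < v by omega), rh_lt g2] at f3
          omega
        · exact Or.inl f1
        · right
          exact ⟨f1, f2, by rw [← e2 v f1]; exact f3, by rw [← e4 v f1 f2]; exact f4⟩
    have i6 : (TR (inorder (.node g D (.node p C R))) x
        (fun w => lm w (.node g D (.node p C R)) lo) (fun w => lm w B x)).card ≤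
        (TR (inorder R) x (fun w => lm w R p) (fun w => lm w B x)).card := by
      apply Finset.card_le_card
      intro v hv
      rw [mem_TR] at hv ⊢
      obtain ⟨f1, f2, f3, f4⟩ := hv
      rcases mem_node.1 f1 with f1 | f1 | f1
      · have := a3 v f1
        omega
      · omega
      · rcases mem_node.1 f1 with f1 | f1 | f1
        · have := c3 v f1
          omega
        · omega
        · exact ⟨f1, f2, by rw [← e1 v f1]; exact f3, f4⟩
    constructor <;> omega
  | @rl p g L C D A B h1 h2 h3 ih =>
    intro hb lo hi hB
    obtain ⟨a1, a2, a3, a4⟩ := bst_node.1 hb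
    obtain ⟨b1, b2, b3, b4⟩ := bd_node hb hB
    obtain ⟨c1, c2, c3, c4⟩ := bst_node.1 a2
    obtain ⟨d1, d2, d3, d4⟩ := bd_node a2 b4
    have hpg : g < p := a4 p (by simp [inorder])
    have hK : ∀ w ∈ inorder L, w ∈ inorder (.node g D (.node p L C)) := by
      intro w hw
      simp [inorder, hw]
    have e1 : ∀ w ∈ inorder L, lm w (.node g D (.node p L C)) lo = lm w L g := by
      intro w hw
      have := d3 w hw
      rw [lm_gt (by omega), lm_lt (by omega)]
    have e2 : ∀ w ∈ inorder L, rh w (.node g D (.node p L C)) hi = rh w L p := by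
      intro w hw
      have := d3 w hw
      rw [rh_gt (by omega), rh_lt (by omega)]
    have e3 : ∀ w ∈ inorder L, x < w → lm w (.node p B C) x = lm w B x := by
      intro w hw _
      have := d3 w hw
      rw [lm_lt (by omega)]
    have e4 : ∀ w ∈ inorder L, w < x → rh w (.node g D A) x = rh w A x := by
      intro w hw _
      have := d3 w hw
      rw [rh_gt (by omega)]
    obtain ⟨i0, j0⟩ := ih c1 g p d3
    unfold BR at i0 ⊢
    unfold BL at j0 ⊢
    have i1 := Finset.card_le_card (RK_sub (x := x) hK e1 e3)
    have i2 := Finset.card_le_card (LK_sub (x := x) hK e2 e4)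
    have i3 := card_insert_sub (g := g) (SR_sub (x := x) hK e1 e2)
      (by
        simp only [SR, Finset.mem_filter, List.mem_toFinset]
        have := d3 x (ev_mem h3)
        refine ⟨by simp [inorder], h2, ?_, p, by simp [inorder], h1, ?_⟩
        · rw [rh_self]
          omega
        · rw [lm_gt hpg, lm_self])
      (fun hg => by
        have := d3 g (SR_mem hg)
        omega)
    have i4 := Finset.card_le_card (SL_sub (x := x) hK e1 e2)
    have i5 : (TR (inorder (.node g D (.node p L C))) x
        (fun w => lm w (.node g D (.node p L C)) lo) (fun w => lm w (.node p B C) x)).card ≤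
        (TR (inorder L) x (fun w => lm w L g) (fun w => lm w B x)).card + 1 := by
      apply card_sub_insert (g := p)
      intro v hv
      rw [mem_TR] at hv
      obtain ⟨f1, f2, f3, f4⟩ := hv
      rw [Finset.mem_insert, mem_TR]
      rcases mem_node.1 f1 with f1 | f1 | f1
      · have := a3 v f1
        omega
      · omega
      · rcases mem_node.1 f1 with f1 | f1 | f1
        · right
          exact ⟨f1, f2, by rw [← e1 v f1]; exact f3, by rw [← e3 v f1 f2]; exact f4⟩
        · exact Or.inl f1
        · exfalso
          have g1 := (ends c2 d4 f1).1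
          have g2 := c4 v f1
          rw [lm_gt (show g < v by omega), lm_gt g2] at f3
          omega
    have i6 : (TL (inorder (.node g D (.node p L C))) x
        (fun w => rh w (.node g D (.node p L C)) hi) (fun w => rh w (.node g D A) x)).card ≤
        (TL (inorder L) x (fun w => rh w L p) (fun w => rh w A x)).card + 1 := by
      apply card_sub_insert (g := g)
      intro v hv
      rw [mem_TL] at hv
      obtain ⟨f1, f2, f3, f4⟩ := hv
      rw [Finset.mem_insert, mem_TL]
      rcases mem_node.1 f1 with f1 | f1 | f1
      · exfalso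
        have g1 := (ends a1 b3 f1).2.2.2.1
        have g2 := a3 v f1
        rw [rh_lt g2] at f3
        omega
      · exact Or.inl f1
      · rcases mem_node.1 f1 with f1 | f1 | f1
        · right
          exact ⟨f1, f2, by rw [← e2 v f1]; exact f3, by rw [← e4 v f1 f2]; exact f4⟩
        · omega
        · have := c4 v f1
          omega
    constructor <;> omega

theorem spl_kept {x : ℕ} {t A B : BinaryTree ℕ} (h : Spl x t A B) (hb : IsBST t) {lo hi : ℕ}
    (hB : Bd lo hi t) :
    (TR (inorder t) x (fun w => lm w t lo) (fun w => lm w B x)).card ≤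
      (RK (inorder t) x (fun w => lm w t lo) (fun w => lm w B x)).card +
      (SR (inorder t) x (fun w => lm w t lo) (fun w => rh w t hi)).card +
      (SL (inorder t) x (fun w => lm w t lo) (fun w => rh w t hi)).card + 1 ∧
    (TL (inorder t) x (fun w => rh w t hi) (fun w => rh w A x)).card ≤
      (LK (inorder t) x (fun w => rh w t hi) (fun w => rh w A x)).card +
      (SR (inorder t) x (fun w => lm w t lo) (fun w => rh w t hi)).card +
      (SL (inorder t) x (fun w => lm w t lo) (fun w => rh w t hi)).card + 1 := by
  cases h with
  | ev h =>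
    obtain ⟨i, j⟩ := ev_kept h hb lo hi hB
    exact ⟨i.trans (Nat.le_succ _), j.trans (Nat.le_succ _)⟩
  | @zl g L D A B h1 h2 =>
    obtain ⟨a1, a2, a3, a4⟩ := bst_node.1 hb
    obtain ⟨b1, b2, b3, b4⟩ := bd_node hb hB
    have hK : ∀ w ∈ inorder L, w ∈ inorder (.node g L D) := by
      intro w hw
      simp [inorder, hw]
    have e1 : ∀ w ∈ inorder L, lm w (.node g L D) lo = lm w L lo := by
      intro w hw
      have := a3 w hw
      rw [lm_lt (by omega)]
    have e2 : ∀ w ∈ inorder L, rh w (.node g L D) hi = rh w L g := by
      intro w hw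
      have := a3 w hw
      rw [rh_lt (by omega)]
    have e3 : ∀ w ∈ inorder L, x < w → lm w (.node g B D) x = lm w B x := by
      intro w hw _
      have := a3 w hw
      rw [lm_lt (by omega)]
    obtain ⟨i0, j0⟩ := ev_kept h2 a1 lo g b3
    unfold BR at i0
    unfold BL at j0
    have i1 := Finset.card_le_card (RK_sub (x := x) hK e1 e3)
    have i2 := Finset.card_le_card (LK_sub (x := x) (r' := fun w => rh w A x) hK e2
      (fun _ _ _ => rfl))
    have i3 := Finset.card_le_card (SR_sub (x := x) hK e1 e2)
    have i4 := Finset.card_le_card (SL_sub (x := x) hK e1 e2)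
    have i5 : (TR (inorder (.node g L D)) x
        (fun w => lm w (.node g L D) lo) (fun w => lm w (.node g B D) x)).card ≤
        (TR (inorder L) x (fun w => lm w L lo) (fun w => lm w B x)).card + 1 := by
      apply card_sub_insert (g := g)
      intro v hv
      rw [mem_TR] at hv
      obtain ⟨f1, f2, f3, f4⟩ := hv
      rw [Finset.mem_insert, mem_TR]
      rcases mem_node.1 f1 with f1 | f1 | f1
      · right
        exact ⟨f1, f2, by rw [← e1 v f1]; exact f3, by rw [← e3 v f1 f2]; exact f4⟩
      · exact Or.inl f1
      · exfalso
        have g1 := (ends a2 b4 f1).1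
        have g2 := a4 v f1
        rw [lm_gt g2] at f3
        omega
    have i6 : (TL (inorder (.node g L D)) x
        (fun w => rh w (.node g L D) hi) (fun w => rh w A x)).card ≤
        (TL (inorder L) x (fun w => rh w L g) (fun w => rh w A x)).card := by
      apply Finset.card_le_card
      intro v hv
      rw [mem_TL] at hv ⊢
      obtain ⟨f1, f2, f3, f4⟩ := hv
      rcases mem_node.1 f1 with f1 | f1 | f1
      · exact ⟨f1, f2, by rw [← e2 v f1]; exact f3, f4⟩
      · omega
      · have := a4 v f1
        omega
    constructor <;> omega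
  | @zr g R D A B h1 h2 =>
    obtain ⟨a1, a2, a3, a4⟩ := bst_node.1 hb
    obtain ⟨b1, b2, b3, b4⟩ := bd_node hb hB
    have hK : ∀ w ∈ inorder R, w ∈ inorder (.node g D R) := by
      intro w hw
      simp [inorder, hw]
    have e1 : ∀ w ∈ inorder R, lm w (.node g D R) lo = lm w R g := by
      intro w hw
      have := a4 w hw
      rw [lm_gt (by omega)]
    have e2 : ∀ w ∈ inorder R, rh w (.node g D R) hi = rh w R hi := by
      intro w hw
      have := a4 w hw
      rw [rh_gt (by omega)]
    have e4 : ∀ w ∈ inorder R, w < x → rh w (.node g D A) x = rh w A x := by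
      intro w hw _
      have := a4 w hw
      rw [rh_gt (by omega)]
    obtain ⟨i0, j0⟩ := ev_kept h2 a2 g hi b4
    unfold BR at i0
    unfold BL at j0
    have i1 := Finset.card_le_card (RK_sub (x := x) (l' := fun w => lm w B x) hK e1
      (fun _ _ _ => rfl))
    have i2 := Finset.card_le_card (LK_sub (x := x) hK e2 e4)
    have i3 := Finset.card_le_card (SR_sub (x := x) hK e1 e2)
    have i4 := Finset.card_le_card (SL_sub (x := x) hK e1 e2)
    have i5 : (TR (inorder (.node g D R)) x
        (fun w => lm w (.node g D R) lo) (fun w => lm w B x)).card ≤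
        (TR (inorder R) x (fun w => lm w R g) (fun w => lm w B x)).card := by
      apply Finset.card_le_card
      intro v hv
      rw [mem_TR] at hv ⊢
      obtain ⟨f1, f2, f3, f4⟩ := hv
      rcases mem_node.1 f1 with f1 | f1 | f1
      · have := a3 v f1
        omega
      · omega
      · exact ⟨f1, f2, by rw [← e1 v f1]; exact f3, f4⟩
    have i6 : (TL (inorder (.node g D R)) x
        (fun w => rh w (.node g D R) hi) (fun w => rh w (.node g D A) x)).card ≤
        (TL (inorder R) x (fun w => rh w R hi) (fun w => rh w A x)).card + 1 := by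
      apply card_sub_insert (g := g)
      intro v hv
      rw [mem_TL] at hv
      obtain ⟨f1, f2, f3, f4⟩ := hv
      rw [Finset.mem_insert, mem_TL]
      rcases mem_node.1 f1 with f1 | f1 | f1
      · exfalso
        have g1 := (ends a1 b3 f1).2.2.2.1
        have g2 := a3 v f1
        rw [rh_lt g2] at f3
        omega
      · exact Or.inl f1
      · right
        exact ⟨f1, f2, by rw [← e2 v f1]; exact f3, by rw [← e4 v f1 f2]; exact f4⟩
    constructor <;> omega

/-- **The number of nodes which are touched and kept** on one side: the number of kills on that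
side plus the number of changes of side plus one. -/
theorem kept_le {x : ℕ} {t : BinaryTree ℕ} (hb : IsBST t) (hm : x ∈ inorder t) {lo hi : ℕ}
    (hB : Bd lo hi t) :
    (TR (inorder t) x (fun w => lm w t lo) (fun w => lm w (splay x t) lo)).card ≤
      (RK (inorder t) x (fun w => lm w t lo) (fun w => lm w (splay x t) lo)).card +
      (SR (inorder t) x (fun w => lm w t lo) (fun w => rh w t hi)).card +
      (SL (inorder t) x (fun w => lm w t lo) (fun w => rh w t hi)).card + 1 ∧
    (TL (inorder t) x (fun w => rh w t hi) (fun w => rh w (splay x t) hi)).card ≤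
      (LK (inorder t) x (fun w => rh w t hi) (fun w => rh w (splay x t) hi)).card +
      (SR (inorder t) x (fun w => lm w t lo) (fun w => rh w t hi)).card +
      (SL (inorder t) x (fun w => lm w t lo) (fun w => rh w t hi)).card + 1 := by
  obtain ⟨A, B, h1, h2⟩ := spl_exists hb hm
  obtain ⟨i0, j0⟩ := spl_kept h1 hb hB
  rw [h2]
  have i1 := Finset.card_le_card (RK_sub (x := x) (K := inorder t) (K' := inorder t)
    (l := fun w => lm w t lo) (L := fun w => lm w t lo) (l' := fun w => lm w B x)
    (L' := fun w => lm w (.node x A B) lo) (fun w hw => hw) (fun _ _ => rfl)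
    (fun w _ hxw => by rw [lm_gt hxw]))
  have i2 := Finset.card_le_card (LK_sub (x := x) (K := inorder t) (K' := inorder t)
    (r := fun w => rh w t hi) (R := fun w => rh w t hi) (r' := fun w => rh w A x)
    (R' := fun w => rh w (.node x A B) hi) (fun w hw => hw) (fun _ _ => rfl)
    (fun w _ hxw => by rw [rh_lt hxw]))
  have i3 : TR (inorder t) x (fun w => lm w t lo) (fun w => lm w (.node x A B) lo) =
      TR (inorder t) x (fun w => lm w t lo) (fun w => lm w B x) := by
    ext v
    rw [mem_TR, mem_TR]
    constructor
    · rintro ⟨f1, f2, f3, f4⟩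
      rw [lm_gt f2] at f4
      exact ⟨f1, f2, f3, f4⟩
    · rintro ⟨f1, f2, f3, f4⟩
      refine ⟨f1, f2, f3, ?_⟩
      rw [lm_gt f2]
      exact f4
  have i4 : TL (inorder t) x (fun w => rh w t hi) (fun w => rh w (.node x A B) hi) =
      TL (inorder t) x (fun w => rh w t hi) (fun w => rh w A x) := by
    ext v
    rw [mem_TL, mem_TL]
    constructor
    · rintro ⟨f1, f2, f3, f4⟩
      rw [rh_lt f2] at f4
      exact ⟨f1, f2, f3, f4⟩
    · rintro ⟨f1, f2, f3, f4⟩
      refine ⟨f1, f2, f3, ?_⟩
      rw [rh_lt f2]
      exact f4
  rw [i3, i4]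
  constructor <;> omega

end Pool.Agent.SplLog
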