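import Pool.Agent.SplLog.Irr

set_option autoImplicit false

namespace Pool.Agent.SplLog

namespace Sys

variable {S : Sys}

/-! HINT (LEN).  Double counting of triples (big kill `(t, g)`, event `a` of `g` in `(l, t)`): every
such event is kept (`PK`), and a kept touch `(a, g)` belongs to at most one kill, the next kill of
`g` after `a`. -/
theorem big_count (J : ℕ) : J * S.cnt (S.Big J) ≤ S.KR := by
  classical
  have hex : ∀ q ∈ S.set (S.Big J), ∃ A : Finset (ℕ × ℕ), J ≤ A.card ∧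
      ∀ r ∈ A, r.2 = q.2 ∧ r.1 < q.1 ∧ S.Kp r.1 r.2 ∧
        ∀ a, r.1 < a → a < q.1 → ¬ ∃ p, S.Kl a q.2 p := by
    intro q hq
    obtain ⟨_, _, l, w, p, h1, _, h3⟩ := mem_set.1 hq
    refine ⟨((Finset.Ico (l + 1) q.1).filter (fun a => S.E a q.2)).image (fun a => (a, q.2)),
      ?_, ?_⟩
    · rw [Finset.card_image_of_injective _ (fun a b hab => (Prod.ext_iff.1 hab).1)]
      exact h3
    · intro r hr
      rw [Finset.mem_image] at hr
      obtain ⟨a, ha, rfl⟩ := hr
      rw [Finset.mem_filter, Finset.mem_Ico] at ha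
      obtain ⟨⟨ha1, ha2⟩, ha3⟩ := ha
      refine ⟨rfl, ha2, h1.2.2.2 a (by omega) ha2 ha3, ?_⟩
      rintro b hb1 hb2 ⟨p', hp'⟩
      have hb1' : a < b := hb1
      exact not_kp_kl (h1.2.2.2 b (by omega) hb2 (R_E hp'.1)) hp'
  choose! A hA1 hA2 using hex
  have hdis : ∀ q ∈ S.set (S.Big J), ∀ q' ∈ S.set (S.Big J), q ≠ q' →
      Disjoint (A q) (A q') := by
    have key : ∀ q ∈ S.set (S.Big J), ∀ q' ∈ S.set (S.Big J), ∀ r, r ∈ A q → r ∈ A q' →
        ¬ q.1 < q'.1 := by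
      intro q hq q' hq' r hr hr' hlt
      obtain ⟨h1, h2, _, _⟩ := hA2 q hq r hr
      obtain ⟨h1', _, _, h4'⟩ := hA2 q' hq' r hr'
      obtain ⟨_, _, l, w, p, _, h5, _⟩ := mem_set.1 hq
      apply h4' q.1 h2 hlt
      refine ⟨p, ?_⟩
      rw [← h1', h1]
      exact h5
    intro q hq q' hq' hne
    rw [Finset.disjoint_left]
    intro r hr hr'
    have k1 := key q hq q' hq' r hr hr'
    have k2 := key q' hq' q hq r hr' hr
    have k3 := (hA2 q hq r hr).1
    have k4 := (hA2 q' hq' r hr').1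
    exact hne (Prod.ext (by omega) (by omega))
  have hsub : (S.set (S.Big J)).biUnion A ⊆ S.set S.Kp := by
    intro r hr
    rw [Finset.mem_biUnion] at hr
    obtain ⟨q, hq, hr⟩ := hr
    obtain ⟨_, _, h3, _⟩ := hA2 q hq r hr
    exact mem_set.2 ⟨h3.1.1, h3.1.2.1, h3⟩
  have hcard := Finset.card_le_card hsub
  rw [Finset.card_biUnion hdis] at hcard
  have hsum : (S.set (S.Big J)).card • J ≤ ∑ q ∈ S.set (S.Big J), (A q).card :=
    Finset.card_nsmul_le_sum _ _ _ hA1
  unfold KR cnt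
  rw [smul_eq_mul, Nat.mul_comm] at hsum
  omega

end Sys

end Pool.Agent.SplLog
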