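import Pool.Agent.SplLog.Basic

set_option autoImplicit false

/-!
# Levels
-/

namespace Pool.Agent.SplLog

/-- `e` embeds the keys and the sentinels of `S` into the numbers `< 2 ^ H`. -/
def Emb (S : Sys) (e : ℕ → ℕ) (H : ℕ) : Prop :=
  (∀ u v, (u = 0 ∨ u ∈ S.K) → (v = S.top ∨ v ∈ S.K) → u < v → e u < e v) ∧
    (∀ v, (v = S.top ∨ v ∈ S.K) → e v < 2 ^ H)

/-- The number of levels. -/
def MM (H : ℕ) : ℕ := 2 * Nat.log 2 H + 2

namespace Sys

variable (S : Sys) (e : ℕ → ℕ)

/-- The level of `v` at time `t`. -/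
def lev (t v : ℕ) : ℤ := kap (gap (e (S.lam t v)) (e v) (e (S.rho t v)))

/-- The level of `v` drops at time `t`. -/
def Dr (t v : ℕ) : Prop := S.R t v ∧ S.lev e (t + 1) v < S.lev e t v

variable {S e} {H t s v g p : ℕ}

private theorem LEV_int (he : Emb S e H) (ht : t ≤ S.m) (hv : v ∈ S.K) :
    e (S.lam t v) < e v ∧ e v < e (S.rho t v) ∧ e (S.rho t v) < 2 ^ H := by
  have h1 := S.lam_lt t ht v hv
  have h2 := S.lt_rho t ht v hv
  have h3 := S.lam_mem t ht v hv
  have h4 := S.rho_mem t ht v hv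
  exact ⟨he.1 _ _ h3 (Or.inr hv) h1, he.1 _ _ (Or.inr hv) h4 h2, he.2 _ h4⟩

theorem lev_range (he : Emb S e H) (ht : t ≤ S.m) (hv : v ∈ S.K) :
    -1 - (Nat.log 2 H : ℤ) ≤ S.lev e t v ∧ S.lev e t v ≤ (Nat.log 2 H : ℤ) := by
  have h := LEV_int he ht hv
  exact kap_gap_range h.1 h.2.1 h.2.2

theorem lev_R (he : Emb S e H) (h : S.R t v) : S.lev e (t + 1) v ≤ S.lev e t v := by
  have hm := R_mono h
  have ht : t < S.m := h.1
  have hv : v ∈ S.K := h.2.1
  have h1 := LEV_int he ht.le hv
  have h2 := LEV_int he (show t + 1 ≤ S.m by omega) hv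
  have h3 := S.lam_mem t ht.le v hv
  have h4 := S.lam_mem (t + 1) (by omega) v hv
  have h5 := S.rho_mem t ht.le v hv
  have h6 := S.rho_mem (t + 1) (by omega) v hv
  have a1 : e (S.lam t v) < e (S.lam (t + 1) v) := by
    apply he.1 _ _ h3 _ hm.1
    rcases h4 with h4 | h4
    · omega
    · exact Or.inr h4
  have a2 : e (S.rho t v) ≤ e (S.rho (t + 1) v) := by
    rcases eq_or_lt_of_le hm.2.2 with h7 | h7
    · rw [h7]
    · have h8 : S.rho t v ∈ S.K := by
        rcases h5 with h5 | h5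
        · rcases h6 with h6 | h6
          · omega
          · have := (S.key _ h6).2
            omega
        · exact h5
      exact (he.1 _ _ (Or.inr h8) h6 h7).le
  exact kap_gap_mono a1.le h2.1 h1.2.1 a2

theorem lev_untouched (ht : t < S.m) (hv : v ∈ S.K) (h : ¬ S.E t v) :
    S.lev e (t + 1) v = S.lev e t v := by
  have h1 := untouched ht hv h
  unfold lev
  rw [h1.1, h1.2]

/-- Monotonicity along a right phase. -/
theorem lev_mono (he : Emb S e H) (hv : v ∈ S.K) (hst : s ≤ t) (ht : t ≤ S.m)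
    (h : ∀ a, s ≤ a → a < t → S.E a v → S.R a v) : S.lev e t v ≤ S.lev e s v := by
  induction t, hst using Nat.le_induction with
  | base => exact le_rfl
  | succ t hst ih =>
    have h1 := ih (by omega) (fun a ha hb => h a ha (by omega))
    refine le_trans ?_ h1
    by_cases hE : S.E t v
    · exact lev_R he (h t hst (by omega) hE)
    · exact (lev_untouched (by omega) hv hE).le

/-- Without drops the level is constant. -/
theorem lev_const (he : Emb S e H) (hv : v ∈ S.K) (hst : s ≤ t) (ht : t ≤ S.m)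
    (h : ∀ a, s ≤ a → a < t → S.E a v → S.R a v) (hd : ∀ a, s ≤ a → a < t → ¬ S.Dr e a v) :
    S.lev e t v = S.lev e s v := by
  induction t, hst using Nat.le_induction with
  | base => rfl
  | succ t hst ih =>
    have h1 := ih (by omega) (fun a ha hb => h a ha (by omega)) (fun a ha hb => hd a ha (by omega))
    rw [← h1]
    by_cases hE : S.E t v
    · have h2 := h t hst (by omega) hE
      have h3 := hd t hst (by omega)
      exact le_antisymm (lev_R he h2) (not_lt.mp fun h4 => h3 ⟨h2, h4⟩)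
    · exact lev_untouched (by omega) hv hE

/-- The link lemma for a kill. -/
theorem lev_link (he : Emb S e H) (h : S.Kl t g p) :
    S.Dr e t p ∨ S.Dr e t g ∨ S.lev e t p < S.lev e t g := by
  obtain ⟨hp, h1, h2, h3, h4, h5⟩ := kl_facts h
  obtain ⟨hg, hx, hl⟩ := h
  have ht : t < S.m := hg.1
  have i1 := LEV_int he ht.le hg.2.1
  have hX : S.X t ∈ S.K := S.req t ht
  have b1 : e (S.lam t g) < e (S.X t) :=
    he.1 _ _ (S.lam_mem t ht.le g hg.2.1) (Or.inr hX) hg.2.2.2
  have b2 : e (S.X t) < e p := he.1 _ _ (Or.inr hX) (Or.inr hp.1.2.1) hx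
  have b3 : e p < e g := he.1 _ _ (Or.inr hp.1.2.1) (Or.inr hg.2.1) h1
  have key := link_lemma b1 b2 b3 i1.2.1
  unfold Dr lev
  rw [hp.2, h4, h2, h3, hl, h5]
  rcases key with k | k | k
  · exact Or.inl ⟨hp.1, k⟩
  · exact Or.inr (Or.inl ⟨hg, k⟩)
  · exact Or.inr (Or.inr k)

/-- The number of drops. -/
theorem drops (he : Emb S e H) : S.cnt (S.Dr e) ≤ MM H * S.QR := by
  classical
  have hc : (Finset.Icc (-1 - (Nat.log 2 H : ℤ)) (Nat.log 2 H : ℤ) ×ˢ S.set S.RS).card
      = MM H * S.QR := by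
    rw [Finset.card_product, Int.card_Icc]
    unfold MM QR cnt
    congr 1
    omega
  rw [← hc]
  have hex : ∀ t v, S.Dr e t v → ∃ s, S.RP s t v := fun t v h => exists_RP h.1
  choose! f hf using hex
  apply cnt_le_of_inj _ (fun t v => (S.lev e t v, (f t v, v)))
  · intro t v ht hv h
    have h1 := hf t v h
    simp only [Finset.mem_product, Finset.mem_Icc, mem_set]
    exact ⟨lev_range he ht.le hv, lt_of_le_of_lt h1.1 ht, hv, h1.2.1⟩
  · intro t v t' v' ht hv h ht' hv' h' heq
    simp only [Prod.mk.injEq] at heq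
    obtain ⟨e1, e2, e3⟩ := heq
    subst e3
    refine ⟨?_, rfl⟩
    have key : ∀ a b, a < S.m → b < S.m → S.Dr e a v → S.Dr e b v → f a v = f b v →
        S.lev e a v = S.lev e b v → ¬ a < b := by
      intro a b ha hb hda hdb hf1 hl hab
      have r1 := hf a v hda
      have r2 := hf b v hdb
      rw [← hf1] at r2
      have h3 := lev_mono (s := a + 1) (t := b) he hv (by omega) hb.le
        (fun c hc1 hc2 hc3 => r2.2.2.2 c (by have := r1.1; omega) (by omega) hc3)
      have h4 := hda.2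
      omega
    have k1 := key t t' ht ht' h h' e2 e1
    have k2 := key t' t ht' ht h' h e2.symm e1.symm
    omega

end Sys

end Pool.Agent.SplLog
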