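import Pool.Agent.SplLog.Tree

set_option autoImplicit false

/-!
# The line lemma

`tp y b t` is the shallowest key of the tree `t` in the interval `[y, b]`.
-/

namespace Pool.Agent.SplLog

open BinaryTree Pool.Agent.MP_c42954_lc.Scan Pool.Agent.SplPat

/-- The shallowest key in `[y, b]`. -/
def tp (y b : ℕ) : BinaryTree ℕ → ℕ
  | .nil => 0
  | .node a l r => if a < y then tp y b r else if b < a then tp y b l else a

/-- The nodes of the search path of `x`, including `x`. -/
def pth (x : ℕ) : BinaryTree ℕ → Finset ℕ
  | .nil => ∅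
  | .node a l r => if x = a then {a} else if x < a then insert a (pth x l) else insert a (pth x r)

theorem card_pth (x : ℕ) : ∀ t : BinaryTree ℕ, (pth x t).card ≤ depth x t + 1
  | .nil => by simp [pth]
  | .node a l r => by
    unfold pth depth
    split_ifs
    · simp
    · exact (Finset.card_insert_le _ _).trans (by have := card_pth x l; omega)
    · exact (Finset.card_insert_le _ _).trans (by have := card_pth x r; omega)

/-- The largest smaller ancestor of the shallowest key of `[l, b]`. -/
theorem tp_lm {l b : ℕ} (hlb : l ≤ b) : ∀ {t : BinaryTree ℕ} {lo : ℕ}, IsBST t →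
    b ∈ inorder t → (∀ v ∈ inorder t, lo < v) → lo < l →
    tp l b t ∈ pth b t ∧ lo ≤ lm (tp l b t) t lo ∧ lm (tp l b t) t lo < l ∧ l ≤ tp l b t ∧
      tp l b t ≤ b
  | .nil, _, _, h, _, _ => by simp [inorder] at h
  | .node a L R, lo, hb, hm, hlo, hl => by
    obtain ⟨h1, h2, h3, h4⟩ := bst_node.1 hb
    have ha : lo < a := hlo a (by simp [inorder])
    rcases lt_or_ge a l with c1 | c1
    · have hR : b ∈ inorder R := by
        rcases mem_node.1 hm with h | h | h
        · have := h3 b h
          omega
        · omega
        · exact h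
      obtain ⟨d1, d2, d3, d4, d5⟩ := tp_lm hlb (t := R) (lo := a) h2 hR h4 c1
      have e : tp l b (.node a L R) = tp l b R := by simp [tp, c1]
      rw [e, lm_gt (by omega)]
      refine ⟨?_, by omega, d3, d4, d5⟩
      have h5 : ¬ b = a := by omega
      have h6 : ¬ b < a := by omega
      simp only [pth, h5, h6, if_false]
      exact Finset.mem_insert_of_mem d1
    · rcases lt_or_ge b a with c2 | c2
      · have hL : b ∈ inorder L := by
          rcases mem_node.1 hm with h | h | h
          · exact h
          · omega
          · have := h4 b h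
            omega
        obtain ⟨d1, d2, d3, d4, d5⟩ := tp_lm hlb (t := L) (lo := lo) h1 hL
          (fun v hv => hlo v (by simp [inorder, hv])) hl
        have e : tp l b (.node a L R) = tp l b L := by simp [tp, not_lt.mpr c1, c2]
        rw [e, lm_lt (by omega)]
        refine ⟨?_, d2, d3, d4, d5⟩
        have h5 : ¬ b = a := by omega
        simp only [pth, h5, c2, if_false, if_true]
        exact Finset.mem_insert_of_mem d1
      · have e : tp l b (.node a L R) = a := by simp [tp, not_lt.mpr c1, not_lt.mpr c2]
        rw [e, lm_self]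
        refine ⟨?_, le_rfl, hl, c1, c2⟩
        unfold pth
        split_ifs <;> simp

/-- The smallest larger ancestor of the shallowest key of `[y, l)`. -/
theorem tp_rh {y l : ℕ} (hyl : y < l) : ∀ {t : BinaryTree ℕ} {hi : ℕ}, IsBST t →
    y ∈ inorder t → (∀ v ∈ inorder t, v < hi) → l ≤ hi →
    tp y (l - 1) t ∈ pth y t ∧ rh (tp y (l - 1) t) t hi ≤ hi ∧ l ≤ rh (tp y (l - 1) t) t hi ∧
      tp y (l - 1) t < l ∧ y ≤ tp y (l - 1) t
  | .nil, _, _, h, _, _ => by simp [inorder] at h
  | .node a L R, hi, hb, hm, hhi, hl => by
    obtain ⟨h1, h2, h3, h4⟩ := bst_node.1 hb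
    have ha : a < hi := hhi a (by simp [inorder])
    rcases lt_or_ge a y with c1 | c1
    · have hR : y ∈ inorder R := by
        rcases mem_node.1 hm with h | h | h
        · have := h3 y h
          omega
        · omega
        · exact h
      obtain ⟨d1, d2, d3, d4, d5⟩ := tp_rh hyl (t := R) (hi := hi) h2 hR
        (fun v hv => hhi v (by simp [inorder, hv])) hl
      have e : tp y (l - 1) (.node a L R) = tp y (l - 1) R := by simp [tp, c1]
      rw [e, rh_gt (by omega)]
      refine ⟨?_, d2, d3, d4, d5⟩
      have h5 : ¬ y = a := by omega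
      have h6 : ¬ y < a := by omega
      simp only [pth, h5, h6, if_false]
      exact Finset.mem_insert_of_mem d1
    · rcases lt_or_ge (l - 1) a with c2 | c2
      · have hL : y ∈ inorder L := by
          rcases mem_node.1 hm with h | h | h
          · exact h
          · omega
          · have := h4 y h
            omega
        obtain ⟨d1, d2, d3, d4, d5⟩ := tp_rh hyl (t := L) (hi := a) h1 hL h3 (by omega)
        have e : tp y (l - 1) (.node a L R) = tp y (l - 1) L := by
          simp [tp, not_lt.mpr c1, c2]
        rw [e, rh_lt (by omega)]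
        refine ⟨?_, by omega, d3, d4, d5⟩
        have h5 : ¬ y = a := by omega
        have h6 : y < a := by omega
        simp only [pth, h5, h6, if_false, if_true]
        exact Finset.mem_insert_of_mem d1
      · have e : tp y (l - 1) (.node a L R) = a := by
          simp [tp, not_lt.mpr c1, not_lt.mpr c2]
        rw [e, rh_self]
        refine ⟨?_, le_rfl, hl, by omega, c1⟩
        unfold pth
        split_ifs <;> simp

/-- Case 1: the shallowest key of `[y, b]` is `< l`. -/
theorem tp_left {y l b : ℕ} (hyl : y < l) (hlb : l ≤ b) : ∀ {t : BinaryTree ℕ} {lo : ℕ},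
    IsBST t → b ∈ inorder t → tp y b t < l →
    tp l b t ∈ pth b t ∧ y ≤ lm (tp l b t) t lo ∧ lm (tp l b t) t lo < l ∧ l ≤ tp l b t ∧
      tp l b t ≤ b
  | .nil, _, _, h, _ => by simp [inorder] at h
  | .node a L R, lo, hb, hm, ht => by
    obtain ⟨h1, h2, h3, h4⟩ := bst_node.1 hb
    rcases lt_or_ge a y with c1 | c1
    · have hR : b ∈ inorder R := by
        rcases mem_node.1 hm with h | h | h
        · have := h3 b h
          omega
        · omega
        · exact h
      have e0 : tp y b (.node a L R) = tp y b R := by simp [tp, c1]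
      rw [e0] at ht
      obtain ⟨d1, d2, d3, d4, d5⟩ := tp_left hyl hlb (t := R) (lo := a) h2 hR ht
      have e : tp l b (.node a L R) = tp l b R := by simp [tp, c1.trans hyl]
      rw [e, lm_gt (by omega)]
      refine ⟨?_, d2, d3, d4, d5⟩
      have h5 : ¬ b = a := by omega
      have h6 : ¬ b < a := by omega
      simp only [pth, h5, h6, if_false]
      exact Finset.mem_insert_of_mem d1
    · rcases lt_or_ge b a with c2 | c2
      · have hL : b ∈ inorder L := by
          rcases mem_node.1 hm with h | h | h
          · exact h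
          · omega
          · have := h4 b h
            omega
        have e0 : tp y b (.node a L R) = tp y b L := by simp [tp, not_lt.mpr c1, c2]
        rw [e0] at ht
        obtain ⟨d1, d2, d3, d4, d5⟩ := tp_left hyl hlb (t := L) (lo := lo) h1 hL ht
        have c3 : ¬ a < l := by omega
        have e : tp l b (.node a L R) = tp l b L := by simp [tp, c3, c2]
        rw [e, lm_lt (by omega)]
        refine ⟨?_, d2, d3, d4, d5⟩
        have h5 : ¬ b = a := by omega
        simp only [pth, h5, c2, if_false, if_true]
        exact Finset.mem_insert_of_mem d1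
      · have e0 : tp y b (.node a L R) = a := by simp [tp, not_lt.mpr c1, not_lt.mpr c2]
        rw [e0] at ht
        have hR : b ∈ inorder R := by
          rcases mem_node.1 hm with h | h | h
          · have := h3 b h
            omega
          · omega
          · exact h
        obtain ⟨d1, d2, d3, d4, d5⟩ := tp_lm hlb (t := R) (lo := a) h2 hR h4 ht
        have e : tp l b (.node a L R) = tp l b R := by simp [tp, ht]
        rw [e, lm_gt (by omega)]
        refine ⟨?_, by omega, d3, d4, d5⟩
        have h5 : ¬ b = a := by omega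
        have h6 : ¬ b < a := by omega
        simp only [pth, h5, h6, if_false]
        exact Finset.mem_insert_of_mem d1

/-- Case 2: the shallowest key of `[y, b]` is `≥ l`. -/
theorem tp_right {y l b : ℕ} (hyl : y < l) (hlb : l ≤ b) : ∀ {t : BinaryTree ℕ} {hi : ℕ},
    IsBST t → y ∈ inorder t → l ≤ tp y b t →
    tp y (l - 1) t ∈ pth y t ∧ rh (tp y (l - 1) t) t hi ≤ b ∧ l ≤ rh (tp y (l - 1) t) t hi ∧
      tp y (l - 1) t < l ∧ y ≤ tp y (l - 1) t
  | .nil, _, _, h, _ => by simp [inorder] at h
  | .node a L R, hi, hb, hm, ht => by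
    obtain ⟨h1, h2, h3, h4⟩ := bst_node.1 hb
    rcases lt_or_ge a y with c1 | c1
    · have hR : y ∈ inorder R := by
        rcases mem_node.1 hm with h | h | h
        · have := h3 y h
          omega
        · omega
        · exact h
      have e0 : tp y b (.node a L R) = tp y b R := by simp [tp, c1]
      rw [e0] at ht
      obtain ⟨d1, d2, d3, d4, d5⟩ := tp_right hyl hlb (t := R) (hi := hi) h2 hR ht
      have e : tp y (l - 1) (.node a L R) = tp y (l - 1) R := by simp [tp, c1]
      rw [e, rh_gt (by omega)]
      refine ⟨?_, d2, d3, d4, d5⟩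
      have h5 : ¬ y = a := by omega
      have h6 : ¬ y < a := by omega
      simp only [pth, h5, h6, if_false]
      exact Finset.mem_insert_of_mem d1
    · rcases lt_or_ge b a with c2 | c2
      · have hL : y ∈ inorder L := by
          rcases mem_node.1 hm with h | h | h
          · exact h
          · omega
          · have := h4 y h
            omega
        have e0 : tp y b (.node a L R) = tp y b L := by simp [tp, not_lt.mpr c1, c2]
        rw [e0] at ht
        obtain ⟨d1, d2, d3, d4, d5⟩ := tp_right hyl hlb (t := L) (hi := a) h1 hL ht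
        have c3 : l - 1 < a := by omega
        have e : tp y (l - 1) (.node a L R) = tp y (l - 1) L := by
          simp [tp, not_lt.mpr c1, c3]
        rw [e, rh_lt (by omega)]
        refine ⟨?_, d2, d3, d4, d5⟩
        have h5 : ¬ y = a := by omega
        have h6 : y < a := by omega
        simp only [pth, h5, h6, if_false, if_true]
        exact Finset.mem_insert_of_mem d1
      · have e0 : tp y b (.node a L R) = a := by simp [tp, not_lt.mpr c1, not_lt.mpr c2]
        rw [e0] at ht
        have hL : y ∈ inorder L := by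
          rcases mem_node.1 hm with h | h | h
          · exact h
          · omega
          · have := h4 y h
            omega
        obtain ⟨d1, d2, d3, d4, d5⟩ := tp_rh hyl (t := L) (hi := a) h1 hL h3 ht
        have c3 : l - 1 < a := by omega
        have e : tp y (l - 1) (.node a L R) = tp y (l - 1) L := by
          simp [tp, not_lt.mpr c1, c3]
        rw [e, rh_lt (by omega)]
        refine ⟨?_, by omega, d3, d4, d5⟩
        have h5 : ¬ y = a := by omega
        have h6 : y < a := by omega
        simp only [pth, h5, h6, if_false, if_true]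
        exact Finset.mem_insert_of_mem d1

theorem tp_mem {y b : ℕ} (hyb : y ≤ b) : ∀ {t : BinaryTree ℕ}, IsBST t → y ∈ inorder t →
    y ≤ tp y b t ∧ tp y b t ≤ b
  | .nil, _, h => by simp [inorder] at h
  | .node a L R, hb, hm => by
    obtain ⟨h1, h2, h3, h4⟩ := bst_node.1 hb
    unfold tp
    split_ifs with c1 c2
    · rcases mem_node.1 hm with h | h | h
      · have := h3 y h
        omega
      · omega
      · exact tp_mem hyb h2 h
    · rcases mem_node.1 hm with h | h | h
      · exact tp_mem hyb h1 h
      · omega
      · have := h4 y h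
        omega
    · omega

/-- A rotation changes the shallowest key of an interval from the upper node to the lower node of
the rotation. -/
theorem tp_rot {t t' : BinaryTree ℕ} (h : Rot t t') : IsBST t → ∃ p c, ∀ y b, y ≤ b →
    tp y b t = tp y b t' ∨ (tp y b t = p ∧ tp y b t' = c) := by
  induction h with
  | atLeftChild a b A B C =>
    intro hb
    have hba : b < a := (bst_node.1 hb).2.2.1 b (by simp [inorder])
    refine ⟨a, b, fun y z hyz => ?_⟩
    simp only [tp]
    split_ifs <;> omega
  | atRightChild a b A B C =>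
    intro hb
    have hab : a < b := (bst_node.1 hb).2.2.2 b (by simp [inorder])
    refine ⟨a, b, fun y z hyz => ?_⟩
    simp only [tp]
    split_ifs <;> omega
  | inLeft c r _ ih =>
    intro hb
    obtain ⟨p, q, hpq⟩ := ih (bst_node.1 hb).1
    refine ⟨p, q, fun y z hyz => ?_⟩
    simp only [tp]
    split_ifs
    · exact Or.inl rfl
    · exact hpq y z hyz
    · exact Or.inl rfl
  | inRight c l _ ih =>
    intro hb
    obtain ⟨p, q, hpq⟩ := ih (bst_node.1 hb).2.1
    refine ⟨p, q, fun y z hyz => ?_⟩
    simp only [tp]
    split_ifs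
    · exact hpq y z hyz
    · exact Or.inl rfl
    · exact Or.inl rfl

theorem rot_io {t t' : BinaryTree ℕ} (h : Rot t t') : inorder t' = inorder t := by
  induction h with
  | atLeftChild a b A B C => simp [inorder]
  | atRightChild a b A B C => simp [inorder]
  | inLeft c r _ ih => simp [inorder, ih]
  | inRight c l _ ih => simp [inorder, ih]

/-- An execution as a sequence of trees `V 0, V 1, ...`, each one a rotation away from the previous
one; the request `i` is served in `V (pos i)`. -/
structure Tml (T : BinaryTree ℕ) (X : List ℕ) (c : ℕ) (V : ℕ → BinaryTree ℕ) (pos : ℕ → ℕ) :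
    Prop where
  zero : pos 0 = 0
  zero' : V 0 = T
  mono : ∀ i, i < X.length → pos i ≤ pos (i + 1)
  rot : ∀ k, k < pos X.length → Rot (V k) (V (k + 1))
  cost : c = ∑ i ∈ Finset.range X.length, (1 + depth (X.getD i 0) (V (pos i))) + pos X.length

theorem rs_seq {e : ℕ} {t u : BinaryTree ℕ} (h : RotSeq e t u) :
    ∃ f : ℕ → BinaryTree ℕ, f 0 = t ∧ f e = u ∧ ∀ j < e, Rot (f j) (f (j + 1)) := by
  induction h with
  | refl t => exact ⟨fun _ => t, rfl, rfl, fun j hj => by omega⟩
  | @step e t u v h1 _ ih =>
    obtain ⟨f, hf0, hfe, hf⟩ := ih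
    refine ⟨fun j => if j = 0 then t else f (j - 1), by simp, by simp [hfe], ?_⟩
    intro j hj
    rcases Nat.eq_zero_or_pos j with rfl | hj0
    · simpa [hf0] using h1
    · have h2 := hf (j - 1) (by omega)
      have e1 : j - 1 + 1 = j := by omega
      rw [e1] at h2
      have e2 : j ≠ 0 := by omega
      simpa [e2] using h2

theorem exec_tml {T : BinaryTree ℕ} {X : List ℕ} {c : ℕ} (h : Exec T X c) :
    ∃ V pos, Tml T X c V pos := by
  induction h with
  | nil T =>
    exact ⟨fun _ => T, fun _ => 0, rfl, rfl, fun i hi => by simp at hi,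
      fun k hk => by simp at hk, by simp⟩
  | @cons T T' x X e c h1 _ ih =>
    obtain ⟨V, pos, h2, h3, h4, h5, h6⟩ := ih
    obtain ⟨f, hf0, hfe, hf⟩ := rs_seq h1
    refine ⟨fun k => if k < e then f k else V (k - e), fun i => if i = 0 then 0 else e + pos (i - 1),
      by simp, ?_, ?_, ?_, ?_⟩
    · rcases Nat.eq_zero_or_pos e with rfl | he
      · simp only [Nat.lt_irrefl, if_false, Nat.sub_zero, h3]
        rw [← hfe, hf0]
      · simp [he, hf0]
    · intro i hi
      rcases Nat.eq_zero_or_pos i with rfl | hi0
      · simp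
      · have e2 : i ≠ 0 := by omega
        simp only [List.length_cons] at hi
        have := h4 (i - 1) (by omega)
        have e1 : i - 1 + 1 = i := by omega
        rw [e1] at this
        simp only [e2, if_false, Nat.succ_ne_zero, Nat.add_sub_cancel]
        omega
    · intro k hk
      simp only [List.length_cons, Nat.succ_ne_zero, if_false, Nat.add_sub_cancel] at hk
      rcases lt_trichotomy (k + 1) e with h | h | h
      · have h' : k < e := by omega
        simp only [h, h', if_true]
        exact hf k h'
      · have h' : k < e := by omega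
        have := hf k h'
        rw [h, hfe] at this
        simp only [h', if_true, h, Nat.lt_irrefl, if_false, Nat.sub_self, h3]
        exact this
      · have h' : ¬ k < e := by omega
        have h'' : ¬ k + 1 < e := by omega
        simp only [h', h'', if_false]
        have := h5 (k - e) (by omega)
        have e1 : k - e + 1 = k + 1 - e := by omega
        rwa [e1] at this
    · rw [List.length_cons, Finset.sum_range_succ']
      have e3 : ∀ i, i ∈ Finset.range X.length →
          (1 + depth ((x :: X).getD (i + 1) 0)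
            ((fun k => if k < e then f k else V (k - e))
              ((fun i => if i = 0 then 0 else e + pos (i - 1)) (i + 1)))) =
          1 + depth (X.getD i 0) (V (pos i)) := by
        intro i _
        have e4 : ¬ e + pos i < e := by omega
        simp only [Nat.succ_ne_zero, if_false, Nat.add_sub_cancel, e4, Nat.add_sub_cancel_left,
          List.getD_cons_succ]
      rw [Finset.sum_congr rfl e3]
      simp only [if_true, List.getD_cons_zero, Nat.succ_ne_zero, if_false, Nat.add_sub_cancel]
      have e5 : (if 0 < e then f 0 else V (0 - e)) = T := by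
        rcases Nat.eq_zero_or_pos e with rfl | he
        · simp only [Nat.lt_irrefl, if_false, Nat.sub_zero, h3]
          rw [← hfe, hf0]
        · simp [he, hf0]
      rw [e5]
      omega

namespace Tml

variable {T : BinaryTree ℕ} {X : List ℕ} {c : ℕ} {V : ℕ → BinaryTree ℕ} {pos : ℕ → ℕ}

theorem io (h : Tml T X c V pos) : ∀ k, k ≤ pos X.length → inorder (V k) = inorder T
  | 0, _ => by rw [h.zero']
  | k + 1, hk => by rw [rot_io (h.rot k (by omega)), h.io k (by omega)]

theorem bst (h : Tml T X c V pos) (hb : IsBST T) {k : ℕ} (hk : k ≤ pos X.length) :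
    IsBST (V k) := by
  unfold IsBST
  rw [h.io k hk]
  exact hb

theorem le (h : Tml T X c V pos) {i j : ℕ} (hij : i ≤ j) (hj : j ≤ X.length) :
    pos i ≤ pos j := by
  induction j, hij using Nat.le_induction with
  | base => exact le_rfl
  | succ j hij ih => exact (ih (by omega)).trans (h.mono j (by omega))

end Tml

/-- A change of a predicate along a sequence. -/
theorem exists_change {P : ℕ → Prop} {a b : ℕ} (hab : a ≤ b) (ha : P a) (hb : ¬ P b) :
    ∃ k, a ≤ k ∧ k < b ∧ P k ∧ ¬ P (k + 1) := by
  induction b, hab using Nat.le_induction with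
  | base => exact absurd ha hb
  | succ b hab ih =>
    by_cases h : P b
    · exact ⟨b, hab, by omega, h, hb⟩
    · obtain ⟨k, h1, h2, h3⟩ := ih h
      exact ⟨k, h1, by omega, h3⟩

/-- **The line lemma.**  An item `i` has a left key, requested at the time `p i`, a right key,
requested at the time `q i`, and a cut `l i` between them.  If any two items whose rectangles
contain the cut of each other have disjoint time intervals, then the number of the items is at most
twice the cost of any execution. -/
theorem line_lemma {T : BinaryTree ℕ} {X : List ℕ} {c : ℕ} (h : Exec T X c) (hb : IsBST T)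
    (hX : ∀ x ∈ X, x ∈ inorder T) {ι : Type*} (F : Finset ι) (p q l : ι → ℕ)
    (hp : ∀ i ∈ F, p i < X.length) (hq : ∀ i ∈ F, q i < X.length)
    (hl : ∀ i ∈ F, X.getD (p i) 0 < l i ∧ l i ≤ X.getD (q i) 0)
    (hc : ∀ i ∈ F, ∀ j ∈ F, i ≠ j → X.getD (p j) 0 < l i → l i ≤ X.getD (q j) 0 →
      X.getD (p i) 0 < l j → l j ≤ X.getD (q i) 0 →
      max (p i) (q i) < min (p j) (q j) ∨ max (p j) (q j) < min (p i) (q i)) :
    F.card ≤ 2 * c := by
  classical
  obtain ⟨V, pos, hV⟩ := exec_tml h
  have hmem : ∀ i, i < X.length → X.getD i 0 ∈ inorder T := by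
    intro i hi
    rw [List.getD_eq_getElem _ _ hi]
    exact hX _ (List.getElem_mem hi)
  have hle : ∀ i, i < X.length → pos i ≤ pos X.length := fun i hi => hV.le hi.le le_rfl
  have hbst : ∀ i, i < X.length → IsBST (V (pos i)) := fun i hi => hV.bst hb (hle i hi)
  have hin : ∀ i k, i < X.length → k ≤ pos X.length → X.getD i 0 ∈ inorder (V k) := by
    intro i k hi hk
    rw [hV.io k hk]
    exact hmem i hi
  let tpi : ι → ℕ → ℕ := fun i k => tp (X.getD (p i) 0) (X.getD (q i) 0) (V k)
  let F1 := F.filter fun i => tpi i (pos (q i)) < l i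
  let F2 := F.filter fun i => l i ≤ tpi i (pos (p i))
  let F3 := F.filter fun i => ∃ k, k < pos X.length ∧ min (pos (p i)) (pos (q i)) ≤ k ∧
    k < max (pos (p i)) (pos (q i)) ∧ ((tpi i k < l i ∧ l i ≤ tpi i (k + 1)) ∨
      (l i ≤ tpi i k ∧ tpi i (k + 1) < l i))
  have hcov : F ⊆ F1 ∪ (F2 ∪ F3) := by
    intro i hi
    by_cases h1 : tpi i (pos (q i)) < l i
    · exact Finset.mem_union_left _ (Finset.mem_filter.mpr ⟨hi, h1⟩)
    refine Finset.mem_union_right _ ?_
    by_cases h2 : l i ≤ tpi i (pos (p i))
    · exact Finset.mem_union_left _ (Finset.mem_filter.mpr ⟨hi, h2⟩)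
    refine Finset.mem_union_right _ (Finset.mem_filter.mpr ⟨hi, ?_⟩)
    have h3 := hle _ (hp i hi)
    have h4 := hle _ (hq i hi)
    rcases le_total (pos (p i)) (pos (q i)) with h5 | h5
    · obtain ⟨k, k1, k2, k3, k4⟩ := exists_change (P := fun k => tpi i k < l i) h5
        (by simpa using h2) h1
      exact ⟨k, by omega, by omega, by omega, Or.inl ⟨k3, by simpa using k4⟩⟩
    · obtain ⟨k, k1, k2, k3, k4⟩ := exists_change (P := fun k => l i ≤ tpi i k) h5
        (by simpa using h1) h2
      exact ⟨k, by omega, by omega, by omega, Or.inr ⟨k3, by simpa using k4⟩⟩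
  have c1 : F1.card ≤ ∑ i ∈ Finset.range X.length, (1 + depth (X.getD i 0) (V (pos i))) := by
    have e : ∑ i ∈ Finset.range X.length, (pth (X.getD i 0) (V (pos i))).card ≤
        ∑ i ∈ Finset.range X.length, (1 + depth (X.getD i 0) (V (pos i))) :=
      Finset.sum_le_sum fun i _ => (card_pth _ _).trans (by omega)
    refine le_trans ?_ e
    rw [← Finset.card_sigma]
    refine Finset.card_le_card_of_injOn (fun i => (⟨q i, tp (l i) (X.getD (q i) 0)
      (V (pos (q i)))⟩ : Σ _ : ℕ, ℕ)) ?_ ?_
    · intro i hi
      obtain ⟨h1, h2⟩ := Finset.mem_filter.mp (Finset.mem_coe.mp hi)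
      obtain ⟨d1, _⟩ := tp_left (lo := 0) (hl i h1).1 (hl i h1).2 (hbst _ (hq i h1))
        (hin _ _ (hq i h1) (hle _ (hq i h1))) h2
      exact Finset.mem_coe.mpr (Finset.mem_sigma.mpr ⟨Finset.mem_range.mpr (hq i h1), d1⟩)
    · intro i hi j hj hij
      by_contra hne
      obtain ⟨h1, h2⟩ := Finset.mem_filter.mp (Finset.mem_coe.mp hi)
      obtain ⟨h1', h2'⟩ := Finset.mem_filter.mp (Finset.mem_coe.mp hj)
      obtain ⟨_, d2, d3, d4, d5⟩ := tp_left (lo := 0) (hl i h1).1 (hl i h1).2
        (hbst _ (hq i h1)) (hin _ _ (hq i h1) (hle _ (hq i h1))) h2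
      obtain ⟨_, d2', d3', d4', d5'⟩ := tp_left (lo := 0) (hl j h1').1 (hl j h1').2
        (hbst _ (hq j h1')) (hin _ _ (hq j h1') (hle _ (hq j h1'))) h2'
      simp only [Sigma.mk.injEq, heq_eq_eq] at hij
      obtain ⟨e1, e2⟩ := hij
      rw [e1] at d2 d3 d4 d5 e2
      rw [e2] at d2 d3 d4
      rw [e2] at d5
      have := hc i h1 j h1' hne (by omega) (by omega) (by omega) (by rw [e1]; omega)
      omega
  have c2 : F2.card ≤ ∑ i ∈ Finset.range X.length, (1 + depth (X.getD i 0) (V (pos i))) := by
    have e : ∑ i ∈ Finset.range X.length, (pth (X.getD i 0) (V (pos i))).card ≤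
        ∑ i ∈ Finset.range X.length, (1 + depth (X.getD i 0) (V (pos i))) :=
      Finset.sum_le_sum fun i _ => (card_pth _ _).trans (by omega)
    refine le_trans ?_ e
    rw [← Finset.card_sigma]
    refine Finset.card_le_card_of_injOn (fun i => (⟨p i, tp (X.getD (p i) 0) (l i - 1)
      (V (pos (p i)))⟩ : Σ _ : ℕ, ℕ)) ?_ ?_
    · intro i hi
      obtain ⟨h1, h2⟩ := Finset.mem_filter.mp (Finset.mem_coe.mp hi)
      obtain ⟨d1, _⟩ := tp_right (hi := 0) (hl i h1).1 (hl i h1).2 (hbst _ (hp i h1))
        (hin _ _ (hp i h1) (hle _ (hp i h1))) h2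
      exact Finset.mem_coe.mpr (Finset.mem_sigma.mpr ⟨Finset.mem_range.mpr (hp i h1), d1⟩)
    · intro i hi j hj hij
      by_contra hne
      obtain ⟨h1, h2⟩ := Finset.mem_filter.mp (Finset.mem_coe.mp hi)
      obtain ⟨h1', h2'⟩ := Finset.mem_filter.mp (Finset.mem_coe.mp hj)
      obtain ⟨_, d2, d3, d4, d5⟩ := tp_right (hi := 0) (hl i h1).1 (hl i h1).2
        (hbst _ (hp i h1)) (hin _ _ (hp i h1) (hle _ (hp i h1))) h2
      obtain ⟨_, d2', d3', d4', d5'⟩ := tp_right (hi := 0) (hl j h1').1 (hl j h1').2
        (hbst _ (hp j h1')) (hin _ _ (hp j h1') (hle _ (hp j h1'))) h2'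
      simp only [Sigma.mk.injEq, heq_eq_eq] at hij
      obtain ⟨e1, e2⟩ := hij
      rw [e1] at d2 d3 d4 d5 e2
      rw [e2] at d2 d3 d4 d5
      have := hc i h1 j h1' hne (by omega) (by omega) (by rw [e1]; omega) (by omega)
      omega
  have c3 : F3.card ≤ pos X.length := by
    have e : F3.card ≤ (Finset.range (pos X.length)).card := by
      refine Finset.card_le_card_of_forall_subsingleton (fun i k =>
        k < pos X.length ∧ min (pos (p i)) (pos (q i)) ≤ k ∧
        k < max (pos (p i)) (pos (q i)) ∧ ((tpi i k < l i ∧ l i ≤ tpi i (k + 1)) ∨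
          (l i ≤ tpi i k ∧ tpi i (k + 1) < l i))) ?_ ?_
      · intro i hi
        obtain ⟨_, k, hk⟩ := Finset.mem_filter.mp hi
        exact ⟨k, Finset.mem_range.mpr hk.1, hk⟩
      · intro k hk i hi j hj
        by_contra hne
        obtain ⟨hi1, hk1, hi2, hi3, hi4⟩ := hi
        obtain ⟨hj1, _, hj2, hj3, hj4⟩ := hj
        have h1 := (Finset.mem_filter.mp hi1).1
        have h1' := (Finset.mem_filter.mp hj1).1
        obtain ⟨P, C, hPC⟩ := tp_rot (hV.rot k hk1) (hV.bst hb hk1.le)
        have a1 := (hl i h1).1
        have a2 := (hl i h1).2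
        have a1' := (hl j h1').1
        have a2' := (hl j h1').2
        have b1 := tp_mem (a1.le.trans a2) (hV.bst hb hk1.le) (hin _ k (hp i h1) hk1.le)
        have b2 := tp_mem (a1.le.trans a2) (hV.bst hb (k := k + 1) hk1) (hin _ (k + 1) (hp i h1)
          hk1)
        have b1' := tp_mem (a1'.le.trans a2') (hV.bst hb hk1.le) (hin _ k (hp j h1') hk1.le)
        have b2' := tp_mem (a1'.le.trans a2') (hV.bst hb (k := k + 1) hk1)
          (hin _ (k + 1) (hp j h1') hk1)
        have f1 : tpi i k = P ∧ tpi i (k + 1) = C := by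
          rcases hPC _ _ (a1.le.trans a2) with h | h
          · have : tpi i k = tpi i (k + 1) := h
            omega
          · exact h
        have f2 : tpi j k = P ∧ tpi j (k + 1) = C := by
          rcases hPC _ _ (a1'.le.trans a2') with h | h
          · have : tpi j k = tpi j (k + 1) := h
            omega
          · exact h
        change _ ≤ tpi i k ∧ tpi i k ≤ _ at b1
        change _ ≤ tpi i (k + 1) ∧ tpi i (k + 1) ≤ _ at b2
        change _ ≤ tpi j k ∧ tpi j k ≤ _ at b1'
        change _ ≤ tpi j (k + 1) ∧ tpi j (k + 1) ≤ _ at b2'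
        have m1 : ∀ i j, i ∈ F → j ∈ F → max (p i) (q i) < min (p j) (q j) →
            max (pos (p i)) (pos (q i)) ≤ min (pos (p j)) (pos (q j)) := by
          intro i j hi hj hlt
          have e1 : p i ≤ p j := by omega
          have e2 : p i ≤ q j := by omega
          have e3 : q i ≤ p j := by omega
          have e4 : q i ≤ q j := by omega
          exact max_le (le_min (hV.le e1 (hp j hj).le) (hV.le e2 (hq j hj).le))
            (le_min (hV.le e3 (hp j hj).le) (hV.le e4 (hq j hj).le))
        rcases hc i h1 j h1' hne (by omega) (by omega) (by omega) (by omega) with h | h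
        · have := m1 i j h1 h1' h
          omega
        · have := m1 j i h1' h1 h
          omega
    rwa [Finset.card_range] at e
  have d1 := Finset.card_le_card hcov
  have d2 := Finset.card_union_le F1 (F2 ∪ F3)
  have d3 := Finset.card_union_le F2 F3
  have d4 := hV.cost
  omega

/-- The line lemma for requests given by a function.  The cut `k i` lies between the keys `k i` and
`k i + 1`; `p i` is the time of the left key (`≤ k i`), `q i` the time of the right key
(`> k i`); both orders of `p i` and `q i` are allowed. -/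
theorem line_fun {T : BinaryTree ℕ} {X : ℕ → ℕ} {m c : ℕ} (h : Exec T ((List.range m).map X) c)
    (hb : IsBST T) (hX : ∀ t, t < m → X t ∈ inorder T) {ι : Type*} (F : Finset ι)
    (p q k : ι → ℕ) (hp : ∀ i ∈ F, p i < m) (hq : ∀ i ∈ F, q i < m)
    (hl : ∀ i ∈ F, X (p i) ≤ k i ∧ k i < X (q i))
    (hc : ∀ i ∈ F, ∀ j ∈ F, i ≠ j → X (p j) ≤ k i → k i < X (q j) → X (p i) ≤ k j →
      k j < X (q i) → max (p i) (q i) < min (p j) (q j) ∨ max (p j) (q j) < min (p i) (q i)) :
    F.card ≤ 2 * c := by
  have hg : ∀ t, t < m → ((List.range m).map X).getD t 0 = X t := by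
    intro t ht
    rw [List.getD_eq_getElem _ _ (by simpa using ht)]
    simp
  refine line_lemma h hb ?_ F p q (fun i => k i + 1) (fun i hi => by simpa using hp i hi)
    (fun i hi => by simpa using hq i hi) ?_ ?_
  · intro x hx
    obtain ⟨t, ht, rfl⟩ := List.mem_map.1 hx
    exact hX t (List.mem_range.1 ht)
  · intro i hi
    rw [hg _ (hp i hi), hg _ (hq i hi)]
    have := hl i hi
    omega
  · intro i hi j hj hij
    rw [hg _ (hp i hi), hg _ (hq i hi), hg _ (hp j hj), hg _ (hq j hj)]
    intro h1 h2 h3 h4
    exact hc i hi j hj hij (by omega) (by omega) (by omega) (by omega)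

end Pool.Agent.SplLog
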