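import Pool.Agent.SplLog.Final

set_option autoImplicit false

/-!
# The cost is at least half of the number of changes of direction, requests and touched keys
-/

namespace Pool.Agent.SplLog

open BinaryTree Pool.Agent.MP_c42954_lc.Scan

section

variable {T : BinaryTree ℕ} {X : ℕ → ℕ} {m top : ℕ}

/-- The touches on either side are counted by the depths. -/
theorem run_touches (hb : IsBST T) (hX : ∀ t, t < m → X t ∈ inorder T) (hB : Bd 0 top T) :
    (sysOf T X m top hb hX hB).cnt (fun t v => (sysOf T X m top hb hX hB).L t v ∨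
      (sysOf T X m top hb hX hB).R t v) ≤ ∑ t ∈ Finset.range m, depth (X t) (tr T X t) := by
  classical
  set S := sysOf T X m top hb hX hB with hS
  rw [S.cnt_eq_sum _ (fun t => S.K.filter (fun v => S.L t v ∨ S.R t v))
    (fun t _ v => Finset.mem_filter)]
  apply Finset.sum_le_sum
  intro t ht
  have htm : t < m := Finset.mem_range.1 ht
  obtain ⟨h1, h2⟩ := tr_inv hb hX t htm.le
  have h3 : Bd 0 top (tr T X t) := by
    intro w hw
    rw [h2] at hw
    exact hB w hw
  have h5 : X t ∈ inorder (tr T X t) := by
    rw [h2]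
    exact hX t htm
  have h6 : S.K.filter (fun v => S.L t v ∨ S.R t v) ⊆ (ancs (X t) (tr T X t)).toFinset := by
    intro v hv
    obtain ⟨hvK, hv2⟩ := Finset.mem_filter.1 hv
    have hE : S.E t v := by
      rcases hv2 with h | h
      · exact Or.inr (Or.inl h)
      · exact Or.inl h
    have h4 : v ∈ inorder (tr T X t) := by
      rw [h2]
      exact List.mem_toFinset.1 hvK
    have h7 : v ≠ X t := by
      rcases hv2 with h | h
      · have := h.2.2.1
        exact Nat.ne_of_lt this
      · have := h.2.2.1
        exact Nat.ne_of_gt this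
    exact List.mem_toFinset.2
      ((mem_ancs h1 h5).2 ⟨(onP_iff h1 h3 h4 h5).2 (Sys.E_int hE), h7⟩)
  calc _ ≤ (ancs (X t) (tr T X t)).toFinset.card := Finset.card_le_card h6
    _ ≤ (ancs (X t) (tr T X t)).length := List.toFinset_card_le _
    _ = depth (X t) (tr T X t) := ancs_length _ _

namespace Sys

theorem turns_le (S : Sys) : S.DL + S.DR ≤ S.cnt (fun t v => S.L t v ∨ S.R t v) := by
  classical
  have h1 : S.set S.TuL ∪ S.set S.TuR ⊆ S.set (fun t v => S.L t v ∨ S.R t v) := by
    intro q hq
    rw [Finset.mem_union, mem_set, mem_set] at hq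
    rw [mem_set]
    rcases hq with hq | hq
    · exact ⟨hq.1, hq.2.1, Or.inl hq.2.2.1⟩
    · exact ⟨hq.1, hq.2.1, Or.inr hq.2.2.1⟩
  have h2 : Disjoint (S.set S.TuL) (S.set S.TuR) := by
    rw [Finset.disjoint_left]
    intro q hq hq'
    rw [mem_set] at hq hq'
    exact not_R_L hq'.2.2.1 hq.2.2.1
  have h3 := Finset.card_le_card h1
  rw [Finset.card_union_of_disjoint h2] at h3
  exact h3

theorem keys_le (S : Sys) : S.KE.card ≤ S.cnt (fun t v => S.L t v ∨ S.R t v) + S.m := by
  classical
  have h1 : S.KE ⊆ (S.set (fun t v => S.L t v ∨ S.R t v)).image Prod.snd ∪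
      (Finset.range S.m).image S.X := by
    intro v hv
    unfold KE at hv
    obtain ⟨hvK, t, hE⟩ := Finset.mem_filter.1 hv
    rw [Finset.mem_union, Finset.mem_image, Finset.mem_image]
    rcases hE with h | h | h
    · exact Or.inl ⟨(t, v), mem_set.2 ⟨h.1, hvK, Or.inr h⟩, rfl⟩
    · exact Or.inl ⟨(t, v), mem_set.2 ⟨h.1, hvK, Or.inl h⟩, rfl⟩
    · exact Or.inr ⟨t, Finset.mem_range.2 h.1, h.2.2.symm⟩
  refine (Finset.card_le_card h1).trans ((Finset.card_union_le _ _).trans ?_)
  refine Nat.add_le_add Finset.card_image_le (Finset.card_image_le.trans ?_)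
  simp

end Sys

end

/-- The cost of splaying is at least half of the number of changes of direction, requests and
touched keys. -/
theorem lower {n : ℕ} {T : BinaryTree ℕ} {X : List ℕ} (hT : inorder T = List.range' 1 n)
    (hX : ∀ x ∈ X, x ∈ inorder T) :
    (runData n T X).turns + X.length + (runData n T X).touchedKeys ≤ 2 * splayCost X T := by
  have hb := bst_of_range hT
  have hX' := getD_mem hX
  have hB := bd_of_range hT
  have h1 := run_touches (X := fun t => X.getD t 0) hb hX' hB
  have h2 := (sysOf T (fun t => X.getD t 0) X.length (n + 1) hb hX' hB).turns_le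
  have h3 := (sysOf T (fun t => X.getD t 0) X.length (n + 1) hb hX' hB).keys_le
  change (runData n T X).turns ≤ _ at h2
  change (runData n T X).touchedKeys ≤ _ + X.length at h3
  rw [cost_eq X T]
  omega

end Pool.Agent.SplLog
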