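import Pool.Agent.SplLog.Reg
import Pool.Agent.SplLog.Len
import Pool.Agent.SplLog.Inner
import Pool.Agent.SplLog.Class
import Pool.Agent.SplLog.CrossAB
import Pool.Agent.SplLog.CrossF

set_option autoImplicit false

namespace Pool.Agent.SplLog

namespace Sys

variable {S : Sys} {e : ℕ → ℕ} {H : ℕ}

private theorem ONE_union {P Q R : ℕ → ℕ → Prop} (h : ∀ t v, P t v → Q t v ∨ R t v) :
    S.cnt P ≤ S.cnt Q + S.cnt R := by
  classical
  have h1 : S.set P ⊆ S.set Q ∪ S.set R := by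
    intro q hq
    obtain ⟨a1, a2, a3⟩ := mem_set.1 hq
    rw [Finset.mem_union]
    rcases h _ _ a3 with h4 | h4
    · exact Or.inl (mem_set.2 ⟨a1, a2, h4⟩)
    · exact Or.inr (mem_set.2 ⟨a1, a2, h4⟩)
  exact le_trans (Finset.card_le_card h1) (Finset.card_union_le _ _)

/-- All irregular kills. -/
theorem irr_count (he : Emb S e H) (J : ℕ) : S.cnt (S.Irr e) ≤
    S.cnt S.FK + S.cnt (S.Big J) + 2 * J * S.cnt (S.Dr e) + J * (S.m + S.CR) + J * S.m +
      J * S.frs.card := by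
  have k1 := inner_count he J
  have k2 := ca_count (S := S) J
  have k3 := cb_count (S := S) J
  have k4 := cf_count (S := S) J
  have c1 : S.cnt (S.Irr e) ≤ S.cnt S.FK + S.cnt (fun t g => S.Irr e t g ∧ ¬ S.FK t g) := by
    apply ONE_union
    intro t g h
    by_cases h1 : S.FK t g
    · exact Or.inl h1
    · exact Or.inr ⟨h, h1⟩
  have c2 : S.cnt (fun t g => S.Irr e t g ∧ ¬ S.FK t g) ≤ S.cnt (S.Big J) +
      S.cnt (fun t g => S.Irr e t g ∧ ¬ S.FK t g ∧ ¬ S.Big J t g) := by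
    apply ONE_union
    intro t g h
    by_cases h1 : S.Big J t g
    · exact Or.inl h1
    · exact Or.inr ⟨h.1, h.2, h1⟩
  have c3 : S.cnt (fun t g => S.Irr e t g ∧ ¬ S.FK t g ∧ ¬ S.Big J t g) ≤
      S.cnt (fun t g => ¬ S.Reg e t g ∧ ∃ l' l w p, S.PK l t g w ∧ S.Kl t g p ∧
        S.Inn l' l t g w p ∧ S.nev g (l + 1) t < J) +
      S.cnt (fun t g => (∃ s p, S.CA J s t g p) ∨ (∃ s p, S.CB J s t g p) ∨
        ∃ s σ l w p, S.CF J s σ l t g w p) := by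
    apply ONE_union
    rintro t g ⟨⟨⟨p, hp⟩, h2⟩, h3, h4⟩
    have h5 : ∃ l w, S.PK l t g w := by
      by_contra h6
      exact h3 ⟨⟨p, hp⟩, h6⟩
    obtain ⟨l, w, hPK⟩ := h5
    have h6 : S.nev g (l + 1) t < J := by
      by_contra h7
      exact h4 ⟨l, w, p, hPK, hp, Nat.le_of_not_lt h7⟩
    by_cases h7 : ∃ l', S.Inn l' l t g w p
    · obtain ⟨l', h8⟩ := h7
      exact Or.inl ⟨h2, l', l, w, p, hPK, hp, h8, h6⟩
    · rcases classify hPK hp h6 h7 with ⟨s, h8⟩ | ⟨s, h8⟩ | ⟨s, σ, h8⟩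
      · exact Or.inr (Or.inl ⟨s, p, h8⟩)
      · exact Or.inr (Or.inr (Or.inl ⟨s, p, h8⟩))
      · exact Or.inr (Or.inr (Or.inr ⟨s, σ, l, w, p, h8⟩))
  have c4 : S.cnt (fun t g => (∃ s p, S.CA J s t g p) ∨ (∃ s p, S.CB J s t g p) ∨
        ∃ s σ l w p, S.CF J s σ l t g w p) ≤ S.cnt (fun t g => ∃ s p, S.CA J s t g p) +
      S.cnt (fun t g => (∃ s p, S.CB J s t g p) ∨ ∃ s σ l w p, S.CF J s σ l t g w p) :=
    ONE_union (fun t g h => h)
  have c5 : S.cnt (fun t g => (∃ s p, S.CB J s t g p) ∨ ∃ s σ l w p, S.CF J s σ l t g w p) ≤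
      S.cnt (fun t g => ∃ s p, S.CB J s t g p) +
      S.cnt (fun t g => ∃ s σ l w p, S.CF J s σ l t g w p) :=
    ONE_union (fun t g h => h)
  omega

/-- **The one-sided theorem.** -/
theorem one_side (he : Emb S e H) (hk : S.KR ≤ S.NR + S.CR + S.CL + S.m) :
    S.NR ≤ 8 * MM H ^ 3 * S.QR + 6 * MM H ^ 2 * (2 * S.m + 2 * S.CR + S.QR) +
      2 * (S.CR + S.CL + S.m) := by
  obtain ⟨M, hM⟩ : ∃ M, MM H = M := ⟨_, rfl⟩
  have hM1 : 1 ≤ M := by
    rw [← hM]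
    unfold MM
    omega
  have a1 := reg_count he
  have a2 := irr_count he (2 * M)
  have a3 := fk_count (S := S)
  have a4 := big_count (S := S) (2 * M)
  have a5 := drops he
  have a6 := frs_count (S := S)
  rw [hM] at a1 a5 ⊢
  generalize S.cnt (S.Irr e) = I at a1 a2
  generalize S.cnt S.FK = F at a2 a3
  generalize S.cnt (S.Big (2 * M)) = B at a2 a4
  generalize S.cnt (S.Dr e) = D at a2 a5
  generalize S.frs.card = f at a2 a6
  generalize S.KR = K at a4 hk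
  generalize S.NR = N at a1 hk ⊢
  generalize S.QR = Q at a3 a5 a6 ⊢
  generalize S.CR = C at a2 a6 hk ⊢
  generalize S.CL = C' at hk ⊢
  generalize S.m = m at a2 hk ⊢
  have b1 : 2 * (2 * M) * D ≤ 2 * (2 * M) * (M * Q) := Nat.mul_le_mul_left _ a5
  have b2 : 2 * M * f ≤ 2 * M * (C + Q) := Nat.mul_le_mul_left _ a6
  have b3 : I ≤ Q + B + 2 * (2 * M) * (M * Q) + 2 * M * (m + C) + 2 * M * m +
      2 * M * (C + Q) := by omega
  have b4 : 2 * N ≤ 2 * (M * I) := Nat.mul_le_mul_left _ a1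
  have b5 : 2 * M * I ≤ 2 * M * (Q + B + 2 * (2 * M) * (M * Q) + 2 * M * (m + C) + 2 * M * m +
      2 * M * (C + Q)) := Nat.mul_le_mul_left _ b3
  have b6 : 2 * M * (Q + B + 2 * (2 * M) * (M * Q) + 2 * M * (m + C) + 2 * M * m +
      2 * M * (C + Q)) = 2 * M * Q + 2 * M * B + 8 * M ^ 3 * Q +
      4 * M ^ 2 * (2 * m + 2 * C + Q) := by ring
  have b7 : 2 * (M * I) = 2 * M * I := by ring
  have b8 : 2 * M * Q ≤ 2 * M ^ 2 * (2 * m + 2 * C + Q) := by
    have b9 : 2 * M ≤ 2 * M ^ 2 := by nlinarith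
    exact Nat.mul_le_mul b9 (by omega)
  have b10 : 6 * M ^ 2 * (2 * m + 2 * C + Q) = 2 * M ^ 2 * (2 * m + 2 * C + Q) +
      4 * M ^ 2 * (2 * m + 2 * C + Q) := by ring
  omega

end Sys

end Pool.Agent.SplLog
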