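import Pool.Agent.SplLog.Tree

set_option autoImplicit false

/-!
# The length of a search path in terms of kills and changes of side
-/

namespace Pool.Agent.SplLog

open BinaryTree Pool.Agent.MP_c42954_lc.Scan Pool.Agent.SplPat

open scoped Classical in
/-- The nodes killed on the right side. -/
noncomputable def RK (K : List ℕ) (x : ℕ) (l l' : ℕ → ℕ) : Finset ℕ :=
  K.toFinset.filter (fun v => x < v ∧ l v < x ∧ x < l' v)

open scoped Classical in
/-- The nodes killed on the left side. -/
noncomputable def LK (K : List ℕ) (x : ℕ) (r r' : ℕ → ℕ) : Finset ℕ :=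
  K.toFinset.filter (fun v => v < x ∧ x < r v ∧ r' v < x)

open scoped Classical in
/-- The touched nodes `< x` which are followed by a node `> x` on the search path of `x`. -/
noncomputable def SR (K : List ℕ) (x : ℕ) (l r : ℕ → ℕ) : Finset ℕ :=
  K.toFinset.filter (fun w => w < x ∧ x < r w ∧ ∃ v ∈ K, x < v ∧ l v = w)

open scoped Classical in
/-- The touched nodes `> x` which are followed by a node `< x` on the search path of `x`. -/
noncomputable def SL (K : List ℕ) (x : ℕ) (l r : ℕ → ℕ) : Finset ℕ :=
  K.toFinset.filter (fun w => x < w ∧ l w < x ∧ ∃ v ∈ K, v < x ∧ r v = w)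

theorem RK_sub {K K' : List ℕ} {x : ℕ} {l l' L L' : ℕ → ℕ} (hK : ∀ w ∈ K, w ∈ K')
    (e1 : ∀ w ∈ K, L w = l w) (e3 : ∀ w ∈ K, x < w → L' w = l' w) :
    RK K x l l' ⊆ RK K' x L L' := by
  intro v hv
  simp only [RK, Finset.mem_filter, List.mem_toFinset] at hv ⊢
  obtain ⟨h1, h2, h3, h4⟩ := hv
  refine ⟨hK _ h1, h2, ?_, ?_⟩
  · rw [e1 _ h1]
    exact h3
  · rw [e3 _ h1 h2]
    exact h4

theorem LK_sub {K K' : List ℕ} {x : ℕ} {r r' R R' : ℕ → ℕ} (hK : ∀ w ∈ K, w ∈ K')
    (e1 : ∀ w ∈ K, R w = r w) (e3 : ∀ w ∈ K, w < x → R' w = r' w) :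
    LK K x r r' ⊆ LK K' x R R' := by
  intro v hv
  simp only [LK, Finset.mem_filter, List.mem_toFinset] at hv ⊢
  obtain ⟨h1, h2, h3, h4⟩ := hv
  refine ⟨hK _ h1, h2, ?_, ?_⟩
  · rw [e1 _ h1]
    exact h3
  · rw [e3 _ h1 h2]
    exact h4

theorem SR_sub {K K' : List ℕ} {x : ℕ} {l r L R : ℕ → ℕ} (hK : ∀ w ∈ K, w ∈ K')
    (e1 : ∀ w ∈ K, L w = l w) (e2 : ∀ w ∈ K, R w = r w) : SR K x l r ⊆ SR K' x L R := by
  intro w hw
  simp only [SR, Finset.mem_filter, List.mem_toFinset] at hw ⊢
  obtain ⟨h1, h2, h3, v, h4, h5, h6⟩ := hw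
  refine ⟨hK _ h1, h2, ?_, v, hK _ h4, h5, ?_⟩
  · rw [e2 _ h1]
    exact h3
  · rw [e1 _ h4]
    exact h6

theorem SL_sub {K K' : List ℕ} {x : ℕ} {l r L R : ℕ → ℕ} (hK : ∀ w ∈ K, w ∈ K')
    (e1 : ∀ w ∈ K, L w = l w) (e2 : ∀ w ∈ K, R w = r w) : SL K x l r ⊆ SL K' x L R := by
  intro w hw
  simp only [SL, Finset.mem_filter, List.mem_toFinset] at hw ⊢
  obtain ⟨h1, h2, h3, v, h4, h5, h6⟩ := hw
  refine ⟨hK _ h1, h2, ?_, v, hK _ h4, h5, ?_⟩
  · rw [e1 _ h1]
    exact h3
  · rw [e2 _ h4]
    exact h6

theorem card_insert_sub {S T : Finset ℕ} {g : ℕ} (h : S ⊆ T) (hg : g ∈ T) (hn : g ∉ S) :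
    S.card + 1 ≤ T.card := by
  rw [← Finset.card_insert_of_notMem hn]
  exact Finset.card_le_card (Finset.insert_subset hg h)

theorem RK_mem {K : List ℕ} {x : ℕ} {l l' : ℕ → ℕ} {v : ℕ} (h : v ∈ RK K x l l') : v ∈ K := by
  simp only [RK, Finset.mem_filter, List.mem_toFinset] at h
  exact h.1

theorem LK_mem {K : List ℕ} {x : ℕ} {l l' : ℕ → ℕ} {v : ℕ} (h : v ∈ LK K x l l') : v ∈ K := by
  simp only [LK, Finset.mem_filter, List.mem_toFinset] at h
  exact h.1

theorem SR_mem {K : List ℕ} {x : ℕ} {l l' : ℕ → ℕ} {v : ℕ} (h : v ∈ SR K x l l') : v ∈ K := by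
  simp only [SR, Finset.mem_filter, List.mem_toFinset] at h
  exact h.1

theorem SL_mem {K : List ℕ} {x : ℕ} {l l' : ℕ → ℕ} {v : ℕ} (h : v ∈ SL K x l l') : v ∈ K := by
  simp only [SL, Finset.mem_filter, List.mem_toFinset] at h
  exact h.1

theorem ev_depth {x : ℕ} {t A B : BinaryTree ℕ} (h : Ev x t A B) : IsBST t → ∀ lo hi,
    Bd lo hi t → depth x t ≤
      2 * (RK (inorder t) x (fun w => lm w t lo) (fun w => lm w B x)).card +
      2 * (LK (inorder t) x (fun w => rh w t hi) (fun w => rh w A x)).card +
      2 * (SR (inorder t) x (fun w => lm w t lo) (fun w => rh w t hi)).card +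
      2 * (SL (inorder t) x (fun w => lm w t lo) (fun w => rh w t hi)).card := by
  induction h with
  | base A B =>
    intro hb lo hi hB
    simp [depth]
  | @ll p g L C D A B h1 h2 h3 ih =>
    intro hb lo hi hB
    obtain ⟨a1, a2, a3, a4⟩ := bst_node.1 hb
    obtain ⟨b1, b2, b3, b4⟩ := bd_node hb hB
    obtain ⟨c1, c2, c3, c4⟩ := bst_node.1 a1
    obtain ⟨d1, d2, d3, d4⟩ := bd_node a1 b3
    have hpg : p < g := a3 p (by simp [inorder])
    have hK : ∀ w ∈ inorder L, w ∈ inorder (.node g (.node p L C) D) := by
      intro w hw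
      simp [inorder, hw]
    have e1 : ∀ w ∈ inorder L, lm w (.node g (.node p L C) D) lo = lm w L lo := by
      intro w hw
      have := c3 w hw
      rw [lm_lt (by omega), lm_lt (by omega)]
    have e2 : ∀ w ∈ inorder L, rh w (.node g (.node p L C) D) hi = rh w L p := by
      intro w hw
      have := c3 w hw
      rw [rh_lt (by omega), rh_lt (by omega)]
    have e3 : ∀ w ∈ inorder L, x < w →
        lm w (.node p B (.node g C D)) x = lm w B x := by
      intro w hw _
      have := c3 w hw
      rw [lm_lt (by omega)]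
    have i0 := ih c1 lo p d3
    have i1 := card_insert_sub (g := g) (RK_sub (x := x) hK e1 e3)
      (by
        simp only [RK, Finset.mem_filter, List.mem_toFinset]
        have := d3 x (ev_mem h3)
        refine ⟨by simp [inorder], h2, ?_, ?_⟩
        · rw [lm_self]
          omega
        · rw [lm_gt hpg, lm_self]
          omega)
      (fun hg => by
        have := c3 g (RK_mem hg)
        omega)
    have i2 := Finset.card_le_card (LK_sub (x := x) (r' := fun w => rh w A x) hK e2
      (fun _ _ _ => rfl))
    have i3 := Finset.card_le_card (SR_sub (x := x) hK e1 e2)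
    have i4 := Finset.card_le_card (SL_sub (x := x) hK e1 e2)
    have e0 : depth x (.node g (.node p L C) D) = depth x L + 2 := by
      simp only [depth]
      rw [if_neg (by omega), if_pos h2, if_neg (by omega), if_pos h1]
    omega
  | @lr p g R C D A B h1 h2 h3 ih =>
    intro hb lo hi hB
    obtain ⟨a1, a2, a3, a4⟩ := bst_node.1 hb
    obtain ⟨b1, b2, b3, b4⟩ := bd_node hb hB
    obtain ⟨c1, c2, c3, c4⟩ := bst_node.1 a1
    obtain ⟨d1, d2, d3, d4⟩ := bd_node a1 b3
    have hpg : p < g := a3 p (by simp [inorder])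
    have hK : ∀ w ∈ inorder R, w ∈ inorder (.node g (.node p C R) D) := by
      intro w hw
      simp [inorder, hw]
    have e1 : ∀ w ∈ inorder R, lm w (.node g (.node p C R) D) lo = lm w R p := by
      intro w hw
      have := d4 w hw
      rw [lm_lt (by omega), lm_gt (by omega)]
    have e2 : ∀ w ∈ inorder R, rh w (.node g (.node p C R) D) hi = rh w R g := by
      intro w hw
      have := d4 w hw
      rw [rh_lt (by omega), rh_gt (by omega)]
    have e3 : ∀ w ∈ inorder R, x < w → lm w (.node g B D) x = lm w B x := by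
      intro w hw _
      have := d4 w hw
      rw [lm_lt (by omega)]
    have e4 : ∀ w ∈ inorder R, w < x → rh w (.node p C A) x = rh w A x := by
      intro w hw _
      have := d4 w hw
      rw [rh_gt (by omega)]
    have i0 := ih c2 p g d4
    have i1 := Finset.card_le_card (RK_sub (x := x) hK e1 e3)
    have i2 := Finset.card_le_card (LK_sub (x := x) hK e2 e4)
    have i3 := Finset.card_le_card (SR_sub (x := x) hK e1 e2)
    have i4 := card_insert_sub (g := g) (SL_sub (x := x) hK e1 e2)
      (by
        simp only [SL, Finset.mem_filter, List.mem_toFinset]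
        have := d4 x (ev_mem h3)
        refine ⟨by simp [inorder], h2, ?_, p, by simp [inorder], h1, ?_⟩
        · rw [lm_self]
          omega
        · rw [rh_lt hpg, rh_self])
      (fun hg => by
        have := d4 g (SL_mem hg)
        omega)
    have e0 : depth x (.node g (.node p C R) D) = depth x R + 2 := by
      simp only [depth]
      rw [if_neg (by omega), if_pos h2, if_neg (by omega), if_neg (by omega)]
    omega
  | @rr p g R C D A B h1 h2 h3 ih =>
    intro hb lo hi hB
    obtain ⟨a1, a2, a3, a4⟩ := bst_node.1 hb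
    obtain ⟨b1, b2, b3, b4⟩ := bd_node hb hB
    obtain ⟨c1, c2, c3, c4⟩ := bst_node.1 a2
    obtain ⟨d1, d2, d3, d4⟩ := bd_node a2 b4
    have hpg : g < p := a4 p (by simp [inorder])
    have hK : ∀ w ∈ inorder R, w ∈ inorder (.node g D (.node p C R)) := by
      intro w hw
      simp [inorder, hw]
    have e1 : ∀ w ∈ inorder R, lm w (.node g D (.node p C R)) lo = lm w R p := by
      intro w hw
      have := d4 w hw
      rw [lm_gt (by omega), lm_gt (by omega)]
    have e2 : ∀ w ∈ inorder R, rh w (.node g D (.node p C R)) hi = rh w R hi := by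
      intro w hw
      have := d4 w hw
      rw [rh_gt (by omega), rh_gt (by omega)]
    have e4 : ∀ w ∈ inorder R, w < x →
        rh w (.node p (.node g D C) A) x = rh w A x := by
      intro w hw _
      have := d4 w hw
      rw [rh_gt (by omega)]
    have i0 := ih c2 p hi d4
    have i1 := Finset.card_le_card (RK_sub (x := x) (l' := fun w => lm w B x) hK e1
      (fun _ _ _ => rfl))
    have i2 := card_insert_sub (g := g) (LK_sub (x := x) hK e2 e4)
      (by
        simp only [LK, Finset.mem_filter, List.mem_toFinset]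
        have := d4 x (ev_mem h3)
        refine ⟨by simp [inorder], h2, ?_, ?_⟩
        · rw [rh_self]
          omega
        · rw [rh_lt hpg, rh_self]
          omega)
      (fun hg => by
        have := d4 g (LK_mem hg)
        omega)
    have i3 := Finset.card_le_card (SR_sub (x := x) hK e1 e2)
    have i4 := Finset.card_le_card (SL_sub (x := x) hK e1 e2)
    have e0 : depth x (.node g D (.node p C R)) = depth x R + 2 := by
      simp only [depth]
      rw [if_neg (by omega), if_neg (by omega), if_neg (by omega), if_neg (by omega)]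
    omega
  | @rl p g L C D A B h1 h2 h3 ih =>
    intro hb lo hi hB
    obtain ⟨a1, a2, a3, a4⟩ := bst_node.1 hb
    obtain ⟨b1, b2, b3, b4⟩ := bd_node hb hB
    obtain ⟨c1, c2, c3, c4⟩ := bst_node.1 a2
    obtain ⟨d1, d2, d3, d4⟩ := bd_node a2 b4
    have hpg : g < p := a4 p (by simp [inorder])
    have hK : ∀ w ∈ inorder L, w ∈ inorder (.node g D (.node p L C)) := by
      intro w hw
      simp [inorder, hw]
    have e1 : ∀ w ∈ inorder L, lm w (.node g D (.node p L C)) lo = lm w L g := by
      intro w hw
      have := d3 w hw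
      rw [lm_gt (by omega), lm_lt (by omega)]
    have e2 : ∀ w ∈ inorder L, rh w (.node g D (.node p L C)) hi = rh w L p := by
      intro w hw
      have := d3 w hw
      rw [rh_gt (by omega), rh_lt (by omega)]
    have e3 : ∀ w ∈ inorder L, x < w → lm w (.node p B C) x = lm w B x := by
      intro w hw _
      have := d3 w hw
      rw [lm_lt (by omega)]
    have e4 : ∀ w ∈ inorder L, w < x → rh w (.node g D A) x = rh w A x := by
      intro w hw _
      have := d3 w hw
      rw [rh_gt (by omega)]
    have i0 := ih c1 g p d3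
    have i1 := Finset.card_le_card (RK_sub (x := x) hK e1 e3)
    have i2 := Finset.card_le_card (LK_sub (x := x) hK e2 e4)
    have i3 := card_insert_sub (g := g) (SR_sub (x := x) hK e1 e2)
      (by
        simp only [SR, Finset.mem_filter, List.mem_toFinset]
        have := d3 x (ev_mem h3)
        refine ⟨by simp [inorder], h2, ?_, p, by simp [inorder], h1, ?_⟩
        · rw [rh_self]
          omega
        · rw [lm_gt hpg, lm_self])
      (fun hg => by
        have := d3 g (SR_mem hg)
        omega)
    have i4 := Finset.card_le_card (SL_sub (x := x) hK e1 e2)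
    have e0 : depth x (.node g D (.node p L C)) = depth x L + 2 := by
      simp only [depth]
      rw [if_neg (by omega), if_neg (by omega), if_neg (by omega), if_pos h1]
    omega

theorem spl_depth {x : ℕ} {t A B : BinaryTree ℕ} (h : Spl x t A B) (hb : IsBST t) {lo hi : ℕ}
    (hB : Bd lo hi t) : depth x t ≤
      2 * (RK (inorder t) x (fun w => lm w t lo) (fun w => lm w B x)).card +
      2 * (LK (inorder t) x (fun w => rh w t hi) (fun w => rh w A x)).card +
      2 * (SR (inorder t) x (fun w => lm w t lo) (fun w => rh w t hi)).card +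
      2 * (SL (inorder t) x (fun w => lm w t lo) (fun w => rh w t hi)).card + 1 := by
  cases h with
  | ev h => exact (ev_depth h hb lo hi hB).trans (Nat.le_succ _)
  | @zl g L D A B h1 h2 =>
    obtain ⟨a1, a2, a3, a4⟩ := bst_node.1 hb
    obtain ⟨b1, b2, b3, b4⟩ := bd_node hb hB
    have hK : ∀ w ∈ inorder L, w ∈ inorder (.node g L D) := by
      intro w hw
      simp [inorder, hw]
    have e1 : ∀ w ∈ inorder L, lm w (.node g L D) lo = lm w L lo := by
      intro w hw
      have := a3 w hw
      rw [lm_lt (by omega)]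
    have e2 : ∀ w ∈ inorder L, rh w (.node g L D) hi = rh w L g := by
      intro w hw
      have := a3 w hw
      rw [rh_lt (by omega)]
    have e3 : ∀ w ∈ inorder L, x < w → lm w (.node g B D) x = lm w B x := by
      intro w hw _
      have := a3 w hw
      rw [lm_lt (by omega)]
    have i0 := ev_depth h2 a1 lo g b3
    have i1 := Finset.card_le_card (RK_sub (x := x) hK e1 e3)
    have i2 := Finset.card_le_card (LK_sub (x := x) (r' := fun w => rh w A x) hK e2
      (fun _ _ _ => rfl))
    have i3 := Finset.card_le_card (SR_sub (x := x) hK e1 e2)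
    have i4 := Finset.card_le_card (SL_sub (x := x) hK e1 e2)
    have e0 : depth x (.node g L D) = depth x L + 1 := by
      simp only [depth]
      rw [if_neg (by omega), if_pos h1]
    omega
  | @zr g R D A B h1 h2 =>
    obtain ⟨a1, a2, a3, a4⟩ := bst_node.1 hb
    obtain ⟨b1, b2, b3, b4⟩ := bd_node hb hB
    have hK : ∀ w ∈ inorder R, w ∈ inorder (.node g D R) := by
      intro w hw
      simp [inorder, hw]
    have e1 : ∀ w ∈ inorder R, lm w (.node g D R) lo = lm w R g := by
      intro w hw
      have := a4 w hw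
      rw [lm_gt (by omega)]
    have e2 : ∀ w ∈ inorder R, rh w (.node g D R) hi = rh w R hi := by
      intro w hw
      have := a4 w hw
      rw [rh_gt (by omega)]
    have e4 : ∀ w ∈ inorder R, w < x → rh w (.node g D A) x = rh w A x := by
      intro w hw _
      have := a4 w hw
      rw [rh_gt (by omega)]
    have i0 := ev_depth h2 a2 g hi b4
    have i1 := Finset.card_le_card (RK_sub (x := x) (l' := fun w => lm w B x) hK e1
      (fun _ _ _ => rfl))
    have i2 := Finset.card_le_card (LK_sub (x := x) hK e2 e4)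
    have i3 := Finset.card_le_card (SR_sub (x := x) hK e1 e2)
    have i4 := Finset.card_le_card (SL_sub (x := x) hK e1 e2)
    have e0 : depth x (.node g D R) = depth x R + 1 := by
      simp only [depth]
      rw [if_neg (by omega), if_neg (by omega)]
    omega

/-- **The length of the search path**: twice the number of kills plus twice the number of changes
of side plus one. -/
theorem depth_le {x : ℕ} {t : BinaryTree ℕ} (hb : IsBST t) (hm : x ∈ inorder t) {lo hi : ℕ}
    (hB : Bd lo hi t) : depth x t ≤
      2 * (RK (inorder t) x (fun w => lm w t lo) (fun w => lm w (splay x t) lo)).card +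
      2 * (LK (inorder t) x (fun w => rh w t hi) (fun w => rh w (splay x t) hi)).card +
      2 * (SR (inorder t) x (fun w => lm w t lo) (fun w => rh w t hi)).card +
      2 * (SL (inorder t) x (fun w => lm w t lo) (fun w => rh w t hi)).card + 1 := by
  obtain ⟨A, B, h1, h2⟩ := spl_exists hb hm
  have i0 := spl_depth h1 hb hB
  rw [h2]
  have i1 := Finset.card_le_card (RK_sub (x := x) (K := inorder t) (K' := inorder t)
    (l := fun w => lm w t lo) (L := fun w => lm w t lo) (l' := fun w => lm w B x)
    (L' := fun w => lm w (.node x A B) lo) (fun w hw => hw) (fun _ _ => rfl)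
    (fun w _ hxw => by rw [lm_gt hxw]))
  have i2 := Finset.card_le_card (LK_sub (x := x) (K := inorder t) (K' := inorder t)
    (r := fun w => rh w t hi) (R := fun w => rh w t hi) (r' := fun w => rh w A x)
    (R' := fun w => rh w (.node x A B) hi) (fun w hw => hw) (fun _ _ => rfl)
    (fun w _ hxw => by rw [rh_lt hxw]))
  omega

end Pool.Agent.SplLog
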