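import Pool.Agent.SplLog.Irr

set_option autoImplicit false

namespace Pool.Agent.SplLog

namespace Sys

variable {S : Sys} {e : ℕ → ℕ} {H : ℕ}

/-- `t0` is the last irregular kill of `g` at or before the kill `t` (REG). -/
private def REG_Q (S : Sys) (e : ℕ → ℕ) (t0 t g : ℕ) : Prop :=
  S.Irr e t0 g ∧ t0 ≤ t ∧ (∃ p, S.Kl t g p) ∧
    ∀ s, t0 < s → s ≤ t → (∃ p, S.Kl s g p) → S.Reg e s g

private theorem REG_ex {t g : ℕ} (h : ∃ p, S.Kl t g p) : ∃ t0, REG_Q S e t0 t g := by
  induction t using Nat.strong_induction_on with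
  | _ t ih =>
    by_cases hr : S.Reg e t g
    · obtain ⟨l, w, p, hPK, hKl, _⟩ := id hr
      obtain ⟨t0, q1, q2, q3, q4⟩ := ih l hPK.1 ⟨w, hPK.2.1⟩
      refine ⟨t0, q1, by have := hPK.1; omega, h, fun s hs1 hs2 hs3 => ?_⟩
      by_cases h1 : s ≤ l
      · exact q4 s hs1 h1 hs3
      · rcases lt_or_eq_of_le hs2 with h2 | h2
        · obtain ⟨q, hq⟩ := hs3
          exact absurd hq (fun hq => not_kp_kl (hPK.2.2.2 s (by omega) h2 (R_E hq.1)) hq)
        · rw [h2]
          exact hr
    · exact ⟨t, ⟨h, hr⟩, le_rfl, h, fun s hs1 hs2 _ => absurd hs1 (by omega)⟩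

private theorem REG_mono {t0 t1 t2 g : ℕ} (h1 : REG_Q S e t0 t1 g) (h2 : REG_Q S e t0 t2 g)
    (h : t1 < t2) :
    S.lev e t1 (S.lam (t1 + 1) g) < S.lev e t2 (S.lam (t2 + 1) g) := by
  induction t2 using Nat.strong_induction_on with
  | _ t2 ih =>
    obtain ⟨q1, q2, q3, q4⟩ := h2
    have h01 := h1.2.1
    obtain ⟨l, w, p, hPK, hKl, hlt⟩ := q4 t2 (by omega) le_rfl q3
    have e1 : S.lam (t2 + 1) g = p := hKl.2.2
    have e2 : S.lam (l + 1) g = w := hPK.2.1.2.2
    have hl : t1 ≤ l := by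
      by_contra hl
      obtain ⟨q, hq⟩ := h1.2.2.1
      exact not_kp_kl (hPK.2.2.2 t1 (by omega) h (R_E hq.1)) hq
    rcases lt_or_eq_of_le hl with h3 | h3
    · have h4 := ih l hPK.1 ⟨q1, by omega, ⟨w, hPK.2.1⟩, fun s hs1 hs2 hs3 =>
        q4 s hs1 (by have := hPK.1; omega) hs3⟩ h3
      rw [e1]
      rw [e2] at h4
      omega
    · rw [e1, h3, e2]
      exact hlt

/-! HINT (REG).  Map a kill `(t, g)` (killer `p`) to `((t0, g), lev t p)`, where `t0` is the last
irregular kill of `g` at or before `t` such that all events of `g` in `[t0, t]` are right touches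
(it exists: follow `PK` back from a regular kill; the first kill of a phase is irregular).  For two
kills `t1 < t2` of `g` with the same `t0` all kills in `(t1, t2]` are regular, so the level of the
killer strictly increases.  The level takes at most `MM H` values (`lev_range`). -/
theorem reg_count (he : Emb S e H) : S.NR ≤ MM H * S.cnt (S.Irr e) := by
  classical
  have hch : ∀ t g, ∃ t0, (∃ p, S.Kl t g p) → REG_Q S e t0 t g := by
    intro t g
    by_cases h : ∃ p, S.Kl t g p
    · obtain ⟨t0, ht0⟩ := REG_ex (e := e) h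
      exact ⟨t0, fun _ => ht0⟩
    · exact ⟨0, fun h' => absurd h' h⟩
  choose f hf using hch
  have hr : ∀ t g, (∃ p, S.Kl t g p) →
      -1 - (Nat.log 2 H : ℤ) ≤ S.lev e t (S.lam (t + 1) g) ∧
        S.lev e t (S.lam (t + 1) g) ≤ (Nat.log 2 H : ℤ) := by
    rintro t g ⟨p, hp⟩
    rw [hp.2.2]
    exact lev_range he hp.1.1.le (kl_facts hp).1.1.2.1
  have hc : S.NR ≤ ((S.set (S.Irr e)) ×ˢ (Finset.range (MM H))).card := by
    refine cnt_le_of_inj _ (fun t g => ((f t g, g),
      (S.lev e t (S.lam (t + 1) g) + 1 + (Nat.log 2 H : ℤ)).toNat)) ?_ ?_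
    · intro t g ht hg hP
      rw [Finset.mem_product, mem_set, Finset.mem_range]
      have h1 := hf t g hP
      have h2 := hr t g hP
      refine ⟨⟨by show f t g < S.m; have := h1.2.1; omega, hg, h1.1⟩, ?_⟩
      show (S.lev e t (S.lam (t + 1) g) + 1 + (Nat.log 2 H : ℤ)).toNat < 2 * Nat.log 2 H + 2
      omega
    · intro t g t' g' ht hg hP ht' hg' hP' heq
      rw [Prod.mk.injEq, Prod.mk.injEq] at heq
      obtain ⟨⟨h1, h2⟩, h3⟩ := heq
      subst h2
      have a1 := hf t g hP
      have a2 := hf t' g hP'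
      rw [← h1] at a2
      have r1 := hr t g hP
      have r2 := hr t' g hP'
      refine ⟨?_, rfl⟩
      rcases lt_trichotomy t t' with h | h | h
      · have := REG_mono a1 a2 h
        omega
      · exact h
      · have := REG_mono a2 a1 h
        omega
  rw [Finset.card_product, Finset.card_range] at hc
  have h1 : (S.set (S.Irr e)).card = S.cnt (S.Irr e) := rfl
  rw [h1, mul_comm] at hc
  exact hc

/-- First kills: at most one in every right phase of `g`. -/
theorem fk_count : S.cnt S.FK ≤ S.QR := by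
  classical
  have hch : ∀ t g, ∃ s, S.R t g → S.RP s t g := by
    intro t g
    by_cases h : S.R t g
    · obtain ⟨s, hs⟩ := exists_RP h
      exact ⟨s, fun _ => hs⟩
    · exact ⟨0, fun h' => absurd h' h⟩
  choose f hf using hch
  have key : ∀ t t' g, S.FK t g → S.FK t' g → f t g = f t' g → ¬ t < t' := by
    rintro t t' g ⟨⟨p, hp⟩, _⟩ ⟨⟨p', hp'⟩, hn⟩ hff hlt
    have h1 := hf t g hp.1
    have h2 := hf t' g hp'.1
    obtain ⟨l, hl1, ⟨w, hl2⟩, hl3⟩ := exists_prev (P := fun a => ∃ q, S.Kl a g q)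
      ⟨t, hlt, p, hp⟩
    apply hn
    refine ⟨l, w, hl1, hl2, hp'.1, fun a ha1 ha2 hE => ?_⟩
    have htl : t ≤ l := by
      by_contra h
      exact hl3 t (by omega) hlt ⟨p, hp⟩
    have hR : S.R a g := by
      refine h2.2.2.2 a ?_ ha2.le hE
      have := h1.1
      omega
    rcases kp_or_kl hR with h | h
    · exact h
    · exact absurd h (hl3 a ha1 ha2)
  refine cnt_le_of_inj (S.set S.RS) (fun t g => (f t g, g)) ?_ ?_
  · intro t g ht hg hP
    obtain ⟨⟨p, hp⟩, _⟩ := id hP
    have h1 := hf t g hp.1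
    rw [mem_set]
    refine ⟨?_, hg, h1.2.1⟩
    show f t g < S.m
    have := h1.1
    omega
  · intro t g t' g' ht hg hP ht' hg' hP' heq
    rw [Prod.mk.injEq] at heq
    obtain ⟨h1, h2⟩ := heq
    subst h2
    refine ⟨?_, rfl⟩
    have k1 := key t t' g hP hP' h1
    have k2 := key t' t g hP' hP h1.symm
    omega

end Sys

end Pool.Agent.SplLog
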