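import Pool.Agent.MP_c42954_lc.Scan.Defs

set_option autoImplicit false

/-!
# Changes of direction of the nodes under splaying: definitions

The trees are search trees on the keys `1, ..., n`.  `lm v t 0` and `rh v t (n + 1)` are the largest
ancestor of `v` in `t` which is smaller than `v` (or `0`) and the smallest ancestor of `v` which is
larger than `v` (or `n + 1`), so that the keys of the subtree of `v` are the keys strictly between
them, and `v` lies on the search path of `x` iff `lm v t 0 < x < rh v t (n + 1)`.
-/

namespace Pool.Agent.SplLog

open BinaryTree Pool.Agent.MP_c42954_lc.Scan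

/-- The largest ancestor of `v` which is smaller than `v` (or `lo`). -/
def lm (v : ℕ) : BinaryTree ℕ → ℕ → ℕ
  | .nil, lo => lo
  | .node a l r, lo => if v = a then lo else if v < a then lm v l lo else lm v r a

/-- The smallest ancestor of `v` which is larger than `v` (or `hi`). -/
def rh (v : ℕ) : BinaryTree ℕ → ℕ → ℕ
  | .nil, hi => hi
  | .node a l r, hi => if v = a then hi else if v < a then rh v l a else rh v r hi

/-- The trees of a run: `tr T X t` is the tree before the request `X t` (times start with `0`). -/
def tr (T : BinaryTree ℕ) (X : ℕ → ℕ) : ℕ → BinaryTree ℕ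
  | 0 => T
  | t + 1 => splay (X t) (tr T X t)

/-- The data of a run: the keys `K`, the number `m` of requests, the requests `X t`, and the ends
`lam t v`, `rho t v` of the subtree interval of `v` before the request `t`. -/
structure Data where
  /-- the keys -/
  K : Finset ℕ
  /-- the number of requests -/
  m : ℕ
  /-- the largest ancestor of `v` smaller than `v` -/
  lam : ℕ → ℕ → ℕ
  /-- the smallest ancestor of `v` larger than `v` -/
  rho : ℕ → ℕ → ℕ
  /-- the requests -/
  X : ℕ → ℕ

/-- The data of splaying the requests of the list `X`, starting from the tree `T` on the keys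
`1, ..., n`. -/
def runData (n : ℕ) (T : BinaryTree ℕ) (X : List ℕ) : Data where
  K := (inorder T).toFinset
  m := X.length
  lam t v := lm v (tr T (fun s => X.getD s 0) t) 0
  rho t v := rh v (tr T (fun s => X.getD s 0) t) (n + 1)
  X t := X.getD t 0

namespace Data

variable (D : Data)

/-- The mirror image: all keys `v` are replaced by `N - v`. -/
def mirror (N : ℕ) : Data where
  K := D.K.image (fun v => N - v)
  m := D.m
  lam t v := N - D.rho t (N - v)
  rho t v := N - D.lam t (N - v)
  X t := N - D.X t

/-- At time `t` the node `v` lies on the search path of the request and is larger than it. -/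
def Right (t v : ℕ) : Prop := t < D.m ∧ v ∈ D.K ∧ D.X t < v ∧ D.lam t v < D.X t

/-- At time `t` the node `v` lies on the search path of the request and is smaller than it. -/
def Left (t v : ℕ) : Prop := t < D.m ∧ v ∈ D.K ∧ v < D.X t ∧ D.X t < D.rho t v

/-- At time `t` the node `v` lies on the search path of the request. -/
def Touched (t v : ℕ) : Prop := D.Right t v ∨ D.Left t v ∨ (t < D.m ∧ v ∈ D.K ∧ v = D.X t)

/-- The node `v` is not touched at the times `u` with `s ≤ u < t`. -/
def Quiet (v s t : ℕ) : Prop := ∀ u, s ≤ u → u < t → ¬ D.Touched u v

/-- A change of direction of `v` from right to left: `v` is on the left side of the search path at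
time `t`, and was on the right side when it was touched for the last time before. -/
def TurnLeft (t v : ℕ) : Prop := D.Left t v ∧ ∃ s, s < t ∧ D.Right s v ∧ D.Quiet v (s + 1) t

/-- A change of direction of `v` from left to right. -/
def TurnRight (t v : ℕ) : Prop := D.Right t v ∧ ∃ s, s < t ∧ D.Left s v ∧ D.Quiet v (s + 1) t

/-- At time `a` the node `v`, on the right side of the search path, is killed by `p`: it is the
upper and `p` the lower node of a pair rotated by a zig-zig step, so that afterwards `p` (and not
the root `X a`) is the largest ancestor of `v` smaller than `v`. -/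
def Killed (a v p : ℕ) : Prop := D.Right a v ∧ D.X a < p ∧ D.lam (a + 1) v = p

/-- An opposite-side single: `v` is on the left side at time `t`, was touched for the last time at
time `a`, on the right side, was then killed by `p`, and `p` was touched since. -/
def Single (a t v p : ℕ) : Prop :=
  D.Left t v ∧ a < t ∧ D.Killed a v p ∧ D.Quiet v (a + 1) t ∧ ¬ D.Quiet p (a + 1) t

/-- The lower record of `v` at time `t`: `X τ` is the largest key `< v` requested between the times
`a` and `t`, and `τ` is the time of its last request before `t`. -/
def Record (a τ t v : ℕ) : Prop :=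
  a < τ ∧ τ < t ∧ D.X τ < v ∧ (∀ s, a < s → s < t → D.X s < v → D.X s ≤ D.X τ) ∧
    ∀ s, τ < s → s < t → D.X s ≠ D.X τ

/-- Type I: no key `> v` is requested between `τ` and `t`. -/
def TypeOne (τ t v : ℕ) : Prop := ∀ s, τ < s → s < t → D.X s < v

/-- Type II, the upper record: `X σ` is the smallest key `> v` requested between `τ` and `t`, and
`σ` is the time of its last request before `t`. -/
def TypeTwo (τ σ t v : ℕ) : Prop :=
  τ < σ ∧ σ < t ∧ v < D.X σ ∧ (∀ s, τ < s → s < t → v < D.X s → D.X σ ≤ D.X s) ∧
    ∀ s, σ < s → s < t → D.X s ≠ D.X σ

/-- `v` is an opposite-side single of type I at time `t`, with lower record `y`. -/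
def One (t v y : ℕ) : Prop :=
  ∃ a p τ, D.Single a t v p ∧ D.Record a τ t v ∧ D.TypeOne τ t v ∧ y = D.X τ

/-- `v` is an opposite-side single of type II at time `t`, with upper record `z`. -/
def Two (t v z : ℕ) : Prop :=
  ∃ a p τ σ, D.Single a t v p ∧ D.Record a τ t v ∧ D.TypeTwo τ σ t v ∧ z = D.X σ

/-- A hidden change of direction: `v` is an opposite-side single at time `t`, and another
opposite-side single `v' < v` of the same type and with the same record is also touched at time
`t` (so `v'` lies above `v` on the search path). -/
def Hidden (t v : ℕ) : Prop :=
  (∃ y v', v' < v ∧ D.One t v y ∧ D.One t v' y) ∨ ∃ z v', v' < v ∧ D.Two t v z ∧ D.Two t v' z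

open scoped Classical in
/-- The number of pairs (time, key) with the property `P`. -/
noncomputable def count (P : ℕ → ℕ → Prop) : ℕ :=
  ((Finset.range D.m ×ˢ D.K).filter (fun q => P q.1 q.2)).card

/-- The number of changes of direction of the nodes. -/
noncomputable def turns : ℕ := D.count D.TurnLeft + D.count D.TurnRight

/-- The number of hidden changes of direction from right to left. -/
noncomputable def hidden : ℕ := D.count D.Hidden

open scoped Classical in
/-- The number of keys which are touched at least once. -/
noncomputable def touchedKeys : ℕ := (D.K.filter (fun v => ∃ t, D.Touched t v)).card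

end Data

end Pool.Agent.SplLog
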