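import Pool.Agent.SplPat.SpRel
import Pool.Agent.SplLog.Fct
import Pool.Agent.SplLog.Stmt

set_option autoImplicit false

/-!
# Subtree intervals and how one splay changes them

`lm v t lo` and `rh v t hi` are the ends of the subtree interval of `v` in `t`, the whole tree `t`
hanging in the interval `(lo, hi)`: the largest ancestor `< v` (or `lo`) and the smallest ancestor
`> v` (or `hi`).
-/

namespace Pool.Agent.SplLog

open BinaryTree Pool.Agent.MP_c42954_lc.Scan Pool.Agent.SplPat

/-- All keys of the tree lie strictly between `lo` and `hi`. -/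
def Bd (lo hi : ℕ) (t : BinaryTree ℕ) : Prop := ∀ v ∈ inorder t, lo < v ∧ v < hi

theorem lm_self (v : ℕ) (l r : BinaryTree ℕ) (lo : ℕ) : lm v (.node v l r) lo = lo := by
  simp [lm]

theorem rh_self (v : ℕ) (l r : BinaryTree ℕ) (hi : ℕ) : rh v (.node v l r) hi = hi := by
  simp [rh]

theorem lm_lt {v a : ℕ} (h : v < a) (l r : BinaryTree ℕ) (lo : ℕ) :
    lm v (.node a l r) lo = lm v l lo := by
  simp [lm, h, h.ne]

theorem rh_lt {v a : ℕ} (h : v < a) (l r : BinaryTree ℕ) (hi : ℕ) :
    rh v (.node a l r) hi = rh v l a := by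
  simp [rh, h, h.ne]

theorem lm_gt {v a : ℕ} (h : a < v) (l r : BinaryTree ℕ) (lo : ℕ) :
    lm v (.node a l r) lo = lm v r a := by
  simp [lm, h.ne', h.le]

theorem rh_gt {v a : ℕ} (h : a < v) (l r : BinaryTree ℕ) (hi : ℕ) :
    rh v (.node a l r) hi = rh v r hi := by
  simp [rh, h.ne', h.le]

theorem bd_node {a lo hi : ℕ} {l r : BinaryTree ℕ} (hb : IsBST (.node a l r))
    (h : Bd lo hi (.node a l r)) : lo < a ∧ a < hi ∧ Bd lo a l ∧ Bd a hi r := by
  obtain ⟨_, _, h1, h2⟩ := bst_node.1 hb
  refine ⟨(h a (by simp [inorder])).1, (h a (by simp [inorder])).2, ?_, ?_⟩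
  · intro v hv
    exact ⟨(h v (by simp [inorder, hv])).1, h1 v hv⟩
  · intro v hv
    exact ⟨h2 v hv, (h v (by simp [inorder, hv])).2⟩

theorem mem_node {v a : ℕ} {l r : BinaryTree ℕ} :
    v ∈ inorder (.node a l r) ↔ v ∈ inorder l ∨ v = a ∨ v ∈ inorder r := by
  simp [inorder]

/-- The ends of the subtree interval of a node of the tree. -/
theorem ends {v : ℕ} : ∀ {t : BinaryTree ℕ} {lo hi : ℕ}, IsBST t → Bd lo hi t → v ∈ inorder t →
    lo ≤ lm v t lo ∧ lm v t lo < v ∧ v < rh v t hi ∧ rh v t hi ≤ hi ∧
      (lm v t lo = lo ∨ lm v t lo ∈ inorder t) ∧ (rh v t hi = hi ∨ rh v t hi ∈ inorder t)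
  | .nil, _, _, _, _, h => by simp [inorder] at h
  | .node a l r, lo, hi, hb, hB, h => by
      obtain ⟨h1, h2, h3, h4⟩ := bst_node.1 hb
      obtain ⟨b1, b2, b3, b4⟩ := bd_node hb hB
      rcases mem_node.1 h with h | h | h
      · obtain ⟨c1, c2, c3, c4, c5, c6⟩ := ends h1 b3 h
        rw [lm_lt (h3 v h), rh_lt (h3 v h)]
        refine ⟨c1, c2, c3, by omega, ?_, ?_⟩
        · rcases c5 with c | c
          · exact Or.inl c
          · exact Or.inr (mem_node.2 (Or.inl c))
        · rcases c6 with c | c
          · exact Or.inr (mem_node.2 (Or.inr (Or.inl c)))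
          · exact Or.inr (mem_node.2 (Or.inl c))
      · subst h
        rw [lm_self, rh_self]
        exact ⟨le_rfl, b1, b2, le_rfl, Or.inl rfl, Or.inl rfl⟩
      · obtain ⟨c1, c2, c3, c4, c5, c6⟩ := ends h2 b4 h
        rw [lm_gt (h4 v h), rh_gt (h4 v h)]
        refine ⟨by omega, c2, c3, by omega, ?_, ?_⟩
        · rcases c5 with c | c
          · exact Or.inr (mem_node.2 (Or.inr (Or.inl c)))
          · exact Or.inr (mem_node.2 (Or.inr (Or.inr c)))
        · rcases c6 with c | c
          · exact Or.inl c
          · exact Or.inr (mem_node.2 (Or.inr (Or.inr c)))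

/-- Subtree intervals are laminar. -/
theorem laminar {u v : ℕ} (huv : u < v) : ∀ {t : BinaryTree ℕ} {lo hi : ℕ}, IsBST t →
    Bd lo hi t → u ∈ inorder t → v ∈ inorder t →
    (v < rh u t hi ∧ u ≤ lm v t lo ∧ rh v t hi ≤ rh u t hi) ∨
      (lm v t lo < u ∧ rh u t hi ≤ v ∧ lm v t lo ≤ lm u t lo) ∨ rh u t hi ≤ lm v t lo
  | .nil, _, _, _, _, h, _ => by simp [inorder] at h
  | .node a l r, lo, hi, hb, hB, hu, hv => by
      obtain ⟨h1, h2, h3, h4⟩ := bst_node.1 hb
      obtain ⟨b1, b2, b3, b4⟩ := bd_node hb hB
      rcases mem_node.1 hu with hu1 | hu | hu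
      · have e1 := h3 u hu1
        rcases mem_node.1 hv with hv | hv | hv
        · have e2 := h3 v hv
          rw [lm_lt e1, lm_lt e2, rh_lt e1, rh_lt e2]
          exact laminar huv h1 b3 hu1 hv
        · subst hv
          obtain ⟨c1, c2, c3, c4, c5, c6⟩ := ends h1 b3 hu1
          rw [lm_self, rh_self, rh_lt e1, lm_lt e1]
          right; left
          exact ⟨by omega, by omega, by omega⟩
        · have e2 := h4 v hv
          obtain ⟨c1, c2, c3, c4, c5, c6⟩ := ends h1 b3 hu1
          obtain ⟨d1, d2, d3, d4, d5, d6⟩ := ends h2 b4 hv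
          rw [rh_lt e1, lm_gt e2]
          right; right
          omega
      · subst hu
        rcases mem_node.1 hv with hv | hv | hv
        · have e2 := h3 v hv
          omega
        · omega
        · have e2 := h4 v hv
          obtain ⟨d1, d2, d3, d4, d5, d6⟩ := ends h2 b4 hv
          rw [rh_self, lm_gt e2, rh_gt e2]
          left
          exact ⟨by omega, by omega, by omega⟩
      · have e1 := h4 u hu
        rcases mem_node.1 hv with hv | hv | hv
        · have e2 := h3 v hv
          omega
        · omega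
        · have e2 := h4 v hv
          rw [lm_gt e1, lm_gt e2, rh_gt e1, rh_gt e2]
          exact laminar huv h2 b4 hu hv

/-- `lm v` is an ancestor of `v`. -/
theorem lm_anc {v : ℕ} : ∀ {t : BinaryTree ℕ} {lo hi : ℕ}, IsBST t → Bd lo hi t →
    v ∈ inorder t → lm v t lo ≠ lo → v < rh (lm v t lo) t hi
  | .nil, _, _, _, _, h, _ => by simp [inorder] at h
  | .node a l r, lo, hi, hb, hB, hv, hne => by
      obtain ⟨h1, h2, h3, h4⟩ := bst_node.1 hb
      obtain ⟨b1, b2, b3, b4⟩ := bd_node hb hB
      rcases mem_node.1 hv with hv | hv | hv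
      · have e := h3 v hv
        rw [lm_lt e] at hne ⊢
        obtain ⟨c1, c2, c3, c4, c5, c6⟩ := ends h1 b3 hv
        rw [rh_lt (show lm v l lo < a by omega)]
        exact lm_anc h1 b3 hv hne
      · subst hv
        rw [lm_self] at hne
        exact absurd rfl hne
      · have e := h4 v hv
        rw [lm_gt e] at hne ⊢
        obtain ⟨c1, c2, c3, c4, c5, c6⟩ := ends h2 b4 hv
        by_cases h : lm v r a = a
        · rw [h, rh_self]
          omega
        · rw [rh_gt (show a < lm v r a by omega)]
          exact lm_anc h2 b4 hv h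

/-- `rh v` is an ancestor of `v`. -/
theorem rh_anc {v : ℕ} : ∀ {t : BinaryTree ℕ} {lo hi : ℕ}, IsBST t → Bd lo hi t →
    v ∈ inorder t → rh v t hi ≠ hi → lm (rh v t hi) t lo < v
  | .nil, _, _, _, _, h, _ => by simp [inorder] at h
  | .node a l r, lo, hi, hb, hB, hv, hne => by
      obtain ⟨h1, h2, h3, h4⟩ := bst_node.1 hb
      obtain ⟨b1, b2, b3, b4⟩ := bd_node hb hB
      rcases mem_node.1 hv with hv | hv | hv
      · have e := h3 v hv
        rw [rh_lt e] at hne ⊢
        obtain ⟨c1, c2, c3, c4, c5, c6⟩ := ends h1 b3 hv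
        by_cases h : rh v l a = a
        · rw [h, lm_self]
          omega
        · rw [lm_lt (show rh v l a < a by omega)]
          exact rh_anc h1 b3 hv h
      · subst hv
        rw [rh_self] at hne
        exact absurd rfl hne
      · have e := h4 v hv
        rw [rh_gt e] at hne ⊢
        obtain ⟨c1, c2, c3, c4, c5, c6⟩ := ends h2 b4 hv
        rw [lm_gt (show a < rh v r hi by omega)]
        exact rh_anc h2 b4 hv hne

/-! ## One splay -/

theorem ev_mem {x : ℕ} {t A B : BinaryTree ℕ} (h : Ev x t A B) : x ∈ inorder t := by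
  induction h with
  | base A B => simp [inorder]
  | ll h1 h2 h3 ih => simp [inorder, ih]
  | lr h1 h2 h3 ih => simp [inorder, ih]
  | rr h1 h2 h3 ih => simp [inorder, ih]
  | rl h1 h2 h3 ih => simp [inorder, ih]

theorem ev_R {x : ℕ} {t A B : BinaryTree ℕ} (h : Ev x t A B) : IsBST t → ∀ lo hi, Bd lo hi t →
    ∀ v ∈ inorder t, x < v →
      RF (fun w => w ∈ inorder t) x (fun w => lm w t lo) (fun w => rh w t hi) (fun w => lm w B x)
        (fun w => rh w B hi) v := by
  induction h with
  | base A B =>
    intro hb lo hi hB v hv hx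
    obtain ⟨h1, h2, h3, h4⟩ := bst_node.1 hb
    obtain ⟨b1, b2, b3, b4⟩ := bd_node hb hB
    rcases mem_node.1 hv with hv | hv | hv
    · have := h3 v hv
      omega
    · omega
    · left
      simp only
      rw [lm_gt hx, rh_gt hx]
      obtain ⟨c1, c2, c3, c4, c5, c6⟩ := ends h2 b4 hv
      exact ⟨c1, rfl, rfl⟩
  | @ll p g L C D A B h1 h2 h3 ih =>
    intro hb lo hi hB v hv hx
    obtain ⟨a1, a2, a3, a4⟩ := bst_node.1 hb
    obtain ⟨b1, b2, b3, b4⟩ := bd_node hb hB
    obtain ⟨c1, c2, c3, c4⟩ := bst_node.1 a1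
    obtain ⟨d1, d2, d3, d4⟩ := bd_node a1 b3
    have hpg : p < g := a3 p (by simp [inorder])
    rcases mem_node.1 hv with hv | hv | hv
    · rcases mem_node.1 hv with hv | hv | hv
      · have e1 := c3 v hv
        obtain ⟨f1, f2, f3, f4, f5, f6⟩ := ends c1 d3 hv
        refine (ih c1 lo p d3 v hv hx).mono ?_ hv ?_ ?_ ?_ ?_ hx f3
        · intro w hw
          simp [inorder, hw]
        · intro w hw
          have := c3 w hw
          rw [lm_lt (by omega), lm_lt (by omega)]
        · intro w hw
          have := c3 w hw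
          rw [rh_lt (by omega), rh_lt (by omega)]
        · intro w hw hxw
          have := c3 w hw
          rw [lm_lt (by omega)]
        · intro w hw hxw
          have := c3 w hw
          rw [rh_lt (by omega)]
      · subst hv
        right; left
        simp only
        rw [lm_lt hpg, rh_lt hpg, lm_self, rh_self, lm_self, rh_self]
        refine ⟨?_, rfl, Or.inr ⟨by simp [inorder], ?_, ?_, ?_, ?_⟩⟩
        · have := ev_mem h3
          exact (d3 x this).1
        · rw [lm_self]
        · rw [lm_gt hpg, lm_self]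
        · rw [rh_gt hpg, rh_self, rh_self]
        · rw [rh_self]
      · have e1 := c4 v hv
        have e2 : v < g := a3 v (by simp [inorder, hv])
        obtain ⟨f1, f2, f3, f4, f5, f6⟩ := ends c2 d4 hv
        left
        simp only
        rw [lm_lt e2, rh_lt e2, lm_gt e1, rh_gt e1, lm_gt e1, rh_gt e1, lm_lt e2, rh_lt e2]
        exact ⟨by omega, rfl, rfl⟩
    · subst hv
      right; right
      refine ⟨?_, p, by simp [inorder], h1, hpg, ?_, ?_, ?_, ?_, ?_, ?_⟩
      · simp only
        rw [lm_self]
        have := ev_mem h3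
        exact (d3 x this).1
      · simp only
        rw [lm_gt hpg, lm_self]
      · simp only
        rw [rh_gt hpg, rh_self, rh_self]
      · simp only
        rw [lm_self, lm_lt hpg, lm_self]
      · simp only
        rw [rh_lt hpg, rh_self]
      · simp only
        rw [lm_self]
      · simp only
        rw [rh_self, rh_self]
    · have e1 := a4 v hv
      obtain ⟨f1, f2, f3, f4, f5, f6⟩ := ends a2 b4 hv
      left
      simp only
      rw [lm_gt e1, rh_gt e1, lm_gt (by omega), rh_gt (by omega), lm_gt e1, rh_gt e1]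
      exact ⟨by omega, rfl, rfl⟩
  | @lr p g R C D A B h1 h2 h3 ih =>
    intro hb lo hi hB v hv hx
    obtain ⟨a1, a2, a3, a4⟩ := bst_node.1 hb
    obtain ⟨b1, b2, b3, b4⟩ := bd_node hb hB
    obtain ⟨c1, c2, c3, c4⟩ := bst_node.1 a1
    obtain ⟨d1, d2, d3, d4⟩ := bd_node a1 b3
    have hpg : p < g := a3 p (by simp [inorder])
    rcases mem_node.1 hv with hv | hv | hv
    · rcases mem_node.1 hv with hv | hv | hv
      · have e1 := c3 v hv
        omega
      · omega
      · have e1 := c4 v hv
        obtain ⟨f1, f2, f3, f4, f5, f6⟩ := ends c2 d4 hv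
        refine (ih c2 p g d4 v hv hx).mono ?_ hv ?_ ?_ ?_ ?_ hx f3
        · intro w hw
          simp [inorder, hw]
        · intro w hw
          have := c4 w hw
          have := d4 w hw
          rw [lm_lt (by omega), lm_gt (by omega)]
        · intro w hw
          have := c4 w hw
          have := d4 w hw
          rw [rh_lt (by omega), rh_gt (by omega)]
        · intro w hw hxw
          have := d4 w hw
          rw [lm_lt (by omega)]
        · intro w hw hxw
          have := d4 w hw
          rw [rh_lt (by omega)]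
    · subst hv
      right; left
      simp only
      rw [lm_self, rh_self, lm_self, rh_self]
      have := ev_mem h3
      have := d4 x this
      exact ⟨by omega, rfl, Or.inl rfl⟩
    · have e1 := a4 v hv
      obtain ⟨f1, f2, f3, f4, f5, f6⟩ := ends a2 b4 hv
      left
      simp only
      rw [lm_gt e1, rh_gt e1, lm_gt e1, rh_gt e1]
      exact ⟨by omega, rfl, rfl⟩
  | @rr p g R C D A B h1 h2 h3 ih =>
    intro hb lo hi hB v hv hx
    obtain ⟨a1, a2, a3, a4⟩ := bst_node.1 hb
    obtain ⟨b1, b2, b3, b4⟩ := bd_node hb hB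
    obtain ⟨c1, c2, c3, c4⟩ := bst_node.1 a2
    obtain ⟨d1, d2, d3, d4⟩ := bd_node a2 b4
    have hpg : g < p := a4 p (by simp [inorder])
    rcases mem_node.1 hv with hv | hv | hv
    · have e1 := a3 v hv
      omega
    · omega
    · rcases mem_node.1 hv with hv | hv | hv
      · have e1 := c3 v hv
        omega
      · omega
      · have e1 := c4 v hv
        obtain ⟨f1, f2, f3, f4, f5, f6⟩ := ends c2 d4 hv
        refine (ih c2 p hi d4 v hv hx).mono ?_ hv ?_ ?_ ?_ ?_ hx f3
        · intro w hw
          simp [inorder, hw]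
        · intro w hw
          have := c4 w hw
          rw [lm_gt (by omega), lm_gt (by omega)]
        · intro w hw
          have := c4 w hw
          rw [rh_gt (by omega), rh_gt (by omega)]
        · intro w hw hxw
          rfl
        · intro w hw hxw
          rfl
  | @rl p g L C D A B h1 h2 h3 ih =>
    intro hb lo hi hB v hv hx
    obtain ⟨a1, a2, a3, a4⟩ := bst_node.1 hb
    obtain ⟨b1, b2, b3, b4⟩ := bd_node hb hB
    obtain ⟨c1, c2, c3, c4⟩ := bst_node.1 a2
    obtain ⟨d1, d2, d3, d4⟩ := bd_node a2 b4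
    have hpg : g < p := a4 p (by simp [inorder])
    rcases mem_node.1 hv with hv | hv | hv
    · have e1 := a3 v hv
      omega
    · omega
    · rcases mem_node.1 hv with hv | hv | hv
      · have e1 := c3 v hv
        obtain ⟨f1, f2, f3, f4, f5, f6⟩ := ends c1 d3 hv
        refine (ih c1 g p d3 v hv hx).mono ?_ hv ?_ ?_ ?_ ?_ hx f3
        · intro w hw
          simp [inorder, hw]
        · intro w hw
          have := c3 w hw
          have := d3 w hw
          rw [lm_gt (by omega), lm_lt (by omega)]
        · intro w hw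
          have := c3 w hw
          have := d3 w hw
          rw [rh_gt (by omega), rh_lt (by omega)]
        · intro w hw hxw
          have := c3 w hw
          rw [lm_lt (by omega)]
        · intro w hw hxw
          have := c3 w hw
          rw [rh_lt (by omega)]
      · subst hv
        right; left
        simp only
        rw [lm_gt hpg, rh_gt hpg, lm_self, rh_self, lm_self, rh_self]
        have := ev_mem h3
        have := d3 x this
        exact ⟨by omega, rfl, Or.inl rfl⟩
      · have e1 := c4 v hv
        obtain ⟨f1, f2, f3, f4, f5, f6⟩ := ends c2 d4 hv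
        left
        simp only
        rw [lm_gt (show g < v by omega), rh_gt (show g < v by omega), lm_gt e1, rh_gt e1,
          lm_gt e1, rh_gt e1]
        exact ⟨by omega, rfl, rfl⟩

theorem ev_L {x : ℕ} {t A B : BinaryTree ℕ} (h : Ev x t A B) : IsBST t → ∀ lo hi, Bd lo hi t →
    ∀ v ∈ inorder t, v < x →
      LF (fun w => w ∈ inorder t) x (fun w => lm w t lo) (fun w => rh w t hi) (fun w => lm w A lo)
        (fun w => rh w A x) v := by
  induction h with
  | base A B =>
    intro hb lo hi hB v hv hx
    obtain ⟨h1, h2, h3, h4⟩ := bst_node.1 hb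
    obtain ⟨b1, b2, b3, b4⟩ := bd_node hb hB
    rcases mem_node.1 hv with hv | hv | hv
    · left
      simp only
      rw [lm_lt hx, rh_lt hx]
      obtain ⟨c1, c2, c3, c4, c5, c6⟩ := ends h1 b3 hv
      exact ⟨c4, rfl, rfl⟩
    · omega
    · have := h4 v hv
      omega
  | @ll p g L C D A B h1 h2 h3 ih =>
    intro hb lo hi hB v hv hx
    obtain ⟨a1, a2, a3, a4⟩ := bst_node.1 hb
    obtain ⟨b1, b2, b3, b4⟩ := bd_node hb hB
    obtain ⟨c1, c2, c3, c4⟩ := bst_node.1 a1
    obtain ⟨d1, d2, d3, d4⟩ := bd_node a1 b3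
    have hpg : p < g := a3 p (by simp [inorder])
    rcases mem_node.1 hv with hv | hv | hv
    · rcases mem_node.1 hv with hv | hv | hv
      · have e1 := c3 v hv
        obtain ⟨f1, f2, f3, f4, f5, f6⟩ := ends c1 d3 hv
        refine (ih c1 lo p d3 v hv hx).mono ?_ hv ?_ ?_ ?_ ?_ hx f2
        · intro w hw
          simp [inorder, hw]
        · intro w hw
          have := c3 w hw
          rw [lm_lt (by omega), lm_lt (by omega)]
        · intro w hw
          have := c3 w hw
          rw [rh_lt (by omega), rh_lt (by omega)]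
        · intro w hw hxw
          rfl
        · intro w hw hxw
          rfl
      · omega
      · have e1 := c4 v hv
        omega
    · omega
    · have e1 := a4 v hv
      omega
  | @lr p g R C D A B h1 h2 h3 ih =>
    intro hb lo hi hB v hv hx
    obtain ⟨a1, a2, a3, a4⟩ := bst_node.1 hb
    obtain ⟨b1, b2, b3, b4⟩ := bd_node hb hB
    obtain ⟨c1, c2, c3, c4⟩ := bst_node.1 a1
    obtain ⟨d1, d2, d3, d4⟩ := bd_node a1 b3
    have hpg : p < g := a3 p (by simp [inorder])
    rcases mem_node.1 hv with hv | hv | hv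
    · rcases mem_node.1 hv with hv | hv | hv
      · have e1 := c3 v hv
        obtain ⟨f1, f2, f3, f4, f5, f6⟩ := ends c1 d3 hv
        left
        simp only
        rw [lm_lt (show v < g by omega), rh_lt (show v < g by omega), lm_lt e1, rh_lt e1,
          lm_lt e1, rh_lt e1]
        exact ⟨by omega, rfl, rfl⟩
      · subst hv
        right; left
        simp only
        rw [lm_lt hpg, rh_lt hpg, lm_self, rh_self, lm_self, rh_self]
        have := ev_mem h3
        have := d4 x this
        exact ⟨by omega, rfl, Or.inl rfl⟩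
      · have e1 := c4 v hv
        obtain ⟨f1, f2, f3, f4, f5, f6⟩ := ends c2 d4 hv
        refine (ih c2 p g d4 v hv hx).mono ?_ hv ?_ ?_ ?_ ?_ hx f2
        · intro w hw
          simp [inorder, hw]
        · intro w hw
          have := c4 w hw
          have := d4 w hw
          rw [lm_lt (by omega), lm_gt (by omega)]
        · intro w hw
          have := c4 w hw
          have := d4 w hw
          rw [rh_lt (by omega), rh_gt (by omega)]
        · intro w hw hxw
          have := d4 w hw
          rw [lm_gt (by omega)]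
        · intro w hw hxw
          have := d4 w hw
          rw [rh_gt (by omega)]
    · omega
    · have e1 := a4 v hv
      omega
  | @rr p g R C D A B h1 h2 h3 ih =>
    intro hb lo hi hB v hv hx
    obtain ⟨a1, a2, a3, a4⟩ := bst_node.1 hb
    obtain ⟨b1, b2, b3, b4⟩ := bd_node hb hB
    obtain ⟨c1, c2, c3, c4⟩ := bst_node.1 a2
    obtain ⟨d1, d2, d3, d4⟩ := bd_node a2 b4
    have hpg : g < p := a4 p (by simp [inorder])
    rcases mem_node.1 hv with hv | hv | hv
    · have e1 := a3 v hv
      obtain ⟨f1, f2, f3, f4, f5, f6⟩ := ends a1 b3 hv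
      left
      simp only
      rw [lm_lt e1, rh_lt e1, lm_lt (show v < p by omega), rh_lt (show v < p by omega),
        lm_lt e1, rh_lt e1]
      exact ⟨by omega, rfl, rfl⟩
    · subst hv
      right; right
      refine ⟨?_, p, by simp [inorder], h1, hpg, ?_, ?_, ?_, ?_, ?_, ?_⟩
      · simp only
        rw [rh_self]
        have := ev_mem h3
        exact (d4 x this).2
      · simp only
        rw [rh_lt hpg, rh_self]
      · simp only
        rw [lm_lt hpg, lm_self, lm_self]
      · simp only
        rw [rh_self, rh_gt hpg, rh_self]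
      · simp only
        rw [lm_gt hpg, lm_self]
      · simp only
        rw [rh_self]
      · simp only
        rw [lm_self, lm_self]
    · rcases mem_node.1 hv with hv | hv | hv
      · have e1 := c3 v hv
        have e2 : g < v := a4 v (by simp [inorder, hv])
        obtain ⟨f1, f2, f3, f4, f5, f6⟩ := ends c1 d3 hv
        left
        simp only
        rw [lm_gt e2, rh_gt e2, lm_lt e1, rh_lt e1, lm_lt e1, rh_lt e1, lm_gt e2, rh_gt e2]
        exact ⟨by omega, rfl, rfl⟩
      · subst hv
        right; left
        simp only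
        rw [lm_gt hpg, rh_gt hpg, lm_self, rh_self, lm_self, rh_self]
        refine ⟨?_, rfl, Or.inr ⟨by simp [inorder], ?_, ?_, ?_, ?_⟩⟩
        · have := ev_mem h3
          exact (d4 x this).2
        · rw [rh_self]
        · rw [rh_lt hpg, rh_self]
        · rw [lm_lt hpg, lm_self, lm_self]
        · rw [lm_self]
      · have e1 := c4 v hv
        obtain ⟨f1, f2, f3, f4, f5, f6⟩ := ends c2 d4 hv
        refine (ih c2 p hi d4 v hv hx).mono ?_ hv ?_ ?_ ?_ ?_ hx f2
        · intro w hw
          simp [inorder, hw]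
        · intro w hw
          have := c4 w hw
          rw [lm_gt (by omega), lm_gt (by omega)]
        · intro w hw
          have := c4 w hw
          rw [rh_gt (by omega), rh_gt (by omega)]
        · intro w hw hxw
          have := c4 w hw
          rw [lm_gt (by omega)]
        · intro w hw hxw
          have := c4 w hw
          rw [rh_gt (by omega)]
  | @rl p g L C D A B h1 h2 h3 ih =>
    intro hb lo hi hB v hv hx
    obtain ⟨a1, a2, a3, a4⟩ := bst_node.1 hb
    obtain ⟨b1, b2, b3, b4⟩ := bd_node hb hB
    obtain ⟨c1, c2, c3, c4⟩ := bst_node.1 a2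
    obtain ⟨d1, d2, d3, d4⟩ := bd_node a2 b4
    have hpg : g < p := a4 p (by simp [inorder])
    rcases mem_node.1 hv with hv | hv | hv
    · have e1 := a3 v hv
      obtain ⟨f1, f2, f3, f4, f5, f6⟩ := ends a1 b3 hv
      left
      simp only
      rw [lm_lt e1, rh_lt e1, lm_lt e1, rh_lt e1]
      exact ⟨by omega, rfl, rfl⟩
    · subst hv
      right; left
      simp only
      rw [lm_self, rh_self, lm_self, rh_self]
      have := ev_mem h3
      have := d3 x this
      exact ⟨by omega, rfl, Or.inl rfl⟩
    · rcases mem_node.1 hv with hv | hv | hv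
      · have e1 := c3 v hv
        obtain ⟨f1, f2, f3, f4, f5, f6⟩ := ends c1 d3 hv
        refine (ih c1 g p d3 v hv hx).mono ?_ hv ?_ ?_ ?_ ?_ hx f2
        · intro w hw
          simp [inorder, hw]
        · intro w hw
          have := c3 w hw
          have := d3 w hw
          rw [lm_gt (by omega), lm_lt (by omega)]
        · intro w hw
          have := c3 w hw
          have := d3 w hw
          rw [rh_gt (by omega), rh_lt (by omega)]
        · intro w hw hxw
          have := d3 w hw
          rw [lm_gt (by omega)]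
        · intro w hw hxw
          have := d3 w hw
          rw [rh_gt (by omega)]
      · omega
      · have e1 := c4 v hv
        omega

theorem spl_R {x : ℕ} {t A B : BinaryTree ℕ} (h : Spl x t A B) (hb : IsBST t) {lo hi : ℕ}
    (hB : Bd lo hi t) {v : ℕ} (hv : v ∈ inorder t) (hx : x < v) :
    RF (fun w => w ∈ inorder t) x (fun w => lm w t lo) (fun w => rh w t hi) (fun w => lm w B x)
        (fun w => rh w B hi) v := by
  cases h with
  | ev h => exact ev_R h hb lo hi hB v hv hx
  | @zl g L D A B h1 h2 =>
    obtain ⟨a1, a2, a3, a4⟩ := bst_node.1 hb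
    obtain ⟨b1, b2, b3, b4⟩ := bd_node hb hB
    rcases mem_node.1 hv with hv | hv | hv
    · have e1 := a3 v hv
      obtain ⟨f1, f2, f3, f4, f5, f6⟩ := ends a1 b3 hv
      refine (ev_R h2 a1 lo g b3 v hv hx).mono ?_ hv ?_ ?_ ?_ ?_ hx f3
      · intro w hw
        simp [inorder, hw]
      · intro w hw
        have := a3 w hw
        rw [lm_lt (by omega)]
      · intro w hw
        have := a3 w hw
        rw [rh_lt (by omega)]
      · intro w hw hxw
        have := a3 w hw
        rw [lm_lt (by omega)]
      · intro w hw hxw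
        have := a3 w hw
        rw [rh_lt (by omega)]
    · subst hv
      right; left
      simp only
      rw [lm_self, rh_self, lm_self, rh_self]
      have := ev_mem h2
      have := b3 x this
      exact ⟨by omega, rfl, Or.inl rfl⟩
    · have e1 := a4 v hv
      obtain ⟨f1, f2, f3, f4, f5, f6⟩ := ends a2 b4 hv
      left
      simp only
      rw [lm_gt e1, rh_gt e1, lm_gt e1, rh_gt e1]
      exact ⟨by omega, rfl, rfl⟩
  | @zr g R D A B h1 h2 =>
    obtain ⟨a1, a2, a3, a4⟩ := bst_node.1 hb
    obtain ⟨b1, b2, b3, b4⟩ := bd_node hb hB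
    rcases mem_node.1 hv with hv | hv | hv
    · have e1 := a3 v hv
      omega
    · omega
    · have e1 := a4 v hv
      obtain ⟨f1, f2, f3, f4, f5, f6⟩ := ends a2 b4 hv
      refine (ev_R h2 a2 g hi b4 v hv hx).mono ?_ hv ?_ ?_ ?_ ?_ hx f3
      · intro w hw
        simp [inorder, hw]
      · intro w hw
        have := a4 w hw
        rw [lm_gt (by omega)]
      · intro w hw
        have := a4 w hw
        rw [rh_gt (by omega)]
      · intro w hw hxw
        rfl
      · intro w hw hxw
        rfl

theorem spl_L {x : ℕ} {t A B : BinaryTree ℕ} (h : Spl x t A B) (hb : IsBST t) {lo hi : ℕ}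
    (hB : Bd lo hi t) {v : ℕ} (hv : v ∈ inorder t) (hx : v < x) :
    LF (fun w => w ∈ inorder t) x (fun w => lm w t lo) (fun w => rh w t hi) (fun w => lm w A lo)
        (fun w => rh w A x) v := by
  cases h with
  | ev h => exact ev_L h hb lo hi hB v hv hx
  | @zl g L D A B h1 h2 =>
    obtain ⟨a1, a2, a3, a4⟩ := bst_node.1 hb
    obtain ⟨b1, b2, b3, b4⟩ := bd_node hb hB
    rcases mem_node.1 hv with hv | hv | hv
    · have e1 := a3 v hv
      obtain ⟨f1, f2, f3, f4, f5, f6⟩ := ends a1 b3 hv
      refine (ev_L h2 a1 lo g b3 v hv hx).mono ?_ hv ?_ ?_ ?_ ?_ hx f2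
      · intro w hw
        simp [inorder, hw]
      · intro w hw
        have := a3 w hw
        rw [lm_lt (by omega)]
      · intro w hw
        have := a3 w hw
        rw [rh_lt (by omega)]
      · intro w hw hxw
        rfl
      · intro w hw hxw
        rfl
    · omega
    · have e1 := a4 v hv
      omega
  | @zr g R D A B h1 h2 =>
    obtain ⟨a1, a2, a3, a4⟩ := bst_node.1 hb
    obtain ⟨b1, b2, b3, b4⟩ := bd_node hb hB
    rcases mem_node.1 hv with hv | hv | hv
    · have e1 := a3 v hv
      obtain ⟨f1, f2, f3, f4, f5, f6⟩ := ends a1 b3 hv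
      left
      simp only
      rw [lm_lt e1, rh_lt e1, lm_lt e1, rh_lt e1]
      exact ⟨by omega, rfl, rfl⟩
    · subst hv
      right; left
      simp only
      rw [lm_self, rh_self, lm_self, rh_self]
      have := ev_mem h2
      have := b4 x this
      exact ⟨by omega, rfl, Or.inl rfl⟩
    · have e1 := a4 v hv
      obtain ⟨f1, f2, f3, f4, f5, f6⟩ := ends a2 b4 hv
      refine (ev_L h2 a2 g hi b4 v hv hx).mono ?_ hv ?_ ?_ ?_ ?_ hx f2
      · intro w hw
        simp [inorder, hw]
      · intro w hw
        have := a4 w hw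
        rw [lm_gt (by omega)]
      · intro w hw
        have := a4 w hw
        rw [rh_gt (by omega)]
      · intro w hw hxw
        have := a4 w hw
        rw [lm_gt (by omega)]
      · intro w hw hxw
        have := a4 w hw
        rw [rh_gt (by omega)]

/-- **The right side of a splay.** -/
theorem splay_R {x : ℕ} {t : BinaryTree ℕ} (hb : IsBST t) (hm : x ∈ inorder t) {lo hi : ℕ}
    (hB : Bd lo hi t) {v : ℕ} (hv : v ∈ inorder t) (hx : x < v) :
    RF (fun w => w ∈ inorder t) x (fun w => lm w t lo) (fun w => rh w t hi) (fun w => lm w (splay x t) lo)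
        (fun w => rh w (splay x t) hi) v := by
  obtain ⟨A, B, h1, h2⟩ := spl_exists hb hm
  rw [h2]
  obtain ⟨f1, f2, f3, f4, f5, f6⟩ := ends hb hB hv
  refine (spl_R h1 hb hB hv hx).mono (fun w hw => hw) hv (fun w _ => rfl) (fun w _ => rfl) ?_ ?_
    hx f3
  · intro w hw hxw
    rw [lm_gt hxw]
  · intro w hw hxw
    rw [rh_gt hxw]

/-- **The left side of a splay.** -/
theorem splay_L {x : ℕ} {t : BinaryTree ℕ} (hb : IsBST t) (hm : x ∈ inorder t) {lo hi : ℕ}
    (hB : Bd lo hi t) {v : ℕ} (hv : v ∈ inorder t) (hx : v < x) :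
    LF (fun w => w ∈ inorder t) x (fun w => lm w t lo) (fun w => rh w t hi) (fun w => lm w (splay x t) lo)
        (fun w => rh w (splay x t) hi) v := by
  obtain ⟨A, B, h1, h2⟩ := spl_exists hb hm
  rw [h2]
  obtain ⟨f1, f2, f3, f4, f5, f6⟩ := ends hb hB hv
  refine (spl_L h1 hb hB hv hx).mono (fun w hw => hw) hv (fun w _ => rfl) (fun w _ => rfl) ?_ ?_
    hx f2
  · intro w hw hxw
    rw [lm_lt hxw]
  · intro w hw hxw
    rw [rh_lt hxw]

/-- The splayed key becomes the root. -/
theorem splay_X {x : ℕ} {t : BinaryTree ℕ} (hb : IsBST t) (hm : x ∈ inorder t) (lo hi : ℕ) :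
    lm x (splay x t) lo = lo ∧ rh x (splay x t) hi = hi := by
  obtain ⟨A, B, h1, h2⟩ := spl_exists hb hm
  rw [h2, lm_self, rh_self]
  exact ⟨rfl, rfl⟩

end Pool.Agent.SplLog
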