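import Pool.Agent.SplLog.Dirs
import Pool.Agent.SplLog.Item

set_option autoImplicit false

/-!
# Nodes which change their direction: definitions
-/

namespace Pool.Agent.SplLog

namespace Sys

variable (S : Sys)

/-- A turned chain node: `v` is touched on the left side at time `t`, its last event before was a
touch on the right side at which it was kept. -/
def TK (t v : ℕ) : Prop := S.L t v ∧ ∃ s, s < t ∧ S.Kp s v ∧ S.NE v (s + 1) t

/-- An opposite-side single: `v` is touched on the left side at time `t`, its last event before was
at time `a`, where it was killed on the right side by `p`, and `p` was touched since. -/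
def OS (a t v p : ℕ) : Prop :=
  S.L t v ∧ a < t ∧ S.Kl a v p ∧ S.NE v (a + 1) t ∧ ¬ S.NE p (a + 1) t

/-- The record: `X τ` is the largest key `< v` which was requested in `(a, t)`, and `τ` is its last
request before `t`. -/
def Rec (a τ t v : ℕ) : Prop :=
  a < τ ∧ τ < t ∧ S.X τ < v ∧ (∀ s, a < s → s < t → S.X s < v → S.X s ≤ S.X τ) ∧
    ∀ s, τ < s → s < t → S.X s ≠ S.X τ

/-- Type I: no key `> v` was requested in `(τ, t)`. -/
def One (τ t v : ℕ) : Prop := ∀ s, τ < s → s < t → S.X s < v

/-- Type II: `X σ` is the smallest key `> v` which was requested in `(τ, t)`, and `σ` is its last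
request before `t`. -/
def Two (τ σ t v : ℕ) : Prop :=
  τ < σ ∧ σ < t ∧ v < S.X σ ∧ (∀ s, τ < s → s < t → v < S.X s → S.X σ ≤ S.X s) ∧
    ∀ s, σ < s → s < t → S.X s ≠ S.X σ

/-- `v` is an opposite-side single of type I at time `t` with record `y`. -/
def O1 (t v y : ℕ) : Prop := ∃ a p τ, S.OS a t v p ∧ S.Rec a τ t v ∧ S.One τ t v ∧ y = S.X τ

/-- `v` is an opposite-side single of type II at time `t` with upper record `z`. -/
def O2 (t v z : ℕ) : Prop :=
  ∃ a p τ σ, S.OS a t v p ∧ S.Rec a τ t v ∧ S.Two τ σ t v ∧ z = S.X σ

/-- The visible records of type I. -/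
def V1 (t y : ℕ) : Prop := ∃ v, S.O1 t v y

/-- The visible records of type II. -/
def V2 (t z : ℕ) : Prop := ∃ v, S.O2 t v z

/-- A hidden change of direction: an opposite-side single which has another opposite-side single
of the same type and with the same record above it on the search path. -/
def Hd (t v : ℕ) : Prop :=
  (∃ y v', v' < v ∧ S.O1 t v y ∧ S.O1 t v' y) ∨ ∃ z v', v' < v ∧ S.O2 t v z ∧ S.O2 t v' z

/-- the number of hidden changes of direction from the right to the left -/
noncomputable def HL : ℕ := S.cnt S.Hd

end Sys

end Pool.Agent.SplLog
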